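import Mathlib

/-!
Definitions for project UB (problem MP_af71ff_an): a weakly homogeneous operator with a uniformly
bounded homomorphic intertwiner of the Moebius group which is not similar to a homogeneous operator.
-/

namespace Pool.Agent.W268.UB

open MeasureTheory Complex
open scoped ComplexConjugate InnerProductSpace

noncomputable section

/-! ### The circle -/

instance instMeasurableSpaceCircle : MeasurableSpace Circle := borel Circle
instance instBorelSpaceCircle : BorelSpace Circle := ⟨rfl⟩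

/-- normalised arc length of the circle (a probability measure) -/
def mu : Measure Circle :=
  Measure.map Circle.exp
    ((ENNReal.ofReal (2 * Real.pi))⁻¹ • volume.restrict (Set.Ioc 0 (2 * Real.pi)))

/-- the open unit disc (parameters `a`) -/
abbrev Dsc := {a : ℂ // ‖a‖ < 1}

theorem den_ne (a : Dsc) (z : Circle) : (1 - conj a.1 * (z : ℂ)) ≠ 0 := by
  intro h
  have h1 : conj a.1 * (z : ℂ) = 1 := (sub_eq_zero.1 h).symm
  have h2 : ‖conj a.1 * (z : ℂ)‖ = 1 := by rw [h1]; simp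
  rw [norm_mul, RCLike.norm_conj, Circle.norm_coe, mul_one] at h2
  exact absurd h2 (ne_of_lt a.2)

theorem norm_num_eq (a : Dsc) (z : Circle) :
    ‖(z : ℂ) - a.1‖ = ‖1 - conj a.1 * (z : ℂ)‖ := by
  have hz : (z : ℂ) * conj (z : ℂ) = 1 := by
    rw [Complex.mul_conj, Circle.normSq_coe]; simp
  have h : (z : ℂ) - a.1 = (z : ℂ) * conj (1 - conj a.1 * (z : ℂ)) := by
    simp only [map_sub, map_one, map_mul, Complex.conj_conj]
    calc (z : ℂ) - a.1 = z - a.1 * (z * conj (z : ℂ)) := by rw [hz, mul_one]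
      _ = _ := by ring
  rw [h, norm_mul, Circle.norm_coe, one_mul, RCLike.norm_conj]

theorem cont_coe : Continuous fun z : Circle => (z : ℂ) := continuous_subtype_val

/-- the boundary map of the automorphism `z ↦ c (z - a) / (1 - conj a z)` -/
def bm (c : Circle) (a : Dsc) (z : Circle) : Circle where
  val := (c : ℂ) * ((z : ℂ) - a.1) / (1 - conj a.1 * (z : ℂ))
  property := mem_sphere_zero_iff_norm.2 <| by
    rw [norm_div, norm_mul, Circle.norm_coe, one_mul, norm_num_eq,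
      div_self (norm_ne_zero_iff.2 (den_ne a z))]

theorem bm_coe (c : Circle) (a : Dsc) (z : Circle) :
    (bm c a z : ℂ) = (c : ℂ) * ((z : ℂ) - a.1) / (1 - conj a.1 * (z : ℂ)) := rfl

theorem continuous_bm (c : Circle) (a : Dsc) : Continuous (bm c a) := by
  have h : Continuous fun z : Circle => (bm c a z : ℂ) := by
    simp only [bm_coe]
    refine Continuous.div ?_ ?_ (den_ne a)
    · exact continuous_const.mul (cont_coe.sub continuous_const)
    · exact continuous_const.sub (continuous_const.mul cont_coe)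
  exact Topology.IsEmbedding.subtypeVal.continuous_iff.2 h

/-- Poisson kernel = modulus of the derivative of the automorphism on the circle -/
def pk (a : Dsc) (z : Circle) : ℝ := (1 - ‖a.1‖ ^ 2) / ‖1 - conj a.1 * (z : ℂ)‖ ^ 2

theorem pk_pos (a : Dsc) (z : Circle) : 0 < pk a z := by
  have h1 : ‖a.1‖ ^ 2 < 1 := by
    have := a.2
    have h0 := norm_nonneg a.1
    nlinarith
  exact div_pos (by linarith) (pow_pos (norm_pos_iff.2 (den_ne a z)) 2)

theorem continuous_pk (a : Dsc) : Continuous (pk a) := by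
  unfold pk
  refine Continuous.div continuous_const ?_ ?_
  · exact (continuous_const.sub (continuous_const.mul cont_coe)).norm.pow 2
  · intro z
    exact pow_ne_zero 2 (norm_ne_zero_iff.2 (den_ne a z))

/-- `u_a = log |φ'|` -/
def uf (a : Dsc) : C(Circle, ℂ) where
  toFun z := ((Real.log (pk a z) : ℝ) : ℂ)
  continuous_toFun := Complex.continuous_ofReal.comp
    ((continuous_pk a).log (fun z => (pk_pos a z).ne'))

/-- the operator `f ↦ |φ'|^{3/4} f ∘ φ` on continuous functions -/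
def Wf (c : Circle) (a : Dsc) (f : C(Circle, ℂ)) : C(Circle, ℂ) where
  toFun z := ((pk a z ^ (3 / 4 : ℝ) : ℝ) : ℂ) * f (bm c a z)
  continuous_toFun := by
    refine Continuous.mul ?_ (f.continuous.comp (continuous_bm c a))
    exact Complex.continuous_ofReal.comp
      ((continuous_pk a).rpow_const (fun z => Or.inl (pk_pos a z).ne'))

/-- the function `z ↦ z^n` -/
def zn (n : ℤ) : C(Circle, ℂ) where
  toFun z := (z : ℂ) ^ n
  continuous_toFun := by
    have h : (fun z : Circle => (z : ℂ) ^ n) = fun z : Circle => ((z ^ n : Circle) : ℂ) := by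
      funext z
      simp
    rw [h]
    exact cont_coe.comp (continuous_zpow n)

/-- Fourier coefficients -/
def fc (f : C(Circle, ℂ)) (n : ℤ) : ℂ := ∫ z, f z * (z : ℂ) ^ (-n) ∂mu

/-! ### The Hilbert space `ℓ²(ℤ)` -/

abbrev H := lp (fun _ : ℤ => ℂ) 2

/-- orthonormal basis -/
def e (n : ℤ) : H := lp.single 2 n (1 : ℂ)

/-- `ω n ^ 2` are the weights of the complementary series with parameter `3/4` -/
def IsOm (om : ℤ → ℝ) : Prop :=
  (∀ n, 0 < om n) ∧ ∀ n : ℤ, (4 * (n : ℝ) + 3) * om (n + 1) ^ 2 = (4 * (n : ℝ) + 1) * om n ^ 2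

/-- logarithmic derivative of the weights -/
def IsEll (l : ℤ → ℝ) : Prop :=
  ∀ n : ℤ, l (n + 1) - l n = -(2 / (4 * (n : ℝ) + 1)) - 2 / (4 * (n : ℝ) + 3)

/-- the vectors of the orthogonal basis which correspond to `z ↦ z^n` -/
def E (om : ℤ → ℝ) (n : ℤ) : H := ((om n : ℝ) : ℂ) • e n

/-- multiplication by `z` -/
def IsShift (om : ℤ → ℝ) (S : H →L[ℂ] H) : Prop := ∀ n, S (E om n) = E om (n + 1)

/-- the commutator `[L, S]` with `L = diag l` -/
def IsX (om l : ℤ → ℝ) (X : H →L[ℂ] H) : Prop :=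
  ∀ n, X (E om n) = ((l (n + 1) - l n : ℝ) : ℂ) • E om (n + 1)

/-- the map from continuous functions to `ℓ²(ℤ)`, `f ↦ (ω n * fc f n)` -/
def IsJ (om : ℤ → ℝ) (J : C(Circle, ℂ) →L[ℂ] H) : Prop :=
  ∀ (f : C(Circle, ℂ)) (n : ℤ), (J f) n = ((om n : ℝ) : ℂ) * fc f n

/-! ### Two copies -/

abbrev K2 := WithLp 2 (H × H)

def i1 : H →L[ℂ] K2 :=
  ((WithLp.prodContinuousLinearEquiv 2 ℂ H H).symm : (H × H) →L[ℂ] K2) ∘L
    ContinuousLinearMap.inl ℂ H H
def i2 : H →L[ℂ] K2 :=
  ((WithLp.prodContinuousLinearEquiv 2 ℂ H H).symm : (H × H) →L[ℂ] K2) ∘L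
    ContinuousLinearMap.inr ℂ H H
def p1 : K2 →L[ℂ] H :=
  ContinuousLinearMap.fst ℂ H H ∘L ((WithLp.prodContinuousLinearEquiv 2 ℂ H H) : K2 →L[ℂ] (H × H))
def p2 : K2 →L[ℂ] H :=
  ContinuousLinearMap.snd ℂ H H ∘L ((WithLp.prodContinuousLinearEquiv 2 ℂ H H) : K2 →L[ℂ] (H × H))

theorem p1_i1 : p1 ∘L i1 = ContinuousLinearMap.id ℂ H := by ext x; rfl
theorem p2_i2 : p2 ∘L i2 = ContinuousLinearMap.id ℂ H := by ext x; rfl
theorem p1_i2 : p1 ∘L i2 = 0 := by ext x; rfl
theorem p2_i1 : p2 ∘L i1 = 0 := by ext x; rfl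
theorem sum_ip : i1 ∘L p1 + i2 ∘L p2 = ContinuousLinearMap.id ℂ K2 := by
  ext1 x
  show WithLp.toLp 2 (WithLp.fst x, (0 : H)) + WithLp.toLp 2 ((0 : H), WithLp.snd x) = x
  rw [← WithLp.toLp_add]
  simp
  rfl

/-- block operators `[[A, B], [C, D]]` -/
def blk (A B C D : H →L[ℂ] H) : K2 →L[ℂ] K2 :=
  i1 ∘L A ∘L p1 + i1 ∘L B ∘L p2 + i2 ∘L C ∘L p1 + i2 ∘L D ∘L p2

/-- `A = φ(T)` for `φ z = c (z - a) / (1 - conj a z)` -/
def mobT {K : Type*} [NormedAddCommGroup K] [InnerProductSpace ℂ K] (c a : ℂ) (T : K →L[ℂ] K) :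
    K →L[ℂ] K :=
  (c • (T - a • (1 : K →L[ℂ] K))) * Ring.inverse ((1 : K →L[ℂ] K) - conj a • T)

end

end Pool.Agent.W268.UB
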