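import Pool.Agent.W268.UB.Defs

/-!
Statements of the parts of project UB (problem MP_af71ff_an).
-/

namespace Pool.Agent.W268.UB

open MeasureTheory Complex Filter Topology
open scoped ComplexConjugate InnerProductSpace

noncomputable section

/-! ### Part I: algebra of the matrix entries -/

/-- the relation of a matrix with the Moebius map (`a n k` = row `n`, column `k`) -/
def R11 (r : ℂ) (a : ℤ → ℤ → ℂ) : Prop :=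
  ∀ n k, a (n + 1) (k + 1) - r * a n (k + 1) = a n k - r * a (n + 1) k

def S_ALGZ : Prop := ∀ (r : ℝ) (a : ℤ → ℤ → ℂ) (Z : Set ℤ), r ≠ 0 → r ^ 2 ≠ 1 → R11 r a →
  (∀ k, ∃ n, a n k ≠ 0) →
  (∀ k ∈ Z, ∀ n, n ∉ Z → a n k + r * a n (k + 1) = 0) →
  (∀ k, k ∉ Z → ∀ n ∈ Z, a n k - r * a (n + 1) k = 0) →
  (∀ N : ℤ, ∃ n, N ≤ n ∧ n ∉ Z) → (∀ N : ℤ, ∃ n, n ≤ N ∧ n ∉ Z) → Z = ∅

def S_ALGF : Prop := ∀ (r : ℝ) (a : ℤ → ℤ → ℂ) (d : ℤ → ℂ) (s : ℤ → ℝ), r ≠ 0 → r ^ 2 ≠ 1 →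
  R11 r a → (∀ k, ∃ n, a n k ≠ 0) → (∀ n, d n ≠ 0) → (∀ n, s n ≠ 1) →
  (∀ n k, d n * (a n k + r * a n (k + 1)) = d k * (a n k - r * a (n + 1) k)) →
  (∀ n k, ((1 - s n : ℝ) : ℂ) * (a n k + r * a n (k + 1)) =
    ((1 - s k : ℝ) : ℂ) * (a n k - r * s n * a (n + 1) k)) →
  ∀ n, s n * s (n + 1) = 1

def S_ALG : Prop := ∀ (r : ℝ) (a : ℤ → ℤ → ℂ) (d : ℤ → ℂ) (g : ℤ → ℝ), r ≠ 0 → r ^ 2 ≠ 1 →
  R11 r a → (∀ k, ∃ n, a n k ≠ 0) →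
  (∀ N : ℤ, ∃ n, N ≤ n ∧ d n ≠ 0) → (∀ N : ℤ, ∃ n, n ≤ N ∧ d n ≠ 0) →
  (∀ n, 0 < g n) → Tendsto g atTop (𝓝 0) → Tendsto g atBot (𝓝 0) →
  (∀ n k, d n * (a n k + r * a n (k + 1)) = d k * (a n k - r * a (n + 1) k)) →
  (∀ n k, ((1 - g (n + 1) / g n : ℝ) : ℂ) * (a n k + r * a n (k + 1)) =
    ((1 - g (k + 1) / g k : ℝ) : ℂ) * (a n k - r * ((g (n + 1) / g n : ℝ) : ℂ) * a (n + 1) k)) →
  False

/-! ### Part II: weights, shift -/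

def S_OMEX : Prop := (∃ om : ℤ → ℝ, IsOm om) ∧ ∃ l : ℤ → ℝ, IsEll l

/-- bounds for the weights -/
def S_OMR : Prop := ∀ om : ℤ → ℝ, IsOm om →
  (∀ n, om (-n) = om n) ∧
  (∀ m n : ℤ, |m| ≤ |n| → om n ≤ om m) ∧
  (∀ m n : ℤ, 0 < |m| → |m| ≤ |n| → (om m ^ 2 / om n ^ 2) ^ 2 ≤ |(n : ℝ)| / |(m : ℝ)|) ∧
  (∀ m n : ℤ, (om m ^ 2 / om n ^ 2) ^ 2 ≤ 18 * (1 + |(n : ℝ)|) / (1 + |(m : ℝ)|) ∨ |n| < |m|) ∧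
  Tendsto om atTop (𝓝 0) ∧ Tendsto om atBot (𝓝 0)

/-- growth of `l` -/
def S_LX : Prop := ∀ l : ℤ → ℝ, IsEll l →
  Tendsto l atTop atBot ∧ Tendsto l atBot atBot ∧
  (∀ j : ℤ, Tendsto (fun n : ℤ => l (n + j) - l n) atTop (𝓝 0)) ∧
  (∃ C : ℝ, ∀ n, |l (n + 1) - l n| ≤ C)

def S_SEX : Prop := ∀ om l : ℤ → ℝ, IsOm om → IsEll l →
  (∃ S : H →L[ℂ] H, IsShift om S) ∧ ∃ X : H →L[ℂ] H, IsX om l X

/-- the shift is invertible, `1 - b S` is invertible for `|b| < 1`, growth of powers of `S` -/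
def S_SINV : Prop := ∀ (om : ℤ → ℝ) (S : H →L[ℂ] H), IsOm om → IsShift om S →
  IsUnit S ∧ (∀ b : ℂ, ‖b‖ < 1 → IsUnit (1 - b • S)) ∧
  spectrum ℂ S ⊆ Metric.closedBall 0 1 ∧
  ∃ S' : H →L[ℂ] H, S * S' = 1 ∧ S' * S = 1 ∧ (∀ n, S' (E om n) = E om (n - 1)) ∧
    ∀ j : ℕ, ‖S ^ j‖ ^ 4 ≤ 18 * (1 + j) ∧ ‖S' ^ j‖ ^ 4 ≤ 18 * (1 + j)

def S_SPEC : Prop := ∀ (om l : ℤ → ℝ) (S X : H →L[ℂ] H), IsOm om → IsEll l → IsShift om S →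
  IsX om l X → spectrum ℂ (blk S X 0 S) ⊆ Metric.closedBall 0 1

/-! ### Part III: commutants -/

def S_COM : Prop := ∀ (om l : ℤ → ℝ) (S X : H →L[ℂ] H), IsOm om → IsEll l → IsShift om S →
  IsX om l X → ∀ C : K2 →L[ℂ] K2, C * blk S X 0 S = blk S X 0 S * C →
  p2 ∘L C ∘L i1 = 0 ∧ p1 ∘L C ∘L i1 = p2 ∘L C ∘L i2 ∧
  (p1 ∘L C ∘L i1) * S = S * (p1 ∘L C ∘L i1)

def S_SCOM : Prop := ∀ (om : ℤ → ℝ) (S : H →L[ℂ] H), IsOm om → IsShift om S →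
  ∀ F F' : H →L[ℂ] H, F * S = S * F → F' * S = S * F' →
  F * F' = F' * F ∧ ∀ n, (F (e n)) n = (F (e 0)) 0

def S_CPT : Prop := ∀ (om : ℤ → ℝ) (S : H →L[ℂ] H), IsOm om → IsShift om S → ∀ ε > 0,
  ∃ Q : H →L[ℂ] H, IsCompactOperator Q ∧
    ∀ F : H →L[ℂ] H, F * S = S * F → ‖F (e 0) - Q (F (e 0))‖ ≤ ε * ‖F‖

/-- algebra of blocks -/
def S_BLK : Prop :=
  (∀ A B C D A' B' C' D' : H →L[ℂ] H, blk A B C D * blk A' B' C' D' =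
    blk (A * A' + B * C') (A * B' + B * D') (C * A' + D * C') (C * B' + D * D')) ∧
  (∀ A B C D : H →L[ℂ] H, p1 ∘L blk A B C D ∘L i1 = A ∧ p1 ∘L blk A B C D ∘L i2 = B ∧
    p2 ∘L blk A B C D ∘L i1 = C ∧ p2 ∘L blk A B C D ∘L i2 = D) ∧
  (∀ Z : K2 →L[ℂ] K2, Z = blk (p1 ∘L Z ∘L i1) (p1 ∘L Z ∘L i2) (p2 ∘L Z ∘L i1) (p2 ∘L Z ∘L i2)) ∧
  (blk 1 0 0 1 = 1) ∧
  (ContinuousLinearMap.adjoint i1 = p1) ∧ (ContinuousLinearMap.adjoint i2 = p2) ∧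
  (∀ A B : H →L[ℂ] H, IsUnit A → IsUnit (blk A B 0 A)) ∧
  (∀ A B C D : H →L[ℂ] H, ‖blk A B C D‖ ≤ ‖A‖ + ‖B‖ + ‖C‖ + ‖D‖) ∧
  (∀ x : K2, i1 (p1 x) + i2 (p2 x) = x) ∧ (∀ x y : H, i1 x + i2 y = 0 → x = 0 ∧ y = 0)

/-! ### Part IV: Banach limits, eigenvectors -/

def Bd (u : ℕ → ℂ) : Prop := ∃ M : ℝ, ∀ n, ‖u n‖ ≤ M

/-- a Banach limit -/
def IsBL (Lam : (ℕ → ℂ) → ℂ) : Prop :=
  (∀ u v, Bd u → Bd v → Lam (fun n => u n + v n) = Lam u + Lam v) ∧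
  (∀ (c : ℂ) (u), Bd u → Lam (fun n => c * u n) = c * Lam u) ∧
  (∀ (M : ℝ) (u : ℕ → ℂ), (∀ n, ‖u n‖ ≤ M) → ‖Lam u‖ ≤ M) ∧
  (∀ u, Bd u → Lam (fun n => u (n + 1)) = Lam u) ∧
  (∀ c : ℂ, Lam (fun _ => c) = c) ∧
  (∀ u, Bd u → Lam (fun n => conj (u n)) = conj (Lam u)) ∧
  (∀ u : ℕ → ℝ, (∃ M, ∀ n, |u n| ≤ M) → (∀ n, 0 ≤ u n) →
    0 ≤ (Lam (fun n => (u n : ℂ))).re ∧ (Lam (fun n => (u n : ℂ))).im = 0)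

def S_BL : Prop := ∃ Lam : (ℕ → ℂ) → ℂ, IsBL Lam

def S_OBL : Prop := ∀ (Lam : (ℕ → ℂ) → ℂ), IsBL Lam →
  ∀ (K : Type) [NormedAddCommGroup K] [InnerProductSpace ℂ K] [CompleteSpace K]
    (Z : ℕ → K →L[ℂ] K) (M : ℝ), (∀ n, ‖Z n‖ ≤ M) →
    ∃ P : K →L[ℂ] K, ‖P‖ ≤ M ∧ ∀ x y : K, ⟪y, P x⟫_ℂ = Lam (fun n => ⟪y, Z n x⟫_ℂ)

def S_EV1 : Prop :=
  ∀ (K : Type) [NormedAddCommGroup K] [InnerProductSpace ℂ K] [CompleteSpace K]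
    (U : K →L[ℂ] K), U ∈ unitary (K →L[ℂ] K) → ∀ x : K, x ≠ 0 →
    (∀ ε > 0, ∃ Q : K →L[ℂ] K, IsCompactOperator Q ∧ ∀ n : ℕ, ‖(U ^ n) x - Q ((U ^ n) x)‖ ≤ ε) →
    ∃ P : K →L[ℂ] K, IsCompactOperator P ∧ (P : K →ₗ[ℂ] K).IsSymmetric ∧ P * U = U * P ∧ P x ≠ 0

def S_EV2 : Prop :=
  ∀ (K : Type) [NormedAddCommGroup K] [InnerProductSpace ℂ K] [CompleteSpace K]
    (U P : K →L[ℂ] K), U ∈ unitary (K →L[ℂ] K) → IsCompactOperator P →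
    (P : K →ₗ[ℂ] K).IsSymmetric → P * U = U * P → ∀ x : K, P x ≠ 0 →
    ∃ (lam : ℂ) (z : K), ‖lam‖ = 1 ∧ U z = lam • z ∧ ⟪z, x⟫_ℂ ≠ 0

/-! ### Part V: normalisation of the rotation -/

/-- `c` is not a root of unity -/
def Irr (c : ℂ) : Prop := ‖c‖ = 1 ∧ ∀ n : ℤ, n ≠ 0 → c ^ n ≠ 1

/-- the rotation on both copies -/
def IsRot (c : ℂ) (Rt : K2 →L[ℂ] K2) : Prop :=
  ∀ n : ℤ, Rt (i1 (e n)) = c ^ n • i1 (e n) ∧ Rt (i2 (e n)) = c ^ n • i2 (e n)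

def S_ROTEX : Prop := ∀ c : ℂ, ‖c‖ = 1 → ∃ Rt : K2 →L[ℂ] K2, IsRot c Rt ∧ Rt ∈ unitary (K2 →L[ℂ] K2)

def S_STEP1A : Prop := ∀ (om l : ℤ → ℝ) (S X : H →L[ℂ] H), IsOm om → IsEll l → IsShift om S →
  IsX om l X → ∀ (c : ℂ) (Rt : K2 →L[ℂ] K2), ‖c‖ = 1 → IsRot c Rt → Rt ∈ unitary (K2 →L[ℂ] K2) →
  ∀ (Y : (K2 →L[ℂ] K2)ˣ) (U : K2 →L[ℂ] K2), U ∈ unitary (K2 →L[ℂ] K2) →
  (Y.1 * U * Y.inv) * blk S X 0 S = c • (blk S X 0 S * (Y.1 * U * Y.inv)) →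
  ∃ (lam : ℂ) (h : K2 →L[ℂ] K2), ‖lam‖ = 1 ∧ h * blk S X 0 S = blk S X 0 S * h ∧
    (Y.1 * U * Y.inv) * h = lam • (h * Rt) ∧ ((p1 ∘L h ∘L i1) (e 0)) 0 ≠ 0

def S_STEP1B : Prop := ∀ (om l : ℤ → ℝ) (S X : H →L[ℂ] H), IsOm om → IsEll l → IsShift om S →
  IsX om l X → ∀ (c : ℂ) (Rt : K2 →L[ℂ] K2), Irr c → IsRot c Rt → Rt ∈ unitary (K2 →L[ℂ] K2) →
  ∀ (Y : (K2 →L[ℂ] K2)ˣ) (U : K2 →L[ℂ] K2), U ∈ unitary (K2 →L[ℂ] K2) →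
  (Y.1 * U * Y.inv) * blk S X 0 S = c • (blk S X 0 S * (Y.1 * U * Y.inv)) →
  ∀ (lam : ℂ) (h : K2 →L[ℂ] K2), ‖lam‖ = 1 → h * blk S X 0 S = blk S X 0 S * h →
    (Y.1 * U * Y.inv) * h = lam • (h * Rt) → ((p1 ∘L h ∘L i1) (e 0)) 0 ≠ 0 →
  ∃ k : (K2 →L[ℂ] K2)ˣ, k.1 * blk S X 0 S = blk S X 0 S * k.1 ∧
    k.1 * (Y.1 * U * Y.inv) = lam • (Rt * k.1)

/-! ### Part VI: the second step -/

def S_WDIAG : Prop := ∀ (c : ℂ) (Rt : K2 →L[ℂ] K2), Irr c → IsRot c Rt →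
  ∀ V : K2 →L[ℂ] K2, V * Rt = Rt * V →
  (∃ v : ℤ → ℂ, ∀ n, (p1 ∘L V ∘L i2) (e n) = v n • e n) ∧
  (∃ v : ℤ → ℂ, ∀ n, (p2 ∘L V ∘L i2) (e n) = v n • e n)

/-- `V = Y Y^*` commutes with the rotation -/
def S_VCOM : Prop := ∀ (Rt : K2 →L[ℂ] K2) (Y : (K2 →L[ℂ] K2)ˣ) (U : K2 →L[ℂ] K2) (lam : ℂ),
  Rt ∈ unitary (K2 →L[ℂ] K2) → U ∈ unitary (K2 →L[ℂ] K2) → ‖lam‖ = 1 →
  Y.1 * U * Y.inv = lam • Rt →
  (Y.1 * ContinuousLinearMap.adjoint Y.1) * Rt = Rt * (Y.1 * ContinuousLinearMap.adjoint Y.1)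

/-- lower bound for the `22` entry of `Y Y^*` -/
def S_VPOS : Prop := ∀ (Y : (K2 →L[ℂ] K2)ˣ), ∃ ka : ℝ, 0 < ka ∧ ∀ (v : ℤ → ℂ),
  (∀ n, (p2 ∘L (Y.1 * ContinuousLinearMap.adjoint Y.1) ∘L i2) (e n) = v n • e n) →
  ∀ n, (v n).im = 0 ∧ ka ≤ (v n).re ∧ (v n).re ≤ 1 / ka

def S_DIAGEX : Prop := ∀ (b : ℤ → ℂ) (M : ℝ), (∀ n, ‖b n‖ ≤ M) →
  ∃ B : H →L[ℂ] H, (∀ n, B (e n) = b n • e n) ∧ ∀ (x : H) (n : ℤ), (B x) n = b n * x n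

def S_WZ : Prop := ∀ (Z V : K2 →L[ℂ] K2) (A E0 V' : H →L[ℂ] H), IsUnit A → Z = blk A E0 0 A →
  Z * V * ContinuousLinearMap.adjoint Z = V →
  (p2 ∘L V ∘L i2) * V' = 1 → V' * (p2 ∘L V ∘L i2) = 1 →
  A * (p2 ∘L V ∘L i2) * ContinuousLinearMap.adjoint A = (p2 ∘L V ∘L i2) ∧
  E0 = ((p1 ∘L V ∘L i2) * V') * A - A * ((p1 ∘L V ∘L i2) * V')

def S_RING12 : Prop := ∀ (r : ℂ) (A E0 B S X : H →L[ℂ] H), E0 = B * A - A * B →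
  (1 - r • blk S X 0 S) * blk A E0 0 A * blk S X 0 S = (blk S X 0 S - r • 1) * blk A E0 0 A →
  (1 - r • S) * A * S = (S - r • 1) * A ∧
  (1 - r • S) * A * (X - (B * S - S * B)) = (X - (B * S - S * B)) * A * (1 + r • S)

/-- entries in the orthogonal basis `E om` -/
def ent (om : ℤ → ℝ) (A : H →L[ℂ] H) (n k : ℤ) : ℂ := (A (E om k)) n / ((om n : ℝ) : ℂ)

def S_ENT12 : Prop := ∀ (om : ℤ → ℝ) (S : H →L[ℂ] H), IsOm om → IsShift om S →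
  ∀ (r : ℂ) (A : H →L[ℂ] H), (1 - r • S) * A * S = (S - r • 1) * A →
  R11 r (ent om A) ∧
  (IsUnit A → ∀ k, ∃ n, ent om A n k ≠ 0) ∧
  ∀ (X' : H →L[ℂ] H) (d : ℤ → ℂ), (∀ n, X' (E om n) = d n • E om (n + 1)) →
    (1 - r • S) * A * X' = X' * A * (1 + r • S) →
    ∀ n k, d n * (ent om A n k + r * ent om A n (k + 1)) =
      d k * (ent om A n k - r * ent om A (n + 1) k)

def S_ENT13 : Prop := ∀ (om : ℤ → ℝ) (S : H →L[ℂ] H), IsOm om → IsShift om S →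
  ∀ (r : ℝ) (A V : H →L[ℂ] H) (ga : ℤ → ℝ), IsUnit A → IsUnit (1 - (r : ℂ) • S) → IsUnit V →
  (∀ n, 0 < ga n) → (∀ n, V (e n) = ((ga n : ℝ) : ℂ) • e n) →
  A * V * ContinuousLinearMap.adjoint A = V →
  (1 - (r : ℂ) • S) * A * S = (S - (r : ℂ) • 1) * A →
  ∀ n k : ℤ,
    ((1 - (om (n + 1) ^ 2 / ga (n + 1)) / (om n ^ 2 / ga n) : ℝ) : ℂ) *
      (ent om A n k + r * ent om A n (k + 1)) =
    ((1 - (om (k + 1) ^ 2 / ga (k + 1)) / (om k ^ 2 / ga k) : ℝ) : ℂ) *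
      (ent om A n k - r * (((om (n + 1) ^ 2 / ga (n + 1)) / (om n ^ 2 / ga n) : ℝ) : ℂ) *
        ent om A (n + 1) k)

/-- the second step -/
def S_STEP2 : Prop := ∀ (om l : ℤ → ℝ) (S X : H →L[ℂ] H), IsOm om → IsEll l → IsShift om S →
  IsX om l X → ∀ (c : ℂ) (Rt : K2 →L[ℂ] K2), Irr c → IsRot c Rt → Rt ∈ unitary (K2 →L[ℂ] K2) →
  ∀ (Y : (K2 →L[ℂ] K2)ˣ) (U0 U1 : K2 →L[ℂ] K2) (lam : ℂ), U0 ∈ unitary (K2 →L[ℂ] K2) →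
  U1 ∈ unitary (K2 →L[ℂ] K2) → ‖lam‖ = 1 → Y.1 * U0 * Y.inv = lam • Rt →
  ∀ (r : ℝ) (W0 E0 : H →L[ℂ] H), 0 < r → r < 1 → IsUnit W0 →
  (1 - (r : ℂ) • blk S X 0 S) * blk W0 E0 0 W0 * blk S X 0 S =
    (blk S X 0 S - (r : ℂ) • 1) * blk W0 E0 0 W0 →
  (1 - (r : ℂ) • blk S X 0 S) * (Y.1 * U1 * Y.inv) * blk S X 0 S =
    (blk S X 0 S - (r : ℂ) • 1) * (Y.1 * U1 * Y.inv) → False

/-- non-similarity -/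
def S_NONSIM : Prop := ∀ (om l : ℤ → ℝ) (S X : H →L[ℂ] H), IsOm om → IsEll l → IsShift om S →
  IsX om l X → ∀ (r : ℝ) (W0 E0 : H →L[ℂ] H), 0 < r → r < 1 → IsUnit W0 →
  (1 - (r : ℂ) • blk S X 0 S) * blk W0 E0 0 W0 * blk S X 0 S =
    (blk S X 0 S - (r : ℂ) • 1) * blk W0 E0 0 W0 →
  ∀ (T' : K2 →L[ℂ] K2) (Y : (K2 →L[ℂ] K2)ˣ), blk S X 0 S = Y.1 * T' * Y.inv →
  (∀ c : ℂ, ‖c‖ = 1 → ∃ U ∈ unitary (K2 →L[ℂ] K2), U * T' = c • (T' * U)) →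
  (∃ U ∈ unitary (K2 →L[ℂ] K2), (1 - (r : ℂ) • T') * U * T' = (T' - (r : ℂ) • 1) * U) → False

/-! ### Part VII: integrals on the circle -/

/-- integration formula, invariance -/
def S_MU : Prop := IsProbabilityMeasure mu ∧
  (∀ f : Circle → ℂ, Measurable f →
    ∫ z, f z ∂mu = (2 * Real.pi)⁻¹ * ∫ t in (0 : ℝ)..(2 * Real.pi), f (Circle.exp t)) ∧
  (∀ f : Circle → ℝ, Measurable f →
    (Integrable f mu ↔ IntervalIntegrable (fun t => f (Circle.exp t)) volume 0 (2 * Real.pi))) ∧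
  (∀ w : Circle, Measure.map (fun z => w * z) mu = mu) ∧
  (Measure.map (fun z : Circle => z⁻¹) mu = mu) ∧
  (∀ n m : ℤ, fc (zn n) m = if n = m then 1 else 0)

def kap1 (z : Circle) : ℝ := ‖(1 : ℂ) - z‖ ^ (-(1 / 2) : ℝ)
def kap2 (z : Circle) : ℝ := ‖(1 : ℂ) - z‖ ^ (-(1 / 2) : ℝ) * Real.log ‖(1 : ℂ) - z‖

def S_KINT : Prop := Integrable kap1 mu ∧ Integrable kap2 mu

/-- Fourier coefficients of a kernel -/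
def kc (ka : Circle → ℝ) (n : ℤ) : ℂ := ∫ z, ((ka z : ℝ) : ℂ) * (z : ℂ) ^ n ∂mu

def S_KREC : Prop :=
  (∀ n : ℤ, (4 * (n : ℂ) + 3) * kc kap1 (n + 1) = (4 * (n : ℂ) + 1) * kc kap1 n) ∧
  (∀ n : ℤ, (4 * (n : ℂ) + 3) * kc kap2 (n + 1) =
    (4 * (n : ℂ) + 1) * kc kap2 n - 2 * (kc kap1 n + kc kap1 (n + 1))) ∧
  (∃ k0 : ℝ, 0 < k0 ∧ kc kap1 0 = (k0 : ℂ)) ∧ ∃ k1 : ℝ, kc kap2 0 = (k1 : ℂ)

def S_KW : Prop := ∀ om l : ℤ → ℝ, IsOm om → IsEll l → ∃ k0 k1 : ℝ, 0 < k0 ∧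
  (∀ n, kc kap1 n = ((k0 * om n ^ 2 : ℝ) : ℂ)) ∧
  (∀ n, kc kap2 n = ((k0 * (l n + k1) * om n ^ 2 : ℝ) : ℂ))

def S_FORM : Prop := ∀ ka : Circle → ℝ, Measurable ka → Integrable ka mu →
  (∀ z, ka z⁻¹ = ka z) → ∀ f g : C(Circle, ℂ),
  Integrable (fun q : Circle × Circle => ((ka (q.1 / q.2) : ℝ) : ℂ) * (conj (f q.1) * g q.2))
    (mu.prod mu) ∧
  HasSum (fun n : ℤ => kc ka n * (conj (fc f n) * fc g n))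
    (∫ q : Circle × Circle, ((ka (q.1 / q.2) : ℝ) : ℂ) * (conj (f q.1) * g q.2) ∂(mu.prod mu))

/-- change of variables -/
def S_CV : Prop := ∀ (c : Circle) (a : Dsc),
  Measure.map (bm c a) (mu.withDensity (fun z => ENNReal.ofReal (pk a z))) = mu

def S_KER : Prop := ∀ (c : Circle) (a : Dsc) (x y : Circle),
  ‖(bm c a x : ℂ) - bm c a y‖ ^ 2 = pk a x * pk a y * ‖(x : ℂ) - y‖ ^ 2

/-- change of variables in double integrals -/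
def S_CV2 : Prop := ∀ (c : Circle) (a : Dsc) (F : Circle × Circle → ℂ), Measurable F →
  ∫ q : Circle × Circle, ((pk a q.1 * pk a q.2 : ℝ) : ℂ) * F (bm c a q.1, bm c a q.2)
    ∂(mu.prod mu) = ∫ q, F q ∂(mu.prod mu)

def S_JEX : Prop := ∀ om : ℤ → ℝ, IsOm om → ∃ J : C(Circle, ℂ) →L[ℂ] H, IsJ om J

def S_JD : Prop := ∀ (om : ℤ → ℝ) (J : C(Circle, ℂ) →L[ℂ] H), IsOm om → IsJ om J →
  DenseRange J ∧ ∀ n, J (zn n) = E om n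

def S_INV : Prop := ∀ (om : ℤ → ℝ) (J : C(Circle, ℂ) →L[ℂ] H), IsOm om → IsJ om J →
  ∀ (c : Circle) (a : Dsc) (f g : C(Circle, ℂ)),
    ⟪J (Wf c a f), J (Wf c a g)⟫_ℂ = ⟪J f, J g⟫_ℂ

def S_LINV : Prop := ∀ (om l : ℤ → ℝ) (J : C(Circle, ℂ) →L[ℂ] H), IsOm om → IsEll l → IsJ om J →
  ∀ (c : Circle) (a : Dsc) (f g : C(Circle, ℂ)), ∃ s t : ℂ,
    HasSum (fun n : ℤ => ((l n * om n ^ 2 : ℝ) : ℂ) * (conj (fc f n) * fc g n)) s ∧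
    HasSum (fun n : ℤ => ((l n * om n ^ 2 : ℝ) : ℂ) *
      (conj (fc (Wf c a f) n) * fc (Wf c a g) n)) t ∧
    s - t = (1 / 2) * (⟪J (uf a * Wf c a f), J (Wf c a g)⟫_ℂ + ⟪J (Wf c a f), J (uf a * Wf c a g)⟫_ℂ)

/-! ### Part VIII: the representation -/

def S_EXT : Prop := ∀ (J : C(Circle, ℂ) →L[ℂ] H), DenseRange J →
  ∀ (rho : C(Circle, ℂ) → C(Circle, ℂ)) (M : ℝ),
  (∀ f g, J (rho (f + g)) = J (rho f) + J (rho g)) →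
  (∀ (c : ℂ) (f), J (rho (c • f)) = c • J (rho f)) →
  (∀ f, ‖J (rho f)‖ ≤ M * ‖J f‖) → ∃ R : H →L[ℂ] H, ∀ f, R (J f) = J (rho f)

def S_UFC : Prop := ∀ (a : Dsc) (n : ℕ), 0 < n →
  fc (uf a) (n : ℤ) = conj a.1 ^ n / n ∧ fc (uf a) (-(n : ℤ)) = a.1 ^ n / n

/-- multiplication by `uf a` is bounded -/
def S_MUL : Prop := ∀ (om : ℤ → ℝ) (J : C(Circle, ℂ) →L[ℂ] H), IsOm om → IsJ om J →
  ∀ a : Dsc, ∃ M : H →L[ℂ] H, ∀ f, M (J f) = J (uf a * f)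

def kk (om : ℤ → ℝ) (n m : ℤ) : ℝ :=
  if n = m then 0 else (1 / |(n : ℝ) - m|) * |om n / om m - om m / om n|

def S_KSUM : Prop := ∀ om : ℤ → ℝ, IsOm om → ∃ C : ℝ, ∀ (n : ℤ) (F : Finset ℤ),
  ∑ m ∈ F, kk om n m * (1 / Real.sqrt (1 + |(m : ℝ)|)) ≤ C * (1 / Real.sqrt (1 + |(n : ℝ)|))

def S_SCHUR : Prop := ∀ (ka : ℤ → ℤ → ℝ) (p : ℤ → ℝ) (C : ℝ), (∀ n m, ka n m = ka m n) →
  (∀ n m, 0 ≤ ka n m) → (∀ n, 0 < p n) → (∀ (n : ℤ) (F : Finset ℤ), ∑ m ∈ F, ka n m * p m ≤ C * p n) →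
  ∀ D : H →L[ℂ] H, (∀ n m, ‖(D (e m)) n‖ ≤ ka n m) → ‖D‖ ≤ C

def S_UBD : Prop := ∀ (om : ℤ → ℝ) (J : C(Circle, ℂ) →L[ℂ] H), IsOm om → IsJ om J →
  ∃ C : ℝ, ∀ (a : Dsc) (M : H →L[ℂ] H), (∀ f, M (J f) = J (uf a * f)) →
    ‖M - ContinuousLinearMap.adjoint M‖ ≤ C

def S_WEX : Prop := ∀ (om : ℤ → ℝ) (J : C(Circle, ℂ) →L[ℂ] H), IsOm om → IsJ om J →
  ∀ (c : Circle) (a : Dsc), ∃ W ∈ unitary (H →L[ℂ] H), ∀ f, W (J f) = J (Wf c a f)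

/-- functions: composition laws -/
def S_GRP : Prop := ∀ (c c' c'' : Circle) (a a' a'' : Dsc),
  (∀ z, bm c'' a'' z = bm c a (bm c' a' z)) →
  (∀ z, pk a'' z = pk a' z * pk a (bm c' a' z)) ∧
  (∀ f, Wf c'' a'' f = Wf c' a' (Wf c a f)) ∧
  (∀ f, uf a'' * Wf c' a' f = uf a' * Wf c' a' f + Wf c' a' (uf a * f))

/-- parameter of the inverse automorphism: `φ⁻¹` has parameters `c⁻¹`, `-c a` -/
def ainv (c : Circle) (a : Dsc) : Dsc :=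
  ⟨-((c : ℂ) * a.1), by rw [norm_neg, norm_mul, Circle.norm_coe, one_mul]; exact a.2⟩

/-- parameters: composition, inverse -/
def S_PARC : Prop := (∀ (c c' : Circle) (a a' : Dsc), ∃ (c'' : Circle) (a'' : Dsc),
    (∀ z, bm c'' a'' z = bm c a (bm c' a' z)) ∧
    (∀ z : ℂ, ‖z‖ < 1 → (c'' : ℂ) * (z - a''.1) / (1 - conj a''.1 * z) =
      (c : ℂ) * ((c' : ℂ) * (z - a'.1) / (1 - conj a'.1 * z) - a.1) /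
        (1 - conj a.1 * ((c' : ℂ) * (z - a'.1) / (1 - conj a'.1 * z))))) ∧
  (∀ (c : Circle) (a : Dsc),
    (∀ z, bm c a (bm c⁻¹ (ainv c a) z) = z) ∧ ∀ z, bm c⁻¹ (ainv c a) (bm c a z) = z) ∧
  (∀ z, bm 1 ⟨0, by simp⟩ z = z)

def S_PARU : Prop := ∀ (c c' : Circle) (a a' : Dsc),
  (∀ z : ℂ, ‖z‖ < 1 → (c : ℂ) * (z - a.1) / (1 - conj a.1 * z) =
    (c' : ℂ) * (z - a'.1) / (1 - conj a'.1 * z)) → c = c' ∧ a = a'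

/-- the sequence identity -/
def S_SEQ : Prop := ∀ (om l : ℤ → ℝ) (J : C(Circle, ℂ) →L[ℂ] H), IsOm om → IsEll l → IsJ om J →
  ∀ (c : Circle) (a : Dsc) (W M : H →L[ℂ] H), W ∈ unitary (H →L[ℂ] H) →
  (∀ f, W (J f) = J (Wf c a f)) → (∀ f, M (J f) = J (uf a * f)) →
  ∀ m n : ℤ, (((1 / 2 : ℂ) • (M + ContinuousLinearMap.adjoint M)) (W (E om m))) n =
    ((l m - l n : ℝ) : ℂ) * (W (E om m)) n

def S_REL : Prop := ∀ (om : ℤ → ℝ) (S : H →L[ℂ] H) (J : C(Circle, ℂ) →L[ℂ] H), IsOm om →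
  IsShift om S → IsJ om J → (∀ f, S (J f) = J (zn 1 * f)) ∧
  ∀ (c : Circle) (a : Dsc) (W M : H →L[ℂ] H),
  (∀ f, W (J f) = J (Wf c a f)) → (∀ f, M (J f) = J (uf a * f)) →
  (1 - conj a.1 • S) * W * S = (c : ℂ) • ((S - a.1 • 1) * W) ∧ M * S = S * M

/-- `Ks = (M + M^*)/2`, `ep = (M - M^*)/2 = M - Ks` -/
def S_RELX : Prop := ∀ (om l : ℤ → ℝ) (S X : H →L[ℂ] H), IsOm om → IsEll l → IsShift om S →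
  IsX om l X → ∀ (c a : ℂ) (W Ks : H →L[ℂ] H),
  (1 - conj a • S) * W * S = c • ((S - a • 1) * W) →
  (∀ m n : ℤ, (Ks (W (E om m))) n = ((l m - l n : ℝ) : ℂ) * (W (E om m)) n) →
  (Ks * S - S * Ks + X) * W * (c • (1 : H →L[ℂ] H) + conj a • S) = (1 - conj a • S) * W * X

/-- strong continuity of the representation -/
def S_CONTW : Prop := ∀ (om : ℤ → ℝ) (J : C(Circle, ℂ) →L[ℂ] H), IsOm om → IsJ om J →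
  ∀ W : Circle → Dsc → (H →L[ℂ] H),
  (∀ c a, W c a ∈ unitary (H →L[ℂ] H) ∧ ∀ f, W c a (J f) = J (Wf c a f)) →
  ∀ x : H, Continuous fun q : Circle × Dsc => W q.1 q.2 x

def S_CONTM : Prop := ∀ (om : ℤ → ℝ) (J : C(Circle, ℂ) →L[ℂ] H), IsOm om → IsJ om J →
  ∀ M : Dsc → (H →L[ℂ] H), (∀ a f, M a (J f) = J (uf a * f)) → Continuous M

/-- with the convention `φ(T) = G(φ) T G(φ)^{-1}` no operator has a homomorphic intertwiner -/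
def S_LIT : Prop :=
  ∀ (K : Type) [NormedAddCommGroup K] [InnerProductSpace ℂ K] [CompleteSpace K]
    (T : K →L[ℂ] K) (G : Circle → Dsc → (K →L[ℂ] K)ˣ),
    spectrum ℂ T ⊆ Metric.closedBall 0 1 →
    (∀ (c c' c'' : Circle) (a a' a'' : Dsc), (∀ z, bm c'' a'' z = bm c a (bm c' a' z)) →
      G c'' a'' = G c a * G c' a') →
    (∀ (c : Circle) (a : Dsc), mobT (c : ℂ) a.1 T = (G c a).1 * T * (G c a).inv) →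
    Subsingleton K

/-- intertwining on two copies -/
def S_INT : Prop := ∀ (c a : ℂ) (S X W M Ks : H →L[ℂ] H), M * S = S * M → IsUnit W →
  (1 - conj a • S) * W * S = c • ((S - a • 1) * W) →
  (Ks * S - S * Ks + X) * W * (c • (1 : H →L[ℂ] H) + conj a • S) = (1 - conj a • S) * W * X →
  (1 - conj a • blk S X 0 S) * blk W ((M - Ks) * W) 0 W * blk S X 0 S =
    c • ((blk S X 0 S - a • 1) * blk W ((M - Ks) * W) 0 W)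

end

end Pool.Agent.W268.UB
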