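import Pool.Agent.W268.UB.Stm

/-! Project UB (helper268), task ALG (helper311) -/

set_option autoImplicit false

namespace Pool.Agent.W268.UB

open Filter Topology

namespace TALG

lemma top_lim {g : ℤ → ℝ} (hg : Tendsto g atTop (𝓝 0)) (N : ℤ) (c : ℤ) (hc : 0 < c)
    (h : ∀ j : ℕ, g (N + c * j) = g N) : g N = 0 := by
  have h1 : Tendsto (fun j : ℕ => N + c * (j : ℤ)) atTop atTop := by
    apply tendsto_atTop_add_const_left
    exact Tendsto.const_mul_atTop' hc tendsto_natCast_atTop_atTop
  have h2 := hg.comp h1
  have h3 : (g ∘ fun j : ℕ => N + c * (j : ℤ)) = fun _ => g N := by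
    funext j
    exact h j
  rw [h3] at h2
  exact tendsto_nhds_unique tendsto_const_nhds h2

lemma bot_lim {g : ℤ → ℝ} (hg : Tendsto g atBot (𝓝 0)) (N : ℤ)
    (h : ∀ j : ℕ, g (N - j) = g N) : g N = 0 := by
  have h1 : Tendsto (fun j : ℕ => N - (j : ℤ)) atTop atBot := by
    have h5 : Tendsto (fun j : ℕ => N + -(j : ℤ)) atTop atBot := by
      apply tendsto_atBot_add_const_left
      exact tendsto_neg_atTop_atBot.comp tendsto_natCast_atTop_atTop
    simpa [sub_eq_add_neg] using h5
  have h2 := hg.comp h1
  have h3 : (g ∘ fun j : ℕ => N - (j : ℤ)) = fun _ => g N := by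
    funext j
    exact h j
  rw [h3] at h2
  exact tendsto_nhds_unique tendsto_const_nhds h2

end TALG

open TALG in
theorem t_ALG : S_ALGZ → S_ALGF → S_ALG := by
  intro hZ hF r a d g hr hr2 h11 hne hdt hdb hg hgt hgb h12 h13
  -- the first set
  have hd : ∀ n, d n ≠ 0 := by
    have h1 := hZ r a {n | d n = 0} hr hr2 h11 hne
      (by
        intro k hk n hn
        have := h12 n k
        rw [Set.mem_setOf_eq] at hk hn
        rw [hk, zero_mul] at this
        exact (mul_eq_zero.1 this).resolve_left hn)
      (by
        intro k hk n hn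
        have := h12 n k
        rw [Set.mem_setOf_eq] at hk hn
        rw [hn, zero_mul] at this
        exact (mul_eq_zero.1 this.symm).resolve_left hk)
      (by
        intro N
        obtain ⟨n, hn, hd⟩ := hdt N
        exact ⟨n, hn, hd⟩)
      (by
        intro N
        obtain ⟨n, hn, hd⟩ := hdb N
        exact ⟨n, hn, hd⟩)
    intro n hn
    have h2 : n ∈ ({n | d n = 0} : Set ℤ) := hn
    rw [h1] at h2
    exact h2
  -- the second set
  have hs0 : ∀ n, g (n + 1) = g n → ((1 - g (n + 1) / g n : ℝ) : ℂ) = 0 := by
    intro n hn
    rw [hn, div_self (hg n).ne', sub_self, Complex.ofReal_zero]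
  have hs1 : ∀ n, g (n + 1) ≠ g n → ((1 - g (n + 1) / g n : ℝ) : ℂ) ≠ 0 := by
    intro n hn h
    apply hn
    have h1 : (1 - g (n + 1) / g n : ℝ) = 0 := by exact_mod_cast h
    have h2 := (hg n).ne'
    field_simp at h1
    linarith
  have hs : ∀ n, g (n + 1) ≠ g n := by
    have h1 := hZ r a {n | g (n + 1) = g n} hr hr2 h11 hne
      (by
        intro k hk n hn
        have := h13 n k
        rw [hs0 k hk, zero_mul] at this
        exact (mul_eq_zero.1 this).resolve_left (hs1 n hn))
      (by
        intro k hk n hn
        have := h13 n k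
        rw [hs0 n hn, zero_mul] at this
        have h2 := (mul_eq_zero.1 this.symm).resolve_left (hs1 k hk)
        have h3 : g (n + 1) / g n = 1 := by
          have h4 : g (n + 1) = g n := hn
          rw [h4, div_self (hg n).ne']
        rw [h3, Complex.ofReal_one, mul_one] at h2
        exact h2)
      (by
        intro N
        by_contra hcon
        push Not at hcon
        have h2 : ∀ j : ℕ, g (N + 1 * j) = g N := by
          intro j
          induction j with
          | zero => simp
          | succ j ih =>
            have h3 : g (N + 1 * (j : ℤ) + 1) = g (N + 1 * (j : ℤ)) :=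
              hcon (N + 1 * (j : ℤ)) (by omega)
            rw [← ih, ← h3]
            congr 1
            push_cast
            ring
        exact (hg N).ne' (top_lim hgt N 1 one_pos h2))
      (by
        intro N
        by_contra hcon
        push Not at hcon
        have h2 : ∀ j : ℕ, g (N - j) = g N := by
          intro j
          induction j with
          | zero => simp
          | succ j ih =>
            have h3 : g (N - ((j : ℤ) + 1) + 1) = g (N - ((j : ℤ) + 1)) :=
              hcon (N - ((j : ℤ) + 1)) (by omega)
            rw [← ih]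
            push_cast
            rw [← h3]
            congr 1
            ring
        exact (hg N).ne' (bot_lim hgb N h2))
    intro n hn
    have h2 : n ∈ ({n | g (n + 1) = g n} : Set ℤ) := hn
    rw [h1] at h2
    exact h2
  have hfin := hF r a d (fun n => g (n + 1) / g n) hr hr2 h11 hne hd
    (by
      intro n h
      apply hs n
      have h2 := (hg n).ne'
      field_simp at h
      exact h) h12 h13
  have h2 : ∀ n, g (n + 2) = g n := by
    intro n
    have h3 : g (n + 1) / g n * (g (n + 1 + 1) / g (n + 1)) = 1 := hfin n
    have h4 := (hg n).ne'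
    have h5 := (hg (n + 1)).ne'
    have h6 : n + 1 + 1 = n + 2 := by ring
    rw [h6] at h3
    field_simp at h3
    exact h3
  have h3 : ∀ j : ℕ, g (0 + 2 * j) = g 0 := by
    intro j
    induction j with
    | zero => simp
    | succ j ih =>
      have h4 := h2 (0 + 2 * (j : ℤ))
      have h5 : (0 : ℤ) + 2 * ((j + 1 : ℕ) : ℤ) = 0 + 2 * (j : ℤ) + 2 := by
        push_cast
        ring
      rw [h5, h4, ih]
  exact (hg 0).ne' (top_lim hgt 0 2 (by norm_num) h3)

end Pool.Agent.W268.UB
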