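import Pool.Agent.W268.UB.Stm

/-! Project UB, part ALGF. -/

namespace Pool.Agent.W268.UB

theorem t_ALGF : S_ALGF := by
  intro r a d s hr0 _ hR hne hd hs h12 h13 n0
  have hr : (r : ℂ) ≠ 0 := by exact_mod_cast hr0
  have ht : ∀ n, (1 : ℂ) - (s n : ℂ) ≠ 0 := by
    intro n h
    apply hs n
    have h1 : (s n : ℂ) = 1 := (sub_eq_zero.1 h).symm
    exact_mod_cast h1
  have h13' : ∀ n k, (1 - (s n : ℂ)) * (a n k + r * a n (k + 1)) =
      (1 - (s k : ℂ)) * (a n k - r * s n * a (n + 1) k) := by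
    intro n k
    have := h13 n k
    push_cast at this
    exact this
  have h14 : ∀ n k, ((1 - (s n : ℂ)) * d k - d n * (1 - (s k : ℂ))) *
      (a n k - r * a (n + 1) k) = r * d n * (1 - (s k : ℂ)) * (1 - (s n : ℂ)) * a (n + 1) k := by
    intro n k
    linear_combination (-(1 - (s n : ℂ))) * h12 n k + d n * h13' n k
  have hy : ∀ n, a (n + 1) n = 0 := by
    intro n
    have h := h14 n n
    have h1 : r * d n * (1 - (s n : ℂ)) * (1 - (s n : ℂ)) * a (n + 1) n = 0 := by
      rw [← h]
      ring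
    rcases mul_eq_zero.1 h1 with h2 | h2
    · exact absurd h2 (mul_ne_zero (mul_ne_zero (mul_ne_zero hr (hd n)) (ht n)) (ht n))
    · exact h2
  have hz : ∀ n, a n (n + 1) = 0 := by
    intro n
    have h := mul_left_cancel₀ (hd n) (h12 n n)
    rw [hy n, mul_zero, sub_zero] at h
    have h1 : (r : ℂ) * a n (n + 1) = 0 := by linear_combination h
    exact (mul_eq_zero.1 h1).resolve_left hr
  have hdg : ∀ n, a (n + 1) (n + 1) = a n n := by
    intro n
    have h := hR n n
    rw [hy n, hz n, mul_zero, sub_zero, sub_zero] at h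
    exact h
  have ha0 : ∀ n, a n n ≠ 0 := by
    intro k hk
    have up : ∀ m : ℕ, a (k + m) k = 0 ∧ a (k + m) (k + 1) = 0 := by
      intro m
      induction m with
      | zero => simp only [Nat.cast_zero, add_zero]; exact ⟨hk, hz k⟩
      | succ m ih =>
        have e : (k + ((m + 1 : ℕ) : ℤ)) = k + m + 1 := by push_cast; ring
        rw [e]
        obtain ⟨h1, h2⟩ := ih
        have h3 := h12 (k + m) k
        rw [h1, h2, mul_zero, add_zero, mul_zero] at h3
        have h4 := (mul_eq_zero.1 h3.symm).resolve_left (hd k)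
        have h5 : (r : ℂ) * a (k + m + 1) k = 0 := by linear_combination -h4
        have h6 := (mul_eq_zero.1 h5).resolve_left hr
        have h7 := hR (k + m) k
        rw [h1, h2, h6] at h7
        refine ⟨h6, ?_⟩
        linear_combination h7
    have down : ∀ m : ℕ, a (k - m) k = 0 ∧ a (k - m) (k + 1) = 0 := by
      intro m
      induction m with
      | zero => simp only [Nat.cast_zero, sub_zero]; exact ⟨hk, hz k⟩
      | succ m ih =>
        have e : (k - ((m + 1 : ℕ) : ℤ)) + 1 = k - m := by push_cast; ring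
        obtain ⟨h1, h2⟩ := ih
        have h3 := h12 (k - ((m + 1 : ℕ) : ℤ)) k
        have h7 := hR (k - ((m + 1 : ℕ) : ℤ)) k
        rw [e, h1, h2] at h7
        rw [e, h1] at h3
        have h8 : a (k - ((m + 1 : ℕ) : ℤ)) k + r * a (k - ((m + 1 : ℕ) : ℤ)) (k + 1) = 0 := by
          linear_combination -h7
        rw [h8, mul_zero] at h3
        have h4 := (mul_eq_zero.1 h3.symm).resolve_left (hd k)
        have h5 : a (k - ((m + 1 : ℕ) : ℤ)) k = 0 := by linear_combination h4
        refine ⟨h5, ?_⟩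
        rw [h5, zero_add] at h8
        exact (mul_eq_zero.1 h8).resolve_left hr
    obtain ⟨n, hn⟩ := hne k
    apply hn
    rcases le_total k n with h | h
    · have := (up (n - k).toNat).1
      rwa [Int.toNat_of_nonneg (by omega), add_sub_cancel] at this
    · have := (down (k - n).toNat).1
      rwa [Int.toNat_of_nonneg (by omega), sub_sub_cancel] at this
  -- (12) at (n, n - 1)
  have hy2 : ∀ n, a (n + 1) (n - 1) ≠ 0 := by
    intro n h
    have h1 := h12 n (n - 1)
    have e : n - 1 + 1 = n := by ring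
    have h2 := hy (n - 1)
    rw [e] at h2
    rw [e, h, h2, mul_zero, sub_zero, mul_zero, zero_add] at h1
    exact mul_ne_zero (hd n) (mul_ne_zero hr (ha0 n)) h1
  have e1 : ∀ n, (1 - (s n : ℂ)) * d (n + 1) = d n * (1 - (s (n + 1) : ℂ)) * s n := by
    intro n
    have h1 := h14 n (n + 1)
    rw [hz n, zero_sub] at h1
    have h2 : (r : ℂ) * a (n + 1) (n + 1) ≠ 0 := mul_ne_zero hr (ha0 (n + 1))
    apply mul_right_cancel₀ h2
    linear_combination -h1
  have e2 : ∀ n, (1 - (s n : ℂ)) * d (n - 1) = d n * (1 - (s (n - 1) : ℂ)) * s n := by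
    intro n
    have h1 := h14 n (n - 1)
    have e : n - 1 + 1 = n := by ring
    have h2 := hy (n - 1)
    rw [e] at h2
    rw [h2, zero_sub] at h1
    have h3 : (r : ℂ) * a (n + 1) (n - 1) ≠ 0 := mul_ne_zero hr (hy2 n)
    apply mul_right_cancel₀ h3
    linear_combination -h1
  have e3 := e1 n0
  have e4 := e2 (n0 + 1)
  rw [add_sub_cancel_right] at e4
  have h5 : (d n0 * d (n0 + 1) * (1 - (s n0 : ℂ)) * (1 - (s (n0 + 1) : ℂ))) * (s n0 * s (n0 + 1))
      = (d n0 * d (n0 + 1) * (1 - (s n0 : ℂ)) * (1 - (s (n0 + 1) : ℂ))) * 1 := by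
    linear_combination (-(1 - (s (n0 + 1) : ℂ)) * d n0) * e3 -
      (d n0 * (1 - (s (n0 + 1) : ℂ)) * s n0) * e4
  have h6 := mul_left_cancel₀ (mul_ne_zero (mul_ne_zero (mul_ne_zero (hd n0) (hd (n0 + 1)))
    (ht n0)) (ht (n0 + 1))) h5
  exact_mod_cast h6

end Pool.Agent.W268.UB
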