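import Pool.Agent.W268.UB.Stm

/-!
# Part ALGZ: the exceptional set of the algebraic relations is empty (helper377)
-/

set_option autoImplicit false

namespace Pool.Agent.W268.UB

namespace TALGZ

/-- walking up to the end of a block -/
theorem up_end (Z : Set ℤ) (z : ℤ) (hz : z ∈ Z) (h : ∃ n, z ≤ n ∧ n ∉ Z) :
    ∃ j : ℕ, (∀ t : ℕ, t ≤ j → z + t ∈ Z) ∧ z + j + 1 ∉ Z := by
  classical
  have hex : ∃ t : ℕ, z + t ∉ Z := by
    obtain ⟨n, hn, hnZ⟩ := h
    refine ⟨(n - z).toNat, ?_⟩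
    have : z + ((n - z).toNat : ℤ) = n := by omega
    rw [this]; exact hnZ
  have h0 : Nat.find hex ≠ 0 := by
    intro h0
    have := Nat.find_spec hex
    rw [h0] at this
    simp at this
    exact this hz
  refine ⟨Nat.find hex - 1, ?_, ?_⟩
  · intro t ht
    have : t < Nat.find hex := by omega
    have := Nat.find_min hex this
    simpa using this
  · have h1 := Nat.find_spec hex
    have e : z + ((Nat.find hex - 1 : ℕ) : ℤ) + 1 = z + (Nat.find hex : ℕ) := by omega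
    rw [e]; exact h1

/-- walking down to the end of a block -/
theorem down_end (Z : Set ℤ) (z : ℤ) (hz : z ∈ Z) (h : ∃ n, n ≤ z ∧ n ∉ Z) :
    ∃ j : ℕ, (∀ t : ℕ, t ≤ j → z - t ∈ Z) ∧ z - j - 1 ∉ Z := by
  classical
  have hex : ∃ t : ℕ, z - t ∉ Z := by
    obtain ⟨n, hn, hnZ⟩ := h
    refine ⟨(z - n).toNat, ?_⟩
    have : z - ((z - n).toNat : ℤ) = n := by omega
    rw [this]; exact hnZ
  have h0 : Nat.find hex ≠ 0 := by
    intro h0
    have := Nat.find_spec hex
    rw [h0] at this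
    simp at this
    exact this hz
  refine ⟨Nat.find hex - 1, ?_, ?_⟩
  · intro t ht
    have : t < Nat.find hex := by omega
    have := Nat.find_min hex this
    simpa using this
  · have h1 := Nat.find_spec hex
    have e : z - ((Nat.find hex - 1 : ℕ) : ℤ) - 1 = z - (Nat.find hex : ℕ) := by omega
    rw [e]; exact h1

theorem rec_down (r : ℂ) (p : ℤ → ℂ) (Z : Set ℤ) (j : ℤ) (T : ℕ)
    (hj : p (j + 1) = 0) (hin : ∀ t : ℕ, t ≤ T → j - t ∈ Z)
    (hrec : ∀ n ∈ Z, p (n - 1) - 2 * r * p n + r ^ 2 * p (n + 1) = 0) :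
    ∀ m : ℕ, m ≤ T → p (j - m) = ((m : ℂ) + 1) * r ^ m * p j ∧
      p (j - m - 1) = ((m : ℂ) + 2) * r ^ (m + 1) * p j := by
  intro m
  induction m with
  | zero =>
    intro h
    have h1 := hrec j (by simpa using hin 0 h)
    rw [hj] at h1
    constructor
    · simp
    · have e : j - ((0 : ℕ) : ℤ) - 1 = j - 1 := by omega
      rw [e]
      push_cast
      linear_combination h1
  | succ m ih =>
    intro h
    obtain ⟨h1, h2⟩ := ih (by omega)
    have h3 := hrec (j - ((m + 1 : ℕ) : ℤ)) (hin (m + 1) h)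
    have e1 : j - ((m + 1 : ℕ) : ℤ) = j - m - 1 := by push_cast; ring
    have e2 : j - ((m + 1 : ℕ) : ℤ) + 1 = j - m := by push_cast; ring
    rw [e2, e1, h1, h2] at h3
    rw [e1]
    constructor
    · rw [h2]; push_cast; ring
    · push_cast
      linear_combination h3

theorem core (r : ℂ) (hr : r ≠ 0) (p : ℤ → ℂ) (Z : Set ℤ)
    (hoff : ∀ n, n ∉ Z → p n = 0)
    (hrec : ∀ n ∈ Z, p (n - 1) - 2 * r * p n + r ^ 2 * p (n + 1) = 0)
    (hup : ∀ N : ℤ, ∃ n, N ≤ n ∧ n ∉ Z) (hdn : ∀ N : ℤ, ∃ n, n ≤ N ∧ n ∉ Z) (n : ℤ) :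
    p n = 0 := by
  by_cases hn : n ∈ Z
  · obtain ⟨u, hu, hu1⟩ := up_end Z n hn (hup n)
    have hj : n + u ∈ Z := hu u le_rfl
    obtain ⟨T, hT, hT1⟩ := down_end Z (n + u) hj (hdn _)
    have huT : u ≤ T := by
      by_contra hlt
      have h1 := hu (u - (T + 1)) (by omega)
      have e : n + ((u - (T + 1) : ℕ) : ℤ) = n + u - T - 1 := by omega
      rw [e] at h1
      exact hT1 h1
    have hrd := rec_down r p Z (n + u) T (hoff _ hu1) hT hrec
    have h1 := (hrd T le_rfl).2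
    rw [hoff _ hT1] at h1
    have h2 : p (n + u) = 0 := by
      have h3 : ((T : ℂ) + 2) * r ^ (T + 1) ≠ 0 := by
        apply mul_ne_zero
        · have : ((T + 2 : ℕ) : ℂ) ≠ 0 := Nat.cast_ne_zero.2 (by omega)
          push_cast at this
          exact this
        · exact pow_ne_zero _ hr
      exact (mul_eq_zero.1 h1.symm).resolve_left h3
    have h4 := (hrd u huT).1
    rw [h2, mul_zero] at h4
    have e : n + (u : ℤ) - u = n := by ring
    rw [e] at h4
    exact h4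
  · exact hoff n hn

end TALGZ

theorem t_ALGZ : S_ALGZ := by
  intro r a Z hr hr2 h11 hcol h1 h2 hup hdn
  by_contra hne
  obtain ⟨z, hz⟩ := Set.nonempty_iff_ne_empty.2 hne
  obtain ⟨u, hu, hu1⟩ := TALGZ.up_end Z z hz (hup z)
  obtain ⟨k, hk⟩ : ∃ k : ℤ, k = z + u := ⟨_, rfl⟩
  have hkZ : k ∈ Z := by rw [hk]; exact hu u le_rfl
  have hk1 : k + 1 ∉ Z := by rw [hk]; exact hu1
  obtain ⟨p, hp⟩ : ∃ p : ℤ → ℂ, ∀ n, p n = a n k + r * a n (k + 1) := ⟨_, fun _ => rfl⟩
  have hoff : ∀ n, n ∉ Z → p n = 0 := by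
    intro n hn
    rw [hp]; exact h1 k hkZ n hn
  have hp' : ∀ n, p (n - 1) = a n (k + 1) + r * a n k := by
    intro n
    have h := h11 (n - 1) k
    rw [sub_add_cancel] at h
    rw [hp]
    linear_combination -h
  have ha : ∀ n, (1 - (r : ℂ) ^ 2) * a n (k + 1) = p (n - 1) - r * p n := by
    intro n
    rw [hp', hp]; ring
  have hrec : ∀ n ∈ Z, p (n - 1) - 2 * (r : ℂ) * p n + (r : ℂ) ^ 2 * p (n + 1) = 0 := by
    intro n hn
    have h3 := h2 (k + 1) hk1 n hn
    have h4 := ha n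
    have h5 := ha (n + 1)
    rw [add_sub_cancel_right] at h5
    linear_combination (1 - (r : ℂ) ^ 2) * h3 - h4 + r * h5
  have hr' : (r : ℂ) ≠ 0 := by exact_mod_cast hr
  have hp0 := TALGZ.core (r : ℂ) hr' p Z hoff hrec hup hdn
  obtain ⟨n, hn⟩ := hcol (k + 1)
  have h6 := ha n
  rw [hp0, hp0, mul_zero, sub_zero] at h6
  rcases mul_eq_zero.1 h6 with h7 | h7
  · apply hr2
    have : ((r ^ 2 : ℝ) : ℂ) = ((1 : ℝ) : ℂ) := by
      push_cast
      linear_combination -h7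
    exact_mod_cast this
  · exact hn h7

end Pool.Agent.W268.UB
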