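import Pool.Agent.W268.UB.Stm

/-!
UB-BL: existence of a Banach limit.
-/

namespace Pool.Agent.W268.UB

open Filter Topology
open scoped ComplexConjugate

namespace TBL

/-- Cesaro means -/
noncomputable def cs (u : ℕ → ℂ) (N : ℕ) : ℂ := (∑ n ∈ Finset.range (N + 1), u n) / ((N : ℂ) + 1)

/-- the ultrafilter -/
noncomputable def U : Ultrafilter ℕ := hyperfilter ℕ

theorem N1 (N : ℕ) : ((N : ℂ) + 1) ≠ 0 := by
  exact_mod_cast Nat.succ_ne_zero N

theorem cs_norm (u : ℕ → ℂ) (M : ℝ) (h : ∀ n, ‖u n‖ ≤ M) (N : ℕ) : ‖cs u N‖ ≤ M := by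
  unfold cs
  rw [norm_div]
  have h1 : ‖((N : ℂ) + 1)‖ = (N : ℝ) + 1 := by
    rw [show ((N : ℂ) + 1) = (((N : ℝ) + 1 : ℝ) : ℂ) by push_cast; rfl, Complex.norm_real,
      Real.norm_of_nonneg (by positivity)]
  rw [h1, div_le_iff₀ (by positivity)]
  calc ‖∑ n ∈ Finset.range (N + 1), u n‖ ≤ ∑ n ∈ Finset.range (N + 1), ‖u n‖ := norm_sum_le _ _
    _ ≤ ∑ _n ∈ Finset.range (N + 1), M := Finset.sum_le_sum fun n _ => h n
    _ = M * ((N : ℝ) + 1) := by
      rw [Finset.sum_const, Finset.card_range, nsmul_eq_mul]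
      push_cast
      ring

theorem ex_lim (u : ℕ → ℂ) (M : ℝ) (h : ∀ n, ‖u n‖ ≤ M) :
    ∃ z, ‖z‖ ≤ M ∧ Tendsto (cs u) (U : Filter ℕ) (𝓝 z) := by
  obtain ⟨z, hz, hle⟩ := (isCompact_closedBall (0 : ℂ) M).ultrafilter_le_nhds' (U.map (cs u)) (by
    rw [Ultrafilter.mem_map]
    apply Filter.mem_of_superset Filter.univ_mem
    intro N _
    simpa using cs_norm u M h N)
  exact ⟨z, by simpa using hz, hle⟩

/-- the Banach limit -/
noncomputable def Lam (u : ℕ → ℂ) : ℂ := limUnder (U : Filter ℕ) (cs u)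

theorem Lam_eq {u : ℕ → ℂ} {z : ℂ} (h : Tendsto (cs u) (U : Filter ℕ) (𝓝 z)) : Lam u = z :=
  h.limUnder_eq

theorem tend {u : ℕ → ℂ} (h : Bd u) : Tendsto (cs u) (U : Filter ℕ) (𝓝 (Lam u)) := by
  obtain ⟨M, hM⟩ := h
  obtain ⟨z, _, hz⟩ := ex_lim u M hM
  rw [Lam_eq hz]
  exact hz

theorem isBL : IsBL Lam := by
  refine ⟨?_, ?_, ?_, ?_, ?_, ?_, ?_⟩
  · intro u v hu hv
    apply Lam_eq
    have h := (tend hu).add (tend hv)
    refine h.congr fun N => ?_
    unfold cs
    rw [Finset.sum_add_distrib, add_div]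
  · intro c u hu
    apply Lam_eq
    have h := (tend hu).const_mul c
    refine h.congr fun N => ?_
    unfold cs
    rw [← Finset.mul_sum, mul_div_assoc]
  · intro M u hM
    obtain ⟨z, hz1, hz⟩ := ex_lim u M hM
    rw [Lam_eq hz]
    exact hz1
  · intro u hu
    apply Lam_eq
    obtain ⟨M, hM⟩ := hu
    have h0 : Tendsto (fun N : ℕ => cs (fun n => u (n + 1)) N - cs u N) (U : Filter ℕ) (𝓝 0) := by
      have h1 : Tendsto (fun N : ℕ => cs (fun n => u (n + 1)) N - cs u N) atTop (𝓝 0) := by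
        have h2 : Tendsto (fun N : ℕ => (2 * M) * (1 / ((N : ℝ) + 1))) atTop (𝓝 0) := by
          have := tendsto_one_div_add_atTop_nhds_zero_nat (𝕜 := ℝ) |>.const_mul (2 * M)
          simpa using this
        apply squeeze_zero_norm _ h2
        intro N
        have e1 : cs (fun n => u (n + 1)) N - cs u N = (u (N + 1) - u 0) / ((N : ℂ) + 1) := by
          unfold cs
          rw [← sub_div]
          congr 1
          rw [Finset.sum_range_succ' u N, Finset.sum_range_succ (fun n => u (n + 1)) N]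
          ring
        have e2 : ‖((N : ℂ) + 1)‖ = (N : ℝ) + 1 := by
          rw [show ((N : ℂ) + 1) = (((N : ℝ) + 1 : ℝ) : ℂ) by push_cast; rfl, Complex.norm_real,
            Real.norm_of_nonneg (by positivity)]
        rw [e1, norm_div, e2, mul_one_div]
        apply div_le_div_of_nonneg_right _ (by positivity)
        calc ‖u (N + 1) - u 0‖ ≤ ‖u (N + 1)‖ + ‖u 0‖ := norm_sub_le _ _
          _ ≤ 2 * M := by linarith [hM (N + 1), hM 0]
      exact h1.mono_left Nat.hyperfilter_le_atTop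
    have h := h0.add (tend ⟨M, hM⟩)
    rw [zero_add] at h
    refine h.congr fun N => ?_
    ring
  · intro c
    apply Lam_eq
    have h : Tendsto (fun _ : ℕ => c) (U : Filter ℕ) (𝓝 c) := tendsto_const_nhds
    refine h.congr fun N => ?_
    unfold cs
    rw [Finset.sum_const, Finset.card_range, nsmul_eq_mul]
    push_cast
    rw [mul_comm, mul_div_assoc, div_self (N1 N), mul_one]
  · intro u hu
    apply Lam_eq
    have h := (Complex.continuous_conj.tendsto (Lam u)).comp (tend hu)
    refine h.congr fun N => ?_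
    simp only [Function.comp_apply]
    unfold cs
    rw [map_div₀, map_sum]
    simp
  · intro u hM h0
    obtain ⟨M, hM⟩ := hM
    have hb : Bd (fun n => (u n : ℂ)) := ⟨M, fun n => by
      rw [Complex.norm_real]
      exact hM n⟩
    have ht := tend hb
    have hval : ∀ N, cs (fun n => (u n : ℂ)) N =
        (((∑ n ∈ Finset.range (N + 1), u n) / ((N : ℝ) + 1) : ℝ) : ℂ) := by
      intro N
      unfold cs
      push_cast
      rfl
    constructor
    · have h1 := (Complex.continuous_re.tendsto _).comp ht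
      apply ge_of_tendsto' h1
      intro N
      simp only [Function.comp_apply]
      rw [hval, Complex.ofReal_re]
      exact div_nonneg (Finset.sum_nonneg fun n _ => h0 n) (by positivity)
    · have h1 := (Complex.continuous_im.tendsto _).comp ht
      have h2 : Tendsto (fun _ : ℕ => (0 : ℝ)) (U : Filter ℕ) (𝓝 0) := tendsto_const_nhds
      apply tendsto_nhds_unique h1
      refine h2.congr fun N => ?_
      simp only [Function.comp_apply]
      rw [hval, Complex.ofReal_im]

end TBL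

theorem t_BL : S_BL := ⟨TBL.Lam, TBL.isBL⟩

end Pool.Agent.W268.UB


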