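import Pool.Agent.W268.UB.Stm

/-!
Project UB, task BLK: algebra of blocks.
-/

set_option autoImplicit false

namespace Pool.Agent.W268.UB

open MeasureTheory Complex
open scoped ComplexConjugate InnerProductSpace

namespace TBLK

theorem p1i1 (x : H) : p1 (i1 x) = x := rfl
theorem p2i2 (x : H) : p2 (i2 x) = x := rfl
theorem p1i2 (x : H) : p1 (i2 x) = 0 := rfl
theorem p2i1 (x : H) : p2 (i1 x) = 0 := rfl

theorem sum_apply (x : K2) : i1 (p1 x) + i2 (p2 x) = x := by
  have h := congrArg (fun f : K2 →L[ℂ] K2 => f x) sum_ip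
  exact h

theorem ext2 {x y : K2} (h1 : p1 x = p1 y) (h2 : p2 x = p2 y) : x = y := by
  rw [← sum_apply x, ← sum_apply y, h1, h2]

theorem blk_apply (A B C D : H →L[ℂ] H) (x : K2) :
    blk A B C D x = i1 (A (p1 x)) + i1 (B (p2 x)) + i2 (C (p1 x)) + i2 (D (p2 x)) := rfl

theorem p1_blk (A B C D : H →L[ℂ] H) (x : K2) :
    p1 (blk A B C D x) = A (p1 x) + B (p2 x) := by
  rw [blk_apply, map_add, map_add, map_add, p1i1, p1i1, p1i2, p1i2, add_zero, add_zero]

theorem p2_blk (A B C D : H →L[ℂ] H) (x : K2) :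
    p2 (blk A B C D x) = C (p1 x) + D (p2 x) := by
  rw [blk_apply, map_add, map_add, map_add, p2i1, p2i1, p2i2, p2i2, zero_add, zero_add]

theorem blk_mul (A B C D A' B' C' D' : H →L[ℂ] H) : blk A B C D * blk A' B' C' D' =
    blk (A * A' + B * C') (A * B' + B * D') (C * A' + D * C') (C * B' + D * D') := by
  apply ContinuousLinearMap.ext
  intro x
  rw [mul_apply_eq_comp]
  apply ext2
  · rw [p1_blk, p1_blk, p1_blk, p2_blk, map_add, map_add]
    simp only [add_apply, mul_apply_eq_comp]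
    abel
  · rw [p2_blk, p1_blk, p2_blk, p2_blk, map_add, map_add]
    simp only [add_apply, mul_apply_eq_comp]
    abel

theorem blk_one : blk 1 0 0 1 = 1 := by
  apply ContinuousLinearMap.ext
  intro x
  apply ext2
  · rw [p1_blk]; simp
  · rw [p2_blk]; simp

theorem norm_i1 : ‖i1‖ ≤ 1 := by
  refine ContinuousLinearMap.opNorm_le_bound _ zero_le_one (fun x => ?_)
  rw [WithLp.prod_norm_eq_of_L2, one_mul]
  have h1 : (i1 x).fst = x := rfl
  have h2 : (i1 x).snd = 0 := rfl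
  rw [h1, h2, norm_zero]
  simp

theorem norm_i2 : ‖i2‖ ≤ 1 := by
  refine ContinuousLinearMap.opNorm_le_bound _ zero_le_one (fun x => ?_)
  rw [WithLp.prod_norm_eq_of_L2, one_mul]
  have h1 : (i2 x).fst = 0 := rfl
  have h2 : (i2 x).snd = x := rfl
  rw [h1, h2, norm_zero]
  simp

theorem norm_p1 : ‖p1‖ ≤ 1 := by
  refine ContinuousLinearMap.opNorm_le_bound _ zero_le_one (fun x => ?_)
  rw [WithLp.prod_norm_eq_of_L2, one_mul]
  apply Real.le_sqrt_of_sq_le
  have h1 : p1 x = x.fst := rfl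
  rw [h1]
  nlinarith [sq_nonneg ‖x.snd‖]

theorem norm_p2 : ‖p2‖ ≤ 1 := by
  refine ContinuousLinearMap.opNorm_le_bound _ zero_le_one (fun x => ?_)
  rw [WithLp.prod_norm_eq_of_L2, one_mul]
  apply Real.le_sqrt_of_sq_le
  have h1 : p2 x = x.snd := rfl
  rw [h1]
  nlinarith [sq_nonneg ‖x.fst‖]

theorem norm_comp3 (i : H →L[ℂ] K2) (p : K2 →L[ℂ] H) (hi : ‖i‖ ≤ 1) (hp : ‖p‖ ≤ 1)
    (A : H →L[ℂ] H) : ‖i ∘L A ∘L p‖ ≤ ‖A‖ := by
  calc ‖i ∘L A ∘L p‖ ≤ ‖i‖ * ‖A ∘L p‖ := ContinuousLinearMap.opNorm_comp_le _ _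
    _ ≤ 1 * (‖A‖ * 1) := by
        apply mul_le_mul hi _ (norm_nonneg _) zero_le_one
        exact (ContinuousLinearMap.opNorm_comp_le _ _).trans
          (mul_le_mul_of_nonneg_left hp (norm_nonneg _))
    _ = ‖A‖ := by ring

theorem norm_blk (A B C D : H →L[ℂ] H) : ‖blk A B C D‖ ≤ ‖A‖ + ‖B‖ + ‖C‖ + ‖D‖ := by
  unfold blk
  refine (norm_add_le _ _).trans (add_le_add ((norm_add_le _ _).trans (add_le_add
    ((norm_add_le _ _).trans (add_le_add ?_ ?_)) ?_)) ?_)
  · exact norm_comp3 _ _ norm_i1 norm_p1 _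
  · exact norm_comp3 _ _ norm_i1 norm_p2 _
  · exact norm_comp3 _ _ norm_i2 norm_p1 _
  · exact norm_comp3 _ _ norm_i2 norm_p2 _

theorem adj1 : ContinuousLinearMap.adjoint i1 = p1 := by
  symm
  rw [ContinuousLinearMap.eq_adjoint_iff]
  intro x y
  rw [WithLp.prod_inner_apply]
  have h1 : (i1 y).fst = y := rfl
  have h2 : (i1 y).snd = 0 := rfl
  have h3 : p1 x = x.fst := rfl
  show ⟪p1 x, y⟫_ℂ = ⟪x.fst, (i1 y).fst⟫_ℂ + ⟪x.snd, (i1 y).snd⟫_ℂ
  rw [h1, h2, h3, inner_zero_right, add_zero]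

theorem adj2 : ContinuousLinearMap.adjoint i2 = p2 := by
  symm
  rw [ContinuousLinearMap.eq_adjoint_iff]
  intro x y
  rw [WithLp.prod_inner_apply]
  have h1 : (i2 y).fst = 0 := rfl
  have h2 : (i2 y).snd = y := rfl
  have h3 : p2 x = x.snd := rfl
  show ⟪p2 x, y⟫_ℂ = ⟪x.fst, (i2 y).fst⟫_ℂ + ⟪x.snd, (i2 y).snd⟫_ℂ
  rw [h1, h2, h3, inner_zero_right, zero_add]

end TBLK

open TBLK in
theorem t_BLK : S_BLK := by
  refine ⟨blk_mul, ?_, ?_, blk_one, adj1, adj2, ?_, norm_blk, sum_apply, ?_⟩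
  · intro A B C D
    refine ⟨?_, ?_, ?_, ?_⟩
    · apply ContinuousLinearMap.ext
      intro x
      show p1 (blk A B C D (i1 x)) = A x
      rw [p1_blk, p1i1, p2i1, map_zero, add_zero]
    · apply ContinuousLinearMap.ext
      intro x
      show p1 (blk A B C D (i2 x)) = B x
      rw [p1_blk, p1i2, p2i2, map_zero, zero_add]
    · apply ContinuousLinearMap.ext
      intro x
      show p2 (blk A B C D (i1 x)) = C x
      rw [p2_blk, p1i1, p2i1, map_zero, add_zero]
    · apply ContinuousLinearMap.ext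
      intro x
      show p2 (blk A B C D (i2 x)) = D x
      rw [p2_blk, p1i2, p2i2, map_zero, zero_add]
  · intro Z
    apply ContinuousLinearMap.ext
    intro x
    have hx : Z x = Z (i1 (p1 x)) + Z (i2 (p2 x)) := by
      rw [← map_add, sum_apply]
    apply ext2
    · rw [p1_blk, hx, map_add]
      rfl
    · rw [p2_blk, hx, map_add]
      rfl
  · intro A B hA
    obtain ⟨u, rfl⟩ := hA
    set A : H →L[ℂ] H := (u : H →L[ℂ] H) with hA
    set A' : H →L[ℂ] H := ((u⁻¹ : (H →L[ℂ] H)ˣ) : H →L[ℂ] H) with hA'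
    have h1 : A * A' = 1 := u.mul_inv
    have h2 : A' * A = 1 := u.inv_mul
    have hm1 : blk A B 0 A * blk A' (-(A' * B * A')) 0 A' = 1 := by
      rw [blk_mul, ← blk_one]
      have e1 : A * -(A' * B * A') + B * A' = 0 := by
        rw [mul_neg, ← mul_assoc, ← mul_assoc, h1, one_mul, neg_add_cancel]
      rw [e1, h1]
      simp
    have hm2 : blk A' (-(A' * B * A')) 0 A' * blk A B 0 A = 1 := by
      rw [blk_mul, ← blk_one]
      have e1 : A' * B + -(A' * B * A') * A = 0 := by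
        rw [neg_mul, mul_assoc (A' * B), h2, mul_one, add_neg_cancel]
      rw [e1, h2]
      simp
    exact ⟨⟨blk A B 0 A, blk A' (-(A' * B * A')) 0 A', hm1, hm2⟩, rfl⟩
  · intro x y h
    constructor
    · have := congrArg p1 h
      rw [map_add, p1i1, p1i2, add_zero, map_zero] at this
      exact this
    · have := congrArg p2 h
      rw [map_add, p2i1, p2i2, zero_add, map_zero] at this
      exact this

end Pool.Agent.W268.UB
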