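import Pool.Agent.W268.UB.Stm

/-!
Project UB: `t_COM`, the commutant of `blk S X 0 S`.
-/

namespace Pool.Agent.W268.UB

open MeasureTheory Complex Filter Topology
open scoped ComplexConjugate InnerProductSpace

noncomputable section

namespace TCOM

theorem E_apply (om : ℤ → ℝ) (k n : ℤ) : (E om k) n = if n = k then ((om k : ℝ) : ℂ) else 0 := by
  unfold E e
  rw [lp.coeFn_smul, Pi.smul_apply, smul_eq_mul, lp.single_apply]
  split_ifs with h
  · subst h
    simp
  · rw [Pi.single_eq_of_ne h, mul_zero]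

theorem norm_e (k : ℤ) : ‖e k‖ = 1 := by
  unfold e
  rw [lp.norm_single (by norm_num)]
  simp

theorem norm_E {om : ℤ → ℝ} (h : ∀ n, 0 < om n) (k : ℤ) : ‖E om k‖ = om k := by
  unfold E
  rw [norm_smul, norm_e, mul_one, Complex.norm_real, Real.norm_eq_abs, abs_of_pos (h k)]

theorem ext_E {om : ℤ → ℝ} (hpos : ∀ n, 0 < om n) {W : Type*} [NormedAddCommGroup W]
    [NormedSpace ℂ W] (A B : H →L[ℂ] W) (h : ∀ k, A (E om k) = B (E om k)) : A = B := by
  have he : ∀ k, A (e k) = B (e k) := by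
    intro k
    have h1 := h k
    unfold E at h1
    rw [map_smul, map_smul] at h1
    have h2 : ((om k : ℝ) : ℂ) ≠ 0 := by
      exact_mod_cast (hpos k).ne'
    exact smul_right_injective W h2 h1
  ext y
  have hy := lp.hasSum_single (p := 2) (by norm_num) y
  have hs : ∀ i, lp.single 2 i (y i) = (y i) • e i := by
    intro i
    unfold e
    rw [← lp.single_smul]
    simp
  simp only [hs] at hy
  have hA := A.hasSum hy
  have hB := B.hasSum hy
  simp only [map_smul, he] at hA hB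
  exact hA.unique hB

/-- coordinate functional -/
def co (n : ℤ) : H →L[ℂ] ℂ := innerSL ℂ (e n)

theorem co_apply (n : ℤ) (y : H) : co n y = y n := by
  unfold co e
  rw [innerSL_apply_apply, lp.inner_single_left]
  simp

theorem coord_shift {om : ℤ → ℝ} (hpos : ∀ n, 0 < om n) (d : ℤ → ℂ) (S : H →L[ℂ] H)
    (hS : ∀ n, S (E om n) = d n • E om (n + 1)) (y : H) (n : ℤ) :
    (S y) (n + 1) * (om n : ℂ) = d n * (y n * (om (n + 1) : ℂ)) := by
  have h : (om n : ℂ) • (co (n + 1) ∘L S) = (d n * (om (n + 1) : ℂ)) • co n := by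
    refine ext_E hpos _ _ (fun k => ?_)
    simp only [smul_apply, ContinuousLinearMap.comp_apply, smul_eq_mul,
      co_apply]
    rw [hS, lp.coeFn_smul, Pi.smul_apply, smul_eq_mul, E_apply, E_apply]
    by_cases hk : n = k
    · subst hk
      simp only [if_true]
      ring
    · have : ¬ (n + 1 = k + 1) := fun h => hk (by omega)
      simp [hk]
  have h2 := congrArg (fun φ : H →L[ℂ] ℂ => φ y) h
  simp only [smul_apply, ContinuousLinearMap.comp_apply, smul_eq_mul,
    co_apply] at h2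
  linear_combination h2

theorem ent_left {om : ℤ → ℝ} (hpos : ∀ n, 0 < om n) (d : ℤ → ℂ) (S A : H →L[ℂ] H)
    (hS : ∀ n, S (E om n) = d n • E om (n + 1)) (n k : ℤ) :
    ent om (S * A) (n + 1) k = d n * ent om A n k := by
  unfold ent
  have h := coord_shift hpos d S hS (A (E om k)) n
  have h1 : ((om n : ℝ) : ℂ) ≠ 0 := by exact_mod_cast (hpos n).ne'
  have h2 : ((om (n + 1) : ℝ) : ℂ) ≠ 0 := by exact_mod_cast (hpos (n + 1)).ne'
  rw [mul_apply_eq_comp]
  field_simp
  linear_combination h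

theorem ent_right (om : ℤ → ℝ) (d : ℤ → ℂ) (S A : H →L[ℂ] H)
    (hS : ∀ n, S (E om n) = d n • E om (n + 1)) (n k : ℤ) :
    ent om (A * S) n k = d k * ent om A n (k + 1) := by
  unfold ent
  rw [mul_apply_eq_comp, hS, map_smul, lp.coeFn_smul, Pi.smul_apply, smul_eq_mul]
  ring

theorem ent_add (om : ℤ → ℝ) (A B : H →L[ℂ] H) (n k : ℤ) :
    ent om (A + B) n k = ent om A n k + ent om B n k := by
  unfold ent
  rw [add_apply, lp.coeFn_add, Pi.add_apply]
  ring

theorem ent_ext {om : ℤ → ℝ} (hpos : ∀ n, 0 < om n) (A B : H →L[ℂ] H)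
    (h : ∀ n k, ent om A n k = ent om B n k) : A = B := by
  refine ext_E hpos _ _ (fun k => ?_)
  ext n
  have h1 := h n k
  unfold ent at h1
  have h2 : ((om n : ℝ) : ℂ) ≠ 0 := by exact_mod_cast (hpos n).ne'
  field_simp at h1
  exact h1

theorem ent_bound {om : ℤ → ℝ} (hpos : ∀ n, 0 < om n) (A : H →L[ℂ] H) (n k : ℤ) :
    ‖ent om A n k‖ ≤ ‖A‖ * (om k / om n) := by
  unfold ent
  rw [norm_div, Complex.norm_real, Real.norm_eq_abs, abs_of_pos (hpos n), mul_div_assoc']
  refine div_le_div_of_nonneg_right ?_ (hpos n).le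
  calc ‖(A (E om k)) n‖ ≤ ‖A (E om k)‖ := lp.norm_apply_le_norm (by norm_num) _ _
    _ ≤ ‖A‖ * ‖E om k‖ := A.le_opNorm _
    _ = _ := by rw [norm_E hpos]

theorem ratio_bound (hOMR : S_OMR) {om : ℤ → ℝ} (hom : IsOm om) (j N : ℤ) (hN : 0 ≤ N) :
    om N / om (N + j) ≤ 18 * (1 + |(j : ℝ)|) := by
  have hpos := hom.1
  obtain ⟨_, h2, _, h4, _⟩ := hOMR om hom
  have hj : 0 ≤ |(j : ℝ)| := abs_nonneg _
  have hNR : (0 : ℝ) ≤ (N : ℝ) := by exact_mod_cast hN
  set q := om N / om (N + j) with hq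
  have hq0 : 0 < q := div_pos (hpos _) (hpos _)
  rcases h4 N (N + j) with h | h
  · have h5 : q ^ 4 ≤ 18 * (1 + |(j : ℝ)|) := by
      calc q ^ 4 = (om N ^ 2 / om (N + j) ^ 2) ^ 2 := by rw [hq]; field_simp
        _ ≤ 18 * (1 + |((N + j : ℤ) : ℝ)|) / (1 + |(N : ℝ)|) := h
        _ ≤ 18 * (1 + |(j : ℝ)|) := by
          rw [abs_of_nonneg hNR, div_le_iff₀ (by linarith)]
          have h6 : |((N + j : ℤ) : ℝ)| ≤ N + |(j : ℝ)| := by
            push_cast
            calc |(N : ℝ) + j| ≤ |(N : ℝ)| + |(j : ℝ)| := abs_add_le _ _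
              _ = _ := by rw [abs_of_nonneg hNR]
          nlinarith [mul_nonneg hj hNR]
    by_contra hc
    push Not at hc
    have h7 : 1 ≤ q := by nlinarith
    have h8 : q ≤ q ^ 4 := by
      calc q = q ^ 1 := (pow_one q).symm
        _ ≤ q ^ 4 := pow_le_pow_right₀ h7 (by norm_num)
    linarith
  · have h5 := h2 (N + j) N h.le
    have h6 : q ≤ 1 := by
      rw [hq, div_le_one (hpos _)]
      exact h5
    nlinarith

theorem lim_zero {l : ℤ → ℝ} (hl : Tendsto l atTop atBot) (j : ℤ) (a b : ℂ) (M : ℝ)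
    (h : ∀ᶠ N : ℤ in atTop, ‖a + ((l (N + j) : ℝ) : ℂ) * b‖ ≤ M) : b = 0 := by
  by_contra hb
  have hb' : 0 < ‖b‖ := norm_pos_iff.2 hb
  have h1 : Tendsto (fun N : ℤ => l (N + j)) atTop atBot :=
    hl.comp (tendsto_atTop_add_const_right _ _ tendsto_id)
  have h2 : ∀ᶠ N : ℤ in atTop, l (N + j) ≤ -((M + ‖a‖ + 1) / ‖b‖) :=
    h1.eventually (eventually_le_atBot _)
  obtain ⟨N, h3, h4⟩ := (h.and h2).exists
  have h5 : (M + ‖a‖ + 1) / ‖b‖ ≤ |l (N + j)| := by
    have := neg_le_abs (l (N + j))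
    linarith
  rw [div_le_iff₀ hb'] at h5
  have h6 : ‖((l (N + j) : ℝ) : ℂ) * b‖ = |l (N + j)| * ‖b‖ := by
    rw [norm_mul, Complex.norm_real, Real.norm_eq_abs]
  have h7 : ‖((l (N + j) : ℝ) : ℂ) * b‖ ≤ ‖a + ((l (N + j) : ℝ) : ℂ) * b‖ + ‖a‖ := by
    have := norm_sub_le (a + ((l (N + j) : ℝ) : ℂ) * b) a
    rwa [add_sub_cancel_left] at this
  linarith

/-- a function on `ℤ × ℤ` invariant under the diagonal shift -/
theorem diag_inv {c : ℤ → ℤ → ℂ} (h : ∀ n k, c (n + 1) (k + 1) = c n k) (n k : ℤ) :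
    c n k = c (n - k) 0 := by
  have h1 : ∀ m : ℕ, ∀ n, c (n + m) m = c n 0 := by
    intro m
    induction m with
    | zero => intro n; simp
    | succ m ih =>
      intro n
      have := h (n + m) m
      push_cast
      rw [← add_assoc, this, ih]
  have h2 : ∀ m : ℕ, ∀ n, c (n - m) (-m) = c n 0 := by
    intro m
    induction m with
    | zero => intro n; simp
    | succ m ih =>
      intro n
      have := h (n - (m + 1)) (-(m + 1))
      rw [show n - (m + 1 : ℤ) + 1 = n - m by ring, show -(m + 1 : ℤ) + 1 = -m by ring, ih] at this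
      push_cast
      exact this.symm
  rcases Int.eq_nat_or_neg k with ⟨m, rfl | rfl⟩
  · have := h1 m (n - m)
    rwa [sub_add_cancel] at this
  · have := h2 m (n - (-m))
    rwa [show n - -(m : ℤ) - m = n by ring] at this

end TCOM

open TCOM in
theorem t_COM : S_OMR → S_LX → S_SINV → S_BLK → S_COM := by
  intro hOMR hLX _ hBLK om l S X hom hl hS hX C hC
  have hpos := hom.1
  obtain ⟨hlt, -, hlj, -⟩ := hLX l hl
  obtain ⟨hmul, hent, hdec, -⟩ := hBLK
  set C11 := p1 ∘L C ∘L i1 with hC11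
  set C12 := p1 ∘L C ∘L i2 with hC12
  set C21 := p2 ∘L C ∘L i1 with hC21
  set C22 := p2 ∘L C ∘L i2 with hC22
  have hCb : C = blk C11 C12 C21 C22 := hdec C
  have hC' : blk (C11 * S + C12 * 0) (C11 * X + C12 * S) (C21 * S + C22 * 0) (C21 * X + C22 * S) =
      blk (S * C11 + X * C21) (S * C12 + X * C22) (0 * C11 + S * C21) (0 * C12 + S * C22) := by
    rw [← hmul, ← hmul, ← hCb]
    exact hC
  have ha := hent (C11 * S + C12 * 0) (C11 * X + C12 * S) (C21 * S + C22 * 0) (C21 * X + C22 * S)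
  rw [hC'] at ha
  have hb := hent (S * C11 + X * C21) (S * C12 + X * C22) (0 * C11 + S * C21) (0 * C12 + S * C22)
  have e11 : C11 * S + C12 * 0 = S * C11 + X * C21 := ha.1.symm.trans hb.1
  have e12 : C11 * X + C12 * S = S * C12 + X * C22 := ha.2.1.symm.trans hb.2.1
  have e21 : C21 * S + C22 * 0 = 0 * C11 + S * C21 := ha.2.2.1.symm.trans hb.2.2.1
  have e22 : C21 * X + C22 * S = 0 * C12 + S * C22 := ha.2.2.2.symm.trans hb.2.2.2
  rw [mul_zero, add_zero] at e11 e21
  rw [zero_mul, zero_add] at e21 e22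
  have hS1 : ∀ n, S (E om n) = (1 : ℂ) • E om (n + 1) := fun n => by rw [hS n, one_smul]
  have hX1 : ∀ n, X (E om n) = (fun n : ℤ => ((l (n + 1) - l n : ℝ) : ℂ)) n • E om (n + 1) :=
    fun n => hX n
  have entS : ∀ (A : H →L[ℂ] H) n k, ent om (S * A) (n + 1) k = ent om A n k := by
    intro A n k
    rw [ent_left hpos (fun _ => 1) S A hS1, one_mul]
  have entS' : ∀ (A : H →L[ℂ] H) n k, ent om (A * S) n k = ent om A n (k + 1) := by
    intro A n k
    rw [ent_right om (fun _ => 1) S A hS1, one_mul]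
  have entX : ∀ (A : H →L[ℂ] H) n k, ent om (X * A) (n + 1) k =
      ((l (n + 1) - l n : ℝ) : ℂ) * ent om A n k := by
    intro A n k
    rw [ent_left hpos (fun n : ℤ => ((l (n + 1) - l n : ℝ) : ℂ)) X A hX1]
  have entX' : ∀ (A : H →L[ℂ] H) n k, ent om (A * X) n k =
      ((l (k + 1) - l k : ℝ) : ℂ) * ent om A n (k + 1) := by
    intro A n k
    rw [ent_right om (fun n : ℤ => ((l (n + 1) - l n : ℝ) : ℂ)) X A hX1]
  -- step 1: `C21 = 0`
  have s21 : ∀ n k, ent om C21 (n + 1) (k + 1) = ent om C21 n k := by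
    intro n k
    rw [← entS', e21, entS]
  have s11 : ∀ n k, ent om C11 (n + 1) (k + 1) = ent om C11 n k +
      ((l (n + 1) - l n : ℝ) : ℂ) * ent om C21 n k := by
    intro n k
    rw [← entS', e11, ent_add, entS, entX]
  have d21 := diag_inv s21
  have z21 : ∀ j, ent om C21 j 0 = 0 := by
    intro j
    have hind : ∀ N : ℕ, ent om C11 (N + j) N = ent om C11 j 0 +
        ((l (N + j) - l j : ℝ) : ℂ) * ent om C21 j 0 := by
      intro N
      induction N with
      | zero => simp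
      | succ N ih =>
        have h1 := s11 (N + j) N
        have h2 := d21 (N + j) N
        rw [show (N : ℤ) + j - N = j by ring] at h2
        rw [ih, h2] at h1
        push_cast at h1 ⊢
        rw [show (N : ℤ) + 1 + j = N + j + 1 by ring, h1]
        ring
    refine lim_zero hlt j (ent om C11 j 0 - (l j : ℂ) * ent om C21 j 0) _
      (‖C11‖ * (18 * (1 + |(j : ℝ)|))) ?_
    filter_upwards [eventually_ge_atTop (0 : ℤ)] with N hN
    obtain ⟨m, rfl⟩ := Int.eq_ofNat_of_zero_le hN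
    have h1 := hind m
    have h2 := ent_bound hpos C11 (m + j) m
    have h3 : ent om C11 j 0 - (l j : ℂ) * ent om C21 j 0 + ((l (m + j) : ℝ) : ℂ) *
        ent om C21 j 0 = ent om C11 (m + j) m := by
      rw [h1]
      push_cast
      ring
    rw [h3]
    exact h2.trans (mul_le_mul_of_nonneg_left (ratio_bound hOMR hom j m hN) (norm_nonneg _))
  have hC21z : C21 = 0 := by
    refine ent_ext hpos _ _ (fun n k => ?_)
    rw [d21, z21]
    unfold ent
    simp
  rw [hC21z, mul_zero, add_zero] at e11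
  rw [hC21z, zero_mul, zero_add] at e22
  -- step 2
  have t11 : ∀ n k, ent om C11 (n + 1) (k + 1) = ent om C11 n k := by
    intro n k
    rw [← entS', e11, entS]
  have t22 : ∀ n k, ent om C22 (n + 1) (k + 1) = ent om C22 n k := by
    intro n k
    rw [← entS', e22, entS]
  have d11 := diag_inv t11
  have d22 := diag_inv t22
  have s12 : ∀ n k, ent om C12 (n + 1) (k + 1) = ent om C12 n k +
      ((l (n + 1) - l n : ℝ) : ℂ) * ent om C22 n k -
      ((l (k + 1) - l k : ℝ) : ℂ) * ent om C11 n k := by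
    intro n k
    have h1 : ent om (C11 * X + C12 * S) (n + 1) k = ent om (S * C12 + X * C22) (n + 1) k := by
      rw [e12]
    rw [ent_add, ent_add, entX', entS', entS, entX, t11] at h1
    linear_combination h1
  have z12 : ∀ j, ent om C22 j 0 - ent om C11 j 0 = 0 := by
    intro j
    have hind : ∀ N : ℕ, ent om C12 (N + j) N = ent om C12 j 0 +
        ((l (N + j) - l j : ℝ) : ℂ) * ent om C22 j 0 -
        ((l N - l 0 : ℝ) : ℂ) * ent om C11 j 0 := by
      intro N
      induction N with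
      | zero => simp
      | succ N ih =>
        have h1 := s12 (N + j) N
        have h2 := d22 (N + j) N
        have h3 := d11 (N + j) N
        rw [show (N : ℤ) + j - N = j by ring] at h2 h3
        rw [ih, h2, h3] at h1
        push_cast at h1 ⊢
        rw [show (N : ℤ) + 1 + j = N + j + 1 by ring, h1]
        ring
    refine lim_zero hlt j (ent om C12 j 0 - (l j : ℂ) * ent om C22 j 0 + (l 0 : ℂ) *
      ent om C11 j 0) _ (‖C12‖ * (18 * (1 + |(j : ℝ)|)) + 1 * ‖ent om C11 j 0‖) ?_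
    have hev : ∀ᶠ n : ℤ in atTop, |l (n + j) - l n| ≤ 1 := by
      have h := (hlj j).eventually (Metric.ball_mem_nhds (0 : ℝ) one_pos)
      filter_upwards [h] with n hn
      have hn' : dist (l (n + j) - l n) 0 < 1 := hn
      rw [dist_zero_right, Real.norm_eq_abs] at hn'
      exact hn'.le
    filter_upwards [eventually_ge_atTop (0 : ℤ), hev] with N hN hN2
    obtain ⟨m, rfl⟩ := Int.eq_ofNat_of_zero_le hN
    have h1 := hind m
    have h2 := ent_bound hpos C12 (m + j) m
    have h3 : ent om C12 j 0 - (l j : ℂ) * ent om C22 j 0 + (l 0 : ℂ) * ent om C11 j 0 +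
        ((l (m + j) : ℝ) : ℂ) * (ent om C22 j 0 - ent om C11 j 0) =
        ent om C12 (m + j) m - ((l (m + j) - l m : ℝ) : ℂ) * ent om C11 j 0 := by
      rw [h1]
      push_cast
      ring
    rw [h3]
    refine (norm_sub_le _ _).trans (add_le_add ?_ ?_)
    · exact h2.trans (mul_le_mul_of_nonneg_left (ratio_bound hOMR hom j m hN) (norm_nonneg _))
    · rw [norm_mul, Complex.norm_real, Real.norm_eq_abs]
      exact mul_le_mul_of_nonneg_right hN2 (norm_nonneg _)
  refine ⟨hC21z, ?_, e11⟩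
  refine ent_ext hpos _ _ (fun n k => ?_)
  rw [d11, d22]
  exact (sub_eq_zero.1 (z12 _)).symm

end

end Pool.Agent.W268.UB
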