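import Pool.Agent.W268.UB.Stm

namespace Pool.Agent.W268.UB

open MeasureTheory Complex Filter Topology
open scoped ComplexConjugate InnerProductSpace

noncomputable section

namespace TCONTM

theorem inner_e (n : ℤ) (x : H) : ⟪e n, x⟫_ℂ = x n := by
  unfold e
  rw [lp.inner_single_left]
  simp

theorem e_apply (n k : ℤ) : (e n) k = if k = n then (1 : ℂ) else 0 := by
  unfold e
  by_cases h : k = n
  · subst h
    rw [lp.single_apply_self, if_pos rfl]
  · rw [lp.single_apply_ne _ _ _ h, if_neg h]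

theorem S_e {om : ℤ → ℝ} (hom : IsOm om) {S : H →L[ℂ] H} (hS : IsShift om S) (k : ℤ) :
    S (e k) = ((om (k + 1) / om k : ℝ) : ℂ) • e (k + 1) := by
  have h := hS k
  unfold E at h
  rw [map_smul] at h
  have h0 : ((om k : ℝ) : ℂ) ≠ 0 := by exact_mod_cast (hom.1 k).ne'
  have h1 : S (e k) = ((om k : ℝ) : ℂ)⁻¹ • (((om (k + 1) : ℝ) : ℂ) • e (k + 1)) := by
    rw [← h, smul_smul, inv_mul_cancel₀ h0, one_smul]
  rw [h1, smul_smul]
  congr 1
  push_cast
  field_simp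

theorem S_coord {om : ℤ → ℝ} (hom : IsOm om) {S : H →L[ℂ] H} (hS : IsShift om S) (x : H)
    (n : ℤ) : (S x) n = ((om n / om (n - 1) : ℝ) : ℂ) * x (n - 1) := by
  have h1 : ContinuousLinearMap.adjoint S (e n) = ((om n / om (n - 1) : ℝ) : ℂ) • e (n - 1) := by
    apply lp.ext
    funext k
    rw [← inner_e, ContinuousLinearMap.adjoint_inner_right, S_e hom hS, inner_smul_left,
      inner_e, e_apply, lp.coeFn_smul, Pi.smul_apply, e_apply, Complex.conj_ofReal, smul_eq_mul]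
    by_cases h : k + 1 = n
    · subst h
      simp
    · rw [if_neg h, if_neg (by omega)]
      simp
  rw [← inner_e, ← ContinuousLinearMap.adjoint_inner_left, h1, inner_smul_left, inner_e,
    Complex.conj_ofReal]

theorem J_S {om : ℤ → ℝ} (hom : IsOm om) {S : H →L[ℂ] H} (hS : IsShift om S)
    {J : C(Circle, ℂ) →L[ℂ] H} (hJ : IsJ om J) (f : C(Circle, ℂ)) : S (J f) = J (zn 1 * f) := by
  apply lp.ext
  funext n
  rw [S_coord hom hS, hJ, hJ]
  have h1 : fc (zn 1 * f) n = fc f (n - 1) := by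
    unfold fc
    congr 1
    funext z
    have hz : (z : ℂ) ≠ 0 := Circle.coe_ne_zero z
    show ((z : ℂ) ^ (1 : ℤ) * f z) * (z : ℂ) ^ (-n) = f z * (z : ℂ) ^ (-(n - 1))
    have h2 : (z : ℂ) ^ (-(n - 1)) = (z : ℂ) ^ (1 : ℤ) * (z : ℂ) ^ (-n) := by
      rw [← zpow_add₀ hz]
      congr 1
      ring
    rw [h2]
    ring
  rw [h1]
  have h0 : ((om (n - 1) : ℝ) : ℂ) ≠ 0 := by exact_mod_cast (hom.1 (n - 1)).ne'
  push_cast
  field_simp

theorem zn_add (m n : ℤ) : zn (m + n) = zn m * zn n := by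
  ext z
  show (z : ℂ) ^ (m + n) = (z : ℂ) ^ m * (z : ℂ) ^ n
  exact zpow_add₀ (Circle.coe_ne_zero z) m n

theorem zn_zero : zn 0 = 1 := by
  ext z
  show (z : ℂ) ^ (0 : ℤ) = 1
  exact zpow_zero _

theorem J_pow {J : C(Circle, ℂ) →L[ℂ] H} {S : H →L[ℂ] H} {m : ℤ}
    (h : ∀ f, S (J f) = J (zn m * f)) (j : ℕ) (f : C(Circle, ℂ)) :
    (S ^ j) (J f) = J (zn (m * j) * f) := by
  induction j with
  | zero =>
    simp [zn_zero]
  | succ j ih =>
    rw [pow_succ', mul_apply_eq_comp, ih, h, ← mul_assoc, ← zn_add]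
    congr 3
    push_cast
    ring

theorem norm_zn (n : ℤ) : ‖zn n‖ ≤ 1 :=
  (ContinuousMap.norm_le _ zero_le_one).2 fun z => by
    show ‖(z : ℂ) ^ n‖ ≤ 1
    rw [norm_zpow, Circle.norm_coe, one_zpow]

/-- the coefficients -/
def cf (b : ℂ) (j : ℕ) : ℂ := b ^ (j + 1) / ((j : ℂ) + 1)

theorem norm_cf (b : ℂ) (j : ℕ) : ‖cf b j‖ ≤ ‖b‖ ^ (j + 1) := by
  unfold cf
  rw [norm_div, norm_pow]
  have h : (1 : ℝ) ≤ ‖((j : ℂ) + 1)‖ := by
    have h1 : ((j : ℂ) + 1) = ((j + 1 : ℕ) : ℂ) := by push_cast; rfl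
    rw [h1, Complex.norm_natCast]
    push_cast
    have : (0 : ℝ) ≤ j := j.cast_nonneg
    linarith
  exact div_le_self (by positivity) h

/-- the terms of the expansion of `uf a` -/
def Fc (a : Dsc) (j : ℕ) : C(Circle, ℂ) :=
  cf (conj a.1) j • zn (1 * ((j + 1 : ℕ) : ℤ)) + cf a.1 j • zn ((-1) * ((j + 1 : ℕ) : ℤ))

theorem norm_Fc (a : Dsc) (j : ℕ) : ‖Fc a j‖ ≤ 2 * ‖a.1‖ ^ (j + 1) := by
  unfold Fc
  refine (norm_add_le _ _).trans ?_
  rw [norm_smul, norm_smul]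
  have h1 := norm_cf (conj a.1) j
  have h2 := norm_cf a.1 j
  rw [RCLike.norm_conj] at h1
  have h3 := norm_zn (1 * ((j + 1 : ℕ) : ℤ))
  have h4 := norm_zn ((-1) * ((j + 1 : ℕ) : ℤ))
  have h5 : ‖cf (conj a.1) j‖ * ‖zn (1 * ((j + 1 : ℕ) : ℤ))‖ ≤ ‖a.1‖ ^ (j + 1) * 1 :=
    mul_le_mul h1 h3 (norm_nonneg _) (by positivity)
  have h6 : ‖cf a.1 j‖ * ‖zn ((-1) * ((j + 1 : ℕ) : ℤ))‖ ≤ ‖a.1‖ ^ (j + 1) * 1 :=
    mul_le_mul h2 h4 (norm_nonneg _) (by positivity)
  linarith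

theorem summable_Fc (a : Dsc) : Summable (Fc a) := by
  refine Summable.of_norm_bounded (g := fun j => 2 * ‖a.1‖ ^ (j + 1)) ?_ (norm_Fc a)
  exact ((summable_nat_add_iff 1).2
    (summable_geometric_of_lt_one (norm_nonneg _) a.2)).mul_left 2

theorem hasSum_Fc (a : Dsc) : HasSum (Fc a)
    (uf a - ((Real.log (1 - ‖a.1‖ ^ 2) : ℝ) : ℂ) • (1 : C(Circle, ℂ))) := by
  have h := (summable_Fc a).hasSum
  have h2 : ∑' j, Fc a j = uf a - ((Real.log (1 - ‖a.1‖ ^ 2) : ℝ) : ℂ) • (1 : C(Circle, ℂ)) := by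
    ext z
    have h1 := (ContinuousMap.evalCLM ℂ z).hasSum h
    refine h1.unique ?_
    have hw : ‖conj a.1 * (z : ℂ)‖ < 1 := by
      rw [norm_mul, RCLike.norm_conj, Circle.norm_coe, mul_one]
      exact a.2
    have s1 := Complex.hasSum_taylorSeries_neg_log' hw
    have s2 := (Complex.conjCLE : ℂ →L[ℝ] ℂ).hasSum s1
    have s3 := s1.add s2
    have e1 : (fun j : ℕ => (conj a.1 * (z : ℂ)) ^ (j + 1) / ((j : ℂ) + 1) +
        (Complex.conjCLE : ℂ →L[ℝ] ℂ) ((conj a.1 * (z : ℂ)) ^ (j + 1) / ((j : ℂ) + 1))) =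
        fun j => (ContinuousMap.evalCLM ℂ z) (Fc a j) := by
      funext j
      show (conj a.1 * (z : ℂ)) ^ (j + 1) / ((j : ℂ) + 1) +
        conj ((conj a.1 * (z : ℂ)) ^ (j + 1) / ((j : ℂ) + 1)) =
        cf (conj a.1) j * (z : ℂ) ^ (1 * ((j + 1 : ℕ) : ℤ)) +
          cf a.1 j * (z : ℂ) ^ ((-1) * ((j + 1 : ℕ) : ℤ))
      have hz : conj (z : ℂ) = (z : ℂ)⁻¹ := by
        rw [← Circle.coe_inv_eq_conj, Circle.coe_inv]
      have g1 : (z : ℂ) ^ (1 * ((j + 1 : ℕ) : ℤ)) = (z : ℂ) ^ (j + 1) := by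
        rw [one_mul, zpow_natCast]
      have g2 : (z : ℂ) ^ ((-1) * ((j + 1 : ℕ) : ℤ)) = ((z : ℂ)⁻¹) ^ (j + 1) := by
        rw [neg_one_mul, zpow_neg, zpow_natCast, inv_pow]
      rw [g1, g2]
      unfold cf
      simp only [map_div₀, map_pow, map_mul, map_add, map_one, map_natCast, Complex.conj_conj, hz,
        mul_pow]
      ring
    have e2 : -Complex.log (1 - conj a.1 * (z : ℂ)) +
        (Complex.conjCLE : ℂ →L[ℝ] ℂ) (-Complex.log (1 - conj a.1 * (z : ℂ))) =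
        (uf a - ((Real.log (1 - ‖a.1‖ ^ 2) : ℝ) : ℂ) • (1 : C(Circle, ℂ))) z := by
      show -Complex.log (1 - conj a.1 * (z : ℂ)) +
        conj (-Complex.log (1 - conj a.1 * (z : ℂ))) =
        ((Real.log (pk a z) : ℝ) : ℂ) - ((Real.log (1 - ‖a.1‖ ^ 2) : ℝ) : ℂ) * 1
      rw [Complex.add_conj, mul_one, ← Complex.ofReal_sub, Complex.neg_re, Complex.log_re]
      have hpos : 0 < 1 - ‖a.1‖ ^ 2 := by
        have := a.2
        have h0 := norm_nonneg a.1
        nlinarith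
      have hden : 0 < ‖1 - conj a.1 * (z : ℂ)‖ := norm_pos_iff.2 (den_ne a z)
      unfold pk
      rw [Real.log_div hpos.ne' (pow_pos hden 2).ne', Real.log_pow]
      push_cast
      ring
    rw [e1] at s3
    rw [← e2]
    exact s3
  rw [← h2]
  exact h

theorem growth {x y : ℝ} (h1 : 1 ≤ y) (h : x ^ 4 ≤ y) : x ≤ y := by
  rcases le_total x 1 with h2 | h2
  · linarith
  · exact (le_self_pow₀ h2 (by norm_num)).trans h

/-- the terms of the operator series -/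
def Tm (S S' : H →L[ℂ] H) (a : Dsc) (j : ℕ) : H →L[ℂ] H :=
  cf (conj a.1) j • S ^ (j + 1) + cf a.1 j • S' ^ (j + 1)

theorem norm_Tm {S S' : H →L[ℂ] H}
    (h : ∀ j : ℕ, ‖S ^ j‖ ^ 4 ≤ 18 * (1 + j) ∧ ‖S' ^ j‖ ^ 4 ≤ 18 * (1 + j)) {q : ℝ}
    (a : Dsc) (ha : ‖a.1‖ ≤ q) (j : ℕ) :
    ‖Tm S S' a j‖ ≤ 36 * (q ^ (j + 1) + ((j + 1 : ℕ) : ℝ) ^ 1 * q ^ (j + 1)) := by
  unfold Tm
  refine (norm_add_le _ _).trans ?_
  rw [norm_smul, norm_smul]
  have hq0 : 0 ≤ q := (norm_nonneg _).trans ha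
  have hj : (0 : ℝ) ≤ ((j + 1 : ℕ) : ℝ) := Nat.cast_nonneg _
  have h1 := norm_cf (conj a.1) j
  have h2 := norm_cf a.1 j
  rw [RCLike.norm_conj] at h1
  have hp : ‖a.1‖ ^ (j + 1) ≤ q ^ (j + 1) := pow_le_pow_left₀ (norm_nonneg _) ha _
  have h3 : ‖S ^ (j + 1)‖ ≤ 18 * (1 + ((j + 1 : ℕ) : ℝ)) :=
    growth (by linarith) (h (j + 1)).1
  have h4 : ‖S' ^ (j + 1)‖ ≤ 18 * (1 + ((j + 1 : ℕ) : ℝ)) :=
    growth (by linarith) (h (j + 1)).2
  have h5 : ‖cf (conj a.1) j‖ * ‖S ^ (j + 1)‖ ≤ q ^ (j + 1) * (18 * (1 + ((j + 1 : ℕ) : ℝ))) :=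
    mul_le_mul (h1.trans hp) h3 (norm_nonneg _) (by positivity)
  have h6 : ‖cf a.1 j‖ * ‖S' ^ (j + 1)‖ ≤ q ^ (j + 1) * (18 * (1 + ((j + 1 : ℕ) : ℝ))) :=
    mul_le_mul (h2.trans hp) h4 (norm_nonneg _) (by positivity)
  nlinarith

theorem summable_bd {q : ℝ} (h0 : 0 ≤ q) (h1 : q < 1) :
    Summable fun j : ℕ => 36 * (q ^ (j + 1) + ((j + 1 : ℕ) : ℝ) ^ 1 * q ^ (j + 1)) := by
  have s0 : Summable fun n : ℕ => q ^ n := summable_geometric_of_lt_one h0 h1
  have s1 : Summable fun n : ℕ => (n : ℝ) ^ 1 * q ^ n :=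
    summable_pow_mul_geometric_of_norm_lt_one 1 (by rwa [Real.norm_of_nonneg h0])
  exact ((summable_nat_add_iff (f := fun n : ℕ => q ^ n + (n : ℝ) ^ 1 * q ^ n) 1).2
    (s0.add s1)).mul_left 36

end TCONTM

open TCONTM in
theorem t_CONTM : S_MU → S_OMR → S_SINV → S_SEX → S_JD → S_OMEX → S_CONTM := by
  intro _ _ hSINV hSEX hJD hOMEX om J hom hJ M hM
  obtain ⟨-, l, hl⟩ := hOMEX
  obtain ⟨⟨S, hS⟩, -⟩ := hSEX om l hom hl
  obtain ⟨-, -, -, S', hSS', hS'S, -, hgr⟩ := hSINV om S hom hS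
  obtain ⟨hd, -⟩ := hJD om J hom hJ
  have hJS : ∀ f, S (J f) = J (zn 1 * f) := J_S hom hS hJ
  have hJS' : ∀ f, S' (J f) = J (zn (-1) * f) := by
    intro f
    have h1 : S (J (zn (-1) * f)) = J f := by
      rw [hJS, ← mul_assoc, ← zn_add]
      norm_num [zn_zero]
    rw [← h1, ← mul_apply_eq_comp, hS'S, one_apply_eq_self]
  have hsT : ∀ a : Dsc, Summable (Tm S S' a) := fun a =>
    Summable.of_norm_bounded (summable_bd (norm_nonneg _) a.2) (norm_Tm hgr a le_rfl)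
  have hMN : M = fun a => ((Real.log (1 - ‖a.1‖ ^ 2) : ℝ) : ℂ) • (1 : H →L[ℂ] H) +
      ∑' j, Tm S S' a j := by
    funext a
    have h1 : (fun x => M a x) = fun x => (((Real.log (1 - ‖a.1‖ ^ 2) : ℝ) : ℂ) •
        (1 : H →L[ℂ] H) + ∑' j, Tm S S' a j) x := by
      refine hd.equalizer (M a).continuous (ContinuousLinearMap.continuous _) (funext fun f => ?_)
      show M a (J f) = (((Real.log (1 - ‖a.1‖ ^ 2) : ℝ) : ℂ) •
        (1 : H →L[ℂ] H) + ∑' j, Tm S S' a j) (J f)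
      rw [hM, add_apply, smul_apply,
        one_apply_eq_self]
      have g1 : HasSum (fun j => Tm S S' a j (J f)) ((∑' j, Tm S S' a j) (J f)) :=
        (ContinuousLinearMap.apply ℂ H (J f)).hasSum (hsT a).hasSum
      have g2 := J.hasSum ((hasSum_Fc a).mul_right f)
      have g3 : (fun j => J (Fc a j * f)) = fun j => Tm S S' a j (J f) := by
        funext j
        unfold Fc Tm
        rw [add_mul, smul_mul_assoc, smul_mul_assoc, map_add, map_smul, map_smul,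
          add_apply, smul_apply,
          smul_apply, J_pow hJS, J_pow hJS']
      have g4 : J ((uf a - ((Real.log (1 - ‖a.1‖ ^ 2) : ℝ) : ℂ) • (1 : C(Circle, ℂ))) * f) =
          J (uf a * f) - ((Real.log (1 - ‖a.1‖ ^ 2) : ℝ) : ℂ) • J f := by
        rw [sub_mul, smul_mul_assoc, one_mul, map_sub, map_smul]
      have g5 : (∑' j, Tm S S' a j) (J f) =
          J (uf a * f) - ((Real.log (1 - ‖a.1‖ ^ 2) : ℝ) : ℂ) • J f := by
        rw [← g4]
        refine g1.unique ?_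
        rw [← g3]
        exact g2
      rw [g5]
      abel
    exact ContinuousLinearMap.ext fun x => congrFun h1 x
  rw [hMN, continuous_iff_continuousAt]
  intro a0
  refine ContinuousAt.add ?_ ?_
  · refine Continuous.continuousAt ?_
    refine Continuous.smul (Complex.continuous_ofReal.comp (Continuous.log ?_ ?_)) continuous_const
    · exact continuous_const.sub (continuous_subtype_val.norm.pow 2)
    · intro a
      have := a.2
      have h0 := norm_nonneg a.1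
      have : 0 < 1 - ‖a.1‖ ^ 2 := by nlinarith
      exact this.ne'
  · obtain ⟨q, hq1, hq2⟩ := exists_between a0.2
    have hq0 : 0 ≤ q := (norm_nonneg _).trans hq1.le
    have hop : IsOpen {a : Dsc | ‖a.1‖ < q} :=
      isOpen_lt continuous_subtype_val.norm continuous_const
    refine ContinuousOn.continuousAt (s := {a : Dsc | ‖a.1‖ < q}) ?_ (hop.mem_nhds hq1)
    refine continuousOn_tsum (fun j => ?_) (summable_bd hq0 hq2)
      (fun j a ha => norm_Tm hgr a (le_of_lt ha) j)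
    refine Continuous.continuousOn ?_
    have c1 : Continuous fun a : Dsc => cf (conj a.1) j := by
      unfold cf
      exact ((Complex.continuous_conj.comp continuous_subtype_val).pow _).div_const _
    have c2 : Continuous fun a : Dsc => cf a.1 j := by
      unfold cf
      exact (continuous_subtype_val.pow _).div_const _
    have c3 : Continuous fun a : Dsc => cf (conj a.1) j • S ^ (j + 1) :=
      c1.smul continuous_const
    have c4 : Continuous fun a : Dsc => cf a.1 j • S' ^ (j + 1) :=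
      c2.smul continuous_const
    exact c3.add c4

end

end Pool.Agent.W268.UB
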