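import Pool.Agent.W268.UB.Stm

/-!
Part CONTW of project UB: strong continuity of the representation.
-/

namespace Pool.Agent.W268.UB

open MeasureTheory Complex Filter Topology
open scoped ComplexConjugate InnerProductSpace

noncomputable section

namespace TCONTW

theorem continuous_pk2 : Continuous fun q : Dsc × Circle => pk q.1 q.2 := by
  unfold pk
  refine Continuous.div ?_ ?_ ?_
  · exact continuous_const.sub ((continuous_subtype_val.comp continuous_fst).norm.pow 2)
  · refine (continuous_const.sub (Continuous.mul ?_ ?_)).norm.pow 2
    · exact Complex.continuous_conj.comp (continuous_subtype_val.comp continuous_fst)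
    · exact cont_coe.comp continuous_snd
  · intro q
    exact pow_ne_zero 2 (norm_ne_zero_iff.2 (den_ne q.1 q.2))

theorem continuous_bm3 : Continuous fun q : (Circle × Dsc) × Circle => bm q.1.1 q.1.2 q.2 := by
  have h : Continuous fun q : (Circle × Dsc) × Circle => (bm q.1.1 q.1.2 q.2 : ℂ) := by
    simp only [bm_coe]
    refine Continuous.div ?_ ?_ (fun q => den_ne q.1.2 q.2)
    · refine Continuous.mul (cont_coe.comp (continuous_fst.comp continuous_fst)) ?_
      exact (cont_coe.comp continuous_snd).sub
        (continuous_subtype_val.comp (continuous_snd.comp continuous_fst))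
    · refine continuous_const.sub (Continuous.mul ?_ (cont_coe.comp continuous_snd))
      exact Complex.continuous_conj.comp
        (continuous_subtype_val.comp (continuous_snd.comp continuous_fst))
  exact Topology.IsEmbedding.subtypeVal.continuous_iff.2 h

theorem continuous_Wf (f : C(Circle, ℂ)) : Continuous fun q : Circle × Dsc => Wf q.1 q.2 f := by
  refine ContinuousMap.continuous_of_continuous_uncurry _ ?_
  have h : Continuous fun q : (Circle × Dsc) × Circle =>
      ((pk q.1.2 q.2 ^ (3 / 4 : ℝ) : ℝ) : ℂ) * f (bm q.1.1 q.1.2 q.2) := by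
    refine Continuous.mul ?_ (f.continuous.comp continuous_bm3)
    refine Complex.continuous_ofReal.comp (Continuous.rpow_const ?_ ?_)
    · exact continuous_pk2.comp ((continuous_snd.comp continuous_fst).prodMk continuous_snd)
    · intro q
      exact Or.inl (pk_pos q.1.2 q.2).ne'
  exact h

end TCONTW

theorem t_CONTW : S_JD → S_CONTW := by
  intro hJD om J hom hJ W hW x
  have hdense : DenseRange J := (hJD om J hom hJ).1
  refine continuous_of_uniform_approx_of_continuous ?_
  intro u hu
  obtain ⟨ε, hε, hεu⟩ := Metric.mem_uniformity_dist.1 hu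
  obtain ⟨f, hf⟩ := hdense.exists_dist_lt x hε
  refine ⟨fun q => W q.1 q.2 (J f), ?_, ?_⟩
  · have h1 : (fun q : Circle × Dsc => W q.1 q.2 (J f)) = fun q => J (Wf q.1 q.2 f) := by
      funext q
      exact (hW q.1 q.2).2 f
    rw [h1]
    exact J.continuous.comp (TCONTW.continuous_Wf f)
  · intro q
    apply hεu
    rw [dist_eq_norm, ← map_sub, ContinuousLinearMap.norm_map_of_mem_unitary (hW q.1 q.2).1,
      ← dist_eq_norm]
    exact hf

end

end Pool.Agent.W268.UB
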