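import Pool.Agent.W268.UB.Stm

namespace Pool.Agent.W268.UB

open MeasureTheory Complex Filter Topology
open scoped ComplexConjugate InnerProductSpace

noncomputable section

namespace TCPT

theorem e_apply (k n : ℤ) : (e k) n = if n = k then (1 : ℂ) else 0 := by
  by_cases h : n = k
  · subst h
    rw [if_pos rfl]
    exact lp.single_apply_self (E := fun _ : ℤ => ℂ) 2 n (1 : ℂ)
  · rw [if_neg h]
    exact lp.single_apply_ne (E := fun _ : ℤ => ℂ) 2 k (1 : ℂ) h

theorem inner_e (k : ℤ) (x : H) : ⟪e k, x⟫_ℂ = x k := by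
  unfold e
  rw [lp.inner_single_left]
  simp

theorem norm_e (k : ℤ) : ‖e k‖ = 1 := by
  unfold e
  rw [lp.norm_single (by norm_num)]
  simp

theorem S_e (om : ℤ → ℝ) (S : H →L[ℂ] H) (hom : IsOm om) (hS : IsShift om S) (k : ℤ) :
    S (e k) = ((om (k + 1) : ℂ) / (om k : ℂ)) • e (k + 1) := by
  have h := hS k
  unfold E at h
  rw [map_smul] at h
  have h0 : (om k : ℂ) ≠ 0 := by exact_mod_cast (hom.1 k).ne'
  rw [div_eq_inv_mul, mul_smul, ← h, smul_smul, inv_mul_cancel₀ h0, one_smul]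

theorem shift_coord (om : ℤ → ℝ) (S : H →L[ℂ] H) (hom : IsOm om) (hS : IsShift om S) (x : H)
    (n : ℤ) : (S x) (n + 1) = (om (n + 1) : ℂ) / (om n : ℂ) * x n := by
  have h1 : HasSum (fun k : ℤ => lp.single 2 k (x k)) x := lp.hasSum_single (by norm_num) x
  have h2 := ((innerSL ℂ (e (n + 1))).comp S).hasSum h1
  have h3 : ((innerSL ℂ (e (n + 1))).comp S) x = (S x) (n + 1) := by
    rw [ContinuousLinearMap.comp_apply, innerSL_apply_apply, inner_e]
  rw [h3] at h2
  have h4 : ∀ k : ℤ, ((innerSL ℂ (e (n + 1))).comp S) (lp.single 2 k (x k)) =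
      x k * ((om (k + 1) : ℂ) / (om k : ℂ) * (if n + 1 = k + 1 then (1 : ℂ) else 0)) := by
    intro k
    have h5 : (lp.single 2 k (x k) : H) = x k • e k := by
      unfold e
      rw [← lp.single_smul]
      simp
    rw [h5, map_smul, ContinuousLinearMap.comp_apply, innerSL_apply_apply, S_e om S hom hS,
      inner_smul_right, inner_e, e_apply, smul_eq_mul]
  have h6 := h2.unique (hasSum_single n (fun k hk => by
    show ((innerSL ℂ (e (n + 1))).comp S) (lp.single 2 k (x k)) = 0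
    rw [h4, if_neg (by omega)]
    ring))
  rw [h6]
  show ((innerSL ℂ (e (n + 1))).comp S) (lp.single 2 n (x n)) = _
  rw [h4, if_pos rfl]
  ring

theorem coef (om : ℤ → ℝ) (S : H →L[ℂ] H) (hom : IsOm om) (hS : IsShift om S)
    (F : H →L[ℂ] H) (hF : F * S = S * F) (n k : ℤ) :
    (F (E om (k + 1))) (n + 1) / (om (n + 1) : ℂ) = (F (E om k)) n / (om n : ℂ) := by
  have h1 : F (E om (k + 1)) = S (F (E om k)) := by
    rw [← hS k]
    exact congrArg (fun G : H →L[ℂ] H => G (E om k)) hF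
  have h0 : (om n : ℂ) ≠ 0 := by exact_mod_cast (hom.1 n).ne'
  have h2 : (om (n + 1) : ℂ) ≠ 0 := by exact_mod_cast (hom.1 (n + 1)).ne'
  rw [h1, shift_coord om S hom hS]
  field_simp

theorem coef' (om : ℤ → ℝ) (S : H →L[ℂ] H) (hom : IsOm om) (hS : IsShift om S)
    (F : H →L[ℂ] H) (hF : F * S = S * F) (n k : ℤ) :
    (F (E om k)) (n + k) / (om (n + k) : ℂ) = (F (E om 0)) n / (om n : ℂ) := by
  induction k using Int.induction_on with
  | zero => rw [add_zero]
  | succ i ih =>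
    have h := coef om S hom hS F hF (n + i) i
    rw [← ih, ← h, add_assoc]
  | pred i ih =>
    have h := coef om S hom hS F hF (n + (-(i : ℤ) - 1)) (-(i : ℤ) - 1)
    have e1 : (-(i : ℤ) - 1) + 1 = -(i : ℤ) := by ring
    have e2 : n + (-(i : ℤ) - 1) + 1 = n + -(i : ℤ) := by ring
    rw [e1, e2] at h
    rw [← h, ih]

theorem coef0 (om : ℤ → ℝ) (S : H →L[ℂ] H) (hom : IsOm om) (hS : IsShift om S)
    (hsym : ∀ n, om (-n) = om n)
    (F : H →L[ℂ] H) (hF : F * S = S * F) (n : ℤ) :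
    (F (e 0)) n = ((om n ^ 2 / om 0 ^ 2 : ℝ) : ℂ) * (F (e (-n))) 0 := by
  have h := coef' om S hom hS F hF n (-n)
  rw [add_neg_cancel] at h
  unfold E at h
  rw [map_smul, map_smul, lp.coeFn_smul, lp.coeFn_smul, Pi.smul_apply, Pi.smul_apply, hsym,
    smul_eq_mul, smul_eq_mul] at h
  have h0 : (om n : ℂ) ≠ 0 := by exact_mod_cast (hom.1 n).ne'
  have h2 : (om 0 : ℂ) ≠ 0 := by exact_mod_cast (hom.1 0).ne'
  push_cast
  rw [div_eq_div_iff h2 h0] at h
  field_simp
  linear_combination -h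

/-- the coordinate projection -/
def Q (N : ℕ) : H →L[ℂ] H :=
  ∑ m ∈ Finset.Icc (-(N : ℤ)) N, (innerSL ℂ (e m)).smulRight (e m)

theorem Q_apply (N : ℕ) (x : H) (n : ℤ) :
    (Q N x) n = if n ∈ Finset.Icc (-(N : ℤ)) N then x n else 0 := by
  unfold Q
  rw [_root_.sum_apply, lp.coeFn_sum, Finset.sum_apply]
  have h : ∀ m : ℤ, (((innerSL ℂ (e m)).smulRight (e m)) x : H) n = if n = m then x n else 0 := by
    intro m
    rw [ContinuousLinearMap.smulRight_apply, innerSL_apply_apply, inner_e, lp.coeFn_smul,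
      Pi.smul_apply, e_apply, smul_eq_mul]
    by_cases h : n = m
    · subst h
      simp
    · rw [if_neg h, if_neg h, mul_zero]
  rw [Finset.sum_congr rfl (fun m _ => h m)]
  rw [Finset.sum_ite_eq]

theorem Q_compact (N : ℕ) : IsCompactOperator (Q N) := by
  have key : ∀ s : Finset ℤ, IsCompactOperator
      ((∑ m ∈ s, (innerSL ℂ (e m)).smulRight (e m) : H →L[ℂ] H)) := by
    intro s
    induction s using Finset.induction_on with
    | empty =>
      rw [Finset.sum_empty]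
      exact isCompactOperator_zero
    | insert a s ha ih =>
      rw [Finset.sum_insert ha]
      have h1 : IsCompactOperator ((innerSL ℂ (e a)).smulRight (e a) : H →L[ℂ] H) := by
        have h2 : IsCompactOperator (ContinuousLinearMap.toSpanSingleton ℂ (e a) : ℂ →L[ℂ] H) :=
          isCompactOperator_of_locallyCompactSpace_rng
            (ContinuousLinearMap.toSpanSingleton ℂ (e a))
        exact h2.comp_clm (innerSL ℂ (e a))
      exact h1.add ih
  exact key _

theorem norm_bound (F : H →L[ℂ] H) (om : ℤ → ℝ) (S : H →L[ℂ] H) (hom : IsOm om)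
    (hS : IsShift om S) (hsym : ∀ n, om (-n) = om n) (hF : F * S = S * F) (ε : ℝ) (hε : 0 < ε)
    (N : ℕ) (hN : ∀ n : ℤ, n ∉ Finset.Icc (-(N : ℤ)) N → om n ^ 2 / om 0 ^ 2 ≤ ε) :
    ‖F (e 0) - Q N (F (e 0))‖ ≤ ε * ‖F‖ := by
  set y : H := ContinuousLinearMap.adjoint F (e 0) with hy
  have hyk : ∀ k : ℤ, ‖y k‖ = ‖(F (e k)) 0‖ := by
    intro k
    rw [← inner_e k y, hy, ContinuousLinearMap.adjoint_inner_right, ← inner_e 0 (F (e k)),
      ← inner_conj_symm, RCLike.norm_conj]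
  have hyn : ‖y‖ ≤ ‖F‖ := by
    calc ‖y‖ ≤ ‖ContinuousLinearMap.adjoint F‖ * ‖e 0‖ := ContinuousLinearMap.le_opNorm _ _
      _ = ‖F‖ := by
        rw [norm_e, mul_one]
        exact LinearIsometryEquiv.norm_map _ _
  have hz : ∀ n : ℤ, ‖(F (e 0) - Q N (F (e 0))) n‖ ≤ ε * ‖y (-n)‖ := by
    intro n
    rw [lp.coeFn_sub, Pi.sub_apply, Q_apply]
    by_cases h : n ∈ Finset.Icc (-(N : ℤ)) N
    · rw [if_pos h, sub_self, norm_zero]
      positivity
    · rw [if_neg h, sub_zero, coef0 om S hom hS hsym F hF n, norm_mul, hyk]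
      refine mul_le_mul_of_nonneg_right ?_ (norm_nonneg _)
      rw [Complex.norm_real, Real.norm_of_nonneg (by positivity)]
      exact hN n h
  have h2 : (2 : ENNReal).toReal = 2 := by norm_num
  refine le_trans ?_ (mul_le_mul_of_nonneg_left hyn hε.le)
  refine lp.norm_le_of_forall_sum_le (by rw [h2]; norm_num) (by positivity) (fun s => ?_)
  calc ∑ i ∈ s, ‖(F (e 0) - Q N (F (e 0))) i‖ ^ (2 : ENNReal).toReal
      ≤ ∑ i ∈ s, ε ^ (2 : ENNReal).toReal * ‖y (-i)‖ ^ (2 : ENNReal).toReal := by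
        refine Finset.sum_le_sum (fun i _ => ?_)
        rw [← Real.mul_rpow hε.le (norm_nonneg _)]
        exact Real.rpow_le_rpow (norm_nonneg _) (hz i) (by rw [h2]; norm_num)
    _ = ε ^ (2 : ENNReal).toReal * ∑ i ∈ s.map (Equiv.neg ℤ).toEmbedding,
          ‖y i‖ ^ (2 : ENNReal).toReal := by
        rw [Finset.sum_map, Finset.mul_sum]
        rfl
    _ ≤ ε ^ (2 : ENNReal).toReal * ‖y‖ ^ (2 : ENNReal).toReal := by
        refine mul_le_mul_of_nonneg_left ?_ (by positivity)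
        exact lp.sum_rpow_le_norm_rpow (by rw [h2]; norm_num) y _
    _ = (ε * ‖y‖) ^ (2 : ENNReal).toReal := by
        rw [Real.mul_rpow hε.le (norm_nonneg _)]

end TCPT

theorem t_CPT : S_OMR → S_SINV → S_CPT := by
  intro hOMR _ om S hom hS ε hε
  obtain ⟨hsym, hmono, -, -, htop, -⟩ := hOMR om hom
  have h0 : 0 < om 0 := hom.1 0
  have h1 : ∀ᶠ n : ℤ in atTop, om n < min 1 (ε * om 0 ^ 2) :=
    htop.eventually_lt_const (by positivity)
  obtain ⟨M, hM⟩ := eventually_atTop.1 h1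
  refine ⟨TCPT.Q M.toNat, TCPT.Q_compact _, fun F hF => ?_⟩
  refine TCPT.norm_bound F om S hom hS hsym hF ε hε M.toNat (fun n hn => ?_)
  have hn' : (M.toNat : ℤ) < |n| := by
    by_contra hcon
    apply hn
    rw [Finset.mem_Icc]
    exact abs_le.1 (not_lt.1 hcon)
  have h3 : om n < min 1 (ε * om 0 ^ 2) := by
    have h4 : om |n| = om n := by
      rcases abs_choice n with h | h
      · rw [h]
      · rw [h, hsym]
    rw [← h4]
    exact hM _ (le_trans (Int.self_le_toNat M) hn'.le)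
  have h5 := lt_of_lt_of_le h3 (min_le_left _ _)
  have h6 := lt_of_lt_of_le h3 (min_le_right _ _)
  have h7 := hom.1 n
  rw [div_le_iff₀ (by positivity)]
  nlinarith

end

end Pool.Agent.W268.UB
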