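import Pool.Agent.W268.UB.Stm

/-! Project UB, part CV: change of variables on the circle. -/

namespace Pool.Agent.W268.UB

open MeasureTheory Complex
open scoped ComplexConjugate InnerProductSpace BoundedContinuousFunction

noncomputable section

namespace TCV

/-- the holomorphic function of the Cauchy formula -/
def G (c : Circle) (a : Dsc) (n : ℕ) (z : ℂ) : ℂ :=
  ((c : ℂ) * (z - a.1) / (1 - conj a.1 * z)) ^ n * (1 - ‖a.1‖ ^ 2) / (1 - conj a.1 * z)

lemma den_ne' (a : Dsc) (z : ℂ) (hz : ‖z‖ ≤ 1) : (1 - conj a.1 * z) ≠ 0 := by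
  intro h
  have h1 : conj a.1 * z = 1 := (sub_eq_zero.1 h).symm
  have h2 : ‖conj a.1 * z‖ = 1 := by rw [h1]; simp
  rw [norm_mul, RCLike.norm_conj] at h2
  have h3 := a.2
  have h4 := norm_nonneg a.1
  have h5 := norm_nonneg z
  nlinarith

lemma G_dc (c : Circle) (a : Dsc) (n : ℕ) : DiffContOnCl ℂ (G c a n) (Metric.ball 0 1) := by
  refine DifferentiableOn.diffContOnCl ?_
  rw [closure_ball (0 : ℂ) one_ne_zero]
  intro z hz
  have hz1 : ‖z‖ ≤ 1 := by simpa using hz
  have h := den_ne' a z hz1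
  refine DifferentiableAt.differentiableWithinAt ?_
  unfold G
  have h1 : DifferentiableAt ℂ (fun z : ℂ => 1 - conj a.1 * z) z := by fun_prop
  have h2 : DifferentiableAt ℂ (fun z : ℂ => (c : ℂ) * (z - a.1)) z := by fun_prop
  exact (((h2.div h1 h).pow n).mul (differentiableAt_const _)).div h1 h

lemma pk_eq (a : Dsc) (z : Circle) :
    (z : ℂ) * (((z : ℂ) - a.1)⁻¹ * ((1 - ‖a.1‖ ^ 2) / (1 - conj a.1 * (z : ℂ))))
      = ((pk a z : ℝ) : ℂ) := by
  have hz : (z : ℂ) * conj (z : ℂ) = 1 := by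
    rw [Complex.mul_conj, Circle.normSq_coe]; simp
  have hd := den_ne a z
  have hd' : conj (1 - conj a.1 * (z : ℂ)) ≠ 0 := by
    rw [Ne, starRingEnd_apply, star_eq_zero]; exact hd
  have h1 : (z : ℂ) - a.1 = (z : ℂ) * conj (1 - conj a.1 * (z : ℂ)) := by
    simp only [map_sub, map_one, map_mul, Complex.conj_conj]
    calc (z : ℂ) - a.1 = z - a.1 * (z * conj (z : ℂ)) := by rw [hz, mul_one]
      _ = _ := by ring
  have h2 : ((‖1 - conj a.1 * (z : ℂ)‖ ^ 2 : ℝ) : ℂ)
      = (1 - conj a.1 * (z : ℂ)) * conj (1 - conj a.1 * (z : ℂ)) := by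
    rw [Complex.mul_conj, Complex.normSq_eq_norm_sq]
  have hz0 : (z : ℂ) ≠ 0 := Circle.coe_ne_zero z
  unfold pk
  rw [Complex.ofReal_div, h2, h1]
  push_cast
  field_simp

/-- the integrals for nonnegative powers -/
lemma int_nat (hmu : S_MU) (c : Circle) (a : Dsc) (n : ℕ) :
    ∫ z, ((pk a z : ℝ) : ℂ) * (bm c a z : ℂ) ^ n ∂mu = if n = 0 then 1 else 0 := by
  have hm : Measurable (fun z : Circle => ((pk a z : ℝ) : ℂ) * (bm c a z : ℂ) ^ n) := by
    refine Continuous.measurable ?_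
    exact (Complex.continuous_ofReal.comp (continuous_pk a)).mul
      ((cont_coe.comp (continuous_bm c a)).pow n)
  rw [hmu.2.1 _ hm]
  have ha : a.1 ∈ Metric.ball (0 : ℂ) 1 := by
    rw [mem_ball_zero_iff]; exact a.2
  have h1 := (G_dc c a n).circleIntegral_sub_inv_smul ha
  have h2 : (∮ z in C(0, 1), (z - a.1)⁻¹ • G c a n z) =
      I * ∫ t in (0 : ℝ)..(2 * Real.pi),
        ((pk a (Circle.exp t) : ℝ) : ℂ) * (bm c a (Circle.exp t) : ℂ) ^ n := by
    rw [circleIntegral, ← intervalIntegral.integral_const_mul]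
    refine intervalIntegral.integral_congr fun t _ => ?_
    have e1 : circleMap 0 1 t = ((Circle.exp t : Circle) : ℂ) := by
      simp [circleMap, Circle.coe_exp]
    simp only [deriv_circleMap, smul_eq_mul]
    rw [e1, ← pk_eq]
    unfold G
    rw [bm_coe]
    ring
  have h3 : G c a n a.1 = if n = 0 then 1 else 0 := by
    unfold G
    have e1 : (1 - conj a.1 * a.1) = ((1 - ‖a.1‖ ^ 2 : ℂ)) := by
      have : conj a.1 * a.1 = ((‖a.1‖ : ℂ)) ^ 2 := by
        rw [mul_comm, Complex.mul_conj, Complex.normSq_eq_norm_sq]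
        push_cast; rfl
      rw [this]
    have e2 : (1 - ‖a.1‖ ^ 2 : ℂ) ≠ 0 := by
      rw [← e1]; exact den_ne' a a.1 a.2.le
    rw [e1, sub_self, mul_zero, zero_div]
    by_cases hn : n = 0
    · rw [if_pos hn, hn, pow_zero, one_mul, div_self e2]
    · rw [if_neg hn, zero_pow hn, zero_mul, zero_div]
  rw [h1, h3] at h2
  have hpi : (2 * Real.pi : ℂ) ≠ 0 := by
    exact_mod_cast (by positivity : (2 * Real.pi : ℝ) ≠ 0)
  have h4 : ∫ t in (0 : ℝ)..(2 * Real.pi),
        ((pk a (Circle.exp t) : ℝ) : ℂ) * (bm c a (Circle.exp t) : ℂ) ^ n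
      = (2 * Real.pi : ℂ) * (if n = 0 then 1 else 0) := by
    have h5 : I * ∫ t in (0 : ℝ)..(2 * Real.pi),
        ((pk a (Circle.exp t) : ℝ) : ℂ) * (bm c a (Circle.exp t) : ℂ) ^ n
      = I * ((2 * Real.pi : ℂ) * (if n = 0 then 1 else 0)) := by
      rw [← h2, smul_eq_mul]; ring
    exact mul_left_cancel₀ I_ne_zero h5
  rw [h4, ← mul_assoc]
  have h6 : (((2 * Real.pi)⁻¹ : ℝ) : ℂ) * (2 * Real.pi : ℂ) = 1 := by
    push_cast
    exact inv_mul_cancel₀ hpi
  first
    | rw [h6, one_mul]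
    | (rw [inv_mul_cancel₀ hpi, one_mul])

lemma int_int (hmu : S_MU) (c : Circle) (a : Dsc) (n : ℤ) :
    ∫ z, ((pk a z : ℝ) : ℂ) * (bm c a z : ℂ) ^ n ∂mu = if n = 0 then 1 else 0 := by
  rcases Int.eq_nat_or_neg n with ⟨m, rfl | rfl⟩
  · simp only [zpow_natCast, Nat.cast_eq_zero]
    exact int_nat hmu c a m
  · have h1 : ∀ z, ((pk a z : ℝ) : ℂ) * (bm c a z : ℂ) ^ (-(m : ℤ))
        = conj (((pk a z : ℝ) : ℂ) * (bm c a z : ℂ) ^ m) := by
      intro z
      rw [map_mul, Complex.conj_ofReal, map_pow, zpow_neg, zpow_natCast]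
      congr 1
      rw [← Circle.coe_inv_eq_conj, Circle.coe_inv, inv_pow]
    simp only [h1]
    rw [integral_conj, int_nat hmu c a m]
    by_cases hm : m = 0
    · simp [hm]
    · simp [hm]

/-- the bounded functions `z ↦ z^n` -/
def Z (n : ℤ) : Circle →ᵇ ℂ := BoundedContinuousFunction.mkOfCompact (zn n)

lemma Z_apply (n : ℤ) (z : Circle) : Z n z = (z : ℂ) ^ n := rfl

/-- the algebra generated by the coordinate -/
def Alg : StarSubalgebra ℂ (Circle →ᵇ ℂ) := StarAlgebra.adjoin ℂ {Z 1}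

lemma mem_span (g : Circle →ᵇ ℂ) (hg : g ∈ Alg) :
    g ∈ Submodule.span ℂ (Set.range Z) := by
  have h1 : g ∈ Algebra.adjoin ℂ ({Z 1} ∪ star ({Z 1} : Set (Circle →ᵇ ℂ))) := by
    rw [← StarAlgebra.adjoin_toSubalgebra]
    exact hg
  have h2 : g ∈ Submodule.span ℂ (Submonoid.closure ({Z 1} ∪ star ({Z 1} : Set (Circle →ᵇ ℂ)))
      : Set (Circle →ᵇ ℂ)) := by
    rw [← Algebra.adjoin_eq_span]
    exact h1
  refine Submodule.span_mono ?_ h2
  intro f hf
  refine Submonoid.closure_induction (motive := fun f _ => f ∈ Set.range Z) ?_ ?_ ?_ hf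
  · rintro x (hx | hx)
    · rw [Set.mem_singleton_iff] at hx
      exact ⟨1, hx.symm⟩
    · rw [Set.mem_star, Set.mem_singleton_iff] at hx
      refine ⟨-1, ?_⟩
      have hx' : x = star (Z 1) := by rw [← hx, star_star]
      rw [hx']
      ext z
      change (z : ℂ) ^ (-1 : ℤ) = conj ((z : ℂ) ^ (1 : ℤ))
      rw [zpow_one, zpow_neg_one, ← Circle.coe_inv_eq_conj, Circle.coe_inv]
  · refine ⟨0, ?_⟩
    ext z
    change (z : ℂ) ^ (0 : ℤ) = 1
    simp
  · rintro x y _ _ ⟨k, rfl⟩ ⟨l, rfl⟩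
    refine ⟨k + l, ?_⟩
    ext z
    change (z : ℂ) ^ (k + l) = (z : ℂ) ^ k * (z : ℂ) ^ l
    rw [zpow_add₀ (Circle.coe_ne_zero z)]

lemma sep : (Alg.map (BoundedContinuousFunction.toContinuousMapStarₐ ℂ)).SeparatesPoints := by
  intro x y hxy
  refine ⟨fun z : Circle => (z : ℂ), ?_, ?_⟩
  · refine ⟨BoundedContinuousFunction.toContinuousMapStarₐ ℂ (Z 1), ?_, ?_⟩
    · exact ⟨Z 1, StarAlgebra.subset_adjoin ℂ _ rfl, rfl⟩
    · funext z
      change (z : ℂ) ^ (1 : ℤ) = z
      simp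
  · exact fun h => hxy (Circle.ext h)

end TCV

open TCV in
theorem t_CV : S_MU → S_CV := by
  intro hmu c a
  have := hmu.1
  set ρ : Measure Circle := mu.withDensity (fun z => ENNReal.ofReal (pk a z)) with hρ
  have : IsFiniteMeasure ρ := by
    refine isFiniteMeasure_withDensity_ofReal ?_
    exact ((continuous_pk a).integrable_of_hasCompactSupport
      (HasCompactSupport.of_compactSpace _)).2
  have hbm : Measurable (bm c a) := (continuous_bm c a).measurable
  have : IsFiniteMeasure (Measure.map (bm c a) ρ) := inferInstance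
  have hZ : ∀ n : ℤ, ∫ z, Z n z ∂(Measure.map (bm c a) ρ) = ∫ z, Z n z ∂mu := by
    intro n
    rw [integral_map hbm.aemeasurable (Z n).continuous.aestronglyMeasurable]
    have h1 : ∫ z, Z n (bm c a z) ∂ρ = ∫ z, ((pk a z : ℝ) : ℂ) * (bm c a z : ℂ) ^ n ∂mu := by
      rw [hρ, integral_withDensity_eq_integral_toReal_smul
        ((continuous_pk a).measurable.ennreal_ofReal) (Filter.Eventually.of_forall fun z =>
          ENNReal.ofReal_lt_top)]
      refine integral_congr_ae (Filter.Eventually.of_forall fun z => ?_)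
      simp only [ENNReal.toReal_ofReal (pk_pos a z).le, Z_apply, Complex.real_smul]
    have h2 : ∫ z, Z n z ∂mu = if n = 0 then 1 else 0 := by
      have h3 := hmu.2.2.2.2.2 n 0
      have h4 : fc (zn n) 0 = ∫ z, Z n z ∂mu := by
        unfold fc
        refine integral_congr_ae (Filter.Eventually.of_forall fun z => ?_)
        change (z : ℂ) ^ n * (z : ℂ) ^ (-(0 : ℤ)) = (z : ℂ) ^ n
        simp
      rw [← h4, h3]
    rw [h1, h2]
    exact int_int hmu c a n
  refine ext_of_forall_mem_subalgebra_integral_eq_of_pseudoEMetric_complete_countable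
    (𝕜 := ℂ) sep ?_
  intro g hg
  refine Submodule.span_induction
    (p := fun g _ => ∫ z, g z ∂(Measure.map (bm c a) ρ) = ∫ z, g z ∂mu) ?_ ?_ ?_ ?_ (mem_span g hg)
  · rintro _ ⟨n, rfl⟩
    exact hZ n
  · simp
  · intro x y _ _ hx hy
    have e1 : ∀ ν : Measure Circle, IsFiniteMeasure ν →
        ∫ z, (x + y) z ∂ν = (∫ z, x z ∂ν) + ∫ z, y z ∂ν := by
      intro ν hν
      have := integral_add (μ := ν) (BoundedContinuousFunction.integrable ν x)
        (BoundedContinuousFunction.integrable ν y)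
      exact this
    rw [e1 _ inferInstance, e1 _ inferInstance, hx, hy]
  · intro k x _ hx
    have e1 : ∀ ν : Measure Circle, ∫ z, (k • x) z ∂ν = k • ∫ z, x z ∂ν := by
      intro ν
      exact integral_smul k _
    rw [e1, e1, hx]

end

end Pool.Agent.W268.UB
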