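import Pool.Agent.W268.UB.Stm

/-!
Project UB, part CV2: change of variables in double integrals.
-/

namespace Pool.Agent.W268.UB

open MeasureTheory Complex
open scoped ComplexConjugate InnerProductSpace

theorem t_CV2 : S_MU → S_CV → S_CV2 := by
  intro hMU hCV c a F hF
  haveI : IsProbabilityMeasure mu := hMU.1
  have hpk : Measurable (fun z : Circle => ENNReal.ofReal (pk a z)) :=
    ENNReal.measurable_ofReal.comp (continuous_pk a).measurable
  have hb : Measurable (bm c a) := (continuous_bm c a).measurable
  have hbb : Measurable (Prod.map (bm c a) (bm c a)) := hb.prodMap hb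
  have h1 : mu.prod mu = Measure.map (Prod.map (bm c a) (bm c a))
      ((mu.prod mu).withDensity
        (fun z => ENNReal.ofReal (pk a z.1) * ENNReal.ofReal (pk a z.2))) := by
    rw [← prod_withDensity hpk hpk, ← Measure.map_prod_map _ _ hb hb, hCV c a]
  conv_rhs => rw [h1]
  rw [integral_map hbb.aemeasurable hF.aestronglyMeasurable,
    integral_withDensity_eq_integral_toReal_smul]
  · refine integral_congr_ae (Filter.Eventually.of_forall fun q => ?_)
    simp only [ENNReal.toReal_mul, ENNReal.toReal_ofReal (pk_pos a _).le, Prod.map]
    rw [Complex.real_smul]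
  · exact (hpk.comp measurable_fst).mul (hpk.comp measurable_snd)
  · refine Filter.Eventually.of_forall fun q => ?_
    exact ENNReal.mul_lt_top ENNReal.ofReal_lt_top ENNReal.ofReal_lt_top

end Pool.Agent.W268.UB
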