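import Pool.Agent.W268.UB.Stm

set_option autoImplicit false

namespace Pool.Agent.W268.UB

open Complex
open scoped ComplexConjugate InnerProductSpace

namespace TDIAGEX

theorem mem (b : ℤ → ℂ) (M : ℝ) (hb : ∀ n, ‖b n‖ ≤ M) (x : H) :
    Memℓp (fun n : ℤ => b n * x n) 2 := by
  have hM : 0 ≤ M := (norm_nonneg _).trans (hb 0)
  have hx := lp.memℓp x
  rw [memℓp_gen_iff (by norm_num)] at hx ⊢
  refine Summable.of_nonneg_of_le (fun n => by positivity) (fun n => ?_)
    (hx.mul_left (M ^ (2 : ENNReal).toReal))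
  rw [norm_mul, Real.mul_rpow (norm_nonneg _) (norm_nonneg _)]
  have := Real.rpow_le_rpow (norm_nonneg _) (hb n) (by norm_num : 0 ≤ (2 : ENNReal).toReal)
  exact mul_le_mul_of_nonneg_right this (by positivity)

/-- the diagonal operator -/
noncomputable def B0 (b : ℤ → ℂ) (M : ℝ) (hb : ∀ n, ‖b n‖ ≤ M) : H →ₗ[ℂ] H where
  toFun x := ⟨fun n => b n * x n, mem b M hb x⟩
  map_add' x y := by
    ext n
    change b n * (x n + y n) = b n * x n + b n * y n
    ring
  map_smul' c x := by
    ext n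
    change b n * (c * x n) = c * (b n * x n)
    ring

theorem bound (b : ℤ → ℂ) (M : ℝ) (hb : ∀ n, ‖b n‖ ≤ M) (x : H) :
    ‖B0 b M hb x‖ ≤ M * ‖x‖ := by
  have hM : 0 ≤ M := (norm_nonneg _).trans (hb 0)
  have hp : 0 < (2 : ENNReal).toReal := by norm_num
  have h1 := lp.norm_rpow_eq_tsum hp (B0 b M hb x)
  have h2 := lp.norm_rpow_eq_tsum hp x
  have hs := (memℓp_gen_iff hp).1 (lp.memℓp x)
  have hs' := (memℓp_gen_iff hp).1 (lp.memℓp (B0 b M hb x))
  have h3 : ‖B0 b M hb x‖ ^ (2 : ENNReal).toReal ≤ (M * ‖x‖) ^ (2 : ENNReal).toReal := by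
    rw [Real.mul_rpow hM (norm_nonneg _), h1, h2, ← tsum_mul_left]
    refine Summable.tsum_le_tsum (fun n => ?_) hs' (hs.mul_left _)
    change ‖b n * x n‖ ^ (2 : ENNReal).toReal ≤ _
    rw [norm_mul, Real.mul_rpow (norm_nonneg _) (norm_nonneg _)]
    have := Real.rpow_le_rpow (norm_nonneg _) (hb n) hp.le
    exact mul_le_mul_of_nonneg_right this (by positivity)
  exact (Real.rpow_le_rpow_iff (norm_nonneg _) (by positivity) hp).1 h3

end TDIAGEX

theorem t_DIAGEX : S_DIAGEX := by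
  intro b M hb
  refine ⟨(TDIAGEX.B0 b M hb).mkContinuous M (TDIAGEX.bound b M hb), ?_, ?_⟩
  · intro n
    ext k
    rw [LinearMap.mkContinuous_apply]
    change b k * (e n : H) k = b n * (e n : H) k
    by_cases hk : k = n
    · rw [hk]
    · have : (e n : H) k = 0 := by
        unfold e
        rw [lp.single_apply]
        exact Pi.single_eq_of_ne hk _
      rw [this, mul_zero, mul_zero]
  · intro x n
    rfl

end Pool.Agent.W268.UB
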