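import Pool.Agent.W268.UB.Stm

/-!
Project UB, part ENT12: entries of the operator identities.
-/

namespace Pool.Agent.W268.UB

open MeasureTheory Complex
open scoped ComplexConjugate InnerProductSpace

namespace TENT12

/-- the coordinate number `n`, divided by the weight -/
noncomputable def cf (om : ℤ → ℝ) (n : ℤ) : H →L[ℂ] ℂ :=
  ((om n : ℝ) : ℂ)⁻¹ • lp.evalCLM ℂ (fun _ : ℤ => ℂ) 2 n

theorem cf_apply (om : ℤ → ℝ) (n : ℤ) (x : H) : cf om n x = x n / ((om n : ℝ) : ℂ) := by
  show ((om n : ℝ) : ℂ)⁻¹ * x n = _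
  rw [div_eq_inv_mul]

theorem E_apply_self (om : ℤ → ℝ) (n : ℤ) : (E om n) n = ((om n : ℝ) : ℂ) := by
  show ((om n : ℝ) : ℂ) * (lp.single 2 n (1 : ℂ) : H) n = _
  rw [lp.single_apply_self, mul_one]

theorem E_apply_ne (om : ℤ → ℝ) {n m : ℤ} (h : m ≠ n) : (E om n) m = 0 := by
  show ((om n : ℝ) : ℂ) * (lp.single 2 n (1 : ℂ) : H) m = _
  rw [lp.single_apply_ne _ _ _ h, mul_zero]

theorem cf_E (om : ℤ → ℝ) (hom : ∀ n, 0 < om n) (n m : ℤ) :
    cf om n (E om m) = if m = n then 1 else 0 := by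
  rw [cf_apply]
  split_ifs with h
  · rw [h, E_apply_self]
    exact div_self (Complex.ofReal_ne_zero.2 (hom n).ne')
  · rw [E_apply_ne om (Ne.symm h), zero_div]

theorem ext_E (om : ℤ → ℝ) (hom : ∀ n, 0 < om n) (f g : H →L[ℂ] ℂ)
    (h : ∀ m, f (E om m) = g (E om m)) : f = g := by
  ext x
  have hx : HasSum (fun i => (lp.single 2 i (x i) : H)) x := lp.hasSum_single (by simp) x
  have h1 : ∀ i, (lp.single 2 i (x i) : H) = (x i / ((om i : ℝ) : ℂ)) • E om i := by
    intro i
    have hi : ((om i : ℝ) : ℂ) ≠ 0 := by exact_mod_cast (hom i).ne'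
    rw [E, smul_smul, div_mul_cancel₀ _ hi, e, ← lp.single_smul, smul_eq_mul, mul_one]
  have h2 := f.hasSum hx
  have h3 := g.hasSum hx
  have h4 : (fun i => f (lp.single 2 i (x i) : H)) = fun i => g (lp.single 2 i (x i) : H) := by
    funext i
    rw [h1, map_smul, map_smul, h]
  rw [h4] at h2
  exact h2.unique h3

theorem shift_cf (om : ℤ → ℝ) (hom : ∀ n, 0 < om n) (X' : H →L[ℂ] H) (d : ℤ → ℂ)
    (hX : ∀ n, X' (E om n) = d n • E om (n + 1)) (n : ℤ) (x : H) :
    cf om (n + 1) (X' x) = d n * cf om n x := by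
  have h1 : (cf om (n + 1)) ∘L X' = d n • cf om n := by
    apply ext_E om hom
    intro m
    show cf om (n + 1) (X' (E om m)) = d n * cf om n (E om m)
    rw [hX m, map_smul, cf_E om hom, cf_E om hom, smul_eq_mul]
    by_cases h : m = n
    · rw [h, if_pos rfl, if_pos rfl]
    · rw [if_neg (by omega), if_neg h, mul_zero, mul_zero]
  exact DFunLike.congr_fun h1 x

theorem ent_eq (om : ℤ → ℝ) (A : H →L[ℂ] H) (n k : ℤ) : ent om A n k = cf om n (A (E om k)) := by
  rw [cf_apply]
  rfl

end TENT12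

open TENT12 in
theorem t_ENT12 : S_ENT12 := by
  intro om S hom hS r A hA
  have hpos := hom.1
  have hS' : ∀ n, S (E om n) = (1 : ℂ) • E om (n + 1) := fun n => by rw [one_smul]; exact hS n
  have hSc : ∀ (n : ℤ) (x : H), cf om (n + 1) (S x) = cf om n x := fun n x => by
    rw [shift_cf om hpos S (fun _ => 1) hS' n x, one_mul]
  have hR : R11 r (ent om A) := by
    intro n k
    have h1 := DFunLike.congr_fun hA (E om k)
    have h2 : A (E om (k + 1)) - r • S (A (E om (k + 1))) = S (A (E om k)) - r • A (E om k) := by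
      rw [← hS k]
      exact h1
    have h3 := congrArg (cf om (n + 1)) h2
    rw [map_sub, map_sub, map_smul, map_smul, hSc, hSc, smul_eq_mul, smul_eq_mul] at h3
    rw [ent_eq, ent_eq, ent_eq, ent_eq]
    exact h3
  refine ⟨hR, ?_, ?_⟩
  · intro hu k
    by_contra hc
    push Not at hc
    obtain ⟨B, hB⟩ := hu.exists_left_inv
    have h1 : A (E om k) = 0 := by
      apply lp.ext
      funext n
      have h2 := hc n
      rw [ent, div_eq_zero_iff] at h2
      rcases h2 with h2 | h2
      · exact h2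
      · exact absurd h2 (by exact_mod_cast (hpos n).ne')
    have h3 : B (A (E om k)) = E om k := DFunLike.congr_fun hB (E om k)
    rw [h1, map_zero] at h3
    have h4 := E_apply_self om k
    rw [← h3] at h4
    have h5 : ((om k : ℝ) : ℂ) = 0 := h4.symm
    exact absurd h5 (by exact_mod_cast (hpos k).ne')
  · intro X' d hX hid n k
    have h1 := DFunLike.congr_fun hid (E om k)
    have h2 : A (X' (E om k)) - r • S (A (X' (E om k))) =
        X' (A (E om k + r • S (E om k))) := h1
    rw [hX k, hS k, map_smul, map_smul, map_add, map_smul] at h2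
    have h3 := congrArg (cf om (n + 1)) h2
    rw [map_sub, map_smul, map_smul, map_smul, hSc, shift_cf om hpos X' d hX, map_add, map_smul]
      at h3
    simp only [smul_eq_mul] at h3
    have h4 := hR n k
    rw [ent_eq, ent_eq, ent_eq, ent_eq] at h4
    rw [ent_eq, ent_eq, ent_eq]
    rw [← h3, ← h4]
    ring

end Pool.Agent.W268.UB
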