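import Pool.Agent.W268.UB.Stm

/-!
Part ENT13 of project UB (problem MP_af71ff_an).
-/

namespace Pool.Agent.W268.UB

open MeasureTheory Complex Filter Topology
open scoped ComplexConjugate InnerProductSpace

noncomputable section

namespace TENT13

theorem ring13 {R : Type*} [Ring R] (ρ A A' S Ss us us' : R) (hc : ∀ x, ρ * x = x * ρ)
    (hA : A * A' = 1) (hA' : A' * A = 1) (hus : us = 1 - ρ * Ss) (hu1 : us * us' = 1)
    (h1 : (1 - ρ * S) * A * S = (S - ρ) * A) (h2 : Ss * A' * us = A' * (Ss - ρ)) :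
    (1 - Ss * S) * A * (1 + ρ * S) = (1 - ρ * Ss) * A * (1 - Ss * S) := by
  have c1 : ∀ x y : R, x * (ρ * y) = ρ * (x * y) := by
    intro x y
    rw [← mul_assoc, ← hc, mul_assoc]
  have c2 : ∀ x : R, x * ρ = ρ * x := fun x => (hc x).symm
  have h3 : A * Ss * A' * us = Ss - ρ := by
    have e : A * Ss * A' * us = A * (Ss * A' * us) := by noncomm_ring
    rw [e, h2, ← mul_assoc, hA, one_mul]
  have h4 : us * (Ss - ρ) = (Ss - ρ) * us := by
    rw [hus]
    simp only [mul_sub, sub_mul, mul_one, one_mul, mul_assoc, c1, c2]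
    abel
  have h5 : us * A * Ss * A' = Ss - ρ := by
    have e : (us * A * Ss * A') * us = (Ss - ρ) * us := by
      have e : (us * A * Ss * A') * us = us * (A * Ss * A' * us) := by noncomm_ring
      rw [e, h3, h4]
    have e2 := congrArg (fun x => x * us') e
    simp only [mul_assoc, hu1, mul_one] at e2
    rw [← e2]
    noncomm_ring
  have h6 : us * A * Ss = (Ss - ρ) * A := by
    rw [← h5, mul_assoc _ A' A, hA', mul_one]
  have h7 : (1 - ρ * Ss) * A * (1 - Ss * S) = (1 - ρ * Ss) * A - (Ss - ρ) * A * S := by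
    rw [← h6, hus]
    noncomm_ring
  rw [h7]
  have h8 : Ss * ((1 - ρ * S) * A * S) = Ss * ((S - ρ) * A) := by rw [h1]
  simp only [mul_sub, sub_mul, mul_add, add_mul, mul_one, one_mul, mul_assoc, c1, c2] at h8 ⊢
  rw [sub_eq_sub_iff_add_eq_add] at h8
  have h9 : Ss * (S * A) = Ss * (A * S) + ρ * (Ss * A) - ρ * (Ss * (S * (A * S))) := by
    rw [eq_sub_iff_add_eq, h8]
  rw [h9]
  abel

theorem coord (g : H) (n : ℤ) : ⟪e n, g⟫_ℂ = g n := by
  unfold e
  rw [lp.inner_single_left]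
  simp

theorem e_apply (n m : ℤ) : (e n : H) m = if m = n then 1 else 0 := by
  unfold e
  rw [lp.single_apply]
  by_cases h : m = n
  · subst h
    simp
  · simp [h]

/-- coordinates of the adjoint of a weighted permutation -/
theorem adj_coord (T : H →L[ℂ] H) (c : ℤ → ℂ) (σ : ℤ → ℤ) (hT : ∀ n, T (e n) = c n • e (σ n))
    (g : H) (n : ℤ) : (ContinuousLinearMap.adjoint T g) n = conj (c n) * g (σ n) := by
  rw [← coord, ContinuousLinearMap.adjoint_inner_right, hT, inner_smul_left, coord]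

theorem op_coord (T : H →L[ℂ] H) (c : ℤ → ℂ) (σ : ℤ ≃ ℤ) (hT : ∀ n, T (e n) = c n • e (σ n))
    (g : H) (n : ℤ) : (T g) (σ n) = c n * g n := by
  have h : ContinuousLinearMap.adjoint T (e (σ n)) = conj (c n) • e n := by
    ext m
    rw [adj_coord T c σ hT, lp.coeFn_smul, Pi.smul_apply, e_apply, e_apply]
    by_cases hm : m = n
    · subst hm
      simp
    · have : σ m ≠ σ n := fun h => hm (σ.injective h)
      simp [hm, this]
  rw [← coord, ← ContinuousLinearMap.adjoint_inner_left, h, inner_smul_left, coord]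
  simp

theorem shift_e (om : ℤ → ℝ) (S : H →L[ℂ] H) (hom : IsOm om) (hS : IsShift om S) (n : ℤ) :
    S (e n) = (((om (n + 1) / om n : ℝ)) : ℂ) • e (n + 1) := by
  have h := hS n
  unfold E at h
  rw [map_smul] at h
  have hn : ((om n : ℝ) : ℂ) ≠ 0 := by
    exact_mod_cast (hom.1 n).ne'
  have h2 : S (e n) = (((om n : ℝ) : ℂ))⁻¹ • (((om (n + 1) : ℝ) : ℂ) • e (n + 1)) := by
    rw [← h, smul_smul, inv_mul_cancel₀ hn, one_smul]
  rw [h2, smul_smul]
  congr 1
  push_cast
  field_simp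

end TENT13

open TENT13 in
theorem t_ENT13 : S_ENT13 := by
  intro om S hom hS r A V ga hAu hru hVu hga hV hAV h1 n k
  obtain ⟨Vu, hVu⟩ := hVu
  set V' : H →L[ℂ] H := (Vu⁻¹ : (H →L[ℂ] H)ˣ).1 with hV'
  have hVV' : V * V' = 1 := by rw [hV', ← hVu]; exact Vu.mul_inv
  have hV'V : V' * V = 1 := by rw [hV', ← hVu]; exact Vu.inv_mul
  have hgac : ∀ n, ((ga n : ℝ) : ℂ) ≠ 0 := fun n => by exact_mod_cast (hga n).ne'
  have homc : ∀ n, ((om n : ℝ) : ℂ) ≠ 0 := fun n => by exact_mod_cast (hom.1 n).ne'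
  -- coordinates
  have cV : ∀ (g : H) (n : ℤ), (V g) n = ((ga n : ℝ) : ℂ) * g n := fun g n =>
    op_coord V (fun n => ((ga n : ℝ) : ℂ)) (Equiv.refl ℤ) (fun n => hV n) g n
  have cV' : ∀ (g : H) (n : ℤ), (V' g) n = g n / ((ga n : ℝ) : ℂ) := by
    intro g n
    have h : V (V' g) = g := by
      have := congrArg (fun T : H →L[ℂ] H => T g) hVV'
      simpa using this
    have h2 := cV (V' g) n
    rw [h] at h2
    rw [h2]
    field_simp [hgac n]
  have hSe := shift_e om S hom hS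
  have cS : ∀ (g : H) (n : ℤ), (S g) (n + 1) = (((om (n + 1) / om n : ℝ)) : ℂ) * g n := fun g n =>
    op_coord S (fun n => (((om (n + 1) / om n : ℝ)) : ℂ)) (Equiv.addRight 1) (fun n => hSe n) g n
  have cSs : ∀ (g : H) (n : ℤ), (ContinuousLinearMap.adjoint S g) n =
      (((om (n + 1) / om n : ℝ)) : ℂ) * g (n + 1) := by
    intro g n
    rw [adj_coord S (fun n => (((om (n + 1) / om n : ℝ)) : ℂ)) (fun n => n + 1) hSe g n,
      Complex.conj_ofReal]
  -- the operators
  set ρ : H →L[ℂ] H := (r : ℂ) • (1 : H →L[ℂ] H) with hρ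
  set Ss : H →L[ℂ] H := V * star S * V' with hSs
  have key : (1 - Ss * S) * A * (1 + ρ * S) = (1 - ρ * Ss) * A * (1 - Ss * S) := by
    obtain ⟨Au, hAu⟩ := hAu
    have hρ1 : ∀ T : H →L[ℂ] H, ρ * T = (r : ℂ) • T := fun T => by
      rw [hρ, smul_mul_assoc, one_mul]
    have hρ2 : ∀ T : H →L[ℂ] H, T * ρ = (r : ℂ) • T := fun T => by
      rw [hρ, mul_smul_comm, mul_one]
    have hρs : star ρ = ρ := by
      rw [hρ, star_smul, star_one]
      simp
    have hAA : A * (V * star A * V') = 1 := by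
      have : A * (V * star A * V') = (A * V * star A) * V' := by noncomm_ring
      rw [this, ContinuousLinearMap.star_eq_adjoint, hAV, hVV']
    have hAA' : (V * star A * V') * A = 1 := by
      have e1 : (V * star A * V') = (Au⁻¹ : (H →L[ℂ] H)ˣ).1 := by
        have e2 : A = Au.1 := hAu.symm
        calc (V * star A * V') = (Au⁻¹ : (H →L[ℂ] H)ˣ).1 * (A * (V * star A * V')) := by
              rw [← mul_assoc, e2, Units.inv_mul, one_mul]
          _ = _ := by rw [hAA, mul_one]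
      rw [e1, ← hAu]
      exact Au.inv_mul
    have hr2 : (1 - (r : ℂ) • S) = 1 - ρ * S := by rw [hρ1]
    rw [hr2] at hru h1
    obtain ⟨ru, hru⟩ := hru
    have hst : star (1 - ρ * S) = 1 - ρ * star S := by
      rw [star_sub, star_one, star_mul, hρs, hρ1, hρ2]
    have hus : V * star (1 - ρ * S) * V' = 1 - ρ * Ss := by
      rw [hst, hSs, hρ1, hρ1, mul_sub, sub_mul, mul_one, hVV', mul_smul_comm, smul_mul_assoc]
    have h2' : star S * star A * star (1 - ρ * S) = star A * (star S - ρ) := by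
      have := congrArg star h1
      rw [star_mul, star_mul (1 - ρ * S) A, star_mul (S - ρ) A, star_sub S ρ, hρs] at this
      rw [← this, mul_assoc]
    refine ring13 ρ A (V * star A * V') S Ss (V * star (1 - ρ * S) * V')
      (V * star (ru⁻¹ : (H →L[ℂ] H)ˣ).1 * V') ?_ hAA hAA' hus ?_ h1 ?_
    · intro x
      rw [hρ1, hρ2]
    · have e1 : star (1 - ρ * S) * star (ru⁻¹ : (H →L[ℂ] H)ˣ).1 = 1 := by
        rw [← star_mul, ← hru, Units.inv_mul, star_one]
      calc V * star (1 - ρ * S) * V' * (V * star (ru⁻¹ : (H →L[ℂ] H)ˣ).1 * V')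
          = V * star (1 - ρ * S) * (V' * V) * star (ru⁻¹ : (H →L[ℂ] H)ˣ).1 * V' := by noncomm_ring
        _ = V * (star (1 - ρ * S) * star (ru⁻¹ : (H →L[ℂ] H)ˣ).1) * V' := by
            rw [hV'V]; noncomm_ring
        _ = 1 := by rw [e1, mul_one, hVV']
    · calc Ss * (V * star A * V') * (V * star (1 - ρ * S) * V')
          = V * star S * (V' * V) * star A * (V' * V) * star (1 - ρ * S) * V' := by
            rw [hSs]; noncomm_ring
        _ = V * (star S * star A * star (1 - ρ * S)) * V' := by rw [hV'V]; noncomm_ring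
        _ = V * (star A * (star S - ρ)) * V' := by rw [h2']
        _ = V * star A * V' * (Ss - ρ) := by
            rw [hSs]
            have : V * star A * V' * (V * star S * V' - ρ) =
              V * star A * (V' * V) * star S * V' - V * star A * V' * ρ := by noncomm_ring
            rw [this, hV'V, hρ2, mul_one, mul_sub, mul_sub, sub_mul, hρ2, mul_smul_comm,
              smul_mul_assoc]
            noncomm_ring
  have hρv : ∀ g : H, ρ g = (r : ℂ) • g := fun g => by
    rw [hρ]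
    rfl
  have cSV : ∀ (g : H) (n : ℤ), (Ss g) n =
      ((ga n : ℝ) : ℂ) * ((((om (n + 1) / om n : ℝ)) : ℂ) * (g (n + 1) / ((ga (n + 1) : ℝ) : ℂ))) := by
    intro g n
    rw [hSs]
    show (V (star S (V' g))) n = _
    rw [cV, ContinuousLinearMap.star_eq_adjoint, cSs, cV']
  set s : ℤ → ℝ := fun n => (om (n + 1) ^ 2 / ga (n + 1)) / (om n ^ 2 / ga n) with hs
  have cD : ∀ (g : H) (n : ℤ), (Ss (S g)) n = ((s n : ℝ) : ℂ) * g n := by
    intro g n
    rw [cSV, cS, hs]
    push_cast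
    have a1 := hgac n
    have a2 := hgac (n + 1)
    have a3 := homc n
    field_simp
  have hDE : Ss (S (E om k)) = ((s k : ℝ) : ℂ) • E om k := by
    ext m
    rw [cD, lp.coeFn_smul, Pi.smul_apply, smul_eq_mul]
    unfold E
    rw [lp.coeFn_smul, Pi.smul_apply, e_apply]
    by_cases hm : m = k
    · subst hm
      rfl
    · simp [hm]
  have key2 := congrArg (fun T : H →L[ℂ] H => (T (E om k)) n) key
  have l1 : (((1 - Ss * S) * A * (1 + ρ * S)) (E om k)) n =
      (1 - ((s n : ℝ) : ℂ)) * ((A (E om k)) n + r * (A (E om (k + 1))) n) := by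
    have e1 : ((1 - Ss * S) * A * (1 + ρ * S)) (E om k) =
        A (E om k) + (r : ℂ) • A (E om (k + 1)) -
          Ss (S (A (E om k) + (r : ℂ) • A (E om (k + 1)))) := by
      have e2 : (1 + ρ * S) (E om k) = E om k + (r : ℂ) • E om (k + 1) := by
        show E om k + ρ (S (E om k)) = _
        rw [hS, hρv]
      show ((1 - Ss * S) (A ((1 + ρ * S) (E om k)))) = _
      rw [e2, map_add, map_smul]
      rfl
    rw [e1, lp.coeFn_sub, Pi.sub_apply, cD, lp.coeFn_add, Pi.add_apply, lp.coeFn_smul,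
      Pi.smul_apply, smul_eq_mul]
    ring
  have l2 : (((1 - ρ * Ss) * A * (1 - Ss * S)) (E om k)) n =
      (1 - ((s k : ℝ) : ℂ)) * ((A (E om k)) n - r * (((ga n : ℝ) : ℂ) *
        ((((om (n + 1) / om n : ℝ)) : ℂ) * ((A (E om k)) (n + 1) / ((ga (n + 1) : ℝ) : ℂ))))) := by
    have e1 : ((1 - ρ * Ss) * A * (1 - Ss * S)) (E om k) =
        (1 - ((s k : ℝ) : ℂ)) • (A (E om k) - (r : ℂ) • Ss (A (E om k))) := by
      have e2 : (1 - Ss * S) (E om k) = (1 - ((s k : ℝ) : ℂ)) • E om k := by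
        show E om k - Ss (S (E om k)) = _
        rw [hDE, sub_smul, one_smul]
      show ((1 - ρ * Ss) (A ((1 - Ss * S) (E om k)))) = _
      rw [e2, map_smul, map_smul]
      congr 1
    rw [e1, lp.coeFn_smul, Pi.smul_apply, lp.coeFn_sub, Pi.sub_apply, lp.coeFn_smul,
      Pi.smul_apply, cSV, smul_eq_mul, smul_eq_mul]
  simp only [] at key2
  rw [l1, l2] at key2
  show ((1 - s n : ℝ) : ℂ) * (ent om A n k + r * ent om A n (k + 1)) =
    ((1 - s k : ℝ) : ℂ) * (ent om A n k - r * ((s n : ℝ) : ℂ) * ent om A (n + 1) k)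
  have a1 := hgac n
  have a2 := hgac (n + 1)
  have a3 := homc n
  have a4 := homc (n + 1)
  have key3 := congrArg (fun z => z / ((om n : ℝ) : ℂ)) key2
  simp only [] at key3
  unfold ent
  rw [ofReal_sub, ofReal_sub, ofReal_one]
  have r1 : (1 - ((s n : ℝ) : ℂ)) * ((A (E om k)) n / ((om n : ℝ) : ℂ) +
      r * ((A (E om (k + 1))) n / ((om n : ℝ) : ℂ))) =
      (1 - ((s n : ℝ) : ℂ)) * ((A (E om k)) n + r * (A (E om (k + 1))) n) / ((om n : ℝ) : ℂ) := by
    ring
  rw [r1, key3, mul_div_assoc]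
  congr 1
  have r2 : ((s n : ℝ) : ℂ) = (((om (n + 1) : ℝ) : ℂ) ^ 2 / ((ga (n + 1) : ℝ) : ℂ)) /
      (((om n : ℝ) : ℂ) ^ 2 / ((ga n : ℝ) : ℂ)) := by
    rw [hs]
    push_cast
    rfl
  rw [r2, ofReal_div]
  field_simp

end

end Pool.Agent.W268.UB
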