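import Pool.Agent.W268.UB.Stm

/-!
Project UB, part EV1: a relatively compact orbit of a unitary operator gives a compact symmetric
operator commuting with it.
-/

namespace Pool.Agent.W268.UB

open MeasureTheory Complex Filter Topology
open scoped ComplexConjugate InnerProductSpace

noncomputable section

namespace TEV1

theorem nrm_pow {K : Type} [NormedAddCommGroup K] [InnerProductSpace ℂ K] [CompleteSpace K]
    (U : K →L[ℂ] K) (hU : U ∈ unitary (K →L[ℂ] K)) (n : ℕ) (x : K) : ‖(U ^ n) x‖ = ‖x‖ := by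
  have h : U ^ n ∈ unitary (K →L[ℂ] K) := pow_mem hU n
  have h1 : ⟪(U ^ n) x, (U ^ n) x⟫_ℂ = ⟪x, x⟫_ℂ := by
    rw [← ContinuousLinearMap.adjoint_inner_right]
    have h2 : ContinuousLinearMap.adjoint (U ^ n) ((U ^ n) x) = x := by
      have h3 := Unitary.star_mul_self_of_mem h
      rw [ContinuousLinearMap.star_eq_adjoint] at h3
      exact congrArg (fun T : K →L[ℂ] K => T x) h3
    rw [h2]
  rw [inner_self_eq_norm_sq_to_K, inner_self_eq_norm_sq_to_K] at h1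
  have h4 : ‖(U ^ n) x‖ ^ 2 = ‖x‖ ^ 2 := by exact_mod_cast h1
  exact (pow_left_inj₀ (norm_nonneg _) (norm_nonneg _) two_ne_zero).mp h4

theorem inner_map {K : Type} [NormedAddCommGroup K] [InnerProductSpace ℂ K] [CompleteSpace K]
    (U : K →L[ℂ] K) (hU : U ∈ unitary (K →L[ℂ] K)) (x y : K) : ⟪U x, U y⟫_ℂ = ⟪x, y⟫_ℂ := by
  rw [← ContinuousLinearMap.adjoint_inner_right]
  have h2 : ContinuousLinearMap.adjoint U (U y) = y := by
    have h3 := Unitary.star_mul_self_of_mem hU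
    rw [ContinuousLinearMap.star_eq_adjoint] at h3
    exact congrArg (fun T : K →L[ℂ] K => T y) h3
  rw [h2]

theorem Lam_zero {Lam : (ℕ → ℂ) → ℂ} (hL : IsBL Lam) : Lam (fun _ => 0) = 0 := hL.2.2.2.2.1 0

theorem Bd_mul {K : Type} [NormedAddCommGroup K] [InnerProductSpace ℂ K]
    (v v' : ℕ → K) (M M' : ℝ) (hv : ∀ n, ‖v n‖ ≤ M) (hv' : ∀ n, ‖v' n‖ ≤ M') (y w : K) :
    Bd (fun n => ⟪v n, y⟫_ℂ * ⟪w, v' n⟫_ℂ) := by
  refine ⟨(M * ‖y‖) * (‖w‖ * M'), fun n => ?_⟩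
  rw [norm_mul]
  have hM : 0 ≤ M := (norm_nonneg _).trans (hv 0)
  refine mul_le_mul ?_ ?_ (norm_nonneg _) (mul_nonneg hM (norm_nonneg _))
  · exact (norm_inner_le_norm _ _).trans (mul_le_mul_of_nonneg_right (hv n) (norm_nonneg _))
  · exact (norm_inner_le_norm _ _).trans (mul_le_mul_of_nonneg_left (hv' n) (norm_nonneg _))

theorem Lam_sum {Lam : (ℕ → ℂ) → ℂ} (hL : IsBL Lam) {ι : Type} (J : Finset ι) (a : ι → ℕ → ℂ)
    (ha : ∀ j, Bd (a j)) :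
    Bd (fun n => ∑ j ∈ J, a j n) ∧ Lam (fun n => ∑ j ∈ J, a j n) = ∑ j ∈ J, Lam (a j) := by
  classical
  induction J using Finset.induction_on with
  | empty =>
    refine ⟨⟨0, fun n => by simp⟩, ?_⟩
    simp only [Finset.sum_empty]
    exact Lam_zero hL
  | insert i J hi ih =>
    simp only [Finset.sum_insert hi]
    obtain ⟨M1, h1⟩ := ha i
    obtain ⟨M2, h2⟩ := ih.1
    refine ⟨⟨M1 + M2, fun n => (norm_add_le _ _).trans (add_le_add (h1 n) (h2 n))⟩, ?_⟩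
    have h3 := hL.1 (a i) (fun n => ∑ j ∈ J, a j n) ⟨M1, h1⟩ ⟨M2, h2⟩
    rw [← ih.2]
    exact h3

end TEV1

open TEV1

theorem t_EV1 : S_BL → S_OBL → S_EV1 := by
  rintro ⟨Lam, hL⟩ hO K _ _ _ U hU x hx hQ
  have hL' := hL
  obtain ⟨hadd, hmul, hbd, hshift, hconst, hconj, hpos⟩ := hL
  set v : ℕ → K := fun n => (U ^ n) x with hv
  have hvn : ∀ n, ‖v n‖ = ‖x‖ := fun n => nrm_pow U hU n x
  have hvn' : ∀ n, ‖v n‖ ≤ ‖x‖ := fun n => (hvn n).le
  have hvs : ∀ n, v (n + 1) = U (v n) := fun n => by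
    simp only [hv, pow_succ', mul_apply_eq_comp]
  have hxpos : 0 < ‖x‖ := norm_pos_iff.mpr hx
  set Z : ℕ → K →L[ℂ] K := fun n => (innerSL ℂ (v n)).smulRight (v n) with hZ
  have hZapp : ∀ n y, Z n y = ⟪v n, y⟫_ℂ • v n := fun n y => by
    simp [hZ]
  have hZn : ∀ n, ‖Z n‖ ≤ ‖x‖ * ‖x‖ := fun n => by
    refine ContinuousLinearMap.opNorm_le_bound _ (by positivity) fun y => ?_
    rw [hZapp, norm_smul]
    calc ‖⟪v n, y⟫_ℂ‖ * ‖v n‖ ≤ (‖v n‖ * ‖y‖) * ‖v n‖ :=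
          mul_le_mul_of_nonneg_right (norm_inner_le_norm _ _) (norm_nonneg _)
      _ = ‖x‖ * ‖x‖ * ‖y‖ := by rw [hvn]; ring
  obtain ⟨P, hPn, hP0⟩ := hO Lam hL' K Z (‖x‖ * ‖x‖) hZn
  have hP : ∀ y w : K, ⟪w, P y⟫_ℂ = Lam (fun n => ⟪v n, y⟫_ℂ * ⟪w, v n⟫_ℂ) := by
    intro y w
    rw [hP0]
    congr 1
    funext n
    rw [hZapp, inner_smul_right]
  have hBd : ∀ y w : K, Bd (fun n => ⟪v n, y⟫_ℂ * ⟪w, v n⟫_ℂ) :=
    fun y w => Bd_mul v v ‖x‖ ‖x‖ hvn' hvn' y w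
  -- symmetric
  have hsym : (P : K →ₗ[ℂ] K).IsSymmetric := by
    intro y z
    show ⟪P y, z⟫_ℂ = ⟪y, P z⟫_ℂ
    rw [← inner_conj_symm (P y) z, hP, hP, ← hconj _ (hBd _ _)]
    congr 1
    funext n
    rw [map_mul, inner_conj_symm, inner_conj_symm, mul_comm]
  -- commutes
  have hcomm' : ∀ y, P (U y) = U (P y) := by
    intro y
    refine ext_inner_left ℂ fun w => ?_
    rw [← ContinuousLinearMap.adjoint_inner_left U (P y) w, hP, hP,
      ← hshift (fun n => ⟪v n, U y⟫_ℂ * ⟪w, v n⟫_ℂ) (hBd _ _)]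
    congr 1
    funext n
    rw [hvs, inner_map U hU, ContinuousLinearMap.adjoint_inner_left]
  have hcomm : P * U = U * P := by
    ext y
    exact hcomm' y
  -- compact
  have hcpt : IsCompactOperator P := by
    have hcl := isClosed_setOfPred_isCompactOperator (σ₁₂ := RingHom.id ℂ) (M₁ := K) (M₂ := K)
    have hmem : P ∈ closure {f : K →L[ℂ] K | IsCompactOperator f} := by
      rw [Metric.mem_closure_iff]
      intro ε hε
      obtain ⟨Q, hQc, hQv⟩ := hQ (ε / (2 * ‖x‖)) (by positivity)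
      refine ⟨Q ∘L P, ?_, ?_⟩
      · show IsCompactOperator (Q ∘L P)
        exact hQc.comp_clm P
      · rw [dist_eq_norm]
        refine lt_of_le_of_lt (ContinuousLinearMap.opNorm_le_bound _
          (by positivity : (0 : ℝ) ≤ ε / 2) fun y => ?_) (by linarith)
        have key : ∀ w : K, ‖⟪w, P y - Q (P y)⟫_ℂ‖ ≤ ε / 2 * ‖y‖ * ‖w‖ := by
          intro w
          have h1 : ⟪w, P y - Q (P y)⟫_ℂ =
              Lam (fun n => ⟪v n, y⟫_ℂ * ⟪w, v n - Q (v n)⟫_ℂ) := by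
            have h2 := hadd (fun n => ⟪v n, y⟫_ℂ * ⟪w, v n⟫_ℂ)
              (fun n => (-1 : ℂ) * (⟪v n, y⟫_ℂ * ⟪ContinuousLinearMap.adjoint Q w, v n⟫_ℂ))
              (hBd y w) (by
                obtain ⟨M, hM⟩ := hBd y (ContinuousLinearMap.adjoint Q w)
                exact ⟨M, fun n => by simpa using hM n⟩)
            rw [hmul _ _ (hBd _ _), ← hP, ← hP, ContinuousLinearMap.adjoint_inner_left] at h2
            rw [inner_sub_right]
            have h3 : (fun n => ⟪v n, y⟫_ℂ * ⟪w, v n - Q (v n)⟫_ℂ) =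
                (fun n => ⟪v n, y⟫_ℂ * ⟪w, v n⟫_ℂ +
                  (-1 : ℂ) * (⟪v n, y⟫_ℂ * ⟪ContinuousLinearMap.adjoint Q w, v n⟫_ℂ)) := by
              funext n
              rw [ContinuousLinearMap.adjoint_inner_left, inner_sub_right]
              ring
            rw [h3, h2]
            ring
          rw [h1]
          refine hbd _ _ fun n => ?_
          rw [norm_mul]
          calc ‖⟪v n, y⟫_ℂ‖ * ‖⟪w, v n - Q (v n)⟫_ℂ‖
              ≤ (‖x‖ * ‖y‖) * (‖w‖ * (ε / (2 * ‖x‖))) := by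
                refine mul_le_mul ?_ ?_ (norm_nonneg _) (by positivity)
                · exact (norm_inner_le_norm _ _).trans
                    (mul_le_mul_of_nonneg_right (hvn' n) (norm_nonneg _))
                · exact (norm_inner_le_norm _ _).trans
                    (mul_le_mul_of_nonneg_left (hQv n) (norm_nonneg _))
            _ = ε / 2 * ‖y‖ * ‖w‖ := by
                field_simp
        show ‖P y - Q (P y)‖ ≤ ε / 2 * ‖y‖
        have h5 := key (P y - Q (P y))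
        rw [inner_self_eq_norm_sq_to_K] at h5
        have h6 : ‖((‖P y - Q (P y)‖ : ℂ)) ^ 2‖ = ‖P y - Q (P y)‖ * ‖P y - Q (P y)‖ := by
          rw [norm_pow, Complex.norm_real, norm_norm, pow_two]
        have h7 : ‖P y - Q (P y)‖ * ‖P y - Q (P y)‖ ≤ (ε / 2 * ‖y‖) * ‖P y - Q (P y)‖ := by
          rw [← h6]
          exact_mod_cast h5
        rcases (norm_nonneg (P y - Q (P y))).eq_or_lt with h8 | h8
        · rw [← h8]; positivity
        · exact le_of_mul_le_mul_right h7 h8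
    rw [hcl.closure_eq] at hmem
    exact hmem
  refine ⟨P, hcpt, hsym, hcomm, ?_⟩
  intro hPx
  -- Lam of the squares vanishes
  have hPv : ∀ j, P (v j) = 0 := by
    intro j
    induction j with
    | zero => simpa [hv] using hPx
    | succ j ih => rw [hvs, hcomm', ih, map_zero]
  have hz : ∀ j, Lam (fun n => ⟪v n, v j⟫_ℂ * ⟪v j, v n⟫_ℂ) = 0 := by
    intro j
    rw [← hP, hPv, inner_zero_right]
  obtain ⟨Q, hQc, hQv⟩ := hQ (‖x‖ / 8) (by positivity)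
  have htb : TotallyBounded (Q '' Set.range v) := by
    have h1 := (IsCompactOperator.isCompact_closure_image_closedBall (f := (Q : K →ₗ[ℂ] K))
      hQc ‖x‖).totallyBounded
    refine h1.subset ?_
    refine Set.Subset.trans ?_ subset_closure
    refine Set.image_mono ?_
    rintro _ ⟨n, rfl⟩
    simp [hvn]
  obtain ⟨t, hts, htf, htc⟩ := Metric.finite_approx_of_totallyBounded htb (‖x‖ / 8) (by positivity)
  obtain ⟨t', ht'f, ht'⟩ : ∃ J : Finset ℕ, True ∧ ∀ n, ∃ j ∈ J, ‖Q (v n) - Q (v j)‖ < ‖x‖ / 8 := by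
    have hch : ∀ y ∈ t, ∃ j, Q (v j) = y := by
      intro y hy
      obtain ⟨_, ⟨j, rfl⟩, h⟩ := hts hy
      exact ⟨j, h⟩
    choose! f hf using hch
    refine ⟨htf.toFinset.image f, trivial, fun n => ?_⟩
    have h1 := htc ⟨v n, ⟨n, rfl⟩, rfl⟩
    simp only [Set.mem_iUnion, Metric.mem_ball, exists_prop] at h1
    obtain ⟨y, hy, hyn⟩ := h1
    refine ⟨f y, Finset.mem_image_of_mem _ (by simpa using hy), ?_⟩
    rw [hf y hy, ← dist_eq_norm]
    exact hyn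
  have hbig : ∀ n, ∃ j ∈ t', ‖x‖ ^ 2 / 2 ≤ ‖⟪v n, v j⟫_ℂ‖ := by
    intro n
    obtain ⟨j, hj, hjn⟩ := ht' n
    refine ⟨j, hj, ?_⟩
    have h1 : ‖v n - v j‖ ≤ ‖x‖ / 2 := by
      have e1 : v n - v j = (v n - Q (v n)) + (Q (v n) - Q (v j)) - (v j - Q (v j)) := by abel
      rw [e1]
      have e2 := norm_sub_le ((v n - Q (v n)) + (Q (v n) - Q (v j))) (v j - Q (v j))
      have e3 := norm_add_le (v n - Q (v n)) (Q (v n) - Q (v j))
      have e4 := hQv n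
      have e5 := hQv j
      have e4' : ‖v n - Q (v n)‖ ≤ ‖x‖ / 8 := e4
      have e5' : ‖v j - Q (v j)‖ ≤ ‖x‖ / 8 := e5
      linarith
    have h2 : ⟪v n, v j⟫_ℂ = ⟪v n, v n⟫_ℂ - ⟪v n, v n - v j⟫_ℂ := by
      rw [inner_sub_right]; ring
    have h3 : ‖⟪v n, v n⟫_ℂ‖ = ‖x‖ ^ 2 := by
      rw [inner_self_eq_norm_sq_to_K, norm_pow]
      simp [hvn]
    have h4 : ‖⟪v n, v n - v j⟫_ℂ‖ ≤ ‖x‖ * (‖x‖ / 2) :=
      (norm_inner_le_norm _ _).trans (by
        rw [hvn]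
        exact mul_le_mul_of_nonneg_left h1 (norm_nonneg _))
    have h5 := norm_sub_norm_le (⟪v n, v n⟫_ℂ) (⟪v n, v n - v j⟫_ℂ)
    rw [← h2, h3] at h5
    nlinarith
  -- final contradiction
  have hsq : ∀ n j, ⟪v n, v j⟫_ℂ * ⟪v j, v n⟫_ℂ = ((‖⟪v n, v j⟫_ℂ‖ ^ 2 : ℝ) : ℂ) := by
    intro n j
    rw [← inner_conj_symm (v j) (v n), Complex.mul_conj, Complex.normSq_eq_norm_sq]
  have hS := Lam_sum hL' t' (fun j n => ⟪v n, v j⟫_ℂ * ⟪v j, v n⟫_ℂ) (fun j => hBd (v j) (v j))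
  obtain ⟨⟨M, hM⟩, hS2⟩ := hS
  have hS3 : Lam (fun n => ∑ j ∈ t', ⟪v n, v j⟫_ℂ * ⟪v j, v n⟫_ℂ) = 0 := by
    rw [hS2]
    exact Finset.sum_eq_zero fun j _ => hz j
  set u : ℕ → ℝ := fun n => (∑ j ∈ t', ‖⟪v n, v j⟫_ℂ‖ ^ 2) - ‖x‖ ^ 4 / 4 with hu
  have hu0 : ∀ n, 0 ≤ u n := by
    intro n
    obtain ⟨j, hj, hjn⟩ := hbig n
    have h1 : ‖⟪v n, v j⟫_ℂ‖ ^ 2 ≤ ∑ j ∈ t', ‖⟪v n, v j⟫_ℂ‖ ^ 2 :=
      Finset.single_le_sum (f := fun j => ‖⟪v n, v j⟫_ℂ‖ ^ 2) (fun i _ => by positivity) hj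
    have h2 : (‖x‖ ^ 2 / 2) ^ 2 ≤ ‖⟪v n, v j⟫_ℂ‖ ^ 2 := pow_le_pow_left₀ (by positivity) hjn 2
    simp only [hu]
    nlinarith
  have hcast : ∀ n, ((u n : ℝ) : ℂ) = (∑ j ∈ t', ⟪v n, v j⟫_ℂ * ⟪v j, v n⟫_ℂ) +
      ((-(‖x‖ ^ 4 / 4) : ℝ) : ℂ) := by
    intro n
    simp only [hu, hsq]
    push_cast
    ring
  have hub : ∃ M, ∀ n, |u n| ≤ M := by
    refine ⟨M + ‖x‖ ^ 4 / 4, fun n => ?_⟩
    have h1 : |u n| = ‖((u n : ℝ) : ℂ)‖ := by rw [Complex.norm_real, Real.norm_eq_abs]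
    rw [h1, hcast]
    refine (norm_add_le _ _).trans (add_le_add (hM n) ?_)
    rw [Complex.norm_real, Real.norm_eq_abs, abs_neg, abs_of_nonneg (by positivity)]
  have hfin := (hpos u hub hu0).1
  have hval : Lam (fun n => ((u n : ℝ) : ℂ)) = ((-(‖x‖ ^ 4 / 4) : ℝ) : ℂ) := by
    have h1 : (fun n => ((u n : ℝ) : ℂ)) = (fun n => (∑ j ∈ t', ⟪v n, v j⟫_ℂ * ⟪v j, v n⟫_ℂ) +
      ((-(‖x‖ ^ 4 / 4) : ℝ) : ℂ)) := funext hcast
    rw [h1, hadd _ (fun _ => ((-(‖x‖ ^ 4 / 4) : ℝ) : ℂ)) ⟨M, hM⟩ ⟨_, fun _ => le_rfl⟩, hS3, hconst,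
      zero_add]
  rw [hval, Complex.ofReal_re] at hfin
  have : 0 < ‖x‖ ^ 4 := by positivity
  linarith

end

end Pool.Agent.W268.UB
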