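import Pool.Agent.W268.UB.Stm

/-! Part EV2 of project UB. -/

namespace Pool.Agent.W268.UB

open MeasureTheory Complex Filter Topology
open scoped ComplexConjugate InnerProductSpace

namespace TEV2

open Module.End

variable {K : Type} [NormedAddCommGroup K] [InnerProductSpace ℂ K] [CompleteSpace K]

theorem inner_map (U : K →L[ℂ] K) (hU : U ∈ unitary (K →L[ℂ] K)) (y z : K) :
    ⟪U y, U z⟫_ℂ = ⟪y, z⟫_ℂ := by
  have h1 : star U * U = 1 := (Unitary.mem_iff.1 hU).1
  have h2 : ⟪y, (star U * U) z⟫_ℂ = ⟪U y, U z⟫_ℂ := by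
    rw [ContinuousLinearMap.star_eq_adjoint, ContinuousLinearMap.mul_apply,
      ContinuousLinearMap.adjoint_inner_right]
  rw [← h2, h1]; rfl

theorem norm_map (U : K →L[ℂ] K) (hU : U ∈ unitary (K →L[ℂ] K)) (y : K) :
    ‖U y‖ = ‖y‖ := by
  have h := inner_map U hU y y
  rw [inner_self_eq_norm_sq_to_K, inner_self_eq_norm_sq_to_K] at h
  have h2 : ‖U y‖ ^ 2 = ‖y‖ ^ 2 := by exact_mod_cast h
  exact (pow_left_inj₀ (norm_nonneg _) (norm_nonneg _) two_ne_zero).1 h2

/-- the set of vectors of the eigenspace orthogonal to the eigenvectors of `U` in it -/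
def Wsp (U : K →L[ℂ] K) (V : Submodule ℂ K) : Submodule ℂ K where
  carrier := {y | y ∈ V ∧ ∀ (lam : ℂ) (z : K), ‖lam‖ = 1 → z ∈ V → U z = lam • z → ⟪z, y⟫_ℂ = 0}
  add_mem' := by
    rintro a b ⟨ha, ha'⟩ ⟨hb, hb'⟩
    refine ⟨V.add_mem ha hb, fun lam z h1 h2 h3 => ?_⟩
    rw [inner_add_right, ha' lam z h1 h2 h3, hb' lam z h1 h2 h3, add_zero]
  zero_mem' := ⟨V.zero_mem, fun _ _ _ _ _ => inner_zero_right _⟩
  smul_mem' := by
    rintro c a ⟨ha, ha'⟩
    refine ⟨V.smul_mem c ha, fun lam z h1 h2 h3 => ?_⟩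
    rw [inner_smul_right, ha' lam z h1 h2 h3, mul_zero]

theorem Wsp_bot (U : K →L[ℂ] K) (hU : U ∈ unitary (K →L[ℂ] K)) (V : Submodule ℂ K)
    [FiniteDimensional ℂ V] (hV : ∀ y ∈ V, U y ∈ V) : Wsp U V = ⊥ := by
  by_contra hne
  have hsub : Wsp U V ≤ V := fun y hy => hy.1
  haveI : FiniteDimensional ℂ (Wsp U V) := Submodule.finiteDimensional_of_le hsub
  have hinv : ∀ y ∈ Wsp U V, (U : K →ₗ[ℂ] K) y ∈ Wsp U V := by
    rintro y ⟨hy, hy'⟩
    refine ⟨hV y hy, fun lam z h1 h2 h3 => ?_⟩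
    have h4 := inner_map U hU z y
    rw [hy' lam z h1 h2 h3, h3, inner_smul_left] at h4
    have hlam : (starRingEnd ℂ) lam ≠ 0 := by
      intro h0
      rw [map_eq_zero] at h0
      rw [h0, norm_zero] at h1
      exact zero_ne_one h1
    exact (mul_eq_zero.1 h4).resolve_left hlam
  haveI : Nontrivial (Wsp U V) := Submodule.nontrivial_iff_ne_bot.2 hne
  obtain ⟨lam, hlam⟩ := Module.End.exists_eigenvalue ((U : K →ₗ[ℂ] K).restrict hinv)
  obtain ⟨z, hz⟩ := hlam.exists_hasEigenvector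
  have hz1 : U (z : K) = lam • (z : K) := by
    have := hz.apply_eq_smul
    have h2 := congrArg (fun w : Wsp U V => (w : K)) this
    simpa using h2
  have hz0 : (z : K) ≠ 0 := by
    intro h
    exact hz.2 (Subtype.ext h)
  have hn : ‖lam‖ = 1 := by
    have h := norm_map U hU (z : K)
    rw [hz1, norm_smul] at h
    have hpos : ‖(z : K)‖ ≠ 0 := norm_ne_zero_iff.2 hz0
    have : ‖lam‖ * ‖(z : K)‖ = 1 * ‖(z : K)‖ := by rw [h, one_mul]
    exact mul_right_cancel₀ hpos this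
  have h5 := z.2.2 lam z hn z.2.1 hz1
  exact hz0 (inner_self_eq_zero.1 h5)

end TEV2

open TEV2 Module.End in
theorem t_EV2 : S_EV2 := by
  intro K _ _ _ U P hU hP hPs hPU x hPx
  by_contra hcon
  push Not at hcon
  have hcomm : ∀ y : K, P (U y) = U (P y) := fun y => by
    have := congrArg (fun T : K →L[ℂ] K => T y) hPU
    simpa using this
  apply hPx
  -- x is orthogonal to the eigenspaces of P
  have key : ∀ mu : ℂ, mu ≠ 0 → ∀ y ∈ eigenspace (P : K →ₗ[ℂ] K) mu, ⟪y, x⟫_ℂ = 0 := by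
    intro mu hmu y hy
    haveI : FiniteDimensional ℂ (eigenspace (P : K →ₗ[ℂ] K) mu) :=
      ContinuousLinearMap.finite_dimensional_eigenspace hP mu hmu
    have hV : ∀ y ∈ eigenspace (P : K →ₗ[ℂ] K) mu, U y ∈ eigenspace (P : K →ₗ[ℂ] K) mu := by
      intro y hy
      rw [mem_eigenspace_iff] at hy ⊢
      have h1 : P y = mu • y := hy
      show P (U y) = mu • U y
      rw [hcomm, h1, map_smul]
    have hW := Wsp_bot U hU _ hV
    have hp : (eigenspace (P : K →ₗ[ℂ] K) mu).starProjection x ∈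
        Wsp U (eigenspace (P : K →ₗ[ℂ] K) mu) := by
      refine ⟨Submodule.starProjection_apply_mem _ _, fun lam z h1 h2 h3 => ?_⟩
      have h4 := hcon lam z h1 h3
      have h5 : ⟪z, x - (eigenspace (P : K →ₗ[ℂ] K) mu).starProjection x⟫_ℂ = 0 :=
        (Submodule.mem_orthogonal _ _).1 (Submodule.sub_starProjection_mem_orthogonal x) z h2
      rw [inner_sub_right, h4, zero_sub, neg_eq_zero] at h5
      exact h5
    rw [hW, Submodule.mem_bot] at hp
    have h5 : ⟪y, x - (eigenspace (P : K →ₗ[ℂ] K) mu).starProjection x⟫_ℂ = 0 :=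
      (Submodule.mem_orthogonal _ _).1 (Submodule.sub_starProjection_mem_orthogonal x) y hy
    rw [hp, sub_zero] at h5
    exact h5
  have hall : P x ∈ (⨆ mu, eigenspace (P : K →ₗ[ℂ] K) mu)ᗮ := by
    rw [← Submodule.iInf_orthogonal]
    refine (Submodule.mem_iInf _).2 fun mu => ?_
    rw [Submodule.mem_orthogonal]
    intro y hy
    have h1 : ⟪y, P x⟫_ℂ = ⟪P y, x⟫_ℂ := (hPs y x).symm
    have h2 : P y = mu • y := by
      rw [mem_eigenspace_iff] at hy; exact hy
    rw [h1, h2, inner_smul_left]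
    by_cases hmu : mu = 0
    · rw [hmu, map_zero, zero_mul]
    · rw [key mu hmu y hy, mul_zero]
  rw [ContinuousLinearMap.orthogonalComplement_iSup_eigenspaces_eq_bot hP hPs,
    Submodule.mem_bot] at hall
  exact hall

end Pool.Agent.W268.UB
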