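import Pool.Agent.W268.UB.Stm

/-!
# Project UB, part EXT: extension by density
-/

noncomputable section

namespace Pool.Agent.W268.UB

theorem t_EXT : S_EXT := by
  intro J hJ rho M hadd hsmul hbd
  let φ : C(Circle, ℂ) →ₗ[ℂ] H :=
    { toFun := fun f => J (rho f)
      map_add' := hadd
      map_smul' := hsmul }
  refine ⟨φ.extendOfNorm J.toLinearMap, fun f => ?_⟩
  exact LinearMap.extendOfNorm_eq (f := φ) (e := J.toLinearMap) hJ ⟨M, hbd⟩ f

end Pool.Agent.W268.UB
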