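import Pool.Agent.W268.UB.Stm

set_option autoImplicit false

namespace Pool.Agent.W268.UB
namespace TFORM

open MeasureTheory Complex Submodule Set
open scoped ComplexConjugate InnerProductSpace

noncomputable section

theorem zn_apply (n : ℤ) (z : Circle) : zn n z = (z : ℂ) ^ n := rfl

theorem conj_coe (z : Circle) : conj (z : ℂ) = (z : ℂ)⁻¹ := by
  rw [← Circle.coe_inv_eq_conj, Circle.coe_inv]

theorem conj_zn (n : ℤ) (z : Circle) : conj (zn n z) = (z : ℂ) ^ (-n) := by
  rw [zn_apply, map_zpow₀, conj_coe, inv_zpow, zpow_neg]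

def znAlg : StarSubalgebra ℂ C(Circle, ℂ) where
  toSubalgebra := Algebra.adjoin ℂ (range zn)
  star_mem' := by
    change Algebra.adjoin ℂ (range zn) ≤ star (Algebra.adjoin ℂ (range zn))
    refine Algebra.adjoin_le ?_
    rintro - ⟨n, rfl⟩
    exact Algebra.subset_adjoin ⟨-n, ContinuousMap.ext fun z => (conj_zn n z).symm⟩

theorem znAlg_coe : Subalgebra.toSubmodule znAlg.toSubalgebra = span ℂ (range zn) := by
  apply Algebra.adjoin_eq_span_of_subset
  refine Subset.trans ?_ Submodule.subset_span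
  intro x hx
  refine Submonoid.closure_induction (fun _ => id) ⟨0, ?_⟩ ?_ hx
  · ext1 z; simp [zn_apply]
  · rintro - - - - ⟨m, rfl⟩ ⟨n, rfl⟩
    refine ⟨m + n, ?_⟩
    ext1 z
    rw [ContinuousMap.mul_apply, zn_apply, zn_apply, zn_apply]
    exact zpow_add₀ (Circle.coe_ne_zero z) m n

theorem znAlg_sep : znAlg.SeparatesPoints := by
  intro x y hxy
  refine ⟨_, ⟨zn 1, Algebra.subset_adjoin ⟨1, rfl⟩, rfl⟩, ?_⟩
  dsimp only
  rw [zn_apply, zn_apply, zpow_one, zpow_one]
  contrapose hxy
  exact Circle.coe_injective hxy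

theorem span_zn : (span ℂ (range zn)).topologicalClosure = ⊤ := by
  rw [← znAlg_coe]
  exact congr_arg (Subalgebra.toSubmodule <| StarSubalgebra.toSubalgebra ·)
    (ContinuousMap.starSubalgebra_topologicalClosure_eq_top_of_separatesPoints znAlg znAlg_sep)

section

variable [IsProbabilityMeasure mu]

/-- the image of `z ^ n` in `L²` -/
def en (n : ℤ) : Lp ℂ 2 mu := ContinuousMap.toLp (E := ℂ) 2 mu ℂ (zn n)

theorem inner_en (n : ℤ) (f : C(Circle, ℂ)) :
    ⟪en n, ContinuousMap.toLp (E := ℂ) 2 mu ℂ f⟫_ℂ = fc f n := by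
  unfold en
  rw [ContinuousMap.inner_toLp]
  unfold fc
  refine integral_congr_ae (Filter.Eventually.of_forall fun z => ?_)
  show f z * conj (zn n z) = _
  rw [conj_zn]

theorem en_orth (h : ∀ n m : ℤ, fc (zn n) m = if n = m then 1 else 0) : Orthonormal ℂ en := by
  rw [orthonormal_iff_ite]
  intro i j
  rw [show en j = ContinuousMap.toLp (E := ℂ) 2 mu ℂ (zn j) from rfl, inner_en, h]
  simp only [eq_comm]

theorem en_span : (span ℂ (range en)).topologicalClosure = ⊤ := by
  have h := (ContinuousMap.toLp_denseRange (α := Circle) ℂ mu ℂ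
    (p := 2) (by norm_num)).topologicalClosure_map_submodule span_zn
  rw [map_span, ← range_comp] at h
  exact h

def bas (h : ∀ n m : ℤ, fc (zn n) m = if n = m then 1 else 0) : HilbertBasis ℤ ℂ (Lp ℂ 2 mu) :=
  HilbertBasis.mk (en_orth h) en_span.ge

theorem bas_apply (h : ∀ n m : ℤ, fc (zn n) m = if n = m then 1 else 0) (n : ℤ) :
    bas h n = en n := by
  unfold bas
  rw [HilbertBasis.coe_mk]

end

/-- the kernel -/
def KK (ka : Circle → ℝ) (f g : C(Circle, ℂ)) (q : Circle × Circle) : ℂ :=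
  ((ka (q.1 / q.2) : ℝ) : ℂ) * (conj (f q.1) * g q.2)

theorem ka_int [IsProbabilityMeasure mu] (hrot : ∀ w : Circle, Measure.map (fun z => w * z) mu = mu)
    (ka : Circle → ℝ) (hm : Measurable ka) (hi : Integrable ka mu) :
    Integrable (fun q : Circle × Circle => ka (q.1 / q.2)) (mu.prod mu) := by
  have hmeas : Measurable (fun q : Circle × Circle => ka (q.1 / q.2)) :=
    hm.comp (measurable_fst.div measurable_snd)
  have hmp : ∀ w : Circle, MeasurePreserving (fun z => w * z) mu mu :=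
    fun w => ⟨measurable_const_mul w, hrot w⟩
  rw [integrable_prod_iff' hmeas.aestronglyMeasurable]
  constructor
  · refine Filter.Eventually.of_forall fun y => ?_
    have h1 := ((hmp y⁻¹).integrable_comp hi.aestronglyMeasurable).2 hi
    refine h1.congr (Filter.Eventually.of_forall fun x => ?_)
    show ka (y⁻¹ * x) = ka (x / y)
    rw [div_eq_mul_inv, mul_comm]
  · have h2 : (fun y => ∫ x, ‖ka ((x, y).1 / (x, y).2)‖ ∂mu) = fun _ : Circle => ∫ x, ‖ka x‖ ∂mu := by
      funext y
      have h3 := integral_map (μ := mu) (φ := fun z => y⁻¹ * z) (f := fun x => ‖ka x‖)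
        (measurable_const_mul y⁻¹).aemeasurable (by
          rw [hrot]; exact hi.aestronglyMeasurable.norm)
      rw [hrot] at h3
      rw [h3]
      refine integral_congr_ae (Filter.Eventually.of_forall fun x => ?_)
      show ‖ka (x / y)‖ = ‖ka (y⁻¹ * x)‖
      rw [div_eq_mul_inv, mul_comm]
    have h4 := integrable_const (μ := mu) (∫ x, ‖ka x‖ ∂mu)
    rw [← h2] at h4
    exact h4

theorem KK_int [IsProbabilityMeasure mu] (hrot : ∀ w : Circle, Measure.map (fun z => w * z) mu = mu)
    (ka : Circle → ℝ) (hm : Measurable ka) (hi : Integrable ka mu) (f g : C(Circle, ℂ)) :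
    Integrable (KK ka f g) (mu.prod mu) := by
  have h1 : Integrable (fun q : Circle × Circle => ((ka (q.1 / q.2) : ℝ) : ℂ)) (mu.prod mu) :=
    (ka_int hrot ka hm hi).ofReal
  refine h1.mul_bdd (c := ‖f‖ * ‖g‖) ?_ (Filter.Eventually.of_forall fun q => ?_)
  · exact (((Complex.continuous_conj.comp (f.continuous.comp continuous_fst)).mul
      (g.continuous.comp continuous_snd)).aestronglyMeasurable)
  · rw [norm_mul, RCLike.norm_conj]
    exact mul_le_mul (f.norm_coe_le_norm _) (g.norm_coe_le_norm _) (norm_nonneg _) (norm_nonneg _)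

/-- convolution -/
def hh (ka : Circle → ℝ) (g : C(Circle, ℂ)) (x : Circle) : ℂ :=
  ∫ y, ((ka (x / y) : ℝ) : ℂ) * g y ∂mu

theorem hh_mem [IsProbabilityMeasure mu] (hrot : ∀ w : Circle, Measure.map (fun z => w * z) mu = mu)
    (hinv : Measure.map (fun z : Circle => z⁻¹) mu = mu)
    (ka : Circle → ℝ) (hm : Measurable ka) (hi : Integrable ka mu) (g : C(Circle, ℂ)) :
    MemLp (hh ka g) 2 mu := by
  have hK := KK_int hrot ka hm hi (zn 0) g
  have h1 : hh ka g = fun x => ∫ y, KK ka (zn 0) g (x, y) ∂mu := by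
    funext x
    unfold hh KK
    refine integral_congr_ae (Filter.Eventually.of_forall fun y => ?_)
    simp only [conj_zn, neg_zero, zpow_zero, one_mul]
  have h2 : AEStronglyMeasurable (hh ka g) mu := by
    rw [h1]; exact hK.integral_prod_left.aestronglyMeasurable
  refine MemLp.of_bound h2 (‖g‖ * ∫ y, ‖ka y‖ ∂mu) (Filter.Eventually.of_forall fun x => ?_)
  have hmp : MeasurePreserving (fun z : Circle => x * z⁻¹) mu mu := by
    have e1 : MeasurePreserving (fun z : Circle => x * z) mu mu := ⟨measurable_const_mul x, hrot x⟩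
    have e2 : MeasurePreserving (fun z : Circle => z⁻¹) mu mu := ⟨measurable_inv, hinv⟩
    exact e1.comp e2
  have h3 : ∫ y, ‖ka (x / y)‖ ∂mu = ∫ y, ‖ka y‖ ∂mu := by
    have h4 := integral_map (μ := mu) (φ := fun z : Circle => x * z⁻¹) (f := fun x => ‖ka x‖)
      hmp.measurable.aemeasurable (by
        rw [hmp.map_eq]; exact hi.aestronglyMeasurable.norm)
    rw [hmp.map_eq] at h4
    rw [h4]
    refine integral_congr_ae (Filter.Eventually.of_forall fun y => ?_)
    show ‖ka (x / y)‖ = ‖ka (x * y⁻¹)‖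
    rw [div_eq_mul_inv]
  have h5 : Integrable (fun y => ‖ka (x / y)‖) mu := by
    have h6 := (hmp.integrable_comp hi.aestronglyMeasurable).2 hi
    refine (h6.congr (Filter.Eventually.of_forall fun y => ?_)).norm
    show ka (x * y⁻¹) = ka (x / y)
    rw [div_eq_mul_inv]
  rw [← h3, mul_comm, ← integral_mul_const]
  unfold hh
  refine norm_integral_le_of_norm_le (h5.mul_const _) (Filter.Eventually.of_forall fun y => ?_)
  rw [norm_mul, Complex.norm_real]
  exact mul_le_mul_of_nonneg_left (g.norm_coe_le_norm _) (norm_nonneg _)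

theorem inner_hh [IsProbabilityMeasure mu]
    (hrot : ∀ w : Circle, Measure.map (fun z => w * z) mu = mu)
    (hinv : Measure.map (fun z : Circle => z⁻¹) mu = mu)
    (ka : Circle → ℝ) (hm : Measurable ka) (hi : Integrable ka mu) (f g : C(Circle, ℂ)) :
    ⟪ContinuousMap.toLp (E := ℂ) 2 mu ℂ f, (hh_mem hrot hinv ka hm hi g).toLp⟫_ℂ
      = ∫ q, KK ka f g q ∂(mu.prod mu) := by
  rw [L2.inner_def, integral_prod _ (KK_int hrot ka hm hi f g)]
  refine integral_congr_ae ?_
  filter_upwards [ContinuousMap.coeFn_toLp (E := ℂ) (p := 2) mu (𝕜 := ℂ) f,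
    (hh_mem hrot hinv ka hm hi g).coeFn_toLp] with x h1 h2
  rw [h1, h2, RCLike.inner_apply]
  unfold hh KK
  rw [mul_comm, ← integral_const_mul]
  refine integral_congr_ae (Filter.Eventually.of_forall fun y => ?_)
  show conj (f x) * (((ka (x / y) : ℝ) : ℂ) * g y) = ((ka (x / y) : ℝ) : ℂ) * (conj (f x) * g y)
  ring

theorem KK_zn [IsProbabilityMeasure mu]
    (hrot : ∀ w : Circle, Measure.map (fun z => w * z) mu = mu)
    (hinv : Measure.map (fun z : Circle => z⁻¹) mu = mu)
    (ka : Circle → ℝ) (hm : Measurable ka) (hi : Integrable ka mu) (hs : ∀ z, ka z⁻¹ = ka z)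
    (n : ℤ) (g : C(Circle, ℂ)) :
    ∫ q, KK ka (zn n) g q ∂(mu.prod mu) = kc ka n * fc g n := by
  rw [integral_prod_symm _ (KK_int hrot ka hm hi (zn n) g)]
  have hmp : ∀ w : Circle, MeasurePreserving (fun z => w * z) mu mu :=
    fun w => ⟨measurable_const_mul w, hrot w⟩
  have hmi : MeasurePreserving (fun z : Circle => z⁻¹) mu mu := ⟨measurable_inv, hinv⟩
  -- the coefficient of the kernel
  have hG : ∀ m : ℤ, Measurable fun w : Circle => ((ka w : ℝ) : ℂ) * (w : ℂ) ^ m := fun m =>
    (Complex.measurable_ofReal.comp hm).mul ((zn m).continuous.measurable)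
  have hk : ∫ w, ((ka w : ℝ) : ℂ) * (w : ℂ) ^ (-n) ∂mu = kc ka n := by
    have h4 := integral_map (μ := mu) (φ := fun z : Circle => z⁻¹)
      (f := fun w : Circle => ((ka w : ℝ) : ℂ) * (w : ℂ) ^ n)
      hmi.measurable.aemeasurable (hG n).aestronglyMeasurable
    rw [hinv] at h4
    unfold kc
    rw [h4]
    refine integral_congr_ae (Filter.Eventually.of_forall fun y => ?_)
    show ((ka y : ℝ) : ℂ) * (y : ℂ) ^ (-n) = ((ka y⁻¹ : ℝ) : ℂ) * ((y⁻¹ : Circle) : ℂ) ^ n
    rw [hs, Circle.coe_inv, inv_zpow, zpow_neg]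
  have h1 : ∀ y : Circle, ∫ x, KK ka (zn n) g (x, y) ∂mu = kc ka n * (g y * (y : ℂ) ^ (-n)) := by
    intro y
    have h4 := integral_map (μ := mu) (φ := fun z : Circle => y * z)
      (f := fun x : Circle => KK ka (zn n) g (x, y)) (hmp y).measurable.aemeasurable (by
        refine Measurable.aestronglyMeasurable ?_
        have e1 : Measurable fun x : Circle => ((ka (x / y) : ℝ) : ℂ) :=
          Complex.measurable_ofReal.comp (hm.comp (measurable_id.div_const y))
        have e2 : Measurable fun x : Circle => conj (zn n x) * g y :=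
          (Complex.continuous_conj.comp (zn n).continuous).measurable.mul_const _
        exact e1.mul e2)
    rw [hrot] at h4
    rw [h4, ← hk, ← integral_mul_const]
    refine integral_congr_ae (Filter.Eventually.of_forall fun w => ?_)
    show ((ka (y * w / y) : ℝ) : ℂ) * (conj (zn n (y * w)) * g y) =
      ((ka w : ℝ) : ℂ) * (w : ℂ) ^ (-n) * (g y * (y : ℂ) ^ (-n))
    rw [conj_zn, Circle.coe_mul, mul_zpow, mul_div_cancel_left]
    ring
  simp only [h1]
  rw [integral_const_mul]
  rfl

end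

end TFORM

open MeasureTheory Complex
open scoped ComplexConjugate InnerProductSpace

theorem t_FORM : S_MU → S_FORM := by
  intro hMU ka hm hi hs f g
  obtain ⟨hP, -, -, hrot, hinv, hfc⟩ := hMU
  have := hP
  refine ⟨TFORM.KK_int hrot ka hm hi f g, ?_⟩
  have h1 := (TFORM.bas hfc).hasSum_inner_mul_inner (ContinuousMap.toLp (E := ℂ) 2 mu ℂ f)
    (TFORM.hh_mem hrot hinv ka hm hi g).toLp
  rw [TFORM.inner_hh hrot hinv ka hm hi f g] at h1
  refine h1.congr_fun ?_
  intro n
  have h2 : ⟪TFORM.bas hfc n, (TFORM.hh_mem hrot hinv ka hm hi g).toLp⟫_ℂ = kc ka n * fc g n := by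
    rw [TFORM.bas_apply, ← TFORM.KK_zn hrot hinv ka hm hi hs n g,
      ← TFORM.inner_hh hrot hinv ka hm hi (zn n) g]
    rfl
  have h3 : ⟪ContinuousMap.toLp (E := ℂ) 2 mu ℂ f, TFORM.bas hfc n⟫_ℂ = conj (fc f n) := by
    rw [TFORM.bas_apply, ← TFORM.inner_en, inner_conj_symm]
  rw [h2, h3]
  ring

end Pool.Agent.W268.UB
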