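import Pool.Agent.W268.UB.Stm

namespace Pool.Agent.W268.UB

open MeasureTheory Complex
open scoped ComplexConjugate InnerProductSpace

namespace TGRP

theorem three {px py pw qx qy qw : ℝ} (h1 : 0 < px) (h2 : 0 < py) (h3 : 0 < pw) (h4 : 0 < qx)
    (h5 : 0 < qy) (h6 : 0 < qw) (hxy : px * py = qx * qy) (hxw : px * pw = qx * qw)
    (hyw : py * pw = qy * qw) : px = qx := by
  have e1 : px ^ 2 * (py * pw) = qx ^ 2 * (py * pw) := by
    calc px ^ 2 * (py * pw) = (px * py) * (px * pw) := by ring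
      _ = (qx * qy) * (qx * qw) := by rw [hxy, hxw]
      _ = qx ^ 2 * (qy * qw) := by ring
      _ = qx ^ 2 * (py * pw) := by rw [hyw]
  have e2 : px ^ 2 = qx ^ 2 := mul_right_cancel₀ (by positivity) e1
  exact (pow_left_inj₀ h1.le h4.le two_ne_zero).1 e2

end TGRP

theorem t_GRP : S_KER → S_GRP := by
  intro hK c c' c'' a a' a'' h
  have hpk : ∀ z, pk a'' z = pk a' z * pk a (bm c' a' z) := by
    have key : ∀ x y : Circle, x ≠ y → pk a'' x * pk a'' y =
        (pk a' x * pk a (bm c' a' x)) * (pk a' y * pk a (bm c' a' y)) := by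
      intro x y hxy
      have h1 := hK c'' a'' x y
      rw [h x, h y, hK c a, hK c' a' x y] at h1
      have h2 : ‖(x : ℂ) - y‖ ^ 2 ≠ 0 := by
        apply pow_ne_zero
        rw [norm_ne_zero_iff, sub_ne_zero]
        intro h3
        exact hxy (Circle.ext h3)
      have h3 : (pk a'' x * pk a'' y) * ‖(x : ℂ) - y‖ ^ 2 =
          ((pk a' x * pk a (bm c' a' x)) * (pk a' y * pk a (bm c' a' y))) * ‖(x : ℂ) - y‖ ^ 2 := by
        rw [← h1]; ring
      exact mul_right_cancel₀ h2 h3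
    intro z
    have hz : (z : ℂ) ≠ 0 := by
      rw [← norm_ne_zero_iff, Circle.norm_coe]; norm_num
    obtain ⟨y, hy⟩ : ∃ y : Circle, (y : ℂ) = -(z : ℂ) :=
      ⟨⟨-(z : ℂ), mem_sphere_zero_iff_norm.2 (by rw [norm_neg]; exact Circle.norm_coe z)⟩, rfl⟩
    obtain ⟨w, hw⟩ : ∃ w : Circle, (w : ℂ) = I * (z : ℂ) :=
      ⟨⟨I * (z : ℂ), mem_sphere_zero_iff_norm.2
        (by rw [norm_mul, norm_I, one_mul]; exact Circle.norm_coe z)⟩, rfl⟩
    have hzy : z ≠ y := by
      intro h1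
      rw [← h1] at hy
      have : (2 : ℂ) * z = 0 := by linear_combination hy
      simp at this
    have hzw : z ≠ w := by
      intro h1
      rw [← h1] at hw
      have h2 : ((1 : ℂ) - I) * z = 0 := by linear_combination hw
      rcases mul_eq_zero.1 h2 with h3 | h3
      · have := congrArg Complex.re h3
        simp at this
      · exact hz h3
    have hyw : y ≠ w := by
      intro h1
      rw [h1, hw] at hy
      have h2 : ((1 : ℂ) + I) * z = 0 := by linear_combination hy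
      rcases mul_eq_zero.1 h2 with h3 | h3
      · have := congrArg Complex.re h3
        simp at this
      · exact hz h3
    have hp : ∀ x, 0 < pk a' x * pk a (bm c' a' x) := fun x => mul_pos (pk_pos _ _) (pk_pos _ _)
    exact TGRP.three (pk_pos _ _) (pk_pos _ _) (pk_pos _ _) (hp z) (hp y) (hp w)
      (key z y hzy) (key z w hzw) (key y w hyw)
  refine ⟨hpk, ?_, ?_⟩
  · intro f
    ext z
    show ((pk a'' z ^ (3 / 4 : ℝ) : ℝ) : ℂ) * f (bm c'' a'' z) =
      ((pk a' z ^ (3 / 4 : ℝ) : ℝ) : ℂ) * (((pk a (bm c' a' z) ^ (3 / 4 : ℝ) : ℝ) : ℂ) *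
        f (bm c a (bm c' a' z)))
    rw [hpk, h, Real.mul_rpow (pk_pos _ _).le (pk_pos _ _).le]
    push_cast
    ring
  · intro f
    ext z
    show ((Real.log (pk a'' z) : ℝ) : ℂ) * (((pk a' z ^ (3 / 4 : ℝ) : ℝ) : ℂ) *
        f (bm c' a' z)) =
      ((Real.log (pk a' z) : ℝ) : ℂ) * (((pk a' z ^ (3 / 4 : ℝ) : ℝ) : ℂ) * f (bm c' a' z)) +
      ((pk a' z ^ (3 / 4 : ℝ) : ℝ) : ℂ) * (((Real.log (pk a (bm c' a' z)) : ℝ) : ℂ) *
        f (bm c' a' z))
    rw [hpk, Real.log_mul (pk_pos _ _).ne' (pk_pos _ _).ne']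
    push_cast
    ring

end Pool.Agent.W268.UB
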