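import Pool.Agent.W268.UB.Stm

namespace Pool.Agent.W268.UB

open scoped ComplexConjugate

namespace TINT

theorem blk_sub (A B C D A' B' C' D' : H →L[ℂ] H) :
    blk A B C D - blk A' B' C' D' = blk (A - A') (B - B') (C - C') (D - D') := by
  unfold blk
  simp only [ContinuousLinearMap.sub_comp, ContinuousLinearMap.comp_sub]
  abel

theorem smul_blk (c : ℂ) (A B C D : H →L[ℂ] H) :
    c • blk A B C D = blk (c • A) (c • B) (c • C) (c • D) := by
  unfold blk
  simp only [ContinuousLinearMap.smul_comp, ContinuousLinearMap.comp_smul, smul_add]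

/-- the computation of the block 12 in a general algebra -/
theorem alg {R : Type*} [Ring R] [Algebra ℂ R] (c a b : ℂ) (S X W M Ks : R)
    (hM : M * S = S * M)
    (h1 : (1 - b • S) * W * S = c • ((S - a • 1) * W))
    (h2 : (Ks * S - S * Ks + X) * W * (c • (1 : R) + b • S) = (1 - b • S) * W * X) :
    (1 - b • S) * W * X + ((1 - b • S) * ((M - Ks) * W) + (0 - b • X) * W) * S =
      c • ((S - a • 1) * ((M - Ks) * W) + X * W) := by
  have e1 : (1 - b • S) * W * X + ((1 - b • S) * ((M - Ks) * W) + (0 - b • X) * W) * S -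
      c • ((S - a • 1) * ((M - Ks) * W) + X * W) =
      ((1 - b • S) * W * X - (Ks * S - S * Ks + X) * W * (c • (1 : R) + b • S)) +
      (M - Ks) * ((1 - b • S) * W * S - c • ((S - a • 1) * W)) +
      b • ((M * S - S * M) * W * S) + c • ((M * S - S * M) * W) := by
    simp only [mul_add, add_mul, mul_sub, sub_mul, smul_mul_assoc, mul_smul_comm, smul_add,
      smul_sub, mul_one, one_mul, mul_assoc, smul_smul, zero_mul]
    module
  have e2 := e1
  rw [h1, h2, hM] at e2
  simp only [sub_self, mul_zero, zero_mul, smul_zero, add_zero] at e2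
  exact sub_eq_zero.1 (by simpa using e2)

end TINT

theorem t_INT : S_BLK → S_INT := by
  intro hB c a S X W M Ks hM hW h1 h2
  obtain ⟨hmul, -, -, hone, -⟩ := hB
  have e0 : (1 : K2 →L[ℂ] K2) - conj a • blk S X 0 S =
      blk (1 - conj a • S) (0 - conj a • X) 0 (1 - conj a • S) := by
    rw [← hone, TINT.smul_blk, TINT.blk_sub]
    simp
  have e3 : blk S X 0 S - a • (1 : K2 →L[ℂ] K2) = blk (S - a • 1) X 0 (S - a • 1) := by
    rw [← hone, TINT.smul_blk, TINT.blk_sub]
    simp
  rw [e0, e3, hmul, hmul, hmul, TINT.smul_blk]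
  congr 1
  · simpa using h1
  · have := TINT.alg c a (conj a) S X W M Ks hM h1 h2
    simpa using this
  · simp
  · simpa using h1

end Pool.Agent.W268.UB
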