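import Pool.Agent.W268.UB.Stm

namespace Pool.Agent.W268.UB

open MeasureTheory Complex Filter Topology
open scoped ComplexConjugate InnerProductSpace

noncomputable section

namespace TINV

theorem kap1_div (x y : Circle) : kap1 (x / y) = ‖(x : ℂ) - y‖ ^ (-(1 / 2) : ℝ) := by
  unfold kap1
  congr 1
  have hy : (y : ℂ) ≠ 0 := Circle.coe_ne_zero y
  have h : (1 : ℂ) - ((x / y : Circle) : ℂ) = -(((x : ℂ) - y) / y) := by
    rw [Circle.coe_div]
    field_simp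
    ring
  rw [h, norm_neg, norm_div, Circle.norm_coe, div_one]

theorem kap1_inv (z : Circle) : kap1 z⁻¹ = kap1 z := by
  have h1 := kap1_div 1 z
  have h2 := kap1_div z 1
  rw [one_div] at h1
  rw [div_one] at h2
  rw [h1, h2, norm_sub_rev]

theorem kap1_meas : Measurable kap1 := by
  unfold kap1
  have : Continuous fun z : Circle => ‖(1 : ℂ) - z‖ := (continuous_const.sub cont_coe).norm
  exact this.measurable.pow_const _

theorem kap1_bm (hK : S_KER) (c : Circle) (a : Dsc) (x y : Circle) :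
    pk a x ^ (3 / 4 : ℝ) * pk a y ^ (3 / 4 : ℝ) * kap1 (x / y) =
      pk a x * pk a y * kap1 (bm c a x / bm c a y) := by
  rw [kap1_div, kap1_div]
  have hx := pk_pos a x
  have hy := pk_pos a y
  have hn := norm_nonneg ((x : ℂ) - y)
  have hb := norm_nonneg ((bm c a x : ℂ) - bm c a y)
  have h1 : ‖(bm c a x : ℂ) - bm c a y‖ ^ (-(1 / 2) : ℝ) =
      (‖(bm c a x : ℂ) - bm c a y‖ ^ 2) ^ (-(1 / 4) : ℝ) := by
    rw [← Real.rpow_natCast, ← Real.rpow_mul hb]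
    norm_num
  have h2 : ‖(x : ℂ) - y‖ ^ (-(1 / 2) : ℝ) = (‖(x : ℂ) - y‖ ^ 2) ^ (-(1 / 4) : ℝ) := by
    rw [← Real.rpow_natCast, ← Real.rpow_mul hn]
    norm_num
  rw [h1, h2, hK c a x y, Real.mul_rpow (by positivity) (by positivity),
    Real.mul_rpow hx.le hy.le]
  have h3 : pk a x ^ (3 / 4 : ℝ) = pk a x * pk a x ^ (-(1 / 4) : ℝ) := by
    conv_rhs => rw [← Real.rpow_one_add' hx.le (by norm_num)]
    norm_num
  have h4 : pk a y ^ (3 / 4 : ℝ) = pk a y * pk a y ^ (-(1 / 4) : ℝ) := by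
    conv_rhs => rw [← Real.rpow_one_add' hy.le (by norm_num)]
    norm_num
  rw [h3, h4]
  ring

/-- the double integral -/
def DI (f g : C(Circle, ℂ)) : ℂ :=
  ∫ q : Circle × Circle, ((kap1 (q.1 / q.2) : ℝ) : ℂ) * (conj (f q.1) * g q.2) ∂(mu.prod mu)

theorem inner_DI (hF : S_FORM) (hI : S_KINT) (om : ℤ → ℝ) (J : C(Circle, ℂ) →L[ℂ] H)
    (hJ : IsJ om J) (k0 : ℝ) (hk : ∀ n, kc kap1 n = ((k0 * om n ^ 2 : ℝ) : ℂ))
    (f g : C(Circle, ℂ)) : (k0 : ℂ) * ⟪J f, J g⟫_ℂ = DI f g := by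
  have h := (hF kap1 kap1_meas hI.1 kap1_inv f g).2.tsum_eq
  unfold DI
  rw [← h, lp.inner_eq_tsum, ← tsum_mul_left]
  congr 1
  funext n
  rw [hJ, hJ, hk, RCLike.inner_apply]
  simp only [map_mul, Complex.conj_ofReal]
  push_cast
  ring

theorem DI_inv (hK : S_KER) (hC : S_CV2) (c : Circle) (a : Dsc) (f g : C(Circle, ℂ)) :
    DI (Wf c a f) (Wf c a g) = DI f g := by
  have hm : Measurable (fun q : Circle × Circle =>
      ((kap1 (q.1 / q.2) : ℝ) : ℂ) * (conj (f q.1) * g q.2)) := by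
    have h1 : Measurable (fun q : Circle × Circle => q.1 / q.2) :=
      (continuous_fst.div' continuous_snd).measurable
    have h2 : Measurable (fun q : Circle × Circle => ((kap1 (q.1 / q.2) : ℝ) : ℂ)) :=
      Complex.measurable_ofReal.comp (kap1_meas.comp h1)
    have h3 : Continuous (fun q : Circle × Circle => conj (f q.1) * g q.2) :=
      (Complex.continuous_conj.comp (f.continuous.comp continuous_fst)).mul
        (g.continuous.comp continuous_snd)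
    exact h2.mul h3.measurable
  have h := hC c a _ hm
  unfold DI
  rw [← h]
  congr 1
  funext q
  have hk := kap1_bm hK c a q.1 q.2
  have hk' : ((pk a q.1 ^ (3 / 4 : ℝ) * pk a q.2 ^ (3 / 4 : ℝ) * kap1 (q.1 / q.2) : ℝ) : ℂ) =
      ((pk a q.1 * pk a q.2 * kap1 (bm c a q.1 / bm c a q.2) : ℝ) : ℂ) := by rw [hk]
  have e1 : (Wf c a f) q.1 = ((pk a q.1 ^ (3 / 4 : ℝ) : ℝ) : ℂ) * f (bm c a q.1) := rfl
  have e2 : (Wf c a g) q.2 = ((pk a q.2 ^ (3 / 4 : ℝ) : ℝ) : ℂ) * g (bm c a q.2) := rfl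
  rw [e1, e2, map_mul, Complex.conj_ofReal]
  calc _ = ((pk a q.1 ^ (3 / 4 : ℝ) * pk a q.2 ^ (3 / 4 : ℝ) * kap1 (q.1 / q.2) : ℝ) : ℂ) *
        (conj (f (bm c a q.1)) * g (bm c a q.2)) := by push_cast; ring
    _ = _ := by rw [hk']; push_cast; ring

end TINV

theorem t_INV : S_MU → S_FORM → S_KINT → S_KW → S_KER → S_CV2 → S_OMEX → S_INV := by
  intro _ hF hI hKW hK hC hO om J hom hJ c a f g
  obtain ⟨l, hl⟩ := hO.2
  obtain ⟨k0, k1, hk0, hk, -⟩ := hKW om l hom hl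
  have h1 := TINV.inner_DI hF hI om J hJ k0 hk f g
  have h2 := TINV.inner_DI hF hI om J hJ k0 hk (Wf c a f) (Wf c a g)
  rw [TINV.DI_inv hK hC] at h2
  have h3 : (k0 : ℂ) ≠ 0 := by exact_mod_cast hk0.ne'
  exact mul_left_cancel₀ h3 (h2.trans h1.symm)

end

end Pool.Agent.W268.UB
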