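import Pool.Agent.W268.UB.Stm

namespace Pool.Agent.W268.UB

open MeasureTheory Complex
open scoped ComplexConjugate InnerProductSpace

theorem t_JD : S_MU → S_JD := by
  intro hMU om J hom hJ
  have hfc := hMU.2.2.2.2.2
  have h2 : ∀ n, J (zn n) = E om n := by
    intro n
    apply Subtype.ext
    funext m
    show (J (zn n)) m = (E om n) m
    rw [hJ, hfc, E]
    rw [lp.coeFn_smul, Pi.smul_apply, e]
    by_cases h : n = m
    · subst h
      rw [if_pos rfl, lp.single_apply_self]
      rfl
    · rw [if_neg h, lp.single_apply_ne _ _ _ (Ne.symm h)]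
      simp
  refine ⟨?_, h2⟩
  intro x
  have hs : HasSum (fun i => lp.single 2 i (x i)) x := lp.hasSum_single (by simp) x
  have hmem : ∀ s : Finset ℤ, (∑ i ∈ s, lp.single 2 i (x i) : H) ∈ Set.range J := by
    intro s
    refine ⟨∑ i ∈ s, (x i * ((om i : ℝ) : ℂ)⁻¹) • zn i, ?_⟩
    rw [map_sum]
    apply Finset.sum_congr rfl
    intro i _
    rw [map_smul, h2]
    have h3 : ((om i : ℝ) : ℂ) ≠ 0 := Complex.ofReal_ne_zero.2 (hom.1 i).ne'
    apply Subtype.ext
    funext m
    show ((x i * ((om i : ℝ) : ℂ)⁻¹) • E om i) m = (lp.single 2 i (x i) : H) m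
    rw [lp.coeFn_smul, Pi.smul_apply, E, lp.coeFn_smul, Pi.smul_apply, e]
    by_cases h : i = m
    · subst h
      rw [lp.single_apply_self, lp.single_apply_self]
      simp only [smul_eq_mul, mul_one]
      rw [mul_assoc, inv_mul_cancel₀ h3, mul_one]
    · rw [lp.single_apply_ne _ _ _ (Ne.symm h), lp.single_apply_ne _ _ _ (Ne.symm h)]
      simp
  exact mem_closure_of_tendsto hs (Filter.Eventually.of_forall hmem)

end Pool.Agent.W268.UB
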