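import Pool.Agent.W268.UB.Stm

namespace Pool.Agent.W268.UB

open MeasureTheory Complex
open scoped ComplexConjugate InnerProductSpace

namespace TJEX

theorem conj_zpow (z : Circle) (n : ℤ) : conj ((z : ℂ) ^ n) = (z : ℂ) ^ (-n) := by
  rw [map_zpow₀, ← Circle.coe_inv_eq_conj, Circle.coe_inv, inv_zpow, zpow_neg]

theorem fc_inner [IsProbabilityMeasure mu] (f : C(Circle, ℂ)) (n : ℤ) :
    (inner ℂ (ContinuousMap.toLp (E := ℂ) 2 mu ℂ (zn n))
      (ContinuousMap.toLp (E := ℂ) 2 mu ℂ f) : ℂ) = fc f n := by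
  rw [MeasureTheory.ContinuousMap.inner_toLp]
  unfold fc
  congr 1
  funext z
  have : conj (zn n z) = (z : ℂ) ^ (-n) := conj_zpow z n
  rw [this]

theorem orth [IsProbabilityMeasure mu] (h : ∀ n m : ℤ, fc (zn n) m = if n = m then 1 else 0) :
    Orthonormal ℂ (fun n : ℤ => ContinuousMap.toLp (E := ℂ) 2 mu ℂ (zn n)) := by
  classical
  rw [orthonormal_iff_ite]
  intro i j
  rw [fc_inner, h]
  by_cases hij : i = j
  · simp [hij]
  · rw [if_neg hij, if_neg (fun h => hij h.symm)]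

theorem bessel (hmu : S_MU) (f : C(Circle, ℂ)) (s : Finset ℤ) :
    ∑ n ∈ s, ‖fc f n‖ ^ 2 ≤ ‖f‖ ^ 2 := by
  haveI : IsProbabilityMeasure mu := hmu.1
  have ho := orth hmu.2.2.2.2.2
  have h1 := ho.sum_inner_products_le (ContinuousMap.toLp (E := ℂ) 2 mu ℂ f) (s := s)
  simp only [fc_inner] at h1
  refine h1.trans ?_
  have h2 : ‖ContinuousMap.toLp (E := ℂ) 2 mu ℂ f‖ ≤ ‖f‖ := by
    have h3 := (ContinuousMap.toLp (E := ℂ) 2 mu ℂ).le_opNorm f
    have h4 : ‖ContinuousMap.toLp (E := ℂ) 2 mu ℂ‖ ≤ 1 := by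
      have h5 := ContinuousMap.toLp_norm_le (α := Circle) (E := ℂ) (p := 2) (μ := mu) (𝕜 := ℂ)
      refine h5.trans ?_
      have h6 : measureUnivNNReal mu = 1 := by
        simp [measureUnivNNReal]
      rw [h6]
      simp
    calc _ ≤ _ := h3
      _ ≤ 1 * ‖f‖ := mul_le_mul_of_nonneg_right h4 (norm_nonneg _)
      _ = ‖f‖ := one_mul _
  exact pow_le_pow_left₀ (norm_nonneg _) h2 2

theorem intg [IsProbabilityMeasure mu] (f : C(Circle, ℂ)) (n : ℤ) :
    Integrable (fun z : Circle => f z * (z : ℂ) ^ (-n)) mu := by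
  have h : Continuous (fun z : Circle => f z * (z : ℂ) ^ (-n)) :=
    f.continuous.mul (zn (-n)).continuous
  exact h.integrable_of_hasCompactSupport (HasCompactSupport.of_compactSpace _)

theorem fc_add (hmu : S_MU) (f g : C(Circle, ℂ)) (n : ℤ) : fc (f + g) n = fc f n + fc g n := by
  haveI : IsProbabilityMeasure mu := hmu.1
  unfold fc
  rw [← integral_add (intg f n) (intg g n)]
  congr 1
  funext z
  rw [ContinuousMap.add_apply, add_mul]

theorem fc_smul (c : ℂ) (f : C(Circle, ℂ)) (n : ℤ) : fc (c • f) n = c * fc f n := by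
  unfold fc
  rw [← integral_const_mul]
  congr 1
  funext z
  rw [ContinuousMap.smul_apply, smul_eq_mul, mul_assoc]

end TJEX

open TJEX in
theorem t_JEX : S_MU → S_OMR → S_JEX := by
  intro hmu homr om hom
  obtain ⟨-, hmono, -⟩ := homr om hom
  have hpos := hom.1
  have hle : ∀ n, om n ≤ om 0 := fun n => hmono 0 n (by simp)
  have key : ∀ (f : C(Circle, ℂ)) (s : Finset ℤ),
      ∑ n ∈ s, ‖((om n : ℝ) : ℂ) * fc f n‖ ^ (2 : ENNReal).toReal ≤
        (om 0 * ‖f‖) ^ (2 : ENNReal).toReal := by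
    intro f s
    have h2 : (2 : ENNReal).toReal = ((2 : ℕ) : ℝ) := by simp
    rw [h2]
    simp only [Real.rpow_natCast]
    calc ∑ n ∈ s, ‖((om n : ℝ) : ℂ) * fc f n‖ ^ 2
        ≤ ∑ n ∈ s, om 0 ^ 2 * ‖fc f n‖ ^ 2 := by
          refine Finset.sum_le_sum fun n _ => ?_
          rw [norm_mul, Complex.norm_real, Real.norm_of_nonneg (hpos n).le, mul_pow]
          exact mul_le_mul_of_nonneg_right (pow_le_pow_left₀ (hpos n).le (hle n) 2) (by positivity)
      _ = om 0 ^ 2 * ∑ n ∈ s, ‖fc f n‖ ^ 2 := by rw [Finset.mul_sum]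
      _ ≤ om 0 ^ 2 * ‖f‖ ^ 2 := mul_le_mul_of_nonneg_left (bessel hmu f s) (by positivity)
      _ = _ := by rw [mul_pow]
  have hmem : ∀ f : C(Circle, ℂ),
      Memℓp (fun n : ℤ => ((om n : ℝ) : ℂ) * fc f n) 2 := fun f => memℓp_gen' (key f)
  let J0 : C(Circle, ℂ) →ₗ[ℂ] H :=
    { toFun := fun f => ⟨fun n : ℤ => ((om n : ℝ) : ℂ) * fc f n, hmem f⟩
      map_add' := by
        intro f g
        apply Subtype.ext
        funext n
        show ((om n : ℝ) : ℂ) * fc (f + g) n = ((om n : ℝ) : ℂ) * fc f n + ((om n : ℝ) : ℂ) * fc g n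
        rw [fc_add hmu, mul_add]
      map_smul' := by
        intro c f
        apply Subtype.ext
        funext n
        show ((om n : ℝ) : ℂ) * fc (c • f) n = c * (((om n : ℝ) : ℂ) * fc f n)
        rw [fc_smul]
        ring }
  have hb : ∀ f, ‖J0 f‖ ≤ om 0 * ‖f‖ := by
    intro f
    refine lp.norm_le_of_forall_sum_le (by simp) (mul_nonneg (hpos 0).le (norm_nonneg _)) ?_
    intro s
    exact key f s
  refine ⟨J0.mkContinuous (om 0) hb, ?_⟩
  intro f n
  rfl

end Pool.Agent.W268.UB
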