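import Pool.Agent.W268.UB.Stm

/-!
# Project UB, part KER
-/

namespace Pool.Agent.W268.UB

open scoped ComplexConjugate

theorem t_KER : S_KER := by
  intro c a x y
  have hx := den_ne a x
  have hy := den_ne a y
  have haa : a.1 * conj a.1 = ((‖a.1‖ ^ 2 : ℝ) : ℂ) := by
    rw [Complex.mul_conj, Complex.normSq_eq_norm_sq]
  have h1 : (bm c a x : ℂ) - bm c a y = (c : ℂ) * (((1 - ‖a.1‖ ^ 2 : ℝ) : ℂ) * ((x : ℂ) - y)) /
      ((1 - conj a.1 * (x : ℂ)) * (1 - conj a.1 * (y : ℂ))) := by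
    rw [bm_coe, bm_coe, div_sub_div _ _ hx hy]
    congr 1
    rw [Complex.ofReal_sub, ← haa, Complex.ofReal_one]
    ring
  have h2 : (0 : ℝ) ≤ 1 - ‖a.1‖ ^ 2 := by
    have := a.2
    have h0 := norm_nonneg a.1
    nlinarith
  have hx' : ‖1 - conj a.1 * (x : ℂ)‖ ≠ 0 := norm_ne_zero_iff.2 hx
  have hy' : ‖1 - conj a.1 * (y : ℂ)‖ ≠ 0 := norm_ne_zero_iff.2 hy
  rw [h1, norm_div, norm_mul, norm_mul, norm_mul, Circle.norm_coe, Complex.norm_real,
    Real.norm_of_nonneg h2]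
  unfold pk
  field_simp

end Pool.Agent.W268.UB
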