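import Pool.Agent.W268.UB.Stm

/-!
Integrability of the kernels `|1 - z| ^ (-1/2)` and `|1 - z| ^ (-1/2) log |1 - z|`.
-/

namespace Pool.Agent.W268.UB

open MeasureTheory Complex Filter Topology
open scoped ComplexConjugate InnerProductSpace

noncomputable section

namespace TKINT

/-- the distance to one -/
def rr (z : Circle) : ℝ := ‖(1 : ℂ) - z‖

theorem rr_cont : Continuous rr := (continuous_const.sub cont_coe).norm

theorem rr_meas : Measurable rr := rr_cont.measurable

theorem rr_exp (t : ℝ) : rr (Circle.exp t) = 2 * |Real.sin (t / 2)| := by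
  unfold rr
  have h1 : (1 : ℂ) - (Circle.exp t : ℂ) = -(2 * Complex.I * Complex.sin ((t / 2 : ℝ) : ℂ)) *
      Complex.exp (((t / 2 : ℝ) : ℂ) * Complex.I) := by
    rw [Circle.coe_exp, Complex.sin]
    have e1 : Complex.exp ((t : ℂ) * Complex.I) = Complex.exp (((t / 2 : ℝ) : ℂ) * Complex.I) *
        Complex.exp (((t / 2 : ℝ) : ℂ) * Complex.I) := by
      rw [← Complex.exp_add]
      congr 1
      push_cast
      ring
    have e2 : Complex.exp (-((t / 2 : ℝ) : ℂ) * Complex.I) *
        Complex.exp (((t / 2 : ℝ) : ℂ) * Complex.I) = 1 := by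
      rw [← Complex.exp_add]
      simp
    rw [e1]
    linear_combination (-1 : ℂ) * e2 + (Complex.exp (-((t / 2 : ℝ) : ℂ) * Complex.I) -
      Complex.exp (((t / 2 : ℝ) : ℂ) * Complex.I)) *
      Complex.exp (((t / 2 : ℝ) : ℂ) * Complex.I) * Complex.I_mul_I
  rw [h1, norm_mul, norm_neg, norm_mul, norm_mul, Complex.norm_exp_ofReal_mul_I,
    ← Complex.ofReal_sin, Complex.norm_real, Real.norm_eq_abs]
  simp

theorem rr_le (z : Circle) : rr z ≤ 2 := by
  unfold rr
  refine (norm_sub_le _ _).trans ?_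
  rw [Circle.norm_coe]
  norm_num

theorem rr_low (t : ℝ) (h0 : 0 < t) (h1 : t < 2 * Real.pi) :
    2 / Real.pi * min t (2 * Real.pi - t) ≤ rr (Circle.exp t) := by
  rw [rr_exp]
  have hpi := Real.pi_pos
  have hs : 0 < Real.sin (t / 2) := Real.sin_pos_of_pos_of_lt_pi (by linarith) (by linarith)
  rw [abs_of_pos hs]
  rcases le_total t Real.pi with h | h
  · have h2 := Real.mul_le_sin (x := t / 2) (by linarith) (by linarith)
    have h3 : min t (2 * Real.pi - t) ≤ t := min_le_left _ _
    have h4 : 2 / Real.pi * min t (2 * Real.pi - t) ≤ 2 / Real.pi * t :=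
      mul_le_mul_of_nonneg_left h3 (by positivity)
    linarith
  · have h2 := Real.mul_le_sin (x := Real.pi - t / 2) (by linarith) (by linarith)
    rw [Real.sin_pi_sub] at h2
    have h3 : min t (2 * Real.pi - t) ≤ 2 * Real.pi - t := min_le_right _ _
    have h4 : 2 / Real.pi * min t (2 * Real.pi - t) ≤ 2 / Real.pi * (2 * Real.pi - t) :=
      mul_le_mul_of_nonneg_left h3 (by positivity)
    linarith

/-- the dominating function -/
def dom (p : ℝ) (t : ℝ) : ℝ := (2 / Real.pi) ^ (-p) * (t ^ (-p) + (2 * Real.pi - t) ^ (-p))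

theorem dom_int (p : ℝ) (hp : p < 1) : IntervalIntegrable (dom p) volume 0 (2 * Real.pi) := by
  have h1 : IntervalIntegrable (fun t : ℝ => t ^ (-p)) volume 0 (2 * Real.pi) :=
    intervalIntegral.intervalIntegrable_rpow' (by linarith)
  have h2 : IntervalIntegrable (fun t : ℝ => t ^ (-p)) volume (2 * Real.pi) 0 :=
    intervalIntegral.intervalIntegrable_rpow' (by linarith)
  have h3 := h2.comp_sub_left (2 * Real.pi)
  rw [sub_self, sub_zero] at h3
  exact (h1.add h3).const_mul _

theorem rr_dom (p : ℝ) (hp0 : 0 < p) (t : ℝ) (h0 : 0 < t) (h1 : t ≤ 2 * Real.pi) :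
    rr (Circle.exp t) ^ (-p) ≤ dom p t := by
  have hpi := Real.pi_pos
  unfold dom
  rcases lt_or_eq_of_le h1 with h | h
  · have hm : 0 < min t (2 * Real.pi - t) := lt_min h0 (by linarith)
    have h2 : rr (Circle.exp t) ^ (-p) ≤ (2 / Real.pi * min t (2 * Real.pi - t)) ^ (-p) :=
      Real.rpow_le_rpow_of_nonpos (by positivity) (rr_low t h0 h) (by linarith)
    refine h2.trans ?_
    rw [Real.mul_rpow (by positivity) hm.le]
    refine mul_le_mul_of_nonneg_left ?_ (by positivity)
    have h3 : 0 ≤ t ^ (-p) := Real.rpow_nonneg h0.le _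
    have h4 : 0 ≤ (2 * Real.pi - t) ^ (-p) := Real.rpow_nonneg (by linarith) _
    rcases min_choice t (2 * Real.pi - t) with h5 | h5
    · rw [h5]; linarith
    · rw [h5]; linarith
  · subst h
    have e : rr (Circle.exp (2 * Real.pi)) = 0 := by
      rw [rr_exp]
      have : 2 * Real.pi / 2 = Real.pi := by ring
      rw [this, Real.sin_pi]
      simp
    rw [e, Real.zero_rpow (by linarith)]
    have h3 : 0 ≤ (2 * Real.pi) ^ (-p) := by positivity
    rw [sub_self, Real.zero_rpow (by linarith), add_zero]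
    positivity

theorem log_bd (r : ℝ) (h0 : 0 ≤ r) (h2 : r ≤ 2) :
    |r ^ (-(1 / 2) : ℝ) * Real.log r| ≤ 4 * r ^ (-(3 / 4) : ℝ) := by
  rcases lt_or_eq_of_le h0 with h | h
  · have e : r ^ (-(3 / 4) : ℝ) = r ^ (-(1 / 2) : ℝ) * r ^ (-(1 / 4) : ℝ) := by
      rw [← Real.rpow_add h]
      norm_num
    rw [abs_mul, abs_of_pos (Real.rpow_pos_of_pos h _), e]
    have hq : 0 < r ^ (-(1 / 4) : ℝ) := Real.rpow_pos_of_pos h _
    have h3 : |Real.log r| ≤ 4 * r ^ (-(1 / 4) : ℝ) := by
      rcases le_total r 1 with h1 | h1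
      · rw [abs_of_nonpos (Real.log_nonpos h0 h1)]
        have h4 := Real.log_le_sub_one_of_pos hq
        rw [Real.log_rpow h] at h4
        linarith
      · rw [abs_of_nonneg (Real.log_nonneg h1)]
        have h4 : Real.log r ≤ 1 := by
          have := Real.log_le_sub_one_of_pos h
          linarith
        have h5 : (1 / 2 : ℝ) ≤ r ^ (-(1 / 4) : ℝ) := by
          have h6 : (2 : ℝ) ^ (-(1 / 4) : ℝ) ≤ r ^ (-(1 / 4) : ℝ) :=
            Real.rpow_le_rpow_of_nonpos h h2 (by norm_num)
          have h7 : (2 : ℝ) ^ (-1 : ℝ) ≤ (2 : ℝ) ^ (-(1 / 4) : ℝ) :=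
            Real.rpow_le_rpow_of_exponent_le (by norm_num) (by norm_num)
          rw [Real.rpow_neg_one] at h7
          linarith
        linarith
    calc r ^ (-(1 / 2) : ℝ) * |Real.log r| ≤ r ^ (-(1 / 2) : ℝ) * (4 * r ^ (-(1 / 4) : ℝ)) :=
          mul_le_mul_of_nonneg_left h3 (Real.rpow_nonneg h0 _)
      _ = 4 * (r ^ (-(1 / 2) : ℝ) * r ^ (-(1 / 4) : ℝ)) := by ring
  · subst h
    simp

theorem kap1_meas : Measurable kap1 := by
  unfold kap1
  exact rr_meas.pow_const _

theorem kap2_meas : Measurable kap2 := by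
  unfold kap2
  exact (rr_meas.pow_const _).mul rr_meas.log

theorem exp_meas : Measurable fun t : ℝ => Circle.exp t := Circle.exp.continuous.measurable

end TKINT

open TKINT in
theorem t_KINT : S_MU → S_KINT := by
  intro hMU
  obtain ⟨_, _, hI, _⟩ := hMU
  have hpi := Real.pi_pos
  have hΙ : Set.uIoc 0 (2 * Real.pi) = Set.Ioc 0 (2 * Real.pi) :=
    Set.uIoc_of_le (by positivity)
  constructor
  · rw [hI kap1 kap1_meas]
    refine (dom_int (1 / 2) (by norm_num)).mono_fun
      (kap1_meas.comp exp_meas).aestronglyMeasurable ?_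
    rw [hΙ]
    refine (ae_restrict_iff' measurableSet_Ioc).2 (Eventually.of_forall fun t ht => ?_)
    have h1 := rr_dom (1 / 2) (by norm_num) t ht.1 ht.2
    have h2 : kap1 (Circle.exp t) = rr (Circle.exp t) ^ (-(1 / 2) : ℝ) := rfl
    have h5 : 0 ≤ rr (Circle.exp t) ^ (-(1 / 2) : ℝ) := Real.rpow_nonneg (norm_nonneg _) _
    simp only
    rw [h2, Real.norm_eq_abs, Real.norm_eq_abs, abs_of_nonneg h5]
    exact h1.trans (le_abs_self _)
  · rw [hI kap2 kap2_meas]
    refine ((dom_int (3 / 4) (by norm_num)).const_mul 4).mono_fun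
      (kap2_meas.comp exp_meas).aestronglyMeasurable ?_
    rw [hΙ]
    refine (ae_restrict_iff' measurableSet_Ioc).2 (Eventually.of_forall fun t ht => ?_)
    have h1 := rr_dom (3 / 4) (by norm_num) t ht.1 ht.2
    have h2 : kap2 (Circle.exp t) = rr (Circle.exp t) ^ (-(1 / 2) : ℝ) *
      Real.log (rr (Circle.exp t)) := rfl
    have h3 := log_bd (rr (Circle.exp t)) (norm_nonneg _) (rr_le _)
    simp only
    rw [h2, Real.norm_eq_abs, Real.norm_eq_abs]
    refine h3.trans (le_trans ?_ (le_abs_self _))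
    exact mul_le_mul_of_nonneg_left h1 (by norm_num)

end

end Pool.Agent.W268.UB
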