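import Pool.Agent.W268.UB.Stm

/-! Project UB, part KREC: recurrences for the Fourier coefficients of the kernels. -/

set_option autoImplicit false

namespace Pool.Agent.W268.UB

open MeasureTheory Complex Set Filter Topology

namespace TKREC

/-- `2 sin (t / 2)` -/
noncomputable def sn (t : ℝ) : ℝ := 2 * Real.sin (t / 2)

lemma norm_eq (t : ℝ) (h0 : 0 ≤ t) (h1 : t ≤ 2 * Real.pi) :
    ‖(1 : ℂ) - (Circle.exp t : ℂ)‖ = sn t := by
  rw [Circle.coe_exp, norm_sub_rev, mul_comm, Complex.norm_exp_I_mul_ofReal_sub_one,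
    Real.norm_eq_abs, abs_of_nonneg]
  · rfl
  · have := Real.sin_nonneg_of_nonneg_of_le_pi (x := t / 2) (by linarith) (by linarith)
    linarith

lemma sn_pos (t : ℝ) (h0 : 0 < t) (h1 : t < 2 * Real.pi) : 0 < sn t := by
  have := Real.sin_pos_of_pos_of_lt_pi (x := t / 2) (by linarith) (by linarith)
  unfold sn
  linarith

lemma sn_nonneg (t : ℝ) (h0 : 0 ≤ t) (h1 : t ≤ 2 * Real.pi) : 0 ≤ sn t := by
  have := Real.sin_nonneg_of_nonneg_of_le_pi (x := t / 2) (by linarith) (by linarith)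
  unfold sn
  linarith

lemma sn_deriv (t : ℝ) : HasDerivAt sn (Real.cos (t / 2)) t := by
  have h1 : HasDerivAt (fun t : ℝ => t / 2) (1 / 2) t := (hasDerivAt_id t).div_const 2
  have h2 := (Real.hasDerivAt_sin (t / 2)).comp t h1
  have h3 := h2.const_mul 2
  refine h3.congr_deriv ?_
  ring

lemma en_eq (n : ℤ) (t : ℝ) : ((Circle.exp t : ℂ)) ^ n = Complex.exp (n * (t * I)) := by
  rw [Circle.coe_exp, Complex.exp_int_mul]

lemma en_deriv (n : ℤ) (t : ℝ) : HasDerivAt (fun t : ℝ => Complex.exp (n * (t * I)))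
    (n * I * Complex.exp (n * (t * I))) t := by
  have h1 : HasDerivAt (fun t : ℝ => (t : ℂ)) 1 t := by
    simpa using (hasDerivAt_id t).ofReal_comp
  have h2 : HasDerivAt (fun t : ℝ => (n : ℂ) * ((t : ℂ) * I)) (n * (1 * I)) t :=
    (h1.mul_const I).const_mul (n : ℂ)
  refine h2.cexp.congr_deriv ?_
  ring

lemma en_norm (n : ℤ) (t : ℝ) : ‖Complex.exp ((n : ℂ) * ((t : ℂ) * I))‖ = 1 := by
  have : (n : ℂ) * ((t : ℂ) * I) = (((n : ℝ) * t : ℝ) : ℂ) * I := by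
    push_cast
    ring
  rw [this, Complex.norm_exp_ofReal_mul_I]

lemma ex_half (t : ℝ) : Complex.exp ((t : ℂ) * I) =
    ((Real.cos (t / 2) : ℝ) + (Real.sin (t / 2) : ℝ) * I) ^ 2 := by
  rw [Complex.ofReal_cos, Complex.ofReal_sin, ← Complex.exp_mul_I, ← Complex.exp_nat_mul]
  congr 1
  push_cast
  ring

lemma key (t : ℝ) : ((Real.cos (t / 2) : ℝ) : ℂ) * (Complex.exp ((t : ℂ) * I) - 1) =
    (sn t : ℂ) * (I / 2) * (Complex.exp ((t : ℂ) * I) + 1) := by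
  rw [ex_half]
  have h : ((Real.cos (t / 2) : ℝ) : ℂ) ^ 2 + ((Real.sin (t / 2) : ℝ) : ℂ) ^ 2 = 1 := by
    exact_mod_cast Real.cos_sq_add_sin_sq (t / 2)
  have h2 : ((sn t : ℝ) : ℂ) = 2 * ((Real.sin (t / 2) : ℝ) : ℂ) := by
    simp only [sn, Complex.ofReal_mul, Complex.ofReal_ofNat]
  rw [h2]
  generalize ((Real.cos (t / 2) : ℝ) : ℂ) = c at *
  generalize ((Real.sin (t / 2) : ℝ) : ℂ) = s at *
  have hI : I ^ 2 = -1 := I_sq
  linear_combination (c + s * I) * h + (-c * s ^ 2 - s ^ 3 * I) * hI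

/-- the integrand -/
noncomputable def Fd (φ χ : ℝ → ℝ) (n : ℤ) (t : ℝ) : ℂ :=
  (((χ ‖(1 : ℂ) - (Circle.exp t : ℂ)‖ : ℝ) : ℂ) / 2 * ((Circle.exp t : ℂ) + 1) +
    ((φ ‖(1 : ℂ) - (Circle.exp t : ℂ)‖ : ℝ) : ℂ) * ((n + 1) * (Circle.exp t : ℂ) - n)) *
      (Circle.exp t : ℂ) ^ n

/-- the primitive -/
noncomputable def Fp (φ : ℝ → ℝ) (n : ℤ) (t : ℝ) : ℂ :=
  ((φ ‖(1 : ℂ) - (Circle.exp t : ℂ)‖ : ℝ) : ℂ) * ((Circle.exp t : ℂ) - 1) *
      (Circle.exp t : ℂ) ^ n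

lemma Fp_norm (φ h : ℝ → ℝ) (hh : ∀ s, 0 ≤ s → φ s * s = h s) (n : ℤ) (t : ℝ) (h0 : 0 ≤ t)
    (h1 : t ≤ 2 * Real.pi) : ‖Fp φ n t‖ = |h (sn t)| := by
  unfold Fp
  rw [norm_mul, norm_mul, en_eq, en_norm, mul_one, Complex.norm_real, Real.norm_eq_abs,
    norm_sub_rev (Circle.exp t : ℂ) 1, norm_eq t h0 h1, ← hh _ (sn_nonneg t h0 h1), abs_mul,
    abs_of_nonneg (sn_nonneg t h0 h1)]

lemma Fp_deriv (φ χ : ℝ → ℝ) (hd : ∀ s, 0 < s → HasDerivAt φ (χ s / s) s) (n : ℤ) (t : ℝ)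
    (h0 : 0 < t) (h1 : t < 2 * Real.pi) : HasDerivAt (Fp φ n) (I * Fd φ χ n t) t := by
  have hs := sn_pos t h0 h1
  have e1 : (Fp φ n) =ᶠ[𝓝 t] (fun t : ℝ => ((φ (sn t) : ℝ) : ℂ) *
      (Complex.exp ((1 : ℤ) * (t * I)) - 1) * Complex.exp (n * (t * I))) := by
    filter_upwards [Ioo_mem_nhds h0 h1] with u hu
    unfold Fp
    rw [norm_eq u hu.1.le hu.2.le, en_eq]
    have : (Circle.exp u : ℂ) = Complex.exp ((1 : ℤ) * (u * I)) := by
      rw [← en_eq, zpow_one]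
    rw [this]
  have d1 : HasDerivAt (fun t : ℝ => ((φ (sn t) : ℝ) : ℂ))
      ((χ (sn t) / sn t * Real.cos (t / 2) : ℝ) : ℂ) t :=
    ((hd (sn t) hs).comp t (sn_deriv t)).ofReal_comp
  have d2 := (en_deriv 1 t).sub_const (1 : ℂ)
  have d3 := (d1.fun_mul d2).fun_mul (en_deriv n t)
  refine (d3.congr_of_eventuallyEq e1).congr_deriv ?_
  unfold Fd
  rw [norm_eq t h0.le h1.le, en_eq, Circle.coe_exp]
  have hk := key t
  have hsc : ((sn t : ℝ) : ℂ) ≠ 0 := by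
    exact_mod_cast hs.ne'
  have e2 : Complex.exp (((1 : ℤ) : ℂ) * ((t : ℂ) * I)) = Complex.exp ((t : ℂ) * I) := by
    rw [Int.cast_one, one_mul]
  rw [e2]
  rw [Complex.ofReal_mul, Complex.ofReal_div]
  generalize ((Real.cos (t / 2) : ℝ) : ℂ) = c at *
  generalize ((sn t : ℝ) : ℂ) = s at *
  generalize Complex.exp ((t : ℂ) * I) = x at *
  generalize Complex.exp ((n : ℂ) * ((t : ℂ) * I)) = w at *
  generalize ((χ (sn t) : ℝ) : ℂ) = X at *
  generalize ((φ (sn t) : ℝ) : ℂ) = p at *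
  push_cast
  field_simp
  linear_combination (2 * X * w) * hk

lemma Fp_cont (φ χ h : ℝ → ℝ) (hd : ∀ s, 0 < s → HasDerivAt φ (χ s / s) s) (hh0 : h 0 = 0)
    (hhc : Continuous h) (hh : ∀ s, 0 ≤ s → φ s * s = h s) (n : ℤ) :
    ContinuousOn (Fp φ n) (Icc 0 (2 * Real.pi)) := by
  intro t ht
  have hsnc : Continuous sn := continuous_iff_continuousAt.mpr fun t => (sn_deriv t).continuousAt
  by_cases hz : sn t = 0
  · have hF : Fp φ n t = 0 := by
      rw [← norm_eq_zero, Fp_norm φ h hh n t ht.1 ht.2, hz, hh0, abs_zero]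
    unfold ContinuousWithinAt
    rw [hF, tendsto_zero_iff_norm_tendsto_zero]
    have h1 : Tendsto (fun u => |h (sn u)|) (𝓝[Icc 0 (2 * Real.pi)] t) (𝓝 0) := by
      have h2 : Continuous (fun u => |h (sn u)|) := (hhc.comp hsnc).abs
      have h3 := (h2.tendsto t).mono_left (nhdsWithin_le_nhds (s := Icc 0 (2 * Real.pi)))
      simp only [hz, hh0, abs_zero] at h3
      exact h3
    refine h1.congr' ?_
    filter_upwards [self_mem_nhdsWithin] with u hu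
    exact (Fp_norm φ h hh n u hu.1 hu.2).symm
  · have h0 : t ≠ 0 := by
      rintro rfl
      exact hz (by unfold sn; simp)
    have h1 : t ≠ 2 * Real.pi := by
      rintro rfl
      apply hz
      unfold sn
      rw [mul_div_cancel_left₀ _ (by norm_num : (2 : ℝ) ≠ 0), Real.sin_pi, mul_zero]
    exact (Fp_deriv φ χ hd n t (lt_of_le_of_ne ht.1 (Ne.symm h0))
      (lt_of_le_of_ne ht.2 h1)).continuousAt.continuousWithinAt

lemma lemA (φ χ h : ℝ → ℝ) (hd : ∀ s, 0 < s → HasDerivAt φ (χ s / s) s) (hh0 : h 0 = 0)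
    (hhc : Continuous h) (hh : ∀ s, 0 ≤ s → φ s * s = h s) (n : ℤ)
    (hint : IntervalIntegrable (Fd φ χ n) volume 0 (2 * Real.pi)) :
    ∫ t in (0 : ℝ)..(2 * Real.pi), Fd φ χ n t = 0 := by
  have h1 := intervalIntegral.integral_eq_sub_of_hasDerivAt_of_le
    (by positivity : (0 : ℝ) ≤ 2 * Real.pi) (Fp_cont φ χ h hd hh0 hhc hh n)
    (fun t ht => Fp_deriv φ χ hd n t ht.1 ht.2) (hint.const_mul I)
  rw [intervalIntegral.integral_const_mul] at h1
  have e1 : Fp φ n (2 * Real.pi) = 0 := by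
    unfold Fp
    rw [show ((Circle.exp (2 * Real.pi) : Circle) : ℂ) = 1 by simp]
    simp
  have e2 : Fp φ n 0 = 0 := by
    unfold Fp
    rw [show ((Circle.exp (0 : ℝ) : Circle) : ℂ) = 1 by simp]
    simp
  rw [e1, e2, sub_zero] at h1
  exact (mul_eq_zero.mp h1).resolve_left I_ne_zero

/-- the two profiles -/
noncomputable def p1 (s : ℝ) : ℝ := s ^ (-(1 / 2) : ℝ)
noncomputable def p2 (s : ℝ) : ℝ := s ^ (-(1 / 2) : ℝ) * Real.log s

lemma p1_deriv (s : ℝ) (hs : 0 < s) : HasDerivAt p1 ((-(1 / 2) * p1 s) / s) s := by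
  have h := Real.hasDerivAt_rpow_const (x := s) (p := (-(1 / 2) : ℝ)) (Or.inl hs.ne')
  refine h.congr_deriv ?_
  rw [Real.rpow_sub_one hs.ne']
  unfold p1
  ring

lemma p2_deriv (s : ℝ) (hs : 0 < s) :
    HasDerivAt p2 ((-(1 / 2) * p2 s + p1 s) / s) s := by
  have h := (p1_deriv s hs).mul (Real.hasDerivAt_log hs.ne')
  refine h.congr_deriv ?_
  unfold p2
  show _ * Real.log s + p1 s * s⁻¹ = (-(1 / 2) * (p1 s * Real.log s) + p1 s) / s
  field_simp

lemma p1_mul (s : ℝ) (hs : 0 ≤ s) : p1 s * s = Real.sqrt s := by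
  unfold p1
  rcases eq_or_lt_of_le hs with h | h
  · rw [← h]
    simp
  · rw [Real.sqrt_eq_rpow]
    nth_rewrite 2 [← Real.rpow_one s]
    rw [← Real.rpow_add h]
    norm_num

lemma p2_mul (s : ℝ) (hs : 0 ≤ s) :
    p2 s * s = 2 * (Real.sqrt s * Real.log (Real.sqrt s)) := by
  rw [Real.log_sqrt hs]
  have := p1_mul s hs
  unfold p2
  show p1 s * Real.log s * s = _
  rw [← this]
  ring

lemma meas_nrm : Measurable (fun z : Circle => ‖(1 : ℂ) - z‖) :=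
  (continuous_const.sub cont_coe).norm.measurable

lemma meas1 : Measurable kap1 := by
  unfold kap1
  exact meas_nrm.pow_const _

lemma meas2 : Measurable kap2 := by
  unfold kap2
  exact (meas_nrm.pow_const _).mul (Real.measurable_log.comp meas_nrm)

lemma meas_z (n : ℤ) : Measurable (fun z : Circle => (z : ℂ) ^ n) :=
  (zn n).continuous.measurable

lemma cont_ez (n : ℤ) : Continuous (fun t : ℝ => (Circle.exp t : ℂ) ^ n) := by
  have : (fun t : ℝ => (Circle.exp t : ℂ) ^ n) = fun t : ℝ => Complex.exp (n * (t * I)) := by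
    funext t
    exact en_eq n t
  rw [this]
  fun_prop

/-- the integrals -/
noncomputable def KI (φ : ℝ → ℝ) (n : ℤ) : ℂ :=
  ∫ t in (0 : ℝ)..(2 * Real.pi), ((φ ‖(1 : ℂ) - (Circle.exp t : ℂ)‖ : ℝ) : ℂ) *
    (Circle.exp t : ℂ) ^ n

lemma KI_int (φ : ℝ → ℝ)
    (h : IntervalIntegrable (fun t => φ ‖(1 : ℂ) - (Circle.exp t : ℂ)‖) volume 0 (2 * Real.pi))
    (n : ℤ) : IntervalIntegrable (fun t => ((φ ‖(1 : ℂ) - (Circle.exp t : ℂ)‖ : ℝ) : ℂ) *
      (Circle.exp t : ℂ) ^ n) volume 0 (2 * Real.pi) := by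
  have h1 : IntervalIntegrable (fun t => ((φ ‖(1 : ℂ) - (Circle.exp t : ℂ)‖ : ℝ) : ℂ)) volume 0
      (2 * Real.pi) := ⟨h.1.ofReal, h.2.ofReal⟩
  exact h1.mul_continuousOn (cont_ez n).continuousOn

lemma Fd_eq (φ χ : ℝ → ℝ) (n : ℤ) (t : ℝ) : Fd φ χ n t =
    (1 / 2) * (((χ ‖(1 : ℂ) - (Circle.exp t : ℂ)‖ : ℝ) : ℂ) * (Circle.exp t : ℂ) ^ (n + 1)) +
    (1 / 2) * (((χ ‖(1 : ℂ) - (Circle.exp t : ℂ)‖ : ℝ) : ℂ) * (Circle.exp t : ℂ) ^ n) +
    (n + 1) * (((φ ‖(1 : ℂ) - (Circle.exp t : ℂ)‖ : ℝ) : ℂ) * (Circle.exp t : ℂ) ^ (n + 1)) -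
    n * (((φ ‖(1 : ℂ) - (Circle.exp t : ℂ)‖ : ℝ) : ℂ) * (Circle.exp t : ℂ) ^ n) := by
  unfold Fd
  rw [zpow_add₀ (Circle.coe_ne_zero _), zpow_one]
  ring

lemma lemB (φ χ h : ℝ → ℝ) (hd : ∀ s, 0 < s → HasDerivAt φ (χ s / s) s) (hh0 : h 0 = 0)
    (hhc : Continuous h) (hh : ∀ s, 0 ≤ s → φ s * s = h s)
    (i1 : IntervalIntegrable (fun t => φ ‖(1 : ℂ) - (Circle.exp t : ℂ)‖) volume 0 (2 * Real.pi))
    (i2 : IntervalIntegrable (fun t => χ ‖(1 : ℂ) - (Circle.exp t : ℂ)‖) volume 0 (2 * Real.pi))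
    (n : ℤ) : (1 / 2) * KI χ (n + 1) + (1 / 2) * KI χ n + (n + 1) * KI φ (n + 1) -
      n * KI φ n = 0 := by
  have a1 := (KI_int χ i2 (n + 1)).const_mul (1 / 2 : ℂ)
  have a2 := (KI_int χ i2 n).const_mul (1 / 2 : ℂ)
  have a3 := (KI_int φ i1 (n + 1)).const_mul ((n : ℂ) + 1)
  have a4 := (KI_int φ i1 n).const_mul (n : ℂ)
  have hF : Fd φ χ n = fun t => (1 / 2) * (((χ ‖(1 : ℂ) - (Circle.exp t : ℂ)‖ : ℝ) : ℂ) *
      (Circle.exp t : ℂ) ^ (n + 1)) +
    (1 / 2) * (((χ ‖(1 : ℂ) - (Circle.exp t : ℂ)‖ : ℝ) : ℂ) * (Circle.exp t : ℂ) ^ n) +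
    (n + 1) * (((φ ‖(1 : ℂ) - (Circle.exp t : ℂ)‖ : ℝ) : ℂ) * (Circle.exp t : ℂ) ^ (n + 1)) -
    n * (((φ ‖(1 : ℂ) - (Circle.exp t : ℂ)‖ : ℝ) : ℂ) * (Circle.exp t : ℂ) ^ n) :=
    funext fun t => Fd_eq φ χ n t
  have hint : IntervalIntegrable (Fd φ χ n) volume 0 (2 * Real.pi) := by
    rw [hF]
    exact ((a1.add a2).add a3).sub a4
  have h1 := lemA φ χ h hd hh0 hhc hh n hint
  rw [hF, intervalIntegral.integral_sub ((a1.add a2).add a3) a4,
    intervalIntegral.integral_add (a1.add a2) a3, intervalIntegral.integral_add a1 a2,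
    intervalIntegral.integral_const_mul, intervalIntegral.integral_const_mul,
    intervalIntegral.integral_const_mul, intervalIntegral.integral_const_mul] at h1
  exact h1

end TKREC

open TKREC in
theorem t_KREC : S_MU → S_KINT → S_KREC := by
  rintro ⟨m1, m2, m3, m4, m5, m6⟩ ⟨k1, k2⟩
  have := m1
  have j1 := (m3 kap1 meas1).mp k1
  have j2 := (m3 kap2 meas2).mp k2
  have i1 : IntervalIntegrable (fun t => TKREC.p1 ‖(1 : ℂ) - (Circle.exp t : ℂ)‖) volume 0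
    (2 * Real.pi) := j1
  have i2 : IntervalIntegrable (fun t => TKREC.p2 ‖(1 : ℂ) - (Circle.exp t : ℂ)‖) volume 0
    (2 * Real.pi) := j2
  have q1 : ∀ n, kc kap1 n = (((2 * Real.pi)⁻¹ : ℝ) : ℂ) * KI TKREC.p1 n := by
    intro n
    have hm : Measurable (fun z : Circle => ((kap1 z : ℝ) : ℂ) * (z : ℂ) ^ n) :=
      (Complex.measurable_ofReal.comp meas1).mul (meas_z n)
    have h := m2 _ hm
    push_cast at h ⊢
    exact h
  have q2 : ∀ n, kc kap2 n = (((2 * Real.pi)⁻¹ : ℝ) : ℂ) * KI TKREC.p2 n := by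
    intro n
    have hm : Measurable (fun z : Circle => ((kap2 z : ℝ) : ℂ) * (z : ℂ) ^ n) :=
      (Complex.measurable_ofReal.comp meas2).mul (meas_z n)
    have h := m2 _ hm
    push_cast at h ⊢
    exact h
  have c1 : ∀ n, KI (fun s => -(1 / 2) * TKREC.p1 s) n = -(1 / 2) * KI TKREC.p1 n := by
    intro n
    unfold KI
    rw [← intervalIntegral.integral_const_mul]
    congr 1
    funext t
    push_cast
    ring
  have c2 : ∀ n, KI (fun s => -(1 / 2) * TKREC.p2 s + TKREC.p1 s) n =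
      -(1 / 2) * KI TKREC.p2 n + KI TKREC.p1 n := by
    intro n
    unfold KI
    rw [← intervalIntegral.integral_const_mul, ← intervalIntegral.integral_add
      ((KI_int _ i2 n).const_mul _) (KI_int _ i1 n)]
    congr 1
    funext t
    push_cast
    ring
  refine ⟨?_, ?_, ?_, ?_⟩
  · intro n
    have h := lemB TKREC.p1 (fun s => -(1 / 2) * TKREC.p1 s) Real.sqrt p1_deriv Real.sqrt_zero
      Real.continuous_sqrt p1_mul i1 (i1.const_mul _) n
    rw [c1, c1] at h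
    rw [q1, q1]
    linear_combination (4 * (((2 * Real.pi)⁻¹ : ℝ) : ℂ)) * h
  · intro n
    have h := lemB TKREC.p2 (fun s => -(1 / 2) * TKREC.p2 s + TKREC.p1 s)
      (fun s => 2 * (Real.sqrt s * Real.log (Real.sqrt s))) p2_deriv (by simp)
      (continuous_const.mul (Real.continuous_mul_log.comp Real.continuous_sqrt)) p2_mul i2
      ((i2.const_mul _).add i1) n
    rw [c2, c2] at h
    rw [q1, q1, q2, q2]
    linear_combination (4 * (((2 * Real.pi)⁻¹ : ℝ) : ℂ)) * h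
  · refine ⟨∫ z, kap1 z ∂mu, ?_, ?_⟩
    · have hnn : 0 ≤ kap1 := fun z => Real.rpow_nonneg (norm_nonneg _) _
      refine lt_of_le_of_ne (integral_nonneg hnn) ?_
      intro h0
      have h1 := (integral_eq_zero_iff_of_nonneg hnn k1).mp h0.symm
      have h2 : ∀ᵐ z : Circle ∂mu, (z : ℂ) = 1 := by
        filter_upwards [h1] with z hz
        have hz' : ‖(1 : ℂ) - z‖ ^ (-(1 / 2) : ℝ) = 0 := hz
        rw [Real.rpow_eq_zero (norm_nonneg _) (by norm_num), norm_eq_zero, sub_eq_zero] at hz'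
        exact hz'.symm
      have h3 := m6 1 0
      rw [if_neg (by norm_num)] at h3
      have h4 : fc (zn 1) 0 = 1 := by
        unfold fc
        have h5 : ∫ z, (zn 1) z * (z : ℂ) ^ (-(0 : ℤ)) ∂mu = ∫ z, (1 : ℂ) ∂mu := by
          refine integral_congr_ae ?_
          filter_upwards [h2] with z hz
          show (z : ℂ) ^ (1 : ℤ) * (z : ℂ) ^ (-(0 : ℤ)) = 1
          rw [hz]
          simp
        rw [h5]
        simp
      rw [h4] at h3
      exact one_ne_zero h3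
    · unfold kc
      rw [← integral_complex_ofReal]
      refine integral_congr_ae (Filter.Eventually.of_forall fun z => ?_)
      simp
  · refine ⟨∫ z, kap2 z ∂mu, ?_⟩
    unfold kc
    rw [← integral_complex_ofReal]
    refine integral_congr_ae (Filter.Eventually.of_forall fun z => ?_)
    simp

end Pool.Agent.W268.UB
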