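import Pool.Agent.W268.UB.Stm

/-! Project UB (helper268), task KSUM. -/

set_option autoImplicit false

namespace Pool.Agent.W268.UB

namespace TKSUM

/-- fourth root -/
noncomputable def b (k : ℕ) : ℝ := Real.sqrt (Real.sqrt (k : ℝ))

theorem b_nn (k : ℕ) : 0 ≤ b k := Real.sqrt_nonneg _

theorem b_sq (k : ℕ) : b k ^ 2 = Real.sqrt (k : ℝ) := Real.sq_sqrt (Real.sqrt_nonneg _)

theorem b_four (k : ℕ) : b k ^ 4 = (k : ℝ) := by
  have h : b k ^ 4 = (b k ^ 2) ^ 2 := by ring
  rw [h, b_sq, Real.sq_sqrt (Nat.cast_nonneg k)]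

theorem b_mono {i j : ℕ} (h : i ≤ j) : b i ≤ b j :=
  Real.sqrt_le_sqrt (Real.sqrt_le_sqrt (by exact_mod_cast h))

theorem b_pos {k : ℕ} (h : 1 ≤ k) : 0 < b k :=
  Real.sqrt_pos.2 (Real.sqrt_pos.2 (by exact_mod_cast h))

theorem step (k : ℕ) : 1 / b (k + 1) ^ 3 ≤ 4 * (b (k + 1) - b k) := by
  have h0 := b_pos (k := k + 1) (by omega)
  have h1 := b_nn k
  have h2 := b_mono (Nat.le_succ k)
  have h3 := b_four k
  have h4 := b_four (k + 1)
  push_cast at h4
  rw [div_le_iff₀ (by positivity)]
  have h5 : (b (k + 1) - b k) * (b (k + 1) ^ 3 + b (k + 1) ^ 2 * b k + b (k + 1) * b k ^ 2 +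
      b k ^ 3) = 1 := by
    have : (b (k + 1) - b k) * (b (k + 1) ^ 3 + b (k + 1) ^ 2 * b k + b (k + 1) * b k ^ 2 +
      b k ^ 3) = b (k + 1) ^ 4 - b k ^ 4 := by ring
    rw [this, h3, h4]
    ring
  have h6 : b (k + 1) ^ 3 + b (k + 1) ^ 2 * b k + b (k + 1) * b k ^ 2 + b k ^ 3 ≤
      4 * b (k + 1) ^ 3 := by
    have e1 : b (k + 1) ^ 2 * b k ≤ b (k + 1) ^ 2 * b (k + 1) := by gcongr
    have e2 : b (k + 1) * b k ^ 2 ≤ b (k + 1) * b (k + 1) ^ 2 := by gcongr
    have e3 : b k ^ 3 ≤ b (k + 1) ^ 3 := by gcongr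
    nlinarith
  calc (1 : ℝ) = (b (k + 1) - b k) * (b (k + 1) ^ 3 + b (k + 1) ^ 2 * b k +
        b (k + 1) * b k ^ 2 + b k ^ 3) := h5.symm
    _ ≤ (b (k + 1) - b k) * (4 * b (k + 1) ^ 3) :=
        mul_le_mul_of_nonneg_left h6 (by linarith)
    _ = 4 * (b (k + 1) - b k) * b (k + 1) ^ 3 := by ring

theorem sumA (K : ℕ) : ∑ k ∈ Finset.range K, 1 / b (k + 1) ^ 3 ≤ 4 * b K := by
  induction K with
  | zero => simpa using b_nn 0
  | succ K ih =>
    rw [Finset.sum_range_succ]
    have := step K
    linarith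

theorem step2 (k : ℕ) (hk : 1 ≤ k) : 1 / b (k + 1) ^ 5 ≤ 4 * (1 / b k - 1 / b (k + 1)) := by
  have h0 := b_pos (k := k + 1) (by omega)
  have h1 := b_pos hk
  have h2 := b_mono (Nat.le_succ k)
  have h3 := step k
  calc 1 / b (k + 1) ^ 5 = 1 / b (k + 1) ^ 3 * (1 / (b (k + 1) * b (k + 1))) := by
        rw [one_div_mul_one_div]
        congr 1
        ring
    _ ≤ 4 * (b (k + 1) - b k) * (1 / (b (k + 1) * b k)) := by
        have h4 : 1 / (b (k + 1) * b (k + 1)) ≤ 1 / (b (k + 1) * b k) := by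
          apply one_div_le_one_div_of_le (by positivity)
          gcongr
        exact mul_le_mul h3 h4 (by positivity) (by linarith)
    _ = 4 * (1 / b k - 1 / b (k + 1)) := by
        field_simp

theorem sumB (N : ℕ) : ∀ K, N + 1 ≤ K →
    ∑ k ∈ Finset.Ico (N + 1) K, 1 / b (k + 1) ^ 5 ≤ 4 * (1 / b (N + 1) - 1 / b K) := by
  intro K hK
  induction K, hK using Nat.le_induction with
  | base => simp
  | succ K hK ih =>
    rw [Finset.sum_Ico_succ_top hK]
    have := step2 K (by omega)
    linarith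

theorem fold (g : ℕ → ℝ) (hg : ∀ k, 0 ≤ g k) (F : Finset ℤ) (S : Finset ℕ)
    (h : ∀ m ∈ F, m.natAbs ∈ S) : ∑ m ∈ F, g m.natAbs ≤ 2 * ∑ k ∈ S, g k := by
  classical
  have h1 : F ⊆ S.image (fun k : ℕ => (k : ℤ)) ∪ S.image (fun k : ℕ => -(k : ℤ)) := by
    intro m hm
    rw [Finset.mem_union, Finset.mem_image, Finset.mem_image]
    rcases Int.natAbs_eq m with h2 | h2
    · exact Or.inl ⟨m.natAbs, h m hm, h2.symm⟩
    · exact Or.inr ⟨m.natAbs, h m hm, h2.symm⟩
  have h2 := Finset.sum_union_inter (s₁ := S.image (fun k : ℕ => (k : ℤ)))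
    (s₂ := S.image (fun k : ℕ => -(k : ℤ))) (f := fun m : ℤ => g m.natAbs)
  have h3 : 0 ≤ ∑ m ∈ S.image (fun k : ℕ => (k : ℤ)) ∩ S.image (fun k : ℕ => -(k : ℤ)),
      g m.natAbs := Finset.sum_nonneg fun _ _ => hg _
  have h4 : ∑ m ∈ S.image (fun k : ℕ => (k : ℤ)), g m.natAbs = ∑ k ∈ S, g k := by
    rw [Finset.sum_image (fun a _ b _ h => by exact_mod_cast h)]
    simp
  have h5 : ∑ m ∈ S.image (fun k : ℕ => -(k : ℤ)), g m.natAbs = ∑ k ∈ S, g k := by
    rw [Finset.sum_image (fun a _ b _ h => by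
      have := neg_inj.1 h
      exact_mod_cast this)]
    simp
  calc ∑ m ∈ F, g m.natAbs ≤ ∑ m ∈ S.image (fun k : ℕ => (k : ℤ)) ∪
        S.image (fun k : ℕ => -(k : ℤ)), g m.natAbs :=
        Finset.sum_le_sum_of_subset_of_nonneg h1 fun _ _ _ => hg _
    _ ≤ _ := by linarith

theorem cast_abs (n : ℤ) : |(n : ℝ)| = (n.natAbs : ℝ) := by
  rw [Nat.cast_natAbs, Int.cast_abs]

theorem kk_symm (om : ℤ → ℝ) (n m : ℤ) : kk om n m = kk om m n := by
  unfold kk
  by_cases h : n = m
  · rw [if_pos h, if_pos h.symm]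
  · rw [if_neg h, if_neg (Ne.symm h), abs_sub_comm (n : ℝ), abs_sub_comm (om n / om m)]

theorem kb (hR : S_OMR) (om : ℤ → ℝ) (hom : IsOm om) (n m : ℤ) (h : m.natAbs ≤ n.natAbs) :
    kk om n m ≤ 5 / (b (n.natAbs + 1) ^ 3 * b (m.natAbs + 1)) := by
  obtain ⟨h1, h2, h3, h4, _⟩ := hR om hom
  have hbn := b_pos (k := n.natAbs + 1) (by omega)
  have hbm := b_pos (k := m.natAbs + 1) (by omega)
  have hrhs : 0 ≤ 5 / (b (n.natAbs + 1) ^ 3 * b (m.natAbs + 1)) := by positivity
  have hn0 := hom.1 n
  have hm0 := hom.1 m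
  unfold kk
  by_cases hnm : n = m
  · rw [if_pos hnm]
    exact hrhs
  rw [if_neg hnm]
  rcases Nat.eq_or_lt_of_le h with heq | hlt
  · have h5 : om n = om m := by
      rcases Int.natAbs_eq_natAbs_iff.1 heq with h6 | h6
      · exact absurd h6.symm hnm
      · rw [h6, h1]
    rw [h5, sub_self, abs_zero, mul_zero]
    exact hrhs
  · set N := n.natAbs with hN
    set M := m.natAbs with hM
    have hNM : (M : ℝ) + 1 ≤ N := by exact_mod_cast hlt
    have habs : |m| ≤ |n| := by
      rw [Int.abs_eq_natAbs, Int.abs_eq_natAbs]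
      exact_mod_cast h
    have hle : om n ≤ om m := h2 m n habs
    set x := om m / om n with hx
    have hx1 : 1 ≤ x := by
      rw [hx, one_le_div hn0]
      exact hle
    have hx0 : 0 < x := by linarith
    have hinv : om n / om m = 1 / x := by
      rw [hx, one_div_div]
    have hkk : |om n / om m - x| = x - 1 / x := by
      rw [hinv, abs_sub_comm, abs_of_nonneg]
      have : 1 / x ≤ 1 := by
        rw [div_le_one hx0]
        exact hx1
      linarith
    rw [hkk]
    have hdist : (N : ℝ) - M ≤ |(n : ℝ) - m| := by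
      have := abs_sub_abs_le_abs_sub (n : ℝ) (m : ℝ)
      rwa [cast_abs, cast_abs] at this
    have hNM0 : 0 < (N : ℝ) - M := by linarith
    have hx4 : (om m ^ 2 / om n ^ 2) ^ 2 = x ^ 4 := by
      rw [hx]
      ring
    have hM0 : (0 : ℝ) ≤ M := Nat.cast_nonneg M
    have hbn4 := b_four (N + 1)
    have hbm4 := b_four (M + 1)
    push_cast at hbn4 hbm4
    have hinvx : 0 < 1 / x := by positivity
    by_cases hc : 2 * (M + 1) ≤ N + 1
    · -- far
      have hc' : 2 * ((M : ℝ) + 1) ≤ N + 1 := by exact_mod_cast hc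
      have h5 : x ^ 4 ≤ 18 * (1 + N) / (1 + M) := by
        rcases h4 m n with h6 | h6
        · rw [hx4, cast_abs, cast_abs] at h6
          exact h6
        · exact absurd h6 (not_lt.2 habs)
      have h6 : x ≤ 5 / 2 * b (N + 1) / b (M + 1) := by
        have h7 : x ^ 4 ≤ (5 / 2 * b (N + 1) / b (M + 1)) ^ 4 := by
          refine h5.trans ?_
          rw [div_pow, mul_pow, hbn4, hbm4, add_comm (1 : ℝ) N, add_comm (1 : ℝ) M]
          gcongr
          norm_num
        exact le_of_pow_le_pow_left₀ (by norm_num) (by positivity) h7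
      calc 1 / |(n : ℝ) - m| * (x - 1 / x) ≤ 1 / (((N : ℝ) + 1) / 2) *
            (5 / 2 * b (N + 1) / b (M + 1)) := by
            have h8 : ((N : ℝ) + 1) / 2 ≤ |(n : ℝ) - m| := by linarith
            have h9 : 0 ≤ x - 1 / x := by
              rw [← hkk]
              exact abs_nonneg _
            refine mul_le_mul (one_div_le_one_div_of_le (by positivity) h8) (by linarith) h9
              (by positivity)
        _ = 5 / (b (N + 1) ^ 3 * b (M + 1)) := by
            rw [← hbn4]
            field_simp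
    · -- near
      have hc1 : (N : ℝ) + 1 ≤ 2 * ((M : ℝ) + 1) := by
        have : N + 1 ≤ 2 * (M + 1) := by omega
        exact_mod_cast this
      have hM1 : 1 ≤ M := by omega
      have hM1' : (1 : ℝ) ≤ M := by exact_mod_cast hM1
      have h5 : x ^ 4 ≤ N / M := by
        have h6 := h3 m n (by
          rw [Int.abs_eq_natAbs]
          exact_mod_cast hM1) habs
        rw [hx4, cast_abs, cast_abs] at h6
        exact h6
      have h6 : x - 1 / x ≤ (N - M) / M := by
        have h7 : x - 1 / x ≤ x ^ 2 - 1 := by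
          have e : x - 1 / x = (x ^ 2 - 1) / x := by
            field_simp
          rw [e]
          exact div_le_self (by nlinarith) hx1
        have h8 : x ^ 2 ≤ x ^ 4 := pow_le_pow_right₀ hx1 (by norm_num)
        have e2 : ((N : ℝ) - M) / M = N / M - 1 := by
          field_simp
        rw [e2]
        linarith
      calc 1 / |(n : ℝ) - m| * (x - 1 / x) ≤ 1 / ((N : ℝ) - M) * (((N : ℝ) - M) / M) := by
            refine mul_le_mul (one_div_le_one_div_of_le hNM0 hdist) h6 ?_ (by positivity)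
            rw [← hkk]
            exact abs_nonneg _
        _ = 1 / M := by
            field_simp
        _ ≤ 4 / ((N : ℝ) + 1) := by
            rw [div_le_div_iff₀ (by positivity) (by positivity)]
            linarith
        _ = 4 / (b (N + 1) ^ 3 * b (N + 1)) := by
            rw [← hbn4]
            congr 1
        _ ≤ 5 / (b (N + 1) ^ 3 * b (M + 1)) := by
            have := b_mono (Nat.succ_le_succ h)
            gcongr
            norm_num

end TKSUM

open TKSUM in
theorem t_KSUM : S_OMR → S_KSUM := by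
  intro hR om hom
  refine ⟨80, fun n F => ?_⟩
  classical
  set N := n.natAbs with hN
  have hb := b_pos (k := N + 1) (by omega)
  have hsq : ∀ m : ℤ, Real.sqrt (1 + |(m : ℝ)|) = b (m.natAbs + 1) ^ 2 := by
    intro m
    rw [b_sq, cast_abs]
    push_cast
    rw [add_comm]
  rw [hsq n, ← Finset.sum_filter_add_sum_filter_not F (fun m => m.natAbs ≤ N)]
  have hA : ∑ m ∈ F.filter (fun m => m.natAbs ≤ N), kk om n m * (1 / Real.sqrt (1 + |(m : ℝ)|)) ≤
      40 * (1 / b (N + 1) ^ 2) := by
    calc ∑ m ∈ F.filter (fun m => m.natAbs ≤ N), kk om n m * (1 / Real.sqrt (1 + |(m : ℝ)|)) ≤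
          ∑ m ∈ F.filter (fun m => m.natAbs ≤ N), 5 / b (N + 1) ^ 3 *
            (1 / b (m.natAbs + 1) ^ 3) := by
          refine Finset.sum_le_sum fun m hm => ?_
          rw [Finset.mem_filter] at hm
          have hbm := b_pos (k := m.natAbs + 1) (by omega)
          rw [hsq m]
          calc kk om n m * (1 / b (m.natAbs + 1) ^ 2) ≤
                5 / (b (N + 1) ^ 3 * b (m.natAbs + 1)) * (1 / b (m.natAbs + 1) ^ 2) :=
                mul_le_mul_of_nonneg_right (kb hR om hom n m hm.2) (by positivity)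
            _ = _ := by
                field_simp
      _ = 5 / b (N + 1) ^ 3 * ∑ m ∈ F.filter (fun m => m.natAbs ≤ N),
            (1 / b (m.natAbs + 1) ^ 3) := by rw [Finset.mul_sum]
      _ ≤ 5 / b (N + 1) ^ 3 * (2 * (4 * b (N + 1))) := by
          refine mul_le_mul_of_nonneg_left ?_ (by positivity)
          refine (fold (fun k => 1 / b (k + 1) ^ 3) (fun k => by
            have := b_nn (k + 1)
            positivity) _ (Finset.range (N + 1)) (fun m hm => by
            rw [Finset.mem_filter] at hm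
            rw [Finset.mem_range]
            omega)).trans ?_
          have := sumA (N + 1)
          linarith
      _ = 40 * (1 / b (N + 1) ^ 2) := by
          field_simp
          ring
  have hB : ∑ m ∈ F.filter (fun m => ¬ m.natAbs ≤ N),
      kk om n m * (1 / Real.sqrt (1 + |(m : ℝ)|)) ≤ 40 * (1 / b (N + 1) ^ 2) := by
    calc ∑ m ∈ F.filter (fun m => ¬ m.natAbs ≤ N),
          kk om n m * (1 / Real.sqrt (1 + |(m : ℝ)|)) ≤
          ∑ m ∈ F.filter (fun m => ¬ m.natAbs ≤ N), 5 / b (N + 1) *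
            (1 / b (m.natAbs + 1) ^ 5) := by
          refine Finset.sum_le_sum fun m hm => ?_
          rw [Finset.mem_filter] at hm
          have hbm := b_pos (k := m.natAbs + 1) (by omega)
          rw [hsq m, kk_symm]
          calc kk om m n * (1 / b (m.natAbs + 1) ^ 2) ≤
                5 / (b (m.natAbs + 1) ^ 3 * b (N + 1)) * (1 / b (m.natAbs + 1) ^ 2) :=
                mul_le_mul_of_nonneg_right (kb hR om hom m n (by omega)) (by positivity)
            _ = _ := by
                field_simp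
      _ = 5 / b (N + 1) * ∑ m ∈ F.filter (fun m => ¬ m.natAbs ≤ N),
            (1 / b (m.natAbs + 1) ^ 5) := by rw [Finset.mul_sum]
      _ ≤ 5 / b (N + 1) * (2 * (4 * (1 / b (N + 1)))) := by
          refine mul_le_mul_of_nonneg_left ?_ (by positivity)
          set K := F.sup Int.natAbs + N + 2 with hK
          refine (fold (fun k => 1 / b (k + 1) ^ 5) (fun k => by
            have := b_nn (k + 1)
            positivity) _ (Finset.Ico (N + 1) K) (fun m hm => by
            rw [Finset.mem_filter] at hm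
            have h1 : m.natAbs ≤ F.sup Int.natAbs := Finset.le_sup (f := Int.natAbs) hm.1
            rw [Finset.mem_Ico]
            omega)).trans ?_
          have h2 := sumB N K (by omega)
          have h3 : 0 ≤ 1 / b K := by
            have := b_nn K
            positivity
          linarith
      _ = 40 * (1 / b (N + 1) ^ 2) := by
          field_simp
          ring
  linarith

end Pool.Agent.W268.UB
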