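import Pool.Agent.W268.UB.Stm

/-!
The Fourier coefficients of the kernels are the weights.
-/

namespace Pool.Agent.W268.UB

open MeasureTheory Complex Filter Topology
open scoped ComplexConjugate InnerProductSpace

namespace TKW

theorem ne3 (n : ℤ) : (4 * (n : ℂ) + 3) ≠ 0 := by
  have h : (4 * n + 3 : ℤ) ≠ 0 := by omega
  exact_mod_cast h

theorem ne1 (n : ℤ) : (4 * (n : ℂ) + 1) ≠ 0 := by
  have h : (4 * n + 1 : ℤ) ≠ 0 := by omega
  exact_mod_cast h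

theorem ne3r (n : ℤ) : (4 * (n : ℝ) + 3) ≠ 0 := by
  have h : (4 * n + 3 : ℤ) ≠ 0 := by omega
  exact_mod_cast h

theorem ne1r (n : ℤ) : (4 * (n : ℝ) + 1) ≠ 0 := by
  have h : (4 * n + 1 : ℤ) ≠ 0 := by omega
  exact_mod_cast h

theorem uniq (d : ℤ → ℂ) (h : ∀ n : ℤ, (4 * (n : ℂ) + 3) * d (n + 1) = (4 * (n : ℂ) + 1) * d n)
    (h0 : d 0 = 0) : ∀ n, d n = 0 := by
  intro n
  induction n using Int.induction_on with
  | zero => exact h0
  | succ i ih =>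
    have h1 := h i
    rw [ih, mul_zero] at h1
    exact (mul_eq_zero.1 h1).resolve_left (ne3 _)
  | pred i ih =>
    have h1 := h (-(i : ℤ) - 1)
    have e : (-(i : ℤ) - 1 + 1) = -(i : ℤ) := by ring
    rw [e, ih, mul_zero] at h1
    exact (mul_eq_zero.1 h1.symm).resolve_left (ne1 _)

end TKW

open TKW in
theorem t_KW : S_KREC → S_KW := by
  rintro ⟨h1, h2, ⟨a0, ha0, hk10⟩, a1, hk20⟩ om l hom hl
  obtain ⟨hpos, hrec⟩ := hom
  have hom0 : 0 < om 0 ^ 2 := pow_pos (hpos 0) 2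
  obtain ⟨k0, hk0d⟩ : ∃ k0, k0 = a0 / om 0 ^ 2 := ⟨_, rfl⟩
  have hk0 : 0 < k0 := by rw [hk0d]; positivity
  have hk0e : k0 * om 0 ^ 2 = a0 := by rw [hk0d]; exact div_mul_cancel₀ a0 hom0.ne'
  have hk1e : k0 * (l 0 + (a1 / a0 - l 0)) * om 0 ^ 2 = a1 := by
    have e : k0 * (l 0 + (a1 / a0 - l 0)) * om 0 ^ 2 = (k0 * om 0 ^ 2) * (a1 / a0) := by ring
    rw [e, hk0e]; field_simp
  have hone : ∀ n, kc kap1 n = ((k0 * om n ^ 2 : ℝ) : ℂ) := by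
    intro n
    refine sub_eq_zero.1 (uniq (fun n => kc kap1 n - ((k0 * om n ^ 2 : ℝ) : ℂ)) ?_ ?_ n)
    · intro m
      have h3 : ((4 * (m : ℝ) + 3) * (k0 * om (m + 1) ^ 2) : ℝ) =
          (4 * (m : ℝ) + 1) * (k0 * om m ^ 2) := by
        have := hrec m
        linear_combination k0 * this
      have h4 : (4 * (m : ℂ) + 3) * ((k0 * om (m + 1) ^ 2 : ℝ) : ℂ) =
          (4 * (m : ℂ) + 1) * ((k0 * om m ^ 2 : ℝ) : ℂ) := by
        exact_mod_cast h3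
      simp only [mul_sub]
      rw [h1 m, h4]
    · rw [hk10, hk0e, sub_self]
  refine ⟨k0, a1 / a0 - l 0, hk0, hone, ?_⟩
  obtain ⟨k1, hk1d⟩ : ∃ k1, k1 = a1 / a0 - l 0 := ⟨_, rfl⟩
  rw [← hk1d] at hk1e ⊢
  intro n
  refine sub_eq_zero.1 (uniq (fun n => kc kap2 n - ((k0 * (l n + k1) * om n ^ 2 : ℝ) : ℂ)) ?_ ?_ n)
  · intro m
    have h3 : ((4 * (m : ℝ) + 3) * (k0 * (l (m + 1) + k1) * om (m + 1) ^ 2) : ℝ) =
        (4 * (m : ℝ) + 1) * (k0 * (l m + k1) * om m ^ 2) -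
          2 * (k0 * om m ^ 2 + k0 * om (m + 1) ^ 2) := by
      have e1 := hrec m
      have e2 := hl m
      have n1 := ne1r m
      have n3 := ne3r m
      have e3 : l (m + 1) = l m + (-(2 / (4 * (m : ℝ) + 1)) - 2 / (4 * (m : ℝ) + 3)) := by
        linarith
      have e4 : (4 * (m : ℝ) + 3) * (2 / (4 * (m : ℝ) + 3)) = 2 := by field_simp
      have e5 : (4 * (m : ℝ) + 1) * (2 / (4 * (m : ℝ) + 1)) = 2 := by field_simp
      rw [e3]
      linear_combination (k0 * (l m + k1) - k0 * (2 / (4 * (m : ℝ) + 1))) * e1 -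
        k0 * om (m + 1) ^ 2 * e4 - k0 * om m ^ 2 * e5
    have h4 : (4 * (m : ℂ) + 3) * ((k0 * (l (m + 1) + k1) * om (m + 1) ^ 2 : ℝ) : ℂ) =
        (4 * (m : ℂ) + 1) * ((k0 * (l m + k1) * om m ^ 2 : ℝ) : ℂ) -
          2 * (((k0 * om m ^ 2 : ℝ) : ℂ) + ((k0 * om (m + 1) ^ 2 : ℝ) : ℂ)) := by
      exact_mod_cast h3
    simp only [mul_sub]
    rw [h2 m, h4, hone m, hone (m + 1)]
    ring
  · rw [hk20, hk1e, sub_self]

end Pool.Agent.W268.UB
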