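import Pool.Agent.W268.UB.Stm

/-!
Task LINV of project UB.
-/

namespace Pool.Agent.W268.UB

open MeasureTheory Complex Filter Topology
open scoped ComplexConjugate InnerProductSpace

noncomputable section

namespace TLINV

theorem kn (x y : Circle) : ‖(1 : ℂ) - ((x / y : Circle) : ℂ)‖ = ‖(x : ℂ) - y‖ := by
  have hy : (y : ℂ) ≠ 0 := Circle.coe_ne_zero y
  have h : (1 : ℂ) - ((x / y : Circle) : ℂ) = ((y : ℂ) - x) / y := by
    rw [Circle.coe_div, sub_div, div_self hy]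
  rw [h, norm_div, Circle.norm_coe, div_one, norm_sub_rev]

theorem kinv (z : Circle) : ‖(1 : ℂ) - ((z⁻¹ : Circle) : ℂ)‖ = ‖(1 : ℂ) - z‖ := by
  have h := kn 1 z
  rw [one_div] at h
  rw [h, Circle.coe_one]

theorem logR {p q ρ R : ℝ} (hp : 0 < p) (hq : 0 < q) (hρ : 0 < ρ) (_hR : 0 < R)
    (h : R ^ 2 = p * q * ρ ^ 2) : Real.log R = (Real.log p + Real.log q) / 2 + Real.log ρ := by
  have h1 : Real.log (R ^ 2) = Real.log (p * q * ρ ^ 2) := by rw [h]
  rw [Real.log_pow, Real.log_mul (mul_pos hp hq).ne' (pow_pos hρ 2).ne',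
    Real.log_mul hp.ne' hq.ne', Real.log_pow] at h1
  push_cast at h1
  linarith

theorem realA {p q ρ R : ℝ} (hp : 0 < p) (hq : 0 < q) (hρ : 0 ≤ ρ) (hR : 0 ≤ R)
    (h : R ^ 2 = p * q * ρ ^ 2) :
    ρ ^ (-(1 / 2) : ℝ) * (p ^ (3 / 4 : ℝ) * q ^ (3 / 4 : ℝ)) = p * q * R ^ (-(1 / 2) : ℝ) := by
  rcases hρ.eq_or_lt with h0 | h0
  · have hR0 : R = 0 := by
      rw [← h0] at h
      have : R ^ 2 = 0 := by rw [h]; ring
      exact pow_eq_zero_iff (two_ne_zero) |>.1 this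
    rw [hR0, ← h0, Real.zero_rpow (by norm_num)]
    ring
  · have hR0 : 0 < R := by
      rcases hR.eq_or_lt with h1 | h1
      · exfalso
        rw [← h1] at h
        have : 0 < p * q * ρ ^ 2 := by positivity
        nlinarith
      · exact h1
    have hl := logR hp hq h0 hR0 h
    have hpq : p * q = Real.exp (Real.log p + Real.log q) := by
      rw [Real.exp_add, Real.exp_log hp, Real.exp_log hq]
    rw [Real.rpow_def_of_pos h0, Real.rpow_def_of_pos hp, Real.rpow_def_of_pos hq,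
      Real.rpow_def_of_pos hR0, hl, hpq]
    rw [← Real.exp_add, ← Real.exp_add, ← Real.exp_add]
    congr 1
    ring

theorem realB {p q ρ R : ℝ} (hp : 0 < p) (hq : 0 < q) (hρ : 0 ≤ ρ) (hR : 0 ≤ R)
    (h : R ^ 2 = p * q * ρ ^ 2) :
    p * q * (R ^ (-(1 / 2) : ℝ) * Real.log R) =
      ρ ^ (-(1 / 2) : ℝ) * Real.log ρ * (p ^ (3 / 4 : ℝ) * q ^ (3 / 4 : ℝ)) +
      (1 / 2) * ((Real.log p + Real.log q) *
        (ρ ^ (-(1 / 2) : ℝ) * (p ^ (3 / 4 : ℝ) * q ^ (3 / 4 : ℝ)))) := by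
  have hA := realA hp hq hρ hR h
  rcases hρ.eq_or_lt with h0 | h0
  · have hR0 : R = 0 := by
      rw [← h0] at h
      have : R ^ 2 = 0 := by rw [h]; ring
      exact pow_eq_zero_iff (two_ne_zero) |>.1 this
    rw [hR0, ← h0, Real.zero_rpow (by norm_num)]
    ring
  · have hR0 : 0 < R := by
      rcases hR.eq_or_lt with h1 | h1
      · exfalso
        rw [← h1] at h
        have : 0 < p * q * ρ ^ 2 := by positivity
        nlinarith
      · exact h1
    have hl := logR hp hq h0 hR0 h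
    calc p * q * (R ^ (-(1 / 2) : ℝ) * Real.log R)
        = (p * q * R ^ (-(1 / 2) : ℝ)) * Real.log R := by ring
      _ = (ρ ^ (-(1 / 2) : ℝ) * (p ^ (3 / 4 : ℝ) * q ^ (3 / 4 : ℝ))) *
          ((Real.log p + Real.log q) / 2 + Real.log ρ) := by rw [← hA, hl]
      _ = _ := by ring

theorem meas_kap1 : Measurable kap1 := by
  unfold kap1
  exact ((measurable_const.sub cont_coe.measurable).norm).pow_const _

theorem meas_kap2 : Measurable kap2 := by
  unfold kap2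
  exact (((measurable_const.sub cont_coe.measurable).norm).pow_const _).mul
    (((measurable_const.sub cont_coe.measurable).norm).log)

theorem meas_kap2_div : Measurable (fun q : Circle × Circle => kap2 (q.1 / q.2)) := by
  have h : (fun q : Circle × Circle => kap2 (q.1 / q.2)) = fun q =>
      ‖(q.1 : ℂ) - q.2‖ ^ (-(1 / 2) : ℝ) * Real.log ‖(q.1 : ℂ) - q.2‖ := by
    funext q
    unfold kap2
    rw [kn]
  rw [h]
  have h1 : Measurable (fun q : Circle × Circle => (q.1 : ℂ) - q.2) :=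
    (cont_coe.measurable.comp measurable_fst).sub (cont_coe.measurable.comp measurable_snd)
  exact (h1.norm.pow_const _).mul h1.norm.log

/-- the inner product as a series -/
theorem inner_sum (om : ℤ → ℝ) (J : C(Circle, ℂ) →L[ℂ] H) (hJ : IsJ om J) (f g : C(Circle, ℂ)) :
    HasSum (fun n : ℤ => ((om n ^ 2 : ℝ) : ℂ) * (conj (fc f n) * fc g n)) ⟪J f, J g⟫_ℂ := by
  have h := lp.hasSum_inner (𝕜 := ℂ) (J f) (J g)
  refine h.congr_fun ?_ |> fun x => x
  intro n
  rw [hJ f n, hJ g n, RCLike.inner_apply]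
  simp only [map_mul, Complex.conj_ofReal]
  push_cast
  ring

/-- the pointwise identity -/
theorem pt (hK : S_KER) (c : Circle) (a : Dsc) (f g : C(Circle, ℂ)) (x y : Circle) :
    ((pk a x * pk a y : ℝ) : ℂ) * (((kap2 (bm c a x / bm c a y) : ℝ) : ℂ) *
      (conj (f (bm c a x)) * g (bm c a y))) =
    ((kap2 (x / y) : ℝ) : ℂ) * (conj (Wf c a f x) * Wf c a g y) +
      (1 / 2) * (((kap1 (x / y) : ℝ) : ℂ) * (conj ((uf a * Wf c a f) x) * Wf c a g y) +
        ((kap1 (x / y) : ℝ) : ℂ) * (conj (Wf c a f x) * (uf a * Wf c a g) y)) := by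
  have h := realB (pk_pos a x) (pk_pos a y) (norm_nonneg ((x : ℂ) - y))
    (norm_nonneg ((bm c a x : ℂ) - bm c a y)) (hK c a x y)
  unfold kap2 kap1
  rw [kn, kn]
  have hC : ((pk a x * pk a y * (‖(bm c a x : ℂ) - bm c a y‖ ^ (-(1 / 2) : ℝ) *
      Real.log ‖(bm c a x : ℂ) - bm c a y‖) : ℝ) : ℂ) = _ := congrArg (fun r : ℝ => (r : ℂ)) h
  simp only [ContinuousMap.mul_apply]
  have e1 : Wf c a f x = ((pk a x ^ (3 / 4 : ℝ) : ℝ) : ℂ) * f (bm c a x) := rfl
  have e2 : Wf c a g y = ((pk a y ^ (3 / 4 : ℝ) : ℝ) : ℂ) * g (bm c a y) := rfl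
  have e3 : uf a x = ((Real.log (pk a x) : ℝ) : ℂ) := rfl
  have e4 : uf a y = ((Real.log (pk a y) : ℝ) : ℂ) := rfl
  rw [e1, e2, e3, e4]
  simp only [map_mul, Complex.conj_ofReal]
  have h2 : ((pk a x * pk a y : ℝ) : ℂ) *
      (((‖(bm c a x : ℂ) - bm c a y‖ ^ (-(1 / 2) : ℝ) *
        Real.log ‖(bm c a x : ℂ) - bm c a y‖ : ℝ) : ℂ) *
      (conj (f (bm c a x)) * g (bm c a y))) =
      ((pk a x * pk a y * (‖(bm c a x : ℂ) - bm c a y‖ ^ (-(1 / 2) : ℝ) *
      Real.log ‖(bm c a x : ℂ) - bm c a y‖) : ℝ) : ℂ) *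
      (conj (f (bm c a x)) * g (bm c a y)) := by
    push_cast
    ring
  rw [h2, hC]
  push_cast
  ring

end TLINV

open TLINV in
theorem t_LINV : S_MU → S_FORM → S_KINT → S_KW → S_KER → S_CV2 → S_INV → S_LINV := by
  intro _ hForm hKint hKW hKer hCV hInv om l J hom hl hJ c a f g
  obtain ⟨k0, k1, hk0, hc1, hc2⟩ := hKW om l hom hl
  have hk0' : ((k0 : ℝ) : ℂ) ≠ 0 := by exact_mod_cast hk0.ne'
  have F1 := hForm kap1 meas_kap1 hKint.1 (fun z => by unfold kap1; rw [kinv])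
  have F2 := hForm kap2 meas_kap2 hKint.2 (fun z => by unfold kap2; rw [kinv])
  -- B1 as inner product
  have hB1 : ∀ f g : C(Circle, ℂ), (∫ q : Circle × Circle, ((kap1 (q.1 / q.2) : ℝ) : ℂ) *
      (conj (f q.1) * g q.2) ∂(mu.prod mu)) = (k0 : ℂ) * ⟪J f, J g⟫_ℂ := by
    intro f g
    have h1 := (F1 f g).2
    have h2 := (inner_sum om J hJ f g).mul_left (k0 : ℂ)
    have h3 : (fun n : ℤ => kc kap1 n * (conj (fc f n) * fc g n)) =
        fun n : ℤ => (k0 : ℂ) * (((om n ^ 2 : ℝ) : ℂ) * (conj (fc f n) * fc g n)) := by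
      funext n
      rw [hc1 n]
      push_cast
      ring
    rw [h3] at h1
    exact h1.unique h2
  have hS : ∀ f g : C(Circle, ℂ), HasSum (fun n : ℤ => ((l n * om n ^ 2 : ℝ) : ℂ) *
      (conj (fc f n) * fc g n))
      ((k0 : ℂ)⁻¹ * (∫ q : Circle × Circle, ((kap2 (q.1 / q.2) : ℝ) : ℂ) *
      (conj (f q.1) * g q.2) ∂(mu.prod mu)) - (k1 : ℂ) * ⟪J f, J g⟫_ℂ) := by
    intro f g
    have h1 := ((F2 f g).2.mul_left (k0 : ℂ)⁻¹).sub ((inner_sum om J hJ f g).mul_left (k1 : ℂ))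
    have h3 : (fun n : ℤ => ((l n * om n ^ 2 : ℝ) : ℂ) * (conj (fc f n) * fc g n)) =
        fun n : ℤ => (k0 : ℂ)⁻¹ * (kc kap2 n * (conj (fc f n) * fc g n)) -
        (k1 : ℂ) * (((om n ^ 2 : ℝ) : ℂ) * (conj (fc f n) * fc g n)) := by
      funext n
      rw [hc2 n]
      push_cast
      field_simp
      ring
    rw [h3]
    exact h1
  refine ⟨_, _, hS f g, hS (Wf c a f) (Wf c a g), ?_⟩
  rw [hInv om J hom hJ c a f g]
  -- the double integrals
  have hi0 := (F2 (Wf c a f) (Wf c a g)).1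
  have hi1 := (F1 (uf a * Wf c a f) (Wf c a g)).1
  have hi2 := (F1 (Wf c a f) (uf a * Wf c a g)).1
  have hcv := hCV c a (fun q => ((kap2 (q.1 / q.2) : ℝ) : ℂ) * (conj (f q.1) * g q.2)) (by
    refine (Complex.measurable_ofReal.comp meas_kap2_div).mul ?_
    refine Measurable.mul ?_ (g.continuous.measurable.comp measurable_snd)
    exact (Complex.continuous_conj.measurable.comp
      (f.continuous.measurable.comp measurable_fst)))
  simp only at hcv
  have hpt : (fun q : Circle × Circle => ((pk a q.1 * pk a q.2 : ℝ) : ℂ) *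
      (((kap2 (bm c a q.1 / bm c a q.2) : ℝ) : ℂ) *
      (conj (f (bm c a q.1)) * g (bm c a q.2)))) = fun q =>
    ((kap2 (q.1 / q.2) : ℝ) : ℂ) * (conj (Wf c a f q.1) * Wf c a g q.2) +
      (1 / 2) * (((kap1 (q.1 / q.2) : ℝ) : ℂ) *
        (conj ((uf a * Wf c a f) q.1) * Wf c a g q.2) +
        ((kap1 (q.1 / q.2) : ℝ) : ℂ) * (conj (Wf c a f q.1) * (uf a * Wf c a g) q.2)) := by
    funext q
    exact pt hKer c a f g q.1 q.2
  rw [hpt] at hcv
  have hi12 : Integrable (fun q : Circle × Circle => ((kap1 (q.1 / q.2) : ℝ) : ℂ) *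
        (conj ((uf a * Wf c a f) q.1) * Wf c a g q.2) +
        ((kap1 (q.1 / q.2) : ℝ) : ℂ) * (conj (Wf c a f q.1) * (uf a * Wf c a g) q.2))
      (mu.prod mu) := hi1.add hi2
  have hi3 : Integrable (fun q : Circle × Circle => (1 / 2 : ℂ) * (((kap1 (q.1 / q.2) : ℝ) : ℂ) *
        (conj ((uf a * Wf c a f) q.1) * Wf c a g q.2) +
        ((kap1 (q.1 / q.2) : ℝ) : ℂ) * (conj (Wf c a f q.1) * (uf a * Wf c a g) q.2)))
      (mu.prod mu) := hi12.const_mul _
  have hs1 := integral_add hi0 hi3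
  have hs2 := integral_add hi1 hi2
  rw [hs1, integral_const_mul, hs2, hB1, hB1] at hcv
  rw [← hcv]
  field_simp
  ring

end

end Pool.Agent.W268.UB
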