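import Pool.Agent.W268.UB.Stm

namespace Pool.Agent.W268.UB

open MeasureTheory Complex
open scoped ComplexConjugate InnerProductSpace

namespace TLIT

theorem unit_of {K : Type} [NormedAddCommGroup K] [InnerProductSpace ℂ K] [CompleteSpace K]
    (T : K →L[ℂ] K) (hT : spectrum ℂ T ⊆ Metric.closedBall 0 1) (b : ℂ) (hb : ‖b‖ < 1) :
    IsUnit ((1 : K →L[ℂ] K) - b • T) := by
  by_cases h0 : b = 0
  · subst h0
    simp
  · have h1 : b⁻¹ ∉ spectrum ℂ T := by
      intro h
      have h2 := hT h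
      rw [mem_closedBall_zero_iff, norm_inv] at h2
      have h3 : 0 < ‖b‖ := norm_pos_iff.2 h0
      have h4 : 1 < ‖b‖⁻¹ := (one_lt_inv₀ h3).2 hb
      linarith
    have h2 : IsUnit (algebraMap ℂ (K →L[ℂ] K) b⁻¹ - T) := spectrum.notMem_iff.1 h1
    have h3 : (1 : K →L[ℂ] K) - b • T = (Units.mk0 b h0) • (algebraMap ℂ (K →L[ℂ] K) b⁻¹ - T) := by
      rw [Units.smul_def, Units.val_mk0, smul_sub, Algebra.algebraMap_eq_smul_one, smul_smul,
        mul_inv_cancel₀ h0, one_smul]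
    rw [h3]
    obtain ⟨v, hv⟩ := h2
    rw [← hv]
    exact ⟨(Units.mk0 b h0) • v, rfl⟩

end TLIT

theorem t_LIT : S_PARC → S_LIT := by
  intro _ K _ _ _ T G hspec hG hmob
  obtain ⟨c0, hc0⟩ : ∃ c : Circle, (c : ℂ) = -1 :=
    ⟨⟨-1, mem_sphere_zero_iff_norm.2 (by simp)⟩, rfl⟩
  set z0 : Dsc := ⟨0, by simp⟩ with hz0
  have key : ∀ a : Dsc, a.1 • (1 : K →L[ℂ] K) = conj a.1 • (T * T) := by
    intro a
    have hneg : ‖-a.1‖ < 1 := by rw [norm_neg]; exact a.2
    set na : Dsc := ⟨-a.1, hneg⟩ with hna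
    have g2 : G c0 na = G 1 a * G c0 z0 := by
      apply hG
      intro z
      apply Circle.ext
      rw [bm_coe, bm_coe, bm_coe, hc0]
      simp only [hna, hz0, map_neg, map_zero, zero_mul, sub_zero, div_one, Circle.coe_one, one_mul]
      have := den_ne na z
      simp only [hna, map_neg] at this
      have h2 : (1 - conj a.1 * (-1 * (z : ℂ))) ≠ 0 := by
        intro h; apply this; rw [← h]; ring
      rw [div_eq_div_iff this h2]
      ring
    have m0 : (G c0 z0).1 * T * (G c0 z0).inv = -T := by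
      rw [← hmob c0 z0, mobT, hc0]
      simp [hz0]
    have m1 : (G 1 a).1 * T * (G 1 a).inv = mobT (1 : ℂ) a.1 T := by
      rw [← hmob 1 a, Circle.coe_one]
    have m2 : mobT (-1 : ℂ) (-a.1) T = -(mobT (1 : ℂ) a.1 T) := by
      have h1 := hmob c0 na
      rw [hc0, g2] at h1
      have h2 : (G 1 a * G c0 z0).inv = (G c0 z0).inv * (G 1 a).inv := by
        have : (G 1 a * G c0 z0)⁻¹ = (G c0 z0)⁻¹ * (G 1 a)⁻¹ := mul_inv_rev _ _
        exact congrArg Units.val this
      rw [h2, Units.val_mul] at h1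
      have h3 : (G 1 a).1 * (G c0 z0).1 * T * ((G c0 z0).inv * (G 1 a).inv) =
          (G 1 a).1 * ((G c0 z0).1 * T * (G c0 z0).inv) * (G 1 a).inv := by
        simp only [mul_assoc]
      rw [h3, m0] at h1
      rw [← m1]
      rw [h1]
      simp only [mul_neg, neg_mul]
    have u1 := TLIT.unit_of T hspec (conj a.1) (by rw [RCLike.norm_conj]; exact a.2)
    have u2 := TLIT.unit_of T hspec (conj (-a.1)) (by rw [RCLike.norm_conj]; exact hneg)
    unfold mobT at m2
    set A : K →L[ℂ] K := 1 - conj a.1 • T with hA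
    set B : K →L[ℂ] K := 1 - conj (-a.1) • T with hB
    have cAB : A * B = B * A := by
      rw [hA, hB]
      simp only [sub_mul, mul_sub, one_mul, mul_one, smul_mul_assoc, mul_smul_comm, smul_sub,
        smul_smul]
      rw [mul_comm (conj a.1) (conj (-a.1))]
      abel
    have e1 : Ring.inverse B * B = 1 := Ring.inverse_mul_cancel _ u2
    have e2 : Ring.inverse A * A = 1 := Ring.inverse_mul_cancel _ u1
    have h4 : (-1 : ℂ) • (T - -a.1 • (1 : K →L[ℂ] K)) * Ring.inverse B * (B * A) =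
        -((1 : ℂ) • (T - a.1 • (1 : K →L[ℂ] K)) * Ring.inverse A) * (B * A) := by rw [m2]
    have h5 : (-1 : ℂ) • (T - -a.1 • (1 : K →L[ℂ] K)) * Ring.inverse B * (B * A) =
        (-1 : ℂ) • (T - -a.1 • (1 : K →L[ℂ] K)) * A := by
      rw [mul_assoc, ← mul_assoc (Ring.inverse B), e1, one_mul]
    have h6 : -((1 : ℂ) • (T - a.1 • (1 : K →L[ℂ] K)) * Ring.inverse A) * (B * A) =
        -((1 : ℂ) • (T - a.1 • (1 : K →L[ℂ] K)) * B) := by
      rw [← cAB, neg_mul, mul_assoc, ← mul_assoc (Ring.inverse A), e2, one_mul]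
    rw [h5, h6] at h4
    rw [hA, hB] at h4
    simp only [one_smul, neg_smul, map_neg, sub_neg_eq_add, mul_sub, mul_add, sub_mul, add_mul,
      mul_one, one_mul, smul_mul_assoc, mul_smul_comm, smul_smul, neg_mul, neg_add_rev,
      neg_sub] at h4
    have h7 : (2 : ℂ) • (a.1 • (1 : K →L[ℂ] K)) = (2 : ℂ) • (conj a.1 • (T * T)) := by
      rw [two_smul, two_smul]
      have h8 := sub_eq_zero.2 h4
      rw [← sub_eq_zero]
      rw [← neg_eq_zero]
      rw [← h8]
      module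
    exact smul_right_injective _ (two_ne_zero) h7
  have k1 := key ⟨1 / 2, by norm_num⟩
  have k2 := key ⟨I / 2, by rw [norm_div, norm_I]; norm_num⟩
  simp only [map_div₀, map_one, map_ofNat, conj_I] at k1 k2
  have h1 : (1 : K →L[ℂ] K) = T * T := smul_right_injective _ (by norm_num : (1 / 2 : ℂ) ≠ 0) k1
  rw [← h1] at k2
  have h2 : (I : ℂ) • (1 : K →L[ℂ] K) = 0 := by
    have h3 : (I / 2 - -I / 2 : ℂ) • (1 : K →L[ℂ] K) = 0 := by
      rw [sub_smul, k2, sub_self]
    have h4 : (I / 2 - -I / 2 : ℂ) = I := by ring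
    rwa [h4] at h3
  have h3 : (1 : K →L[ℂ] K) = 0 := by
    rcases smul_eq_zero.1 h2 with h | h
    · exact absurd h I_ne_zero
    · exact h
  refine ⟨fun x y => ?_⟩
  have hx : (1 : K →L[ℂ] K) x = x := rfl
  have hy : (1 : K →L[ℂ] K) y = y := rfl
  rw [← hx, ← hy, h3]
  simp

end Pool.Agent.W268.UB
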