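import Pool.Agent.W268.UB.Stm

set_option autoImplicit false

/-!
# UB-LX: growth of `l`
-/

namespace Pool.Agent.W268.UB

open Filter Topology

namespace TLX

theorem symN {l : ℤ → ℝ} (hl : IsEll l) (n : ℕ) : l (-(n : ℤ)) = l n := by
  induction n with
  | zero => simp
  | succ n ih =>
    have h1 := hl (n : ℤ)
    have h2 := hl (-((n : ℤ) + 1))
    have e1 : (-((n : ℤ) + 1)) + 1 = -(n : ℤ) := by ring
    rw [e1] at h2
    push_cast at h1 h2 ⊢
    have e2 : (4 : ℝ) * (-((n : ℝ) + 1)) + 1 = -(4 * (n : ℝ) + 3) := by ring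
    have e3 : (4 : ℝ) * (-((n : ℝ) + 1)) + 3 = -(4 * (n : ℝ) + 1) := by ring
    rw [e2, e3, div_neg, div_neg] at h2
    linarith

theorem sym {l : ℤ → ℝ} (hl : IsEll l) (n : ℤ) : l (-n) = l n := by
  obtain ⟨k, rfl | rfl⟩ := n.eq_nat_or_neg
  · exact symN hl k
  · rw [neg_neg]; exact (symN hl k).symm

theorem le_harm {l : ℤ → ℝ} (hl : IsEll l) (n : ℕ) :
    l (n : ℤ) ≤ l 0 - ∑ i ∈ Finset.range n, (1 / ((i : ℝ) + 1)) := by
  induction n with
  | zero => simp
  | succ n ih =>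
    have h1 := hl (n : ℤ)
    rw [Finset.sum_range_succ]
    push_cast at h1 ⊢
    have h2 : (1 : ℝ) / ((n : ℝ) + 1) ≤ 2 / (4 * (n : ℝ) + 1) + 2 / (4 * (n : ℝ) + 3) := by
      have hn : (0 : ℝ) ≤ n := Nat.cast_nonneg n
      rw [div_add_div _ _ (by positivity) (by positivity), div_le_div_iff₀ (by positivity)
        (by positivity)]
      nlinarith
    linarith

theorem top_nat {l : ℤ → ℝ} (hl : IsEll l) : Tendsto (fun n : ℕ => l (n : ℤ)) atTop atBot := by
  have h1 : Tendsto (fun n : ℕ => -∑ i ∈ Finset.range n, (1 / ((i : ℝ) + 1))) atTop atBot :=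
    tendsto_neg_atTop_atBot.comp Real.tendsto_sum_range_one_div_nat_succ_atTop
  have h2 : Tendsto (fun n : ℕ => l 0 + -∑ i ∈ Finset.range n, (1 / ((i : ℝ) + 1))) atTop atBot :=
    tendsto_atBot_add_const_left _ _ h1
  exact tendsto_atBot_mono (fun n => by have := le_harm hl n; linarith) h2

theorem top {l : ℤ → ℝ} (hl : IsEll l) : Tendsto l atTop atBot := by
  rw [← Nat.map_cast_int_atTop, tendsto_map'_iff]
  exact top_nat hl

theorem incr {l : ℤ → ℝ} (hl : IsEll l) :
    Tendsto (fun n : ℤ => l (n + 1) - l n) atTop (𝓝 0) := by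
  have hc : Tendsto (fun n : ℤ => (4 : ℝ) * (n : ℝ)) atTop atTop :=
    Tendsto.const_mul_atTop (by norm_num) tendsto_intCast_atTop_atTop
  have h1 : Tendsto (fun n : ℤ => 2 / (4 * (n : ℝ) + 1)) atTop (𝓝 0) :=
    (tendsto_atTop_add_const_right _ _ hc).const_div_atTop 2
  have h2 : Tendsto (fun n : ℤ => 2 / (4 * (n : ℝ) + 3)) atTop (𝓝 0) :=
    (tendsto_atTop_add_const_right _ _ hc).const_div_atTop 2
  have h3 := h1.neg.sub h2
  rw [neg_zero, sub_zero] at h3
  exact h3.congr fun n => (hl n).symm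

theorem shiftN {l : ℤ → ℝ} (hl : IsEll l) (k : ℕ) :
    Tendsto (fun n : ℤ => l (n + (k : ℤ)) - l n) atTop (𝓝 0) := by
  induction k with
  | zero => simp
  | succ k ih =>
    have h1 : Tendsto (fun n : ℤ => n + (k : ℤ)) atTop atTop :=
      tendsto_atTop_add_const_right _ _ tendsto_id
    have h2 := ((incr hl).comp h1).add ih
    rw [add_zero] at h2
    refine h2.congr fun n => ?_
    simp only [Function.comp]
    have e : n + (k : ℤ) + 1 = n + ((k + 1 : ℕ) : ℤ) := by push_cast; ring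
    rw [e]
    ring

theorem shift {l : ℤ → ℝ} (hl : IsEll l) (j : ℤ) :
    Tendsto (fun n : ℤ => l (n + j) - l n) atTop (𝓝 0) := by
  obtain ⟨k, rfl | rfl⟩ := j.eq_nat_or_neg
  · exact shiftN hl k
  · have h1 : Tendsto (fun n : ℤ => n + -(k : ℤ)) atTop atTop :=
      tendsto_atTop_add_const_right _ _ tendsto_id
    have h2 := ((shiftN hl k).comp h1).neg
    rw [neg_zero] at h2
    refine h2.congr fun n => ?_
    simp only [Function.comp]
    rw [neg_add_cancel_right]
    ring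

theorem inv_bound (z : ℤ) (hz : z ≠ 0) : |2 / (z : ℝ)| ≤ 2 := by
  have h1 : (1 : ℝ) ≤ |(z : ℝ)| := by exact_mod_cast Int.one_le_abs hz
  rw [abs_div, abs_of_pos (by norm_num : (0 : ℝ) < 2), div_le_iff₀ (by linarith)]
  linarith

end TLX

open TLX in
theorem t_LX : S_LX := by
  intro l hl
  refine ⟨top hl, ?_, shift hl, 4, fun n => ?_⟩
  · have h1 : Tendsto (fun n : ℤ => l (-n)) atBot atBot := (top hl).comp tendsto_neg_atBot_atTop
    exact h1.congr fun n => sym hl n
  · rw [hl n]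
    have h1 := inv_bound (4 * n + 1) (by omega)
    have h2 := inv_bound (4 * n + 3) (by omega)
    push_cast at h1 h2
    rw [abs_le] at h1 h2 ⊢
    constructor <;> linarith [h1.1, h1.2, h2.1, h2.2]

end Pool.Agent.W268.UB
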