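import Pool.Agent.W268.UB.Stm

/-! # Integration over the circle: the formula, invariance, Fourier coefficients of characters -/

set_option autoImplicit false

namespace Pool.Agent.W268.UB

open MeasureTheory Complex Filter Topology
open scoped ComplexConjugate InnerProductSpace

noncomputable section

namespace TMU

theorem tp : (0 : ℝ) < 2 * Real.pi := by positivity

theorem meas_exp : Measurable (fun t : ℝ => Circle.exp t) := Circle.exp.continuous.measurable

theorem c_ne0 : (ENNReal.ofReal (2 * Real.pi))⁻¹ ≠ 0 := by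
  rw [Ne, ENNReal.inv_eq_zero]
  exact ENNReal.ofReal_ne_top

theorem c_neT : (ENNReal.ofReal (2 * Real.pi))⁻¹ ≠ ⊤ := by
  rw [Ne, ENNReal.inv_eq_top, ENNReal.ofReal_eq_zero]
  exact not_le.2 tp

theorem c_real : ((ENNReal.ofReal (2 * Real.pi))⁻¹).toReal = (2 * Real.pi)⁻¹ := by
  rw [ENNReal.toReal_inv, ENNReal.toReal_ofReal tp.le]

theorem prob : IsProbabilityMeasure mu := by
  refine ⟨?_⟩
  unfold mu
  rw [Measure.map_apply meas_exp MeasurableSet.univ, Set.preimage_univ, Measure.smul_apply,
    Measure.restrict_apply_univ, Real.volume_Ioc, sub_zero, smul_eq_mul]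
  refine ENNReal.inv_mul_cancel ?_ ENNReal.ofReal_ne_top
  rw [Ne, ENNReal.ofReal_eq_zero]
  exact not_le.2 tp

theorem formula {F : Type*} [NormedAddCommGroup F] [NormedSpace ℝ F] (f : Circle → F)
    (hf : AEStronglyMeasurable f mu) :
    ∫ z, f z ∂mu = (2 * Real.pi)⁻¹ • ∫ t in (0 : ℝ)..(2 * Real.pi), f (Circle.exp t) := by
  unfold mu at hf ⊢
  rw [integral_map meas_exp.aemeasurable hf, integral_smul_measure, c_real,
    intervalIntegral.integral_of_le tp.le]

theorem per {F : Type*} (f : Circle → F) :
    Function.Periodic (fun t : ℝ => f (Circle.exp t)) (2 * Real.pi) := by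
  intro t
  show f (Circle.exp (t + 2 * Real.pi)) = f (Circle.exp t)
  rw [Circle.periodic_exp t]

theorem rot (w : Circle) : Measure.map (fun z => w * z) mu = mu := by
  have := prob
  have hm : Measurable (fun z : Circle => w * z) := (continuous_const.mul continuous_id).measurable
  have : IsProbabilityMeasure (Measure.map (fun z => w * z) mu) :=
    Measure.isProbabilityMeasure_map hm.aemeasurable
  refine MeasureTheory.ext_of_forall_integral_eq_of_IsFiniteMeasure fun f => ?_
  rw [integral_map hm.aemeasurable f.continuous.aestronglyMeasurable]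
  rw [formula (fun z => f (w * z))
    (f.continuous.comp (continuous_const.mul continuous_id)).aestronglyMeasurable,
    formula (fun z => f z) f.continuous.aestronglyMeasurable]
  congr 1
  obtain ⟨s, hs⟩ : ∃ s : ℝ, Circle.exp s = w := ⟨_, Circle.exp_arg w⟩
  have h1 : ∀ t : ℝ, f (w * Circle.exp t) = (fun t : ℝ => f (Circle.exp t)) (s + t) := by
    intro t
    show f (w * Circle.exp t) = f (Circle.exp (s + t))
    rw [Circle.exp_add, hs]
  simp only [h1]
  rw [intervalIntegral.integral_comp_add_left (fun t : ℝ => f (Circle.exp t)) s, add_zero]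
  have h2 := (per (fun z => f z)).intervalIntegral_add_eq s 0
  rw [zero_add] at h2
  exact h2

theorem inv : Measure.map (fun z : Circle => z⁻¹) mu = mu := by
  have := prob
  have hc : Continuous (fun z : Circle => z⁻¹) := continuous_inv
  have hm : Measurable (fun z : Circle => z⁻¹) := hc.measurable
  have : IsProbabilityMeasure (Measure.map (fun z : Circle => z⁻¹) mu) :=
    Measure.isProbabilityMeasure_map hm.aemeasurable
  refine MeasureTheory.ext_of_forall_integral_eq_of_IsFiniteMeasure fun f => ?_
  rw [integral_map hm.aemeasurable f.continuous.aestronglyMeasurable]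
  rw [formula (fun z => f z⁻¹) (f.continuous.comp hc).aestronglyMeasurable,
    formula (fun z => f z) f.continuous.aestronglyMeasurable]
  congr 1
  have h1 : ∀ t : ℝ, f (Circle.exp t)⁻¹ = (fun t : ℝ => f (Circle.exp t)) (-t) := by
    intro t
    show f (Circle.exp t)⁻¹ = f (Circle.exp (-t))
    rw [Circle.exp_neg]
  simp only [h1]
  rw [intervalIntegral.integral_comp_neg (fun t : ℝ => f (Circle.exp t)), neg_zero]
  have h2 := (per (fun z => f z)).intervalIntegral_add_eq (-(2 * Real.pi)) 0
  rw [zero_add, neg_add_cancel] at h2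
  exact h2

theorem fczn (n m : ℤ) : fc (zn n) m = if n = m then 1 else 0 := by
  unfold fc
  have hcont : Continuous (fun z : Circle => (zn n) z * (z : ℂ) ^ (-m)) :=
    (zn n).continuous.mul (zn (-m)).continuous
  rw [formula _ hcont.aestronglyMeasurable]
  have h1 : ∀ t : ℝ, (zn n) (Circle.exp t) * ((Circle.exp t : Circle) : ℂ) ^ (-m) =
      Complex.exp (((n - m : ℤ) : ℂ) * I * t) := by
    intro t
    show ((Circle.exp t : Circle) : ℂ) ^ n * ((Circle.exp t : Circle) : ℂ) ^ (-m) = _
    rw [← zpow_add₀ (Circle.coe_ne_zero _), Circle.coe_exp, ← Complex.exp_int_mul]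
    congr 1
    push_cast
    ring
  simp only [h1]
  have hne := tp.ne'
  split_ifs with h
  · subst h
    simp only [sub_self, Int.cast_zero, zero_mul, Complex.exp_zero]
    rw [intervalIntegral.integral_const, sub_zero, smul_smul, inv_mul_cancel₀ hne, one_smul]
  · have hc : ((n - m : ℤ) : ℂ) * I ≠ 0 :=
      mul_ne_zero (Int.cast_ne_zero.2 (sub_ne_zero.2 h)) I_ne_zero
    rw [integral_exp_mul_complex hc]
    have h2 : Complex.exp (((n - m : ℤ) : ℂ) * I * ((2 * Real.pi : ℝ) : ℂ)) = 1 := by
      rw [Complex.exp_eq_one_iff]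
      refine ⟨n - m, ?_⟩
      push_cast
      ring
    rw [h2]
    simp

end TMU

open TMU in
/-- integration over the circle -/
theorem t_MU : S_MU := by
  refine ⟨prob, fun f hf => ?_, fun f hf => ?_, rot, inv, fczn⟩
  · rw [formula f hf.aestronglyMeasurable, Complex.real_smul]
  · unfold mu
    rw [integrable_map_measure hf.aestronglyMeasurable meas_exp.aemeasurable,
      integrable_smul_measure c_ne0 c_neT, intervalIntegrable_iff_integrableOn_Ioc_of_le tp.le]
    rfl

end

end Pool.Agent.W268.UB
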