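import Pool.Agent.W268.UB.Stm

/-!
# Project UB: multiplication by `uf a` is bounded (UB-MUL)
-/

set_option autoImplicit false

namespace Pool.Agent.W268.UB

open MeasureTheory Complex Filter Topology
open scoped ComplexConjugate InnerProductSpace

noncomputable section

namespace TMUL

/-- the action of a weighted shift on coordinates -/
theorem coord (A : H →L[ℂ] H) (k : ℤ) (w : ℤ → ℂ) (hA : ∀ m, A (e m) = w m • e (m + k)) (x : H)
    (n : ℤ) : (A x) n = w (n - k) * x (n - k) := by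
  have h1 : HasSum (fun m : ℤ => lp.single 2 m (x m)) x := lp.hasSum_single (by norm_num) x
  have h2 : HasSum (fun m : ℤ => ⟪e n, A (lp.single 2 m (x m))⟫_ℂ) ⟪e n, A x⟫_ℂ :=
    (h1.mapL A).mapL (innerSL ℂ (e n))
  have h3 : ∀ y : H, ⟪e n, y⟫_ℂ = y n := by
    intro y
    rw [e, lp.inner_single_left]
    simp
  have h4 : ∀ m : ℤ, ⟪e n, A (lp.single 2 m (x m))⟫_ℂ = x m * (w m * ⟪e n, e (m + k)⟫_ℂ) := by
    intro m
    have : lp.single 2 m (x m) = x m • e m := by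
      rw [e, ← lp.single_smul]
      simp
    rw [this, map_smul, hA, inner_smul_right, inner_smul_right]
  have h5 : ∀ m : ℤ, ⟪e n, e (m + k)⟫_ℂ = if m = n - k then 1 else 0 := by
    intro m
    rw [h3, e]
    by_cases h : m = n - k
    · subst h
      simp
    · rw [if_neg h, lp.single_apply_ne]
      intro h'
      exact h (by omega)
  rw [h3] at h2
  simp only [h4, h5] at h2
  have h6 : HasSum (fun m : ℤ => x m * (w m * if m = n - k then 1 else 0)) (x (n - k) * w (n - k)) := by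
    have := hasSum_single (f := fun m : ℤ => x m * (w m * if m = n - k then 1 else 0)) (n - k)
      (fun m hm => by simp [hm])
    simpa using this
  rw [h2.unique h6, mul_comm]

theorem zn_mul_fc (f : C(Circle, ℂ)) (k n : ℤ) : fc (zn k * f) n = fc f (n - k) := by
  unfold fc
  refine integral_congr_ae (Eventually.of_forall fun z => ?_)
  have hz : (z : ℂ) ≠ 0 := Circle.coe_ne_zero z
  show (z : ℂ) ^ k * f z * (z : ℂ) ^ (-n) = f z * (z : ℂ) ^ (-(n - k))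
  have e1 : (z : ℂ) ^ (-(n - k)) = (z : ℂ) ^ k * (z : ℂ) ^ (-n) := by
    rw [← zpow_add₀ hz]
    congr 1
    ring
  rw [e1]
  ring

theorem shift_fun (om : ℤ → ℝ) (J : C(Circle, ℂ) →L[ℂ] H) (hom : IsOm om) (hJ : IsJ om J)
    (A : H →L[ℂ] H) (k : ℤ) (hA : ∀ n, A (E om n) = E om (n + k)) (f : C(Circle, ℂ)) :
    A (J f) = J (zn k * f) := by
  have hne : ∀ n, ((om n : ℝ) : ℂ) ≠ 0 := fun n => by exact_mod_cast (hom.1 n).ne'
  have hA' : ∀ m, A (e m) = (((om (m + k) : ℝ) : ℂ) / ((om m : ℝ) : ℂ)) • e (m + k) := by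
    intro m
    have h1 := hA m
    unfold E at h1
    rw [map_smul] at h1
    have h2 : A (e m) = ((om m : ℝ) : ℂ)⁻¹ • (((om (m + k) : ℝ) : ℂ) • e (m + k)) := by
      rw [← h1, inv_smul_smul₀ (hne m)]
    rw [h2, smul_smul]
    congr 1
    field_simp
  ext n
  rw [coord A k _ hA' (J f) n, hJ, hJ, zn_mul_fc]
  have e1 : n - k + k = n := by ring
  rw [e1]
  have := hne (n - k)
  field_simp

theorem norm_zn_le (n : ℤ) : ‖zn n‖ ≤ 1 := by
  rw [ContinuousMap.norm_le _ zero_le_one]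
  intro z
  show ‖(z : ℂ) ^ n‖ ≤ 1
  rw [norm_zpow, Circle.norm_coe, one_zpow]

/-- the terms of the series -/
def tf (a : ℂ) (j : ℕ) : C(Circle, ℂ) :=
  (conj a ^ j / j) • zn (j : ℤ) + (a ^ j / j) • zn (-(j : ℤ))

theorem cdiv_le (j : ℕ) (c : ℂ) : ‖c / (j : ℂ)‖ ≤ ‖c‖ := by
  rw [norm_div, Complex.norm_natCast]
  rcases Nat.eq_zero_or_pos j with rfl | hj
  · simp
  · exact div_le_self (norm_nonneg _) (by exact_mod_cast hj)

theorem norm_tf_le (a : ℂ) (j : ℕ) : ‖tf a j‖ ≤ 2 * ‖a‖ ^ j := by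
  have h1 : ‖(conj a ^ j / j) • zn (j : ℤ)‖ ≤ ‖a‖ ^ j := by
    rw [norm_smul]
    calc ‖conj a ^ j / (j : ℂ)‖ * ‖zn (j : ℤ)‖ ≤ ‖conj a ^ j‖ * 1 :=
          mul_le_mul (cdiv_le _ _) (norm_zn_le _) (norm_nonneg _) (norm_nonneg _)
      _ = ‖a‖ ^ j := by rw [mul_one, norm_pow, RCLike.norm_conj]
  have h2 : ‖(a ^ j / j) • zn (-(j : ℤ))‖ ≤ ‖a‖ ^ j := by
    rw [norm_smul]
    calc ‖a ^ j / (j : ℂ)‖ * ‖zn (-(j : ℤ))‖ ≤ ‖a ^ j‖ * 1 :=
          mul_le_mul (cdiv_le _ _) (norm_zn_le _) (norm_nonneg _) (norm_nonneg _)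
      _ = ‖a‖ ^ j := by rw [mul_one, norm_pow]
  have := norm_add_le ((conj a ^ j / j) • zn (j : ℤ)) ((a ^ j / j) • zn (-(j : ℤ)))
  unfold tf
  linarith

theorem summable_tf (a : ℂ) (ha : ‖a‖ < 1) : Summable (tf a) := by
  refine Summable.of_norm_bounded (g := fun j => 2 * ‖a‖ ^ j) ?_ (norm_tf_le a)
  exact (summable_geometric_of_lt_one (norm_nonneg _) ha).mul_left 2

theorem hasSum_tf (a : Dsc) (z : Circle) :
    HasSum (fun j => tf a.1 j z) (-(2 * Real.log ‖1 - conj a.1 * (z : ℂ)‖ : ℝ) : ℂ) := by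
  have hw : ‖conj a.1 * (z : ℂ)‖ < 1 := by
    rw [norm_mul, RCLike.norm_conj, Circle.norm_coe, mul_one]
    exact a.2
  have h1 := hasSum_taylorSeries_neg_log hw
  have h2 := hasSum_conj'.2 h1
  have h3 := h1.add h2
  have e1 : -Complex.log (1 - conj a.1 * (z : ℂ)) + conj (-Complex.log (1 - conj a.1 * (z : ℂ))) =
      (-(2 * Real.log ‖1 - conj a.1 * (z : ℂ)‖ : ℝ) : ℂ) := by
    rw [Complex.add_conj, Complex.neg_re, Complex.log_re]
    push_cast
    ring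
  rw [e1] at h3
  refine h3.congr_fun ?_ |> id
  intro j
  have hz : (z : ℂ)⁻¹ = conj (z : ℂ) := by
    rw [← Circle.coe_inv, Circle.coe_inv_eq_conj]
  show conj a.1 ^ j / (j : ℂ) * (z : ℂ) ^ ((j : ℕ) : ℤ) + a.1 ^ j / (j : ℂ) * (z : ℂ) ^ (-((j : ℕ) : ℤ)) = _
  rw [zpow_neg, zpow_natCast, ← inv_pow, hz, map_div₀, map_pow, map_mul, Complex.conj_conj,
    Complex.conj_natCast, mul_pow, mul_pow]
  ring

theorem uf_eq (a : Dsc) :
    uf a = ((Real.log (1 - ‖a.1‖ ^ 2) : ℝ) : ℂ) • (1 : C(Circle, ℂ)) + ∑' j, tf a.1 j := by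
  ext z
  have h1 : (∑' j, tf a.1 j) z = (-(2 * Real.log ‖1 - conj a.1 * (z : ℂ)‖ : ℝ) : ℂ) := by
    have h2 := (summable_tf a.1 a.2).hasSum
    have h3 : HasSum (fun j => tf a.1 j z) ((∑' j, tf a.1 j) z) :=
      h2.mapL (ContinuousMap.evalCLM ℂ z)
    exact h3.unique (hasSum_tf a z)
  show ((Real.log (pk a z) : ℝ) : ℂ) = ((Real.log (1 - ‖a.1‖ ^ 2) : ℝ) : ℂ) * 1 + (∑' j, tf a.1 j) z
  rw [h1, pk]
  have p1 : (1 - ‖a.1‖ ^ 2) ≠ 0 := by
    have h0 := norm_nonneg a.1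
    have h1 := a.2
    nlinarith
  have p2 : ‖1 - conj a.1 * (z : ℂ)‖ ≠ 0 := norm_ne_zero_iff.2 (den_ne a z)
  rw [Real.log_div p1 (pow_ne_zero 2 p2), Real.log_pow]
  push_cast
  ring

theorem le_of_pow4 (x c : ℝ) (hc : 1 ≤ c) (h : x ^ 4 ≤ c) : x ≤ c := by
  by_contra hcon
  push Not at hcon
  have h1 : 1 ≤ x := by linarith
  have h2 : x ≤ x ^ 4 := by
    calc x = x ^ 1 := (pow_one x).symm
      _ ≤ x ^ 4 := pow_le_pow_right₀ h1 (by norm_num)
  linarith

end TMUL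

open TMUL in
/-- UB-MUL -/
theorem t_MUL : S_MU → S_OMR → S_SINV → S_SEX → S_JD → S_OMEX → S_MUL := by
  intro _ _ hsinv hsex _ homex om J hom hJ a
  obtain ⟨l, hl⟩ := homex.2
  obtain ⟨⟨S, hS⟩, -⟩ := hsex om l hom hl
  obtain ⟨-, -, -, S', -, -, hS', hb⟩ := hsinv om S hom hS
  have s1 : ∀ f, S (J f) = J (zn 1 * f) := shift_fun om J hom hJ S 1 hS
  have s2 : ∀ f, S' (J f) = J (zn (-1) * f) :=
    shift_fun om J hom hJ S' (-1) (fun n => by rw [hS', sub_eq_add_neg])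
  have znadd : ∀ m n : ℤ, zn m * zn n = zn (m + n) := by
    intro m n
    ext z
    exact (zpow_add₀ (Circle.coe_ne_zero z) m n).symm
  have zn0 : zn 0 = 1 := by
    ext z
    exact zpow_zero _
  have p1 : ∀ (j : ℕ) f, (S ^ j) (J f) = J (zn (j : ℤ) * f) := by
    intro j
    induction j with
    | zero =>
      intro f
      simp [zn0]
    | succ j ih =>
      intro f
      rw [pow_succ']
      show S ((S ^ j) (J f)) = _
      rw [ih, s1, ← mul_assoc, znadd]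
      congr 3
      push_cast
      ring
  have p2 : ∀ (j : ℕ) f, (S' ^ j) (J f) = J (zn (-(j : ℤ)) * f) := by
    intro j
    induction j with
    | zero =>
      intro f
      simp [zn0]
    | succ j ih =>
      intro f
      rw [pow_succ']
      show S' ((S' ^ j) (J f)) = _
      rw [ih, s2, ← mul_assoc, znadd]
      congr 3
      push_cast
      ring
  obtain ⟨B, hB⟩ : ∃ B : ℕ → (H →L[ℂ] H), ∀ j, B j = (conj a.1 ^ j / (j : ℂ)) • S ^ j +
      (a.1 ^ j / (j : ℂ)) • S' ^ j := ⟨_, fun j => rfl⟩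
  have hBs : Summable B := by
    refine Summable.of_norm_bounded (g := fun j : ℕ => 36 * ((1 + (j : ℝ)) * ‖a.1‖ ^ j)) ?_ ?_
    · have g1 : Summable fun j : ℕ => ((j : ℝ) ^ 1 * ‖a.1‖ ^ j) :=
        summable_pow_mul_geometric_of_norm_lt_one 1 (by rw [norm_norm]; exact a.2)
      have g2 : Summable fun j : ℕ => ‖a.1‖ ^ j :=
        summable_geometric_of_lt_one (norm_nonneg _) a.2
      refine ((g2.add g1).mul_left 36).congr fun j => ?_
      ring
    · intro j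
      have c0 : (1 : ℝ) ≤ 18 * (1 + j) := by
        have : (0 : ℝ) ≤ j := Nat.cast_nonneg j
        linarith
      have c1 : ‖S ^ j‖ ≤ 18 * (1 + j) := le_of_pow4 _ _ c0 (hb j).1
      have c2 : ‖S' ^ j‖ ≤ 18 * (1 + j) := le_of_pow4 _ _ c0 (hb j).2
      have d1 : ‖(conj a.1 ^ j / (j : ℂ)) • S ^ j‖ ≤ ‖a.1‖ ^ j * (18 * (1 + j)) := by
        rw [norm_smul]
        refine mul_le_mul ((cdiv_le _ _).trans ?_) c1 (norm_nonneg _) (by positivity)
        rw [norm_pow, RCLike.norm_conj]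
      have d2 : ‖(a.1 ^ j / (j : ℂ)) • S' ^ j‖ ≤ ‖a.1‖ ^ j * (18 * (1 + j)) := by
        rw [norm_smul]
        refine mul_le_mul ((cdiv_le _ _).trans ?_) c2 (norm_nonneg _) (by positivity)
        rw [norm_pow]
      rw [hB]
      refine (norm_add_le _ _).trans ?_
      linarith
  refine ⟨((Real.log (1 - ‖a.1‖ ^ 2) : ℝ) : ℂ) • (1 : H →L[ℂ] H) + ∑' j, B j, fun f => ?_⟩
  have e1 : (∑' j, B j) (J f) = J ((∑' j, tf a.1 j) * f) := by
    have q1 : HasSum (fun j => B j (J f)) ((∑' j, B j) (J f)) :=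
      hBs.hasSum.mapL (ContinuousLinearMap.apply ℂ H (J f))
    have q2 : HasSum (fun j => tf a.1 j * f) ((∑' j, tf a.1 j) * f) :=
      (summable_tf a.1 a.2).hasSum.mul_right f
    have q3 : HasSum (fun j => J (tf a.1 j * f)) (J ((∑' j, tf a.1 j) * f)) := q2.mapL J
    have q4 : (fun j => B j (J f)) = fun j => J (tf a.1 j * f) := by
      funext j
      rw [hB]
      show (conj a.1 ^ j / (j : ℂ)) • (S ^ j) (J f) + (a.1 ^ j / (j : ℂ)) • (S' ^ j) (J f) = _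
      rw [p1, p2, ← map_smul, ← map_smul, ← map_add]
      congr 1
      rw [tf, add_mul, smul_mul_assoc, smul_mul_assoc]
    rw [q4] at q1
    exact q1.unique q3
  show ((Real.log (1 - ‖a.1‖ ^ 2) : ℝ) : ℂ) • J f + (∑' j, B j) (J f) = _
  rw [e1, uf_eq, add_mul, map_add, smul_mul_assoc, one_mul, map_smul]

end

end Pool.Agent.W268.UB
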