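import Pool.Agent.W268.UB.Stm

/-! Project UB: non-similarity, from the two steps. -/

namespace Pool.Agent.W268.UB

open Complex

noncomputable section

namespace TNONSIM

theorem exists_irr : ∃ c : ℂ, Irr c := by
  refine ⟨Complex.exp I, ?_, ?_⟩
  · have := Complex.norm_exp_ofReal_mul_I 1
    simpa using this
  · intro n hn h
    rw [← Complex.exp_int_mul, Complex.exp_eq_one_iff] at h
    obtain ⟨k, hk⟩ := h
    have h1 : (n : ℂ) = k * (2 * Real.pi) := by
      have h2 : ((n : ℂ) - k * (2 * Real.pi)) * I = 0 := by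
        linear_combination hk
      rcases mul_eq_zero.1 h2 with h3 | h3
      · linear_combination h3
      · exact absurd h3 I_ne_zero
    have h4 : (n : ℝ) = k * (2 * Real.pi) := by exact_mod_cast h1
    have hk0 : k ≠ 0 := by
      rintro rfl
      apply hn
      have : (n : ℝ) = 0 := by simpa using h4
      exact_mod_cast this
    have hk1 : (k : ℝ) ≠ 0 := by exact_mod_cast hk0
    have h5 : Real.pi = ((n / (2 * k) : ℚ) : ℝ) := by
      push_cast
      field_simp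
      linarith
    exact irrational_pi ⟨_, h5.symm⟩

end TNONSIM

theorem t_NONSIM : S_STEP1A → S_STEP1B → S_STEP2 → S_ROTEX → S_NONSIM := by
  intro h1A h1B h2 hrot om l S X hom hl hS hX r W0 E0 hr0 hr1 hW0 hW T' Y hT hc hU1
  obtain ⟨c, hirr⟩ := TNONSIM.exists_irr
  obtain ⟨Rt, hRt, hRtu⟩ := hrot c hirr.1
  obtain ⟨U0, hU0u, hU0⟩ := hc c hirr.1
  obtain ⟨U1, hU1u, hU1⟩ := hU1
  have hYi : Y.inv * Y.1 = 1 := Y.inv_val
  have hA : (Y.1 * U0 * Y.inv) * blk S X 0 S = c • (blk S X 0 S * (Y.1 * U0 * Y.inv)) := by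
    rw [hT]
    calc (Y.1 * U0 * Y.inv) * (Y.1 * T' * Y.inv)
        = Y.1 * (U0 * (Y.inv * Y.1) * T') * Y.inv := by simp only [mul_assoc]
      _ = Y.1 * (U0 * T') * Y.inv := by rw [hYi, mul_one]
      _ = Y.1 * (c • (T' * U0)) * Y.inv := by rw [hU0]
      _ = c • (Y.1 * (T' * (Y.inv * Y.1) * U0) * Y.inv) := by
        rw [hYi, mul_one, mul_smul_comm, smul_mul_assoc]
      _ = c • ((Y.1 * T' * Y.inv) * (Y.1 * U0 * Y.inv)) := by simp only [mul_assoc]
  obtain ⟨lam, h, hlam, hh1, hh2, hh3⟩ :=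
    h1A om l S X hom hl hS hX c Rt hirr.1 hRt hRtu Y U0 hU0u hA
  obtain ⟨k, hk1, hk2⟩ :=
    h1B om l S X hom hl hS hX c Rt hirr hRt hRtu Y U0 hU0u hA lam h hlam hh1 hh2 hh3
  have hki : k.1 * k.inv = 1 := k.val_inv
  have e1 : (k * Y).1 = k.1 * Y.1 := rfl
  have e2 : (k * Y).inv = Y.inv * k.inv := rfl
  have e3 : (k * Y).inv * (k * Y).1 = 1 := (k * Y).inv_val
  have e4 : (k * Y).1 * (k * Y).inv = 1 := (k * Y).val_inv
  -- conjugation by `k Y`
  have hT2 : (k * Y).1 * T' * (k * Y).inv = blk S X 0 S := by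
    rw [e1, e2]
    calc k.1 * Y.1 * T' * (Y.inv * k.inv) = k.1 * (Y.1 * T' * Y.inv) * k.inv := by
          simp only [mul_assoc]
      _ = k.1 * blk S X 0 S * k.inv := by rw [← hT]
      _ = blk S X 0 S * (k.1 * k.inv) := by rw [hk1, mul_assoc]
      _ = blk S X 0 S := by rw [hki, mul_one]
  have hrotY : (k * Y).1 * U0 * (k * Y).inv = lam • Rt := by
    rw [e1, e2]
    calc k.1 * Y.1 * U0 * (Y.inv * k.inv) = k.1 * (Y.1 * U0 * Y.inv) * k.inv := by
          simp only [mul_assoc]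
      _ = lam • (Rt * k.1) * k.inv := by rw [hk2]
      _ = lam • (Rt * (k.1 * k.inv)) := by rw [smul_mul_assoc, mul_assoc]
      _ = lam • Rt := by rw [hki, mul_one]
  have hfin : (1 - (r : ℂ) • blk S X 0 S) * ((k * Y).1 * U1 * (k * Y).inv) * blk S X 0 S =
      (blk S X 0 S - (r : ℂ) • 1) * ((k * Y).1 * U1 * (k * Y).inv) := by
    generalize hZ : k * Y = Z at *
    have f1 : (1 - (r : ℂ) • blk S X 0 S) = Z.1 * (1 - (r : ℂ) • T') * Z.inv := by
      rw [mul_sub, sub_mul, mul_one, e4, mul_smul_comm, smul_mul_assoc, hT2]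
    have f2 : (blk S X 0 S - (r : ℂ) • 1) = Z.1 * (T' - (r : ℂ) • 1) * Z.inv := by
      rw [mul_sub, sub_mul, hT2, mul_smul_comm, smul_mul_assoc, mul_one, e4]
    rw [f1, f2, ← hT2]
    calc Z.1 * (1 - (r : ℂ) • T') * Z.inv * (Z.1 * U1 * Z.inv) * (Z.1 * T' * Z.inv)
        = Z.1 * (1 - (r : ℂ) • T') * (Z.inv * Z.1) * U1 * (Z.inv * Z.1) * T' * Z.inv := by
          simp only [mul_assoc]
      _ = Z.1 * ((1 - (r : ℂ) • T') * U1 * T') * Z.inv := by
          rw [e3, mul_one, mul_one]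
          simp only [mul_assoc]
      _ = Z.1 * ((T' - (r : ℂ) • 1) * U1) * Z.inv := by rw [hU1]
      _ = Z.1 * (T' - (r : ℂ) • 1) * (Z.inv * Z.1) * U1 * Z.inv := by
          rw [e3, mul_one]
          simp only [mul_assoc]
      _ = Z.1 * (T' - (r : ℂ) • 1) * Z.inv * (Z.1 * U1 * Z.inv) := by
          simp only [mul_assoc]
  exact h2 om l S X hom hl hS hX c Rt hirr hRt hRtu (k * Y) U0 U1 lam hU0u hU1u hlam hrotY r W0 E0
    hr0 hr1 hW0 hW hfin

end

end Pool.Agent.W268.UB
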