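import Pool.Agent.W268.UB.Stm

/-!
# Project UB, part OMEX: existence of the weights and of their logarithmic derivative
-/

namespace Pool.Agent.W268.UB

open MeasureTheory Complex Filter Topology
open scoped ComplexConjugate InnerProductSpace

noncomputable section

namespace TOMEX

/-- squares of the weights -/
def w : ℕ → ℝ
  | 0 => 1
  | (k + 1) => w k * (4 * (k : ℝ) + 1) / (4 * (k : ℝ) + 3)

theorem w_pos (k : ℕ) : 0 < w k := by
  induction k with
  | zero => simp [w]
  | succ k ih =>
    rw [w]
    positivity

theorem w_rel (k : ℕ) : (4 * (k : ℝ) + 3) * w (k + 1) = (4 * (k : ℝ) + 1) * w k := by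
  rw [w]
  have : (4 * (k : ℝ) + 3) ≠ 0 := by positivity
  field_simp

/-- the logarithmic derivative -/
def f : ℕ → ℝ
  | 0 => 0
  | (k + 1) => f k - 2 / (4 * (k : ℝ) + 1) - 2 / (4 * (k : ℝ) + 3)

end TOMEX

open TOMEX in
theorem t_OMEX : S_OMEX := by
  constructor
  · refine ⟨fun n => Real.sqrt (w n.natAbs), fun n => Real.sqrt_pos.2 (w_pos _), ?_⟩
    intro n
    rw [Real.sq_sqrt (w_pos _).le, Real.sq_sqrt (w_pos _).le]
    rcases n with k | k
    · have h1 : (Int.ofNat k + 1).natAbs = k + 1 := by
        have : (Int.ofNat k + 1) = ((k + 1 : ℕ) : ℤ) := by simp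
        rw [this]; rfl
      rw [h1]
      have := w_rel k
      simpa using this
    · have h1 : (Int.negSucc k + 1).natAbs = k := by
        have : (Int.negSucc k + 1) = -(k : ℤ) := by
          rw [Int.negSucc_eq]; ring
        rw [this]; simp
      have h2 : (Int.negSucc k).natAbs = k + 1 := rfl
      rw [h1, h2, Int.negSucc_eq]
      have := w_rel k
      push_cast
      linear_combination this
  · refine ⟨fun n => f n.natAbs, ?_⟩
    intro n
    beta_reduce
    rcases n with k | k
    · have h1 : (Int.ofNat k + 1).natAbs = k + 1 := by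
        have : (Int.ofNat k + 1) = ((k + 1 : ℕ) : ℤ) := by simp
        rw [this]; rfl
      have h2 : (Int.ofNat k).natAbs = k := rfl
      rw [h1, h2, f]
      simp only [Int.ofNat_eq_natCast, Int.cast_natCast]
      ring
    · have h1 : (Int.negSucc k + 1).natAbs = k := by
        have : (Int.negSucc k + 1) = -(k : ℤ) := by
          rw [Int.negSucc_eq]; ring
        rw [this]; simp
      have h2 : (Int.negSucc k).natAbs = k + 1 := rfl
      rw [h1, h2, f, Int.negSucc_eq]
      push_cast
      have e1 : (4 * (-((k : ℝ) + 1)) + 1) = -(4 * (k : ℝ) + 3) := by ring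
      have e2 : (4 * (-((k : ℝ) + 1)) + 3) = -(4 * (k : ℝ) + 1) := by ring
      rw [e1, e2, div_neg, div_neg]
      ring

end

end Pool.Agent.W268.UB
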