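import Pool.Agent.W268.UB.Stm

/-!
Project UB (problem MP_af71ff_an), part OMR: bounds for the weights.
-/

namespace Pool.Agent.W268.UB

open MeasureTheory Complex Filter Topology
open scoped ComplexConjugate InnerProductSpace

namespace TOMR

lemma anti (v : ℕ → ℝ) (hv : ∀ n, 0 < v n)
    (hr : ∀ n : ℕ, (4 * (n : ℝ) + 3) * v (n + 1) = (4 * (n : ℝ) + 1) * v n) (m n : ℕ)
    (h : m ≤ n) : v n ≤ v m := by
  induction n, h using Nat.le_induction with
  | base => exact le_rfl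
  | succ n _ ih =>
    refine le_trans ?_ ih
    have h1 := hr n
    have h2 := hv n
    have h3 := hv (n + 1)
    have h4 : (0 : ℝ) ≤ n := Nat.cast_nonneg n
    have h5 : (4 * (n : ℝ) + 3) * v (n + 1) ≤ (4 * (n : ℝ) + 3) * v n := by
      rw [h1]; nlinarith
    exact le_of_mul_le_mul_left h5 (by positivity)

lemma sqrel (v : ℕ → ℝ)
    (hr : ∀ n : ℕ, (4 * (n : ℝ) + 3) * v (n + 1) = (4 * (n : ℝ) + 1) * v n) (n : ℕ) :
    (4 * (n : ℝ) + 3) ^ 2 * v (n + 1) ^ 2 = (4 * (n : ℝ) + 1) ^ 2 * v n ^ 2 := by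
  rw [← mul_pow, hr n, mul_pow]

lemma ratio (v : ℕ → ℝ) (hv : ∀ n, 0 < v n)
    (hr : ∀ n : ℕ, (4 * (n : ℝ) + 3) * v (n + 1) = (4 * (n : ℝ) + 1) * v n) (m n : ℕ)
    (h : m ≤ n) : m * v m ^ 2 ≤ n * v n ^ 2 := by
  induction n, h using Nat.le_induction with
  | base => exact le_rfl
  | succ n _ ih =>
    refine le_trans ih ?_
    have h1 := sqrel v hr n
    have h2 := pow_pos (hv n) 2
    have h4 : (0 : ℝ) ≤ n := Nat.cast_nonneg n
    have h5 : (4 * (n : ℝ) + 3) ^ 2 * (n * v n ^ 2) ≤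
        (4 * (n : ℝ) + 3) ^ 2 * (((n + 1 : ℕ) : ℝ) * v (n + 1) ^ 2) := by
      have e1 : (4 * (n : ℝ) + 3) ^ 2 * (((n + 1 : ℕ) : ℝ) * v (n + 1) ^ 2) =
          ((n : ℝ) + 1) * ((4 * (n : ℝ) + 1) ^ 2 * v n ^ 2) := by
        rw [← h1]; push_cast; ring
      rw [e1]
      nlinarith
    exact le_of_mul_le_mul_left h5 (by positivity)

lemma decay (v : ℕ → ℝ) (hv : ∀ n, 0 < v n)
    (hr : ∀ n : ℕ, (4 * (n : ℝ) + 3) * v (n + 1) = (4 * (n : ℝ) + 1) * v n) (n : ℕ) :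
    v n ^ 2 * (8 * n + 1) ≤ v 0 ^ 2 := by
  induction n with
  | zero => simp
  | succ n ih =>
    refine le_trans ?_ ih
    have h1 := sqrel v hr n
    have h2 := pow_pos (hv n) 2
    have h4 : (0 : ℝ) ≤ n := Nat.cast_nonneg n
    have h5 : (4 * (n : ℝ) + 3) ^ 2 * (v (n + 1) ^ 2 * (8 * ((n + 1 : ℕ) : ℝ) + 1)) ≤
        (4 * (n : ℝ) + 3) ^ 2 * (v n ^ 2 * (8 * n + 1)) := by
      have e1 : (4 * (n : ℝ) + 3) ^ 2 * (v (n + 1) ^ 2 * (8 * ((n + 1 : ℕ) : ℝ) + 1)) =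
          (8 * (n : ℝ) + 9) * ((4 * (n : ℝ) + 1) ^ 2 * v n ^ 2) := by
        rw [← h1]; push_cast; ring
      rw [e1]
      have h6 : 0 ≤ (n : ℝ) * v n ^ 2 := by positivity
      nlinarith
    exact le_of_mul_le_mul_left h5 (by positivity)

lemma symm (om : ℤ → ℝ) (h : IsOm om) : ∀ n, om (-n) = om n := by
  have key : ∀ n : ℕ, om (-(n : ℤ)) ^ 2 = om (n : ℤ) ^ 2 := by
    intro n
    induction n with
    | zero => simp
    | succ n ih =>
      have h1 := h.2 (-((n : ℤ) + 1))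
      have h2 := h.2 (n : ℤ)
      have e1 : -((n : ℤ) + 1) + 1 = -(n : ℤ) := by ring
      rw [e1, ih] at h1
      push_cast at h1 h2 ⊢
      have h3 : (4 * (n : ℝ) + 3) * om (-((n : ℤ) + 1)) ^ 2 =
          (4 * (n : ℝ) + 3) * om ((n : ℤ) + 1) ^ 2 := by
        rw [h2]; linear_combination h1
      have h4 : (4 * (n : ℝ) + 3) ≠ 0 := by positivity
      have h5 := mul_left_cancel₀ h4 h3
      convert h5 using 3
  have key2 : ∀ n : ℕ, om (-(n : ℤ)) = om (n : ℤ) := by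
    intro n
    have := key n
    exact (pow_left_inj₀ (h.1 _).le (h.1 _).le (by norm_num : (2 : ℕ) ≠ 0)).mp this
  intro n
  obtain ⟨m, rfl | rfl⟩ := n.eq_nat_or_neg
  · exact key2 m
  · rw [neg_neg]; exact (key2 m).symm

end TOMR

open TOMR

theorem t_OMR : S_OMR := by
  intro om h
  have hs := symm om h
  obtain ⟨v, hv⟩ : ∃ v : ℕ → ℝ, ∀ n, v n = om (n : ℤ) ^ 2 := ⟨fun n => om (n : ℤ) ^ 2, fun _ => rfl⟩
  have hv0 : ∀ n, 0 < v n := fun n => by rw [hv]; exact pow_pos (h.1 _) 2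
  have hr : ∀ n : ℕ, (4 * (n : ℝ) + 3) * v (n + 1) = (4 * (n : ℝ) + 1) * v n := by
    intro n
    have := h.2 (n : ℤ)
    rw [hv, hv]
    push_cast at this ⊢
    exact this
  have hom : ∀ n : ℤ, om n = om (n.natAbs : ℤ) := by
    intro n
    rcases Int.natAbs_eq n with h1 | h1
    · rw [← h1]
    · have : (n.natAbs : ℤ) = -n := by omega
      rw [this, hs]
  have hw : ∀ n : ℤ, om n ^ 2 = v n.natAbs := by
    intro n
    rw [hv, ← hom n]
  have habs : ∀ n : ℤ, |(n : ℝ)| = (n.natAbs : ℝ) := by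
    intro n
    rw [Nat.cast_natAbs, Int.cast_abs]
  have hdec : ∀ n : ℤ, om n ^ 4 * (8 * |(n : ℝ)| + 1) ≤ om 0 ^ 4 := by
    intro n
    have h1 := decay v hv0 hr n.natAbs
    rw [← hw n, ← habs n] at h1
    have h2 : v 0 = om 0 ^ 2 := by rw [hv]; simp
    rw [h2] at h1
    calc om n ^ 4 * (8 * |(n : ℝ)| + 1) = (om n ^ 2) ^ 2 * (8 * |(n : ℝ)| + 1) := by ring
      _ ≤ (om 0 ^ 2) ^ 2 := h1
      _ = om 0 ^ 4 := by ring
  have hsmall : ∀ ε : ℝ, 0 < ε → ∃ K : ℤ, ∀ n : ℤ, K ≤ |n| → om n < ε := by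
    intro ε hε
    refine ⟨⌈om 0 ^ 4 / ε ^ 4⌉, fun n hn => ?_⟩
    have h1 : om 0 ^ 4 / ε ^ 4 ≤ |(n : ℝ)| := by
      calc om 0 ^ 4 / ε ^ 4 ≤ (⌈om 0 ^ 4 / ε ^ 4⌉ : ℝ) := Int.le_ceil _
        _ ≤ ((|n| : ℤ) : ℝ) := by exact_mod_cast hn
        _ = |(n : ℝ)| := by rw [Int.cast_abs]
    have hε4 : 0 < ε ^ 4 := by positivity
    rw [div_le_iff₀ hε4] at h1
    have h2 := hdec n
    have h3 : 0 < om n := h.1 n
    have h4 : (0 : ℝ) ≤ |(n : ℝ)| := abs_nonneg _
    by_contra hcon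
    push Not at hcon
    have h5 : ε ^ 4 ≤ om n ^ 4 := pow_le_pow_left₀ hε.le hcon 4
    have h6 : ε ^ 4 * (8 * |(n : ℝ)| + 1) ≤ om n ^ 4 * (8 * |(n : ℝ)| + 1) :=
      mul_le_mul_of_nonneg_right h5 (by positivity)
    have h7 : 0 ≤ |(n : ℝ)| * ε ^ 4 := by positivity
    nlinarith
  have hratio : ∀ m n : ℤ, 0 < |m| → |m| ≤ |n| →
      (om m ^ 2 / om n ^ 2) ^ 2 ≤ |(n : ℝ)| / |(m : ℝ)| := by
    intro m n hm hmn
    rw [Int.abs_eq_natAbs] at hm hmn
    rw [Int.abs_eq_natAbs] at hmn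
    have h1 : m.natAbs ≤ n.natAbs := by omega
    have h2 := ratio v hv0 hr _ _ h1
    rw [hw, hw, habs, habs, div_pow]
    have h3 : (0 : ℝ) < m.natAbs := by
      have : 0 < m.natAbs := by omega
      exact_mod_cast this
    have h4 := pow_pos (hv0 n.natAbs) 2
    rw [div_le_div_iff₀ h4 h3]
    linarith
  refine ⟨hs, ?_, hratio, ?_, ?_, ?_⟩
  · intro m n hmn
    rw [Int.abs_eq_natAbs, Int.abs_eq_natAbs] at hmn
    have h1 : m.natAbs ≤ n.natAbs := by omega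
    have h2 := anti v hv0 hr _ _ h1
    rw [← hw, ← hw] at h2
    exact le_of_pow_le_pow_left₀ two_ne_zero (h.1 m).le h2
  · intro m n
    by_cases hmn : |n| < |m|
    · exact Or.inr hmn
    · left
      push Not at hmn
      rcases eq_or_ne m 0 with hm | hm
      · subst hm
        have h1 := hratio 1 n
        by_cases hn : n = 0
        · subst hn
          have h0 : 0 < om 0 := h.1 0
          have e1 : om 0 ^ 2 / om 0 ^ 2 = 1 := div_self (by positivity)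
          rw [e1]
          norm_num
        · have hn1 : (1 : ℤ) ≤ |n| := Int.one_le_abs hn
          have h2 := h1 (by norm_num) (by simpa using hn1)
          have h3 := hr 0
          have h4 : v 0 = om 0 ^ 2 := by rw [hv]; simp
          have h5 : v 1 = om 1 ^ 2 := by rw [hv]; simp
          have h6 : om 0 ^ 2 = 3 * om 1 ^ 2 := by
            rw [← h4, ← h5]
            simp at h3
            linarith
          have h7 : (om 0 ^ 2 / om n ^ 2) ^ 2 = 9 * (om 1 ^ 2 / om n ^ 2) ^ 2 := by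
            rw [h6]; ring
          rw [h7]
          simp only [Int.cast_one, abs_one, div_one, Int.cast_zero, abs_zero, add_zero] at h2 ⊢
          have h8 : (0 : ℝ) ≤ |(n : ℝ)| := abs_nonneg _
          linarith
      · have hm1 : 0 < |m| := abs_pos.mpr hm
        have h1 := hratio m n hm1 hmn
        refine h1.trans ?_
        have h2 : (1 : ℝ) ≤ |(m : ℝ)| := by
          have : (1 : ℤ) ≤ |m| := Int.one_le_abs hm
          have h3 : (1 : ℝ) ≤ ((|m| : ℤ) : ℝ) := by exact_mod_cast this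
          rwa [Int.cast_abs] at h3
        have h3 : (0 : ℝ) ≤ |(n : ℝ)| := abs_nonneg _
        rw [div_le_div_iff₀ (by linarith) (by linarith)]
        nlinarith
  · rw [Metric.tendsto_nhds]
    intro ε hε
    obtain ⟨K, hK⟩ := hsmall ε hε
    filter_upwards [eventually_ge_atTop K] with n hn
    rw [Real.dist_eq, sub_zero, abs_of_pos (h.1 n)]
    exact hK n (hn.trans (le_abs_self n))
  · rw [Metric.tendsto_nhds]
    intro ε hε
    obtain ⟨K, hK⟩ := hsmall ε hε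
    filter_upwards [eventually_le_atBot (-K)] with n hn
    rw [Real.dist_eq, sub_zero, abs_of_pos (h.1 n)]
    refine hK n ?_
    have := neg_le_abs n
    linarith

end Pool.Agent.W268.UB
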