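import Pool.Agent.W268.UB.Stm

/-!
Project UB, part PARC: parameters of compositions and inverses of Moebius maps.
-/

namespace Pool.Agent.W268.UB

open MeasureTheory Complex Filter Topology
open scoped ComplexConjugate InnerProductSpace

namespace TPARC

theorem unit_conj (c : Circle) : (c : ℂ) * conj (c : ℂ) = 1 := by
  rw [Complex.mul_conj, Circle.normSq_coe]; simp

theorem den_ne' (a : Dsc) (z : ℂ) (hz : ‖z‖ ≤ 1) : (1 - conj a.1 * z) ≠ 0 := by
  intro h
  have h1 : conj a.1 * z = 1 := (sub_eq_zero.1 h).symm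
  have h2 : ‖conj a.1 * z‖ = 1 := by rw [h1]; simp
  rw [norm_mul, RCLike.norm_conj] at h2
  have h3 : ‖a.1‖ * ‖z‖ < 1 := by
    calc ‖a.1‖ * ‖z‖ ≤ ‖a.1‖ * 1 := mul_le_mul_of_nonneg_left hz (norm_nonneg _)
      _ = ‖a.1‖ := mul_one _
      _ < 1 := a.2
  linarith

theorem norm_lt (c : Circle) (a a' : Dsc) :
    ‖conj a'.1 + conj a.1 * (c : ℂ)‖ < ‖1 + conj a.1 * (c : ℂ) * a'.1‖ := by
  have hu := unit_conj c
  have h1 : (1 + conj a.1 * (c : ℂ) * a'.1) * conj (1 + conj a.1 * (c : ℂ) * a'.1) -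
      (conj a'.1 + conj a.1 * (c : ℂ)) * conj (conj a'.1 + conj a.1 * (c : ℂ)) =
      (1 - a.1 * conj a.1) * (1 - a'.1 * conj a'.1) := by
    simp only [map_add, map_mul, map_one, Complex.conj_conj]
    linear_combination (a.1 * conj a.1 * a'.1 * conj a'.1 - a.1 * conj a.1) * hu
  rw [Complex.mul_conj, Complex.mul_conj, Complex.mul_conj, Complex.mul_conj] at h1
  have h2 : Complex.normSq (1 + conj a.1 * (c : ℂ) * a'.1) -
      Complex.normSq (conj a'.1 + conj a.1 * (c : ℂ)) =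
      (1 - Complex.normSq a.1) * (1 - Complex.normSq a'.1) := by exact_mod_cast h1
  rw [Complex.normSq_eq_norm_sq, Complex.normSq_eq_norm_sq, Complex.normSq_eq_norm_sq,
    Complex.normSq_eq_norm_sq] at h2
  have h3 : 0 < (1 - ‖a.1‖ ^ 2) * (1 - ‖a'.1‖ ^ 2) := by
    apply mul_pos
    · have := a.2
      have h0 := norm_nonneg a.1
      nlinarith
    · have := a'.2
      have h0 := norm_nonneg a'.1
      nlinarith
  apply lt_of_pow_lt_pow_left₀ 2 (norm_nonneg _)
  linarith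

theorem comp (c c' : Circle) (a a' : Dsc) : ∃ (c'' : Circle) (a'' : Dsc),
    ∀ z : ℂ, ‖z‖ ≤ 1 → (c'' : ℂ) * (z - a''.1) / (1 - conj a''.1 * z) =
      (c : ℂ) * ((c' : ℂ) * (z - a'.1) / (1 - conj a'.1 * z) - a.1) /
        (1 - conj a.1 * ((c' : ℂ) * (z - a'.1) / (1 - conj a'.1 * z))) := by
  have hu := unit_conj c'
  have hlt := norm_lt c' a a'
  obtain ⟨R, hR⟩ : ∃ R, R = 1 + conj a.1 * (c' : ℂ) * a'.1 := ⟨_, rfl⟩
  obtain ⟨S, hS⟩ : ∃ S, S = conj a'.1 + conj a.1 * (c' : ℂ) := ⟨_, rfl⟩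
  rw [← hR, ← hS] at hlt
  have hRpos : 0 < ‖R‖ := (norm_nonneg _).trans_lt hlt
  have hR0 : R ≠ 0 := norm_pos_iff.1 hRpos
  have hRc0 : conj R ≠ 0 := (map_ne_zero _).2 hR0
  have hRc : conj R = 1 + a.1 * conj (c' : ℂ) * conj a'.1 := by
    rw [hR]; simp only [map_add, map_mul, map_one, Complex.conj_conj]
  have hSc : conj S = a'.1 + a.1 * conj (c' : ℂ) := by
    rw [hS]; simp only [map_add, map_mul, Complex.conj_conj]
  refine ⟨⟨(c : ℂ) * (c' : ℂ) * (conj R / R), ?_⟩, ⟨conj S / conj R, ?_⟩, ?_⟩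
  · refine mem_sphere_zero_iff_norm.2 ?_
    have h1 : ‖(c : ℂ) * (c' : ℂ) * (conj R / R)‖ = 1 := by
      rw [norm_mul, norm_mul, Circle.norm_coe, Circle.norm_coe, norm_div,
        RCLike.norm_conj, div_self hRpos.ne']
      norm_num
    exact h1
  · rw [norm_div, RCLike.norm_conj, RCLike.norm_conj, div_lt_one hRpos]
    exact hlt
  · intro z hz
    have hD := den_ne' a' z hz
    have hRS : R - S * z ≠ 0 := by
      intro h0
      have h1 : R = S * z := sub_eq_zero.1 h0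
      have h2 : ‖R‖ ≤ ‖S‖ := by
        rw [h1, norm_mul]
        calc ‖S‖ * ‖z‖ ≤ ‖S‖ * 1 := mul_le_mul_of_nonneg_left hz (norm_nonneg _)
          _ = ‖S‖ := mul_one _
      linarith
    obtain ⟨D, hDd⟩ : ∃ D, D = 1 - conj a'.1 * z := ⟨_, rfl⟩
    have e1 : 1 - conj a.1 * ((c' : ℂ) * (z - a'.1) / (1 - conj a'.1 * z)) = (R - S * z) / D := by
      rw [← hDd]
      rw [← hDd] at hD
      field_simp
      rw [hDd, hR, hS]
      ring
    have e2 : (c' : ℂ) * (z - a'.1) / (1 - conj a'.1 * z) - a.1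
        = ((c' : ℂ) * (conj R * z - conj S)) / D := by
      rw [← hDd]
      rw [← hDd] at hD
      field_simp
      rw [hDd, hRc, hSc]
      linear_combination (-(a.1 * conj a'.1 * z - a.1)) * hu
    rw [e1, e2]
    rw [← hDd] at hD
    show (c : ℂ) * (c' : ℂ) * (conj R / R) * (z - conj S / conj R) / (1 - conj (conj S / conj R) * z)
      = _
    have e3 : conj (conj S / conj R) = S / R := by
      rw [map_div₀, Complex.conj_conj, Complex.conj_conj]
    have e4 : 1 - conj (conj S / conj R) * z = (R - S * z) / R := by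
      rw [e3]
      field_simp
    have e5 : z - conj S / conj R = (conj R * z - conj S) / conj R := by
      field_simp
    rw [e4, e5]
    field_simp

end TPARC

theorem t_PARC : S_PARC := by
  refine ⟨?_, ?_, ?_⟩
  · intro c c' a a'
    obtain ⟨c'', a'', h⟩ := TPARC.comp c c' a a'
    refine ⟨c'', a'', ?_, ?_⟩
    · intro z
      apply Circle.ext
      rw [bm_coe, bm_coe, bm_coe]
      exact h z (Circle.norm_coe z).le
    · intro z hz
      exact h z hz.le
  · intro c a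
    have hk : (c : ℂ) ≠ 0 := Circle.coe_ne_zero c
    have hcc : conj (c : ℂ) = (c : ℂ)⁻¹ := by
      rw [← Circle.coe_inv_eq_conj, Circle.coe_inv]
    have hca : conj (ainv c a).1 = -((c : ℂ)⁻¹ * conj a.1) := by
      show conj (-((c : ℂ) * a.1)) = _
      rw [map_neg, map_mul, hcc]
    have haa : (1 - conj a.1 * a.1) ≠ 0 := TPARC.den_ne' a a.1 a.2.le
    constructor
    · intro z
      apply Circle.ext
      rw [bm_coe, bm_coe]
      have hD1 := den_ne (ainv c a) z
      rw [hca] at hD1 ⊢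
      show (c : ℂ) * (((c⁻¹ : Circle) : ℂ) * ((z : ℂ) - -((c : ℂ) * a.1)) /
        (1 - -((c : ℂ)⁻¹ * conj a.1) * (z : ℂ)) - a.1) /
        (1 - conj a.1 * (((c⁻¹ : Circle) : ℂ) * ((z : ℂ) - -((c : ℂ) * a.1)) /
        (1 - -((c : ℂ)⁻¹ * conj a.1) * (z : ℂ)))) = (z : ℂ)
      rw [Circle.coe_inv]
      obtain ⟨D, hD⟩ : ∃ D, D = 1 - -((c : ℂ)⁻¹ * conj a.1) * (z : ℂ) := ⟨_, rfl⟩
      rw [← hD] at hD1 ⊢
      have e1 : (c : ℂ)⁻¹ * ((z : ℂ) - -((c : ℂ) * a.1)) / D - a.1
          = (c : ℂ)⁻¹ * z * (1 - conj a.1 * a.1) / D := by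
        rw [div_sub' hD1]
        congr 1
        rw [hD]
        field_simp
        ring
      have e2 : 1 - conj a.1 * ((c : ℂ)⁻¹ * ((z : ℂ) - -((c : ℂ) * a.1)) / D)
          = (1 - conj a.1 * a.1) / D := by
        rw [← mul_div_assoc, one_sub_div hD1]
        congr 1
        rw [hD]
        field_simp
        ring
      rw [e1, e2]
      field_simp
    · intro z
      apply Circle.ext
      rw [bm_coe, hca, bm_coe]
      have hD1 := den_ne a z
      show ((c⁻¹ : Circle) : ℂ) * ((c : ℂ) * ((z : ℂ) - a.1) / (1 - conj a.1 * (z : ℂ)) -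
        -((c : ℂ) * a.1)) / (1 - -((c : ℂ)⁻¹ * conj a.1) *
        ((c : ℂ) * ((z : ℂ) - a.1) / (1 - conj a.1 * (z : ℂ)))) = (z : ℂ)
      rw [Circle.coe_inv]
      obtain ⟨D, hD⟩ : ∃ D, D = 1 - conj a.1 * (z : ℂ) := ⟨_, rfl⟩
      rw [← hD] at hD1 ⊢
      have e1 : (c : ℂ) * ((z : ℂ) - a.1) / D - -((c : ℂ) * a.1)
          = (c : ℂ) * z * (1 - conj a.1 * a.1) / D := by
        rw [div_sub' hD1]
        congr 1
        rw [hD]
        ring
      have e2 : 1 - -((c : ℂ)⁻¹ * conj a.1) * ((c : ℂ) * ((z : ℂ) - a.1) / D)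
          = (1 - conj a.1 * a.1) / D := by
        rw [← mul_div_assoc, one_sub_div hD1]
        congr 1
        rw [hD]
        field_simp
        ring
      rw [e1, e2]
      field_simp
  · intro z
    apply Circle.ext
    rw [bm_coe]
    simp

end Pool.Agent.W268.UB
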