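import Pool.Agent.W268.UB.Stm

namespace Pool.Agent.W268.UB

open Complex
open scoped ComplexConjugate

namespace TPARU

lemma den (a z : ℂ) (ha : ‖a‖ < 1) (hz : ‖z‖ < 1) : (1 - conj a * z) ≠ 0 := by
  intro h
  have h1 : conj a * z = 1 := (sub_eq_zero.1 h).symm
  have h2 : ‖conj a * z‖ = 1 := by rw [h1]; simp
  rw [norm_mul, RCLike.norm_conj] at h2
  have := mul_lt_one_of_nonneg_of_lt_one_left (norm_nonneg a) ha hz.le
  linarith

end TPARU

theorem t_PARU : S_PARU := by
  intro c c' a a' h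
  have hc : (c : ℂ) ≠ 0 := Circle.coe_ne_zero c
  have haa : a = a' := by
    have h1 := h a'.1 a'.2
    rw [sub_self, mul_zero, zero_div, div_eq_zero_iff] at h1
    rcases h1 with h1 | h1
    · rcases mul_eq_zero.1 h1 with h2 | h2
      · exact absurd h2 hc
      · exact Subtype.ext (sub_eq_zero.1 h2).symm
    · exact absurd h1 (TPARU.den a.1 a'.1 a.2 a'.2)
  refine ⟨?_, haa⟩
  subst haa
  have key : ∀ z : ℂ, ‖z‖ < 1 → z ≠ a.1 → (c : ℂ) = c' := by
    intro z hz hza
    have h1 := h z hz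
    have h2 := TPARU.den a.1 z a.2 hz
    have h3 : z - a.1 ≠ 0 := sub_ne_zero.2 hza
    rw [div_left_inj' h2] at h1
    exact mul_right_cancel₀ h3 h1
  apply Circle.ext
  by_cases ha : a.1 = 0
  · apply key (1 / 2)
    · norm_num
    · rw [ha]; norm_num
  · exact key 0 (by simp) (fun h => ha h.symm)

end Pool.Agent.W268.UB
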