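import Pool.Agent.W268.UB.Stm

set_option autoImplicit false
set_option linter.all false

namespace Pool.Agent.W268.UB

open MeasureTheory Complex
open scoped ComplexConjugate InnerProductSpace

noncomputable section

namespace TREL

theorem e_apply (n m : ℤ) : (e n) m = if m = n then (1 : ℂ) else 0 := by
  unfold e
  by_cases h : m = n
  · subst h
    rw [if_pos rfl]
    simp
  · rw [if_neg h]
    exact lp.single_apply_ne 2 n _ h

/-- evaluation functional -/
theorem eval_cont (m : ℤ) : Continuous fun x : H => x m := by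
  have h : Continuous fun x : H => (fun n => x n : ℤ → ℂ) := lp.uniformContinuous_coe.continuous
  exact (continuous_apply m).comp h

theorem S_apply (om : ℤ → ℝ) (hom : IsOm om) (S : H →L[ℂ] H) (hS : IsShift om S) (x : H) (m : ℤ) :
    (S x) m = ((om m : ℝ) : ℂ) / ((om (m - 1) : ℝ) : ℂ) * x (m - 1) := by
  have hne : ∀ n, ((om n : ℝ) : ℂ) ≠ 0 := fun n => by
    exact_mod_cast (hom.1 n).ne'
  have hsum : HasSum (fun n : ℤ => lp.single 2 n (x n)) x := lp.hasSum_single (by norm_num) x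
  have h1 : HasSum (fun n : ℤ => S (lp.single 2 n (x n))) (S x) := hsum.mapL S
  let φ : H →+ ℂ :=
    { toFun := fun y => y m
      map_zero' := rfl
      map_add' := fun _ _ => rfl }
  have h2 : HasSum (fun n : ℤ => (S (lp.single 2 n (x n))) m) ((S x) m) :=
    h1.map φ (eval_cont m)
  have h3 : ∀ n : ℤ, (S (lp.single 2 n (x n))) m =
      if n = m - 1 then ((om m : ℝ) : ℂ) / ((om (m - 1) : ℝ) : ℂ) * x (m - 1) else 0 := by
    intro n
    have e1 : (lp.single 2 n (x n) : H) = (x n * ((om n : ℝ) : ℂ)⁻¹) • E om n := by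
      unfold E
      rw [smul_smul, mul_assoc, inv_mul_cancel₀ (hne n), mul_one]
      unfold e
      rw [← lp.single_smul]
      simp
    rw [e1, map_smul, hS n]
    have e2 : (((x n * ((om n : ℝ) : ℂ)⁻¹) • E om (n + 1) : H)) m =
        (x n * ((om n : ℝ) : ℂ)⁻¹) * (((om (n + 1) : ℝ) : ℂ) * (e (n + 1)) m) := rfl
    rw [e2, e_apply]
    by_cases h : n = m - 1
    · rw [if_pos h, if_pos (by omega)]
      have h' : n + 1 = m := by omega
      rw [h', h]
      field_simp
    · rw [if_neg h, if_neg (by omega)]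
      ring
  simp only [h3] at h2
  have h4 : HasSum (fun n : ℤ => if n = m - 1 then ((om m : ℝ) : ℂ) / ((om (m - 1) : ℝ) : ℂ) * x (m - 1) else 0)
      (((om m : ℝ) : ℂ) / ((om (m - 1) : ℝ) : ℂ) * x (m - 1)) := hasSum_ite_eq (m - 1) _
  exact h2.unique h4

theorem fc_zn (f : C(Circle, ℂ)) (m : ℤ) : fc (zn 1 * f) m = fc f (m - 1) := by
  unfold fc
  congr 1
  funext z
  have hz : (z : ℂ) ≠ 0 := Circle.coe_ne_zero z
  have h1 : (zn 1 * f) z = (z : ℂ) ^ (1 : ℤ) * f z := rfl
  rw [h1]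
  have h2 : -(m - 1) = 1 + -m := by ring
  rw [h2, zpow_add₀ hz]
  ring

theorem eq_of_dense (J : C(Circle, ℂ) →L[ℂ] H) (hd : DenseRange J) (A B : H →L[ℂ] H)
    (h : ∀ f, A (J f) = B (J f)) : A = B := by
  have h3 : (A : H → H) = (B : H → H) :=
    hd.equalizer A.continuous B.continuous (funext h)
  exact DFunLike.coe_injective h3

end TREL

open TREL in
theorem t_REL (h1 : S_MU) (h2 : S_JD) : S_REL := by
  intro om S J hom hS hJ
  have hne : ∀ n, ((om n : ℝ) : ℂ) ≠ 0 := fun n => by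
    exact_mod_cast (hom.1 n).ne'
  have hSJ : ∀ f, S (J f) = J (zn 1 * f) := by
    intro f
    apply lp.ext
    funext m
    rw [S_apply om hom S hS, hJ f, hJ, fc_zn]
    have := hne (m - 1)
    field_simp
  refine ⟨hSJ, ?_⟩
  intro c a W M hW hM
  obtain ⟨hdense, -⟩ := h2 om J hom hJ
  constructor
  · have hfun : ∀ f, ((1 - conj a.1 • S) * W * S) (J f) = ((c : ℂ) • ((S - a.1 • 1) * W)) (J f) := by
      intro f
      have l1 : ((1 - conj a.1 • S) * W * S) (J f) =
          J (Wf c a (zn 1 * f)) - conj a.1 • J (zn 1 * Wf c a (zn 1 * f)) := by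
        show (1 - conj a.1 • S) (W (S (J f))) = _
        rw [hSJ, hW]
        show J (Wf c a (zn 1 * f)) - conj a.1 • S (J (Wf c a (zn 1 * f))) = _
        rw [hSJ]
      have l2 : ((c : ℂ) • ((S - a.1 • 1) * W)) (J f) =
          (c : ℂ) • (J (zn 1 * Wf c a f) - a.1 • J (Wf c a f)) := by
        show (c : ℂ) • (S (W (J f)) - a.1 • (W (J f))) = _
        rw [hW, hSJ]
      rw [l1, l2, ← map_smul, ← map_smul, ← map_sub, ← map_sub, ← map_smul]
      congr 1
      ext z
      have hd := den_ne a z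
      show ((pk a z ^ (3 / 4 : ℝ) : ℝ) : ℂ) * (((bm c a z : Circle) : ℂ) ^ (1 : ℤ) * f (bm c a z)) -
        conj a.1 * ((z : ℂ) ^ (1 : ℤ) * (((pk a z ^ (3 / 4 : ℝ) : ℝ) : ℂ) * (((bm c a z : Circle) : ℂ) ^ (1 : ℤ) * f (bm c a z)))) =
        (c : ℂ) * ((z : ℂ) ^ (1 : ℤ) * (((pk a z ^ (3 / 4 : ℝ) : ℝ) : ℂ) * f (bm c a z)) - a.1 * (((pk a z ^ (3 / 4 : ℝ) : ℝ) : ℂ) * f (bm c a z)))
      rw [zpow_one, zpow_one, bm_coe]
      have key : (c : ℂ) * ((z : ℂ) - a.1) / (1 - conj a.1 * (z : ℂ)) * (1 - conj a.1 * (z : ℂ)) =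
        (c : ℂ) * ((z : ℂ) - a.1) := div_mul_cancel₀ _ hd
      linear_combination (((pk a z ^ (3 / 4 : ℝ) : ℝ) : ℂ) * f (bm c a z)) * key
    exact eq_of_dense J hdense _ _ hfun
  · have hfun : ∀ f, (M * S) (J f) = (S * M) (J f) := by
      intro f
      show M (S (J f)) = S (M (J f))
      rw [hSJ, hM, hM, hSJ]
      congr 1
      ring
    exact eq_of_dense J hdense _ _ hfun

end

end Pool.Agent.W268.UB
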