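import Pool.Agent.W268.UB.Stm

/-!
# Part RELX: the commutator relation for the symmetrized multiplication operator (helper377)
-/

set_option autoImplicit false

open scoped ComplexConjugate

namespace Pool.Agent.W268.UB

namespace TRELX

/-- coordinate functional -/
noncomputable def cf (n : ℤ) : H →L[ℂ] ℂ := lp.evalCLM ℂ (fun _ : ℤ => ℂ) 2 n

theorem cf_apply (n : ℤ) (u : H) : cf n u = u n := rfl

theorem e_apply_self (n : ℤ) : (e n : H) n = 1 := lp.single_apply_self (E := fun _ : ℤ => ℂ) 2 n 1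

theorem e_apply_ne {n m : ℤ} (h : m ≠ n) : (e n : H) m = 0 :=
  lp.single_apply_ne (E := fun _ : ℤ => ℂ) 2 n 1 h

theorem clm_ext {F : Type*} [NormedAddCommGroup F] [NormedSpace ℂ F] (A B : H →L[ℂ] F)
    (h : ∀ n, A (e n) = B (e n)) : A = B := by
  apply lp.ext_continuousLinearMap (by norm_num)
  intro i
  ext
  exact h i

theorem e_eq {om : ℤ → ℝ} (hom : IsOm om) (n : ℤ) : e n = ((om n : ℝ) : ℂ)⁻¹ • E om n := by
  have : ((om n : ℝ) : ℂ) ≠ 0 := by exact_mod_cast (hom.1 n).ne'
  rw [E, smul_smul, inv_mul_cancel₀ this, one_smul]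

theorem clm_ext' {om : ℤ → ℝ} (hom : IsOm om) {F : Type*} [NormedAddCommGroup F]
    [NormedSpace ℂ F] (A B : H →L[ℂ] F) (h : ∀ n, A (E om n) = B (E om n)) : A = B := by
  apply clm_ext
  intro n
  rw [e_eq hom n, map_smul, map_smul, h n]

/-- the quotient of the weights -/
noncomputable def sg (om : ℤ → ℝ) (n : ℤ) : ℂ := ((om n : ℝ) : ℂ) / ((om (n - 1) : ℝ) : ℂ)

theorem E_apply (om : ℤ → ℝ) (k n : ℤ) : (E om k : H) n = if n = k then ((om n : ℝ) : ℂ) else 0 := by
  rw [E, lp.coeFn_smul, Pi.smul_apply, smul_eq_mul]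
  split_ifs with h
  · rw [h, e_apply_self, mul_one]
  · rw [e_apply_ne h, mul_zero]

theorem S_apply {om : ℤ → ℝ} {S : H →L[ℂ] H} (hom : IsOm om) (hS : IsShift om S) (u : H) (n : ℤ) :
    (S u) n = sg om n * u (n - 1) := by
  have h : (cf n) ∘L S = sg om n • cf (n - 1) := by
    apply clm_ext' hom
    intro k
    show (S (E om k)) n = sg om n * (E om k : H) (n - 1)
    rw [hS k, E_apply, E_apply]
    have h0 : ((om (n - 1) : ℝ) : ℂ) ≠ 0 := by exact_mod_cast (hom.1 (n - 1)).ne'
    by_cases hk : n = k + 1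
    · rw [if_pos hk, if_pos (by omega), sg, div_mul_cancel₀ _ h0]
    · rw [if_neg hk, if_neg (by omega), mul_zero]
  exact congrArg (fun f : H →L[ℂ] ℂ => f u) h

theorem X_apply {om l : ℤ → ℝ} {X : H →L[ℂ] H} (hom : IsOm om) (hX : IsX om l X) (u : H) (n : ℤ) :
    (X u) n = ((l n - l (n - 1) : ℝ) : ℂ) * (sg om n * u (n - 1)) := by
  have h : (cf n) ∘L X = (((l n - l (n - 1) : ℝ) : ℂ) * sg om n) • cf (n - 1) := by
    apply clm_ext' hom
    intro k
    show (X (E om k)) n = ((l n - l (n - 1) : ℝ) : ℂ) * sg om n * (E om k : H) (n - 1)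
    rw [hX k, lp.coeFn_smul, Pi.smul_apply, smul_eq_mul, E_apply, E_apply]
    have h0 : ((om (n - 1) : ℝ) : ℂ) ≠ 0 := by exact_mod_cast (hom.1 (n - 1)).ne'
    by_cases hk : n = k + 1
    · rw [if_pos hk, if_pos (by omega), mul_assoc, sg, div_mul_cancel₀ _ h0, hk, add_sub_cancel_right]
    · rw [if_neg hk, if_neg (by omega), mul_zero, mul_zero]
  have h2 := congrArg (fun f : H →L[ℂ] ℂ => f u) h
  have h3 : (X u) n = ((l n - l (n - 1) : ℝ) : ℂ) * sg om n * u (n - 1) := h2
  rw [h3, mul_assoc]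

end TRELX

open TRELX in
theorem t_RELX : S_RELX := by
  intro om l S X hom hell hS hX c a W Ks h1 h2
  have hSW : ∀ u : H, S (W (c • u + conj a • S u)) = W (S u + (c * a) • u) := by
    intro u
    have h := congrArg (fun f : H →L[ℂ] H => f u) h1
    have h' : W (S u) - conj a • S (W (S u)) = c • (S (W u) - a • W u) := h
    simp only [map_add, map_smul]
    rw [smul_sub, smul_smul] at h'
    have h'' : W (S u) + (c * a) • W u = c • S (W u) + conj a • S (W (S u)) :=
      sub_eq_sub_iff_add_eq_add.1 h'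
    exact h''.symm
  apply clm_ext' hom
  intro m
  apply lp.ext
  funext n
  set y : H := W (c • E om m + conj a • E om (m + 1)) with hy
  have hSy : S y = W (E om (m + 1) + (c * a) • E om m) := by
    have := hSW (E om m)
    rw [hS m] at this
    exact this
  -- left side
  have eL : ((Ks * S - S * Ks + X) * W * (c • (1 : H →L[ℂ] H) + conj a • S)) (E om m) =
      Ks (S y) - S (Ks y) + X y := by
    have e0 : (c • (1 : H →L[ℂ] H) + conj a • S) (E om m) = c • E om m + conj a • E om (m + 1) := by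
      show c • E om m + conj a • S (E om m) = _
      rw [hS m]
    show (Ks * S - S * Ks + X) (W ((c • (1 : H →L[ℂ] H) + conj a • S) (E om m))) = _
    rw [e0]
    rfl
  have eR : ((1 - conj a • S) * W * X) (E om m) =
      ((l (m + 1) - l m : ℝ) : ℂ) • (W (E om (m + 1)) - conj a • S (W (E om (m + 1)))) := by
    show (1 - conj a • S) (W (X (E om m))) = _
    rw [hX m, map_smul, map_smul]
    rfl
  rw [eL, eR, hSy]
  -- coordinates
  have hKy : ∀ k : ℤ, (Ks y) k = c * (((l m - l k : ℝ) : ℂ) * (W (E om m)) k) +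
      conj a * (((l (m + 1) - l k : ℝ) : ℂ) * (W (E om (m + 1))) k) := by
    intro k
    rw [hy, map_add, map_add, map_smul, map_smul, map_smul, map_smul, lp.coeFn_add, Pi.add_apply,
      lp.coeFn_smul, lp.coeFn_smul, Pi.smul_apply, Pi.smul_apply, h2, h2, smul_eq_mul, smul_eq_mul]
  have hyk : ∀ k : ℤ, y k = c * (W (E om m)) k + conj a * (W (E om (m + 1))) k := by
    intro k
    rw [hy, map_add, map_smul, map_smul, lp.coeFn_add, Pi.add_apply,
      lp.coeFn_smul, lp.coeFn_smul, Pi.smul_apply, Pi.smul_apply, smul_eq_mul, smul_eq_mul]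
  have hKS : (Ks (W (E om (m + 1) + (c * a) • E om m))) n =
      ((l (m + 1) - l n : ℝ) : ℂ) * (W (E om (m + 1))) n +
      (c * a) * (((l m - l n : ℝ) : ℂ) * (W (E om m)) n) := by
    rw [map_add, map_add, map_smul, map_smul, lp.coeFn_add, Pi.add_apply,
      lp.coeFn_smul, Pi.smul_apply, h2, h2, smul_eq_mul]
  have hQ : (W (E om (m + 1))) n - conj a * (sg om n * (W (E om (m + 1))) (n - 1)) =
      c * (sg om n * (W (E om m)) (n - 1) - a * (W (E om m)) n) := by
    have h := congrArg (fun f : H →L[ℂ] H => f (E om m)) h1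
    have h' : W (S (E om m)) - conj a • S (W (S (E om m))) =
      c • (S (W (E om m)) - a • W (E om m)) := h
    rw [hS m] at h'
    have h'' := congrArg (fun v : H => v n) h'
    simp only [lp.coeFn_sub, lp.coeFn_smul, Pi.sub_apply, Pi.smul_apply, smul_eq_mul,
      S_apply hom hS] at h''
    exact h''
  rw [lp.coeFn_add, lp.coeFn_sub, Pi.add_apply, Pi.sub_apply, lp.coeFn_smul, Pi.smul_apply,
    lp.coeFn_sub, Pi.sub_apply, lp.coeFn_smul, Pi.smul_apply, smul_eq_mul, smul_eq_mul, hKS,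
    S_apply hom hS, S_apply hom hS, X_apply hom hX, hKy, hyk]
  push_cast
  linear_combination ((l m : ℂ) - l n) * hQ

end Pool.Agent.W268.UB
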