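import Pool.Agent.W268.UB.Stm

namespace Pool.Agent.W268.UB

open MeasureTheory Complex
open scoped ComplexConjugate InnerProductSpace

noncomputable section

namespace TRING12

theorem one_sub (hb : S_BLK) (r : ℂ) (S X : H →L[ℂ] H) :
    (1 : K2 →L[ℂ] K2) - r • blk S X 0 S = blk (1 - r • S) (-(r • X)) 0 (1 - r • S) := by
  rw [← hb.2.2.2.1]
  unfold blk
  ext1 x
  simp only [sub_apply, add_apply, smul_apply, ContinuousLinearMap.comp_apply,
    one_apply_eq_self, zero_apply, map_zero, map_sub, map_smul, neg_apply, map_neg]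
  module

theorem sub_one (hb : S_BLK) (r : ℂ) (S X : H →L[ℂ] H) :
    blk S X 0 S - r • (1 : K2 →L[ℂ] K2) = blk (S - r • 1) X 0 (S - r • 1) := by
  rw [← hb.2.2.2.1]
  unfold blk
  ext1 x
  simp only [sub_apply, add_apply, smul_apply, ContinuousLinearMap.comp_apply,
    one_apply_eq_self, zero_apply, map_zero, map_sub, map_smul, neg_apply, map_neg]
  module

theorem alg (r : ℂ) (A B S X : H →L[ℂ] H) :
    (1 - r • S) * A * (X - (B * S - S * B)) - (X - (B * S - S * B)) * A * (1 + r • S) =
    (((1 - r • S) * A) * X + ((1 - r • S) * (B * A - A * B) + (-(r • X)) * A) * S -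
      ((S - r • 1) * (B * A - A * B) + X * A)) +
    ((1 - r • S) * A * S - (S - r • 1) * A) * B - B * ((1 - r • S) * A * S - (S - r • 1) * A) := by
  simp only [sub_mul, mul_sub, add_mul, mul_add, one_mul, mul_one, smul_mul_assoc, mul_smul_comm,
    smul_sub, smul_add, neg_mul, mul_neg, mul_assoc]
  abel

end TRING12

open TRING12 in
theorem t_RING12 : S_BLK → S_RING12 := by
  intro hb r A E0 B S X hE h
  rw [one_sub hb, sub_one hb, hb.1, hb.1, hb.1] at h
  have e := hb.2.1
  have h11 := congrArg (fun Z : K2 →L[ℂ] K2 => p1 ∘L Z ∘L i1) h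
  have h12 := congrArg (fun Z : K2 →L[ℂ] K2 => p1 ∘L Z ∘L i2) h
  simp only [(e _ _ _ _).1] at h11
  simp only [(e _ _ _ _).2.1] at h12
  have k11 : (1 - r • S) * A * S = (S - r • 1) * A := by
    simpa using h11
  refine ⟨k11, ?_⟩
  subst hE
  have k12 : ((1 - r • S) * A) * X + ((1 - r • S) * (B * A - A * B) + (-(r • X)) * A) * S =
      (S - r • 1) * (B * A - A * B) + X * A := by
    rw [mul_zero, add_zero] at h12
    exact h12
  have k := alg r A B S X
  rw [k11, k12, sub_self, sub_self, zero_mul, mul_zero, add_zero, sub_zero] at k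
  exact sub_eq_zero.mp k

end

end Pool.Agent.W268.UB
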