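import Pool.Agent.W268.UB.Stm

/-!
Project UB, piece ROTEX: the rotation operators exist and are unitary.
-/

namespace Pool.Agent.W268.UB

namespace TROTEX

theorem norm_zpow_one {c : ℂ} (hc : ‖c‖ = 1) (n : ℤ) : ‖c ^ n‖ = 1 := by
  rw [norm_zpow, hc, one_zpow]

theorem mem_mul {c : ℂ} (hc : ‖c‖ = 1) (x : H) : Memℓp (fun n : ℤ => c ^ n * x n) 2 := by
  have h2 : (0 : ℝ) < (2 : ENNReal).toReal := by norm_num
  have hx := (memℓp_gen_iff h2).1 (lp.memℓp x)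
  refine (memℓp_gen_iff h2).2 ?_
  refine hx.congr fun n => ?_
  rw [norm_mul, norm_zpow_one hc, one_mul]

/-- the diagonal operator with entries `c ^ n` -/
noncomputable def dg (c : ℂ) (hc : ‖c‖ = 1) (x : H) : H := ⟨fun n : ℤ => c ^ n * x n, mem_mul hc x⟩

theorem dg_apply (c : ℂ) (hc : ‖c‖ = 1) (x : H) (n : ℤ) : (dg c hc x) n = c ^ n * x n := rfl

theorem dg_norm (c : ℂ) (hc : ‖c‖ = 1) (x : H) : ‖dg c hc x‖ = ‖x‖ := by
  have h2 : (0 : ℝ) < (2 : ENNReal).toReal := by norm_num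
  rw [lp.norm_eq_tsum_rpow h2, lp.norm_eq_tsum_rpow h2]
  congr 1
  refine tsum_congr fun n => ?_
  rw [dg_apply, norm_mul, norm_zpow_one hc, one_mul]

theorem dg_inv (c d : ℂ) (hc : ‖c‖ = 1) (hd : ‖d‖ = 1) (h : c * d = 1) (x : H) :
    dg c hc (dg d hd x) = x := by
  ext n
  rw [dg_apply, dg_apply, ← mul_assoc, ← mul_zpow, h, one_zpow, one_mul]

theorem inv_norm {c : ℂ} (hc : ‖c‖ = 1) : ‖c⁻¹‖ = 1 := by rw [norm_inv, hc, inv_one]

theorem c_ne {c : ℂ} (hc : ‖c‖ = 1) : c ≠ 0 := by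
  intro h
  rw [h, norm_zero] at hc
  exact zero_ne_one hc

theorem dg_e (c : ℂ) (hc : ‖c‖ = 1) (n : ℤ) : dg c hc (e n) = c ^ n • e n := by
  ext m
  rw [dg_apply, lp.coeFn_smul, Pi.smul_apply, smul_eq_mul]
  unfold e
  rw [lp.single_apply]
  by_cases h : m = n
  · subst h
    rfl
  · rw [Pi.single_eq_of_ne h, mul_zero, mul_zero]

/-- the operator on two copies -/
noncomputable def VV (c : ℂ) (hc : ‖c‖ = 1) : K2 ≃ₗᵢ[ℂ] K2 where
  toFun x := WithLp.toLp 2 (dg c hc x.fst, dg c hc x.snd)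
  invFun x := WithLp.toLp 2 (dg c⁻¹ (inv_norm hc) x.fst, dg c⁻¹ (inv_norm hc) x.snd)
  map_add' x y := by
    rw [← WithLp.toLp_add]
    congr 1
    refine Prod.ext ?_ ?_
    · show dg c hc (x.fst + y.fst) = dg c hc x.fst + dg c hc y.fst
      ext n
      rw [lp.coeFn_add, Pi.add_apply, dg_apply, dg_apply, dg_apply, lp.coeFn_add, Pi.add_apply,
        mul_add]
    · show dg c hc (x.snd + y.snd) = dg c hc x.snd + dg c hc y.snd
      ext n
      rw [lp.coeFn_add, Pi.add_apply, dg_apply, dg_apply, dg_apply, lp.coeFn_add, Pi.add_apply,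
        mul_add]
  map_smul' r x := by
    rw [RingHom.id_apply, ← WithLp.toLp_smul]
    congr 1
    refine Prod.ext ?_ ?_
    · show dg c hc (r • x.fst) = r • dg c hc x.fst
      ext n
      rw [lp.coeFn_smul, Pi.smul_apply, dg_apply, dg_apply, lp.coeFn_smul, Pi.smul_apply,
        smul_eq_mul, smul_eq_mul]
      ring
    · show dg c hc (r • x.snd) = r • dg c hc x.snd
      ext n
      rw [lp.coeFn_smul, Pi.smul_apply, dg_apply, dg_apply, lp.coeFn_smul, Pi.smul_apply,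
        smul_eq_mul, smul_eq_mul]
      ring
  left_inv x := by
    show WithLp.toLp 2 (dg c⁻¹ (inv_norm hc) (dg c hc x.fst),
      dg c⁻¹ (inv_norm hc) (dg c hc x.snd)) = x
    rw [dg_inv _ _ _ _ (inv_mul_cancel₀ (c_ne hc)), dg_inv _ _ _ _ (inv_mul_cancel₀ (c_ne hc))]
    rfl
  right_inv x := by
    show WithLp.toLp 2 (dg c hc (dg c⁻¹ (inv_norm hc) x.fst),
      dg c hc (dg c⁻¹ (inv_norm hc) x.snd)) = x
    rw [dg_inv _ _ _ _ (mul_inv_cancel₀ (c_ne hc)), dg_inv _ _ _ _ (mul_inv_cancel₀ (c_ne hc))]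
    rfl
  norm_map' x := by
    show ‖WithLp.toLp 2 (dg c hc x.fst, dg c hc x.snd)‖ = ‖x‖
    rw [WithLp.prod_norm_eq_of_L2, WithLp.prod_norm_eq_of_L2]
    show Real.sqrt (‖dg c hc x.fst‖ ^ 2 + ‖dg c hc x.snd‖ ^ 2) = _
    rw [dg_norm, dg_norm]

end TROTEX

open TROTEX in
theorem t_ROTEX : S_ROTEX := by
  intro c hc
  refine ⟨(Unitary.linearIsometryEquiv.symm (VV c hc) : K2 →L[ℂ] K2), ?_,
    (Unitary.linearIsometryEquiv.symm (VV c hc)).2⟩
  intro n
  have h0 : dg c hc 0 = 0 := by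
    ext m
    rw [dg_apply]
    simp
  constructor
  · show WithLp.toLp 2 (dg c hc (e n), dg c hc 0) = c ^ n • WithLp.toLp 2 (e n, (0 : H))
    rw [dg_e, h0, ← WithLp.toLp_smul]
    congr 1
    refine Prod.ext rfl ?_
    show (0 : H) = c ^ n • (0 : H)
    rw [smul_zero]
  · show WithLp.toLp 2 (dg c hc 0, dg c hc (e n)) = c ^ n • WithLp.toLp 2 ((0 : H), e n)
    rw [dg_e, h0, ← WithLp.toLp_smul]
    congr 1
    refine Prod.ext ?_ rfl
    show (0 : H) = c ^ n • (0 : H)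
    rw [smul_zero]

end Pool.Agent.W268.UB
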