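import Pool.Agent.W268.UB.Stm

namespace Pool.Agent.W268.UB

namespace TSCHUR

theorem single_eq (m : ℤ) (a : ℂ) : lp.single 2 m a = a • e m := by
  unfold e
  rw [← lp.single_smul]
  simp

theorem toReal_two : (2 : ENNReal).toReal = 2 := by norm_num

theorem coe_sum_apply (F : Finset ℤ) (g : ℤ → H) (n : ℤ) :
    (∑ m ∈ F, g m : H) n = ∑ m ∈ F, (g m) n := by
  classical
  induction F using Finset.induction_on with
  | empty => simp
  | insert a s ha ih => rw [Finset.sum_insert ha, Finset.sum_insert ha, lp.coeFn_add, Pi.add_apply, ih]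

theorem fin_bound (ka : ℤ → ℤ → ℝ) (p : ℤ → ℝ) (C : ℝ) (hs : ∀ n m, ka n m = ka m n)
    (h0 : ∀ n m, 0 ≤ ka n m) (hp : ∀ n, 0 < p n)
    (hC : ∀ (n : ℤ) (F : Finset ℤ), ∑ m ∈ F, ka n m * p m ≤ C * p n) (hC0 : 0 ≤ C)
    (D : H →L[ℂ] H) (hD : ∀ n m, ‖(D (e m)) n‖ ≤ ka n m) (x : ℤ → ℂ) (F G : Finset ℤ) :
    ∑ n ∈ G, ‖(D (∑ m ∈ F, x m • e m)) n‖ ^ 2 ≤ C ^ 2 * ∑ m ∈ F, ‖x m‖ ^ 2 := by
  have h1 : ∀ n, ‖(D (∑ m ∈ F, x m • e m)) n‖ ≤ ∑ m ∈ F, ka n m * ‖x m‖ := by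
    intro n
    rw [map_sum, coe_sum_apply]
    refine (norm_sum_le _ _).trans (Finset.sum_le_sum fun m _ => ?_)
    rw [map_smul, lp.coeFn_smul, Pi.smul_apply, norm_smul, mul_comm]
    exact mul_le_mul_of_nonneg_right (hD n m) (norm_nonneg _)
  have h2 : ∀ n, ‖(D (∑ m ∈ F, x m • e m)) n‖ ^ 2 ≤
      ∑ m ∈ F, C * (ka n m * p n) * (‖x m‖ ^ 2 / p m) := by
    intro n
    have h3 : ‖(D (∑ m ∈ F, x m • e m)) n‖ ^ 2 ≤ (∑ m ∈ F, ka n m * ‖x m‖) ^ 2 :=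
      pow_le_pow_left₀ (norm_nonneg _) (h1 n) 2
    have h4 : (∑ m ∈ F, ka n m * ‖x m‖) ^ 2 ≤
        (∑ m ∈ F, ka n m * p m) * ∑ m ∈ F, ka n m * (‖x m‖ ^ 2 / p m) := by
      refine Finset.sum_sq_le_sum_mul_sum_of_sq_eq_mul F
        (fun m _ => mul_nonneg (h0 n m) (hp m).le)
        (fun m _ => mul_nonneg (h0 n m) (div_nonneg (sq_nonneg _) (hp m).le)) (fun m _ => ?_)
      have := (hp m).ne'
      field_simp
    have h5 : 0 ≤ ∑ m ∈ F, ka n m * (‖x m‖ ^ 2 / p m) :=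
      Finset.sum_nonneg fun m _ => mul_nonneg (h0 n m) (div_nonneg (sq_nonneg _) (hp m).le)
    have h6 := mul_le_mul_of_nonneg_right (hC n F) h5
    calc ‖(D (∑ m ∈ F, x m • e m)) n‖ ^ 2 ≤ C * p n * ∑ m ∈ F, ka n m * (‖x m‖ ^ 2 / p m) :=
          h3.trans (h4.trans h6)
      _ = _ := by
          rw [Finset.mul_sum]
          refine Finset.sum_congr rfl fun m _ => ?_
          ring
  calc ∑ n ∈ G, ‖(D (∑ m ∈ F, x m • e m)) n‖ ^ 2
      ≤ ∑ n ∈ G, ∑ m ∈ F, C * (ka n m * p n) * (‖x m‖ ^ 2 / p m) :=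
        Finset.sum_le_sum fun n _ => h2 n
    _ = ∑ m ∈ F, ∑ n ∈ G, C * (ka n m * p n) * (‖x m‖ ^ 2 / p m) := Finset.sum_comm
    _ = ∑ m ∈ F, C * (∑ n ∈ G, ka m n * p n) * (‖x m‖ ^ 2 / p m) := by
        refine Finset.sum_congr rfl fun m _ => ?_
        rw [Finset.mul_sum, Finset.sum_mul]
        refine Finset.sum_congr rfl fun n _ => ?_
        rw [hs n m]
    _ ≤ ∑ m ∈ F, C * (C * p m) * (‖x m‖ ^ 2 / p m) := by
        refine Finset.sum_le_sum fun m _ => ?_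
        exact mul_le_mul_of_nonneg_right (mul_le_mul_of_nonneg_left (hC m G) hC0)
          (div_nonneg (sq_nonneg _) (hp m).le)
    _ = C ^ 2 * ∑ m ∈ F, ‖x m‖ ^ 2 := by
        rw [Finset.mul_sum]
        refine Finset.sum_congr rfl fun m _ => ?_
        have := (hp m).ne'
        field_simp

end TSCHUR

theorem t_SCHUR : S_SCHUR := by
  intro ka p C hs h0 hp hC D hD
  have hC0 : 0 ≤ C := by
    have := hC 0 ∅
    rw [Finset.sum_empty] at this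
    by_contra hneg
    push Not at hneg
    exact absurd this (not_le.2 (mul_neg_of_neg_of_pos hneg (hp 0)))
  refine ContinuousLinearMap.opNorm_le_bound D hC0 fun x => ?_
  have hx : HasSum (fun m : ℤ => lp.single 2 m (x m)) x := lp.hasSum_single (by norm_num) x
  have hlim : Filter.Tendsto (fun F : Finset ℤ => ‖D (∑ m ∈ F, lp.single 2 m (x m))‖)
      Filter.atTop (nhds ‖D x‖) := (D.continuous.norm.tendsto x).comp hx
  refine le_of_tendsto' hlim fun F => ?_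
  have hsum : (∑ m ∈ F, lp.single 2 m (x m) : H) = ∑ m ∈ F, x m • e m :=
    Finset.sum_congr rfl fun m _ => TSCHUR.single_eq m (x m)
  rw [hsum]
  refine lp.norm_le_of_forall_sum_le (by norm_num) (mul_nonneg hC0 (norm_nonneg x)) fun G => ?_
  have key := TSCHUR.fin_bound ka p C hs h0 hp hC hC0 D hD x F G
  have hn := lp.sum_rpow_le_norm_rpow (by norm_num) x F
  rw [TSCHUR.toReal_two] at hn ⊢
  simp only [Real.rpow_two] at hn ⊢
  calc _ ≤ _ := key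
    _ ≤ C ^ 2 * ‖x‖ ^ 2 := mul_le_mul_of_nonneg_left hn (sq_nonneg C)
    _ = _ := by ring

end Pool.Agent.W268.UB
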