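import Pool.Agent.W268.UB.Stm

/-!
Project UB: the commutant of the shift is commutative
-/

set_option autoImplicit false

namespace Pool.Agent.W268.UB

open MeasureTheory Complex
open scoped ComplexConjugate InnerProductSpace

namespace TSCOM

/-- the coordinates with respect to the orthogonal basis -/
noncomputable def cc (om : ℤ → ℝ) (v : H) (n : ℤ) : ℂ := v n / ((om n : ℝ) : ℂ)

theorem om_ne {om : ℤ → ℝ} (h : IsOm om) (n : ℤ) : ((om n : ℝ) : ℂ) ≠ 0 := by
  have := (h.1 n).ne'
  exact_mod_cast this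

theorem hasSum_E {om : ℤ → ℝ} (h : IsOm om) (v : H) :
    HasSum (fun m => cc om v m • E om m) v := by
  have h1 := lp.hasSum_single (E := fun _ : ℤ => ℂ) (p := 2) (by norm_num) v
  have h2 : (fun m => cc om v m • E om m) = fun i => lp.single 2 i (v i) := by
    funext i
    unfold cc E e
    rw [smul_smul, div_mul_cancel₀ _ (om_ne h i), ← lp.single_smul, smul_eq_mul, mul_one]
  rw [h2]
  exact h1

theorem hasSum_op {om : ℤ → ℝ} (h : IsOm om) (A : H →L[ℂ] H) (v : H) (n : ℤ) :
    HasSum (fun m => cc om v m * (A (E om m)) n) ((A v) n) := by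
  have h1 := (hasSum_E h v).mapL ((lp.evalCLM ℂ (fun _ : ℤ => ℂ) 2 n) ∘L A)
  have h2 : (fun m => ((lp.evalCLM ℂ (fun _ : ℤ => ℂ) 2 n) ∘L A) (cc om v m • E om m)) =
      fun m => cc om v m * (A (E om m)) n := by
    funext m
    rw [map_smul]
    rfl
  rw [h2] at h1
  exact h1

theorem E_self (om : ℤ → ℝ) (n : ℤ) : (E om n) n = ((om n : ℝ) : ℂ) := by
  have : (E om n) n = ((om n : ℝ) : ℂ) * (lp.single (E := fun _ : ℤ => ℂ) 2 n (1 : ℂ)) n := rfl
  rw [this, lp.single_apply_self, mul_one]

theorem E_ne (om : ℤ → ℝ) {m n : ℤ} (h : n ≠ m) : (E om m) n = 0 := by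
  have : (E om m) n = ((om m : ℝ) : ℂ) * (lp.single (E := fun _ : ℤ => ℂ) 2 m (1 : ℂ)) n := rfl
  rw [this, lp.single_apply_ne _ _ _ h, mul_zero]

theorem cc_S {om : ℤ → ℝ} {S : H →L[ℂ] H} (h : IsOm om) (hS : IsShift om S) (v : H) (n : ℤ) :
    cc om (S v) n = cc om v (n - 1) := by
  have h1 := hasSum_op h S v n
  have h2 : HasSum (fun m => cc om v m * (S (E om m)) n) (cc om v (n - 1) * (S (E om (n - 1))) n) := by
    refine hasSum_single (n - 1) fun m hm => ?_
    rw [hS m, E_ne om (by omega), mul_zero]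
  have h3 := h1.unique h2
  rw [hS, sub_add_cancel, E_self] at h3
  unfold cc at h3 ⊢
  rw [h3, mul_div_cancel_right₀ _ (om_ne h n)]

theorem cc_F {om : ℤ → ℝ} {S F : H →L[ℂ] H} (h : IsOm om) (hS : IsShift om S)
    (hF : F * S = S * F) (m : ℤ) : ∀ n, cc om (F (E om m)) n = cc om (F (E om 0)) (n - m) := by
  have key : ∀ m n, cc om (F (E om (m + 1))) n = cc om (F (E om m)) (n - 1) := by
    intro m n
    rw [← hS m]
    have : F (S (E om m)) = S (F (E om m)) := congrArg (fun A : H →L[ℂ] H => A (E om m)) hF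
    rw [this, cc_S h hS]
  induction m using Int.induction_on with
  | zero => intro n; rw [sub_zero]
  | succ i ih =>
    intro n
    rw [key, ih]
    congr 1
    ring
  | pred i ih =>
    intro n
    have h1 := key (-(i : ℤ) - 1) (n + 1)
    rw [sub_add_cancel, add_sub_cancel_right] at h1
    rw [← h1, ih]
    congr 1
    ring

theorem val_F {om : ℤ → ℝ} {S F : H →L[ℂ] H} (h : IsOm om) (hS : IsShift om S)
    (hF : F * S = S * F) (m n : ℤ) :
    (F (E om m)) n = ((om n : ℝ) : ℂ) * cc om (F (E om 0)) (n - m) := by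
  rw [← cc_F h hS hF m n]
  unfold cc
  rw [mul_div_cancel₀ _ (om_ne h n)]

theorem ext_E {om : ℤ → ℝ} (h : IsOm om) {A B : H →L[ℂ] H} (hAB : ∀ n, A (E om n) = B (E om n)) :
    A = B := by
  refine ContinuousLinearMap.ext fun v => ?_
  refine lp.ext (funext fun n => ?_)
  have h1 := hasSum_op h A v n
  have h2 := hasSum_op h B v n
  simp only [hAB] at h1
  exact h1.unique h2

end TSCOM

open TSCOM in
/-- the commutant of the shift is commutative -/
theorem t_SCOM : S_SINV → S_SCOM := by
  intro _ om S h hS F F' hF hF'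
  constructor
  · have hFF : (F * F') * S = S * (F * F') := by
      rw [mul_assoc, hF', ← mul_assoc, hF, mul_assoc]
    have hFF' : (F' * F) * S = S * (F' * F) := by
      rw [mul_assoc, hF, ← mul_assoc, hF', mul_assoc]
    have h0 : ∀ n, cc om ((F * F') (E om 0)) n = cc om ((F' * F) (E om 0)) n := by
      intro n
      have h1 := hasSum_op h F (F' (E om 0)) n
      have h2 := hasSum_op h F' (F (E om 0)) n
      simp only [val_F h hS hF] at h1
      simp only [val_F h hS hF'] at h2
      have h3 := (Equiv.subLeft n).hasSum_iff.2 h1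
      have h4 : ((fun m => cc om (F' (E om 0)) m * (((om n : ℝ) : ℂ) * cc om (F (E om 0)) (n - m))) ∘
          (Equiv.subLeft n)) = fun m => cc om (F (E om 0)) m *
            (((om n : ℝ) : ℂ) * cc om (F' (E om 0)) (n - m)) := by
        funext m
        simp only [Function.comp, Equiv.subLeft_apply]
        rw [sub_sub_cancel]
        ring
      rw [h4] at h3
      have h5 := h3.unique h2
      show ((F (F' (E om 0))) n) / _ = ((F' (F (E om 0))) n) / _
      rw [h5]
    refine ext_E h fun m => ?_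
    refine lp.ext (funext fun n => ?_)
    rw [val_F h hS hFF m n, val_F h hS hFF' m n, h0]
  · have key : ∀ n, (F (e n)) n = cc om (F (E om 0)) 0 := by
      intro n
      have h1 := val_F h hS hF n n
      rw [sub_self] at h1
      have h2 : F (E om n) = ((om n : ℝ) : ℂ) • F (e n) := by
        unfold E
        rw [map_smul]
      rw [h2] at h1
      have h3 : ((om n : ℝ) : ℂ) * (F (e n)) n = ((om n : ℝ) : ℂ) * cc om (F (E om 0)) 0 := h1
      exact mul_left_cancel₀ (om_ne h n) h3
    intro n
    rw [key n, key 0]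

end Pool.Agent.W268.UB
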