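import Pool.Agent.W268.UB.Stm

/-!
# Project UB, part SEQ: the sequence identity
-/

namespace Pool.Agent.W268.UB

open MeasureTheory Complex Filter Topology
open scoped ComplexConjugate InnerProductSpace

noncomputable section

namespace TSEQ

lemma Wf_one (f : C(Circle, ℂ)) : Wf 1 ⟨0, by simp⟩ f = f := by
  ext z
  show ((pk ⟨0, by simp⟩ z ^ (3 / 4 : ℝ) : ℝ) : ℂ) * f (bm 1 ⟨0, by simp⟩ z) = f z
  have h1 : pk ⟨0, by simp⟩ z = 1 := by simp [pk]
  have h2 : bm 1 ⟨0, by simp⟩ z = z := by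
    apply Subtype.ext
    show (((1 : Circle) : ℂ)) * ((z : ℂ) - 0) / (1 - conj (0 : ℂ) * (z : ℂ)) = (z : ℂ)
    simp
  rw [h1, h2]
  simp

lemma inner_E (om : ℤ → ℝ) (n : ℤ) (x : H) : ⟪E om n, x⟫_ℂ = ((om n : ℝ) : ℂ) * x n := by
  unfold E e
  rw [inner_smul_left, lp.inner_single_left]
  simp

lemma inner_E_right (om : ℤ → ℝ) (n : ℤ) (x : H) :
    ⟪x, E om n⟫_ℂ = ((om n : ℝ) : ℂ) * conj (x n) := by
  rw [← inner_conj_symm, inner_E]
  simp

lemma E_apply (om : ℤ → ℝ) (n k : ℤ) : (E om n) k = if k = n then ((om n : ℝ) : ℂ) else 0 := by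
  unfold E e
  by_cases h : k = n
  · subst h
    rw [if_pos rfl]
    show ((om k : ℝ) : ℂ) • ((lp.single 2 k (1 : ℂ) : H) k) = _
    rw [lp.single_apply_self, smul_eq_mul, mul_one]
  · rw [if_neg h]
    show ((om n : ℝ) : ℂ) • ((lp.single 2 n (1 : ℂ) : H) k) = 0
    rw [lp.single_apply_ne _ _ _ h, smul_zero]

end TSEQ

open TSEQ

theorem t_SEQ : S_LINV → S_JD → S_PARC → S_GRP → S_SEQ := by
  intro hL hJD hP hG om l J hom hl hJ c a W M hW hWJ hMJ m n
  obtain ⟨-, hJz⟩ := hJD om J hom hJ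
  have hne : ∀ k, ((om k : ℝ) : ℂ) ≠ 0 := fun k => by
    exact_mod_cast (hom.1 k).ne'
  set g := Wf c⁻¹ (ainv c a) (zn n) with hgdef
  have hg : Wf c a g = zn n := by
    have h1 := (hG c⁻¹ c 1 (ainv c a) a ⟨0, by simp⟩ (fun z => by
      rw [(hP.2.1 c a).2 z]
      exact hP.2.2 z)).2.1 (zn n)
    rw [hgdef, ← h1, Wf_one]
  have hfz : ∀ j k : ℤ, fc (zn j) k = if k = j then 1 else 0 := by
    intro j k
    have h1 := hJ (zn j) k
    rw [hJz j, E_apply] at h1
    by_cases h : k = j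
    · rw [if_pos h] at h1 ⊢
      subst h
      exact (mul_left_cancel₀ (hne k) (by rw [mul_one]; exact h1)).symm
    · rw [if_neg h] at h1 ⊢
      rcases mul_eq_zero.1 h1.symm with h2 | h2
      · exact absurd h2 (hne k)
      · exact h2
  have hWin : ∀ x y : H, ⟪W x, W y⟫_ℂ = ⟪x, y⟫_ℂ := by
    intro x y
    have h1 : star W * W = 1 := (Unitary.mem_iff.1 hW).1
    rw [← ContinuousLinearMap.adjoint_inner_right, ← ContinuousLinearMap.star_eq_adjoint]
    have h2 : (star W) (W y) = (star W * W) y := rfl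
    rw [h2, h1]
    rfl
  obtain ⟨s, t, hs, ht, hst⟩ := hL om l J hom hl hJ c a g (zn m)
  -- the first sum
  have es : s = ((l m : ℝ) : ℂ) * (((om n : ℝ) : ℂ) * (W (E om m)) n) := by
    have h1 : s = ((l m * om m ^ 2 : ℝ) : ℂ) * (conj (fc g m) * fc (zn m) m) := by
      refine hs.unique (hasSum_single m fun k hk => ?_)
      rw [hfz m k, if_neg hk, mul_zero, mul_zero]
    have h2 : ((om m : ℝ) : ℂ) * conj (((om m : ℝ) : ℂ) * fc g m) =
        ((om n : ℝ) : ℂ) * (W (E om m)) n := by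
      rw [← hJ g m, ← inner_E_right, ← hWin, hWJ g, hg, hJz n, inner_E]
    rw [h1, ← h2, hfz m m, if_pos rfl, map_mul, Complex.conj_ofReal]
    push_cast
    ring
  have et : t = ((l n : ℝ) : ℂ) * (((om n : ℝ) : ℂ) * (W (E om m)) n) := by
    have h1 : t = ((l n * om n ^ 2 : ℝ) : ℂ) *
        (conj (fc (Wf c a g) n) * fc (Wf c a (zn m)) n) := by
      refine ht.unique (hasSum_single n fun k hk => ?_)
      rw [hg, hfz n k, if_neg hk, map_zero, zero_mul, mul_zero]
    have h2 : (W (E om m)) n = ((om n : ℝ) : ℂ) * fc (Wf c a (zn m)) n := by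
      rw [← hJz m, hWJ, hJ]
    rw [h1, h2, hg, hfz n n, if_pos rfl, map_one]
    push_cast
    ring
  have er : s - t = ((om n : ℝ) : ℂ) *
      (((1 / 2 : ℂ) • (M + ContinuousLinearMap.adjoint M)) (W (E om m))) n := by
    rw [hst, ← hMJ, ← hMJ, hg, hJz n, ← hWJ, hJz m, ← inner_E]
    rw [← ContinuousLinearMap.adjoint_inner_right]
    rw [_root_.smul_apply, inner_smul_right, _root_.add_apply,
      inner_add_right]
    ring
  have := er
  rw [es, et] at this
  apply mul_left_cancel₀ (hne n)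
  rw [← this]
  push_cast
  ring

end

end Pool.Agent.W268.UB
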