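import Pool.Agent.W268.UB.Stm

/-!
# Existence of the weighted shifts
-/

namespace Pool.Agent.W268.UB

open MeasureTheory Complex
open scoped ComplexConjugate InnerProductSpace ENNReal

noncomputable section

namespace TSEX

theorem two_pos' : 0 < (2 : ℝ≥0∞).toReal := by norm_num

theorem summ (x : H) : Summable fun n : ℤ => ‖x n‖ ^ 2 := by
  have h := (memℓp_gen_iff (p := (2 : ℝ≥0∞)) two_pos').1 (lp.memℓp x)
  refine h.congr fun n => ?_
  simp

theorem nsq (x : H) : ‖x‖ ^ 2 = ∑' n : ℤ, ‖x n‖ ^ 2 := by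
  have h := lp.norm_rpow_eq_tsum (p := (2 : ℝ≥0∞)) two_pos' x
  simpa using h

theorem summ' (s : ℤ → ℂ) (C : ℝ) (hC : ∀ n, ‖s n‖ ≤ C) (x : H) :
    Summable fun n : ℤ => ‖s (n - 1) * x (n - 1)‖ ^ 2 := by
  have h1 : Summable fun n : ℤ => C ^ 2 * ‖x (n - 1)‖ ^ 2 :=
    ((Equiv.subRight (1 : ℤ)).summable_iff.2 (summ x)).mul_left _
  refine Summable.of_nonneg_of_le (fun n => by positivity) (fun n => ?_) h1
  rw [norm_mul, mul_pow]
  exact mul_le_mul_of_nonneg_right (pow_le_pow_left₀ (norm_nonneg _) (hC _) 2) (by positivity)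

theorem mem' (s : ℤ → ℂ) (C : ℝ) (hC : ∀ n, ‖s n‖ ≤ C) (x : H) :
    Memℓp (fun n : ℤ => s (n - 1) * x (n - 1)) 2 := by
  refine (memℓp_gen_iff (p := (2 : ℝ≥0∞)) two_pos').2 ?_
  refine (summ' s C hC x).congr fun n => ?_
  simp

/-- the weighted shift -/
def Dl (s : ℤ → ℂ) (C : ℝ) (hC : ∀ n, ‖s n‖ ≤ C) : H →ₗ[ℂ] H where
  toFun x := ⟨fun n : ℤ => s (n - 1) * x (n - 1), mem' s C hC x⟩
  map_add' x y := by
    ext n
    show s (n - 1) * (x + y) (n - 1) = s (n - 1) * x (n - 1) + s (n - 1) * y (n - 1)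
    rw [lp.coeFn_add, Pi.add_apply, mul_add]
  map_smul' c x := by
    ext n
    show s (n - 1) * (c • x) (n - 1) = c * (s (n - 1) * x (n - 1))
    rw [lp.coeFn_smul, Pi.smul_apply, smul_eq_mul]
    ring

theorem Dl_apply (s : ℤ → ℂ) (C : ℝ) (hC : ∀ n, ‖s n‖ ≤ C) (x : H) (n : ℤ) :
    (Dl s C hC x) n = s (n - 1) * x (n - 1) := rfl

theorem Dl_norm (s : ℤ → ℂ) (C : ℝ) (hC : ∀ n, ‖s n‖ ≤ C) (x : H) : ‖Dl s C hC x‖ ≤ C * ‖x‖ := by
  have hC0 : 0 ≤ C := (norm_nonneg _).trans (hC 0)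
  refine le_of_sq_le_sq ?_ (by positivity)
  rw [mul_pow, nsq, nsq, ← tsum_mul_left]
  have h1 : ∑' n : ℤ, C ^ 2 * ‖x n‖ ^ 2 = ∑' n : ℤ, C ^ 2 * ‖x (n - 1)‖ ^ 2 :=
    ((Equiv.subRight (1 : ℤ)).tsum_eq fun n => C ^ 2 * ‖x n‖ ^ 2).symm
  rw [h1]
  refine Summable.tsum_le_tsum (fun n => ?_) (summ' s C hC x)
    (((Equiv.subRight (1 : ℤ)).summable_iff.2 (summ x)).mul_left _)
  rw [Dl_apply, norm_mul, mul_pow]
  exact mul_le_mul_of_nonneg_right (pow_le_pow_left₀ (norm_nonneg _) (hC _) 2) (by positivity)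

theorem exi (s : ℤ → ℂ) (C : ℝ) (hC : ∀ n, ‖s n‖ ≤ C) :
    ∃ D : H →L[ℂ] H, ∀ n, D (e n) = s n • e (n + 1) := by
  refine ⟨(Dl s C hC).mkContinuous C (Dl_norm s C hC), fun n => ?_⟩
  ext m
  rw [LinearMap.mkContinuous_apply, Dl_apply, lp.coeFn_smul, Pi.smul_apply, smul_eq_mul]
  unfold e
  by_cases h : m = n + 1
  · subst h
    have h1 : n + 1 - 1 = n := by ring
    rw [h1, lp.single_apply_self, lp.single_apply_self]
  · rw [lp.single_apply_ne _ _ _ h, lp.single_apply_ne _ _ _ (by omega), mul_zero, mul_zero]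

theorem ratio (om : ℤ → ℝ) (h : IsOm om) (n : ℤ) : |om (n + 1) / om n| ≤ 2 := by
  obtain ⟨hp, hr⟩ := h
  have h0 := hp n
  have h1 := hp (n + 1)
  rw [abs_of_pos (div_pos h1 h0), div_le_iff₀ h0]
  have h2 := hr n
  refine le_of_sq_le_sq ?_ (by positivity)
  have hq : 0 < om (n + 1) ^ 2 := by positivity
  have hq0 : 0 < om n ^ 2 := by positivity
  rcases le_or_gt 0 n with hn | hn
  · have hn' : (0 : ℝ) ≤ n := by exact_mod_cast hn
    nlinarith
  · have hn' : (n : ℝ) ≤ -1 := by exact_mod_cast (by omega : n ≤ -1)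
    nlinarith

theorem ell (l : ℤ → ℝ) (h : IsEll l) (n : ℤ) : |l (n + 1) - l n| ≤ 4 := by
  rw [h n]
  have h1 : (1 : ℝ) ≤ |4 * (n : ℝ) + 1| := by
    have : (1 : ℤ) ≤ |4 * n + 1| := Int.one_le_abs (by omega)
    exact_mod_cast this
  have h3 : (1 : ℝ) ≤ |4 * (n : ℝ) + 3| := by
    have : (1 : ℤ) ≤ |4 * n + 3| := Int.one_le_abs (by omega)
    exact_mod_cast this
  have a1 : |2 / (4 * (n : ℝ) + 1)| ≤ 2 := by
    rw [abs_div, abs_two]
    exact div_le_self (by norm_num) h1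
  have a3 : |2 / (4 * (n : ℝ) + 3)| ≤ 2 := by
    rw [abs_div, abs_two]
    exact div_le_self (by norm_num) h3
  have := abs_sub (-(2 / (4 * (n : ℝ) + 1))) (2 / (4 * (n : ℝ) + 3))
  rw [abs_neg] at this
  linarith

end TSEX

open TSEX in
theorem t_SEX : S_SEX := by
  intro om l hom hl
  constructor
  · obtain ⟨S, hS⟩ := exi (fun n => ((om (n + 1) / om n : ℝ) : ℂ)) 2 (fun n => by
      rw [Complex.norm_real, Real.norm_eq_abs]
      exact ratio om hom n)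
    refine ⟨S, fun n => ?_⟩
    unfold E
    rw [map_smul, hS, smul_smul, ← Complex.ofReal_mul, mul_div_cancel₀ _ (hom.1 n).ne']
  · obtain ⟨X, hX⟩ := exi (fun n => ((om (n + 1) / om n * (l (n + 1) - l n) : ℝ) : ℂ)) (2 * 4)
      (fun n => by
        rw [Complex.norm_real, Real.norm_eq_abs, abs_mul]
        exact mul_le_mul (ratio om hom n) (ell l hl n) (abs_nonneg _) (by norm_num))
    refine ⟨X, fun n => ?_⟩
    unfold E
    rw [map_smul, hX, smul_smul, smul_smul, ← Complex.ofReal_mul, ← Complex.ofReal_mul]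
    congr 2
    have := (hom.1 n).ne'
    field_simp

end

end Pool.Agent.W268.UB
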