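import Pool.Agent.W268.UB.Stm

/-!
Part SINV of project UB: the weighted shift is invertible, growth of its powers.
-/

namespace Pool.Agent.W268.UB

open MeasureTheory Complex Filter Topology
open scoped ComplexConjugate InnerProductSpace

noncomputable section

namespace TSINV

theorem summable_sq (x : H) : Summable fun n : ℤ => ‖x n‖ ^ 2 := by
  have h := (memℓp_gen_iff (p := 2) (by norm_num)).1 (lp.memℓp x)
  simpa using h

theorem norm_sq (x : H) : ‖x‖ ^ 2 = ∑' n : ℤ, ‖x n‖ ^ 2 := by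
  have h := lp.norm_rpow_eq_tsum (p := 2) (by norm_num) x
  simpa using h

theorem memlp_ws (w : ℤ → ℂ) (C : ℝ) (hw : ∀ n, ‖w n‖ ≤ C) (j : ℤ) (x : H) :
    Memℓp (fun n : ℤ => w n * x (n - j)) 2 := by
  rw [memℓp_gen_iff (by norm_num)]
  have h1 : Summable fun n : ℤ => C ^ 2 * ‖x (n - j)‖ ^ 2 :=
    (((Equiv.subRight j).summable_iff).2 (summable_sq x)).mul_left (C ^ 2)
  have h2 : Summable fun n : ℤ => ‖w n * x (n - j)‖ ^ 2 := by
    refine Summable.of_nonneg_of_le (fun n => by positivity) (fun n => ?_) h1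
    rw [norm_mul, mul_pow]
    have := pow_le_pow_left₀ (norm_nonneg (w n)) (hw n) 2
    exact mul_le_mul_of_nonneg_right this (by positivity)
  simpa using h2

/-- weighted shift as a linear map -/
def wsL (w : ℤ → ℂ) (C : ℝ) (hw : ∀ n, ‖w n‖ ≤ C) (j : ℤ) : H →ₗ[ℂ] H where
  toFun x := ⟨fun n : ℤ => w n * x (n - j), memlp_ws w C hw j x⟩
  map_add' x y := by
    ext n
    show w n * ((x + y : H) : ∀ _ : ℤ, ℂ) (n - j) = w n * x (n - j) + w n * y (n - j)
    rw [lp.coeFn_add]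
    simp [mul_add]
  map_smul' c x := by
    ext n
    show w n * ((c • x : H) : ∀ _ : ℤ, ℂ) (n - j) = c * (w n * x (n - j))
    rw [lp.coeFn_smul]
    simp only [Pi.smul_apply, smul_eq_mul]
    ring

theorem wsL_apply (w : ℤ → ℂ) (C : ℝ) (hw : ∀ n, ‖w n‖ ≤ C) (j : ℤ) (x : H) (n : ℤ) :
    (wsL w C hw j x) n = w n * x (n - j) := rfl

theorem wsL_norm (w : ℤ → ℂ) (C : ℝ) (hw : ∀ n, ‖w n‖ ≤ C) (j : ℤ) (x : H) :
    ‖wsL w C hw j x‖ ≤ C * ‖x‖ := by
  have hC : 0 ≤ C := le_trans (norm_nonneg _) (hw 0)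
  refine le_of_sq_le_sq ?_ (mul_nonneg hC (norm_nonneg _))
  rw [norm_sq, mul_pow, norm_sq x, ← tsum_mul_left]
  have h1 : Summable fun n : ℤ => C ^ 2 * ‖x (n - j)‖ ^ 2 :=
    (((Equiv.subRight j).summable_iff).2 (summable_sq x)).mul_left (C ^ 2)
  have h3 : ∑' n : ℤ, C ^ 2 * ‖x (n - j)‖ ^ 2 = ∑' n : ℤ, C ^ 2 * ‖x n‖ ^ 2 :=
    (Equiv.subRight j).tsum_eq (fun n : ℤ => C ^ 2 * ‖x n‖ ^ 2)
  rw [← h3]
  refine Summable.tsum_le_tsum (fun n => ?_) ?_ h1
  · rw [wsL_apply, norm_mul, mul_pow]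
    have := pow_le_pow_left₀ (norm_nonneg (w n)) (hw n) 2
    exact mul_le_mul_of_nonneg_right this (by positivity)
  · exact summable_sq (wsL w C hw j x)

/-- weighted shift -/
def ws (w : ℤ → ℂ) (C : ℝ) (hw : ∀ n, ‖w n‖ ≤ C) (j : ℤ) : H →L[ℂ] H :=
  (wsL w C hw j).mkContinuous C (wsL_norm w C hw j)

theorem ws_apply (w : ℤ → ℂ) (C : ℝ) (hw : ∀ n, ‖w n‖ ≤ C) (j : ℤ) (x : H) (n : ℤ) :
    (ws w C hw j x) n = w n * x (n - j) := rfl

theorem ws_norm (w : ℤ → ℂ) (C : ℝ) (hw : ∀ n, ‖w n‖ ≤ C) (j : ℤ) : ‖ws w C hw j‖ ≤ C :=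
  LinearMap.mkContinuous_norm_le _ (le_trans (norm_nonneg _) (hw 0)) _

theorem ws_e (w : ℤ → ℂ) (C : ℝ) (hw : ∀ n, ‖w n‖ ≤ C) (j m : ℤ) :
    ws w C hw j (e m) = w (m + j) • e (m + j) := by
  ext n
  rw [ws_apply, lp.coeFn_smul, Pi.smul_apply, smul_eq_mul]
  unfold e
  by_cases h : n = m + j
  · subst h
    rw [show m + j - j = m by ring, lp.single_apply_self, lp.single_apply_self]
  · rw [lp.single_apply_ne (hij := fun h' => h (by omega)), lp.single_apply_ne (hij := h)]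
    simp

theorem ext_e (A B : H →L[ℂ] H) (h : ∀ n, A (e n) = B (e n)) : A = B := by
  ext1 x
  have hx := lp.hasSum_single (p := 2) (by norm_num) x
  have h1 : HasSum (fun n : ℤ => A (lp.single 2 n (x n))) (A x) := hx.mapL A
  have h2 : HasSum (fun n : ℤ => B (lp.single 2 n (x n))) (B x) := hx.mapL B
  have h3 : (fun n : ℤ => A (lp.single 2 n (x n))) = fun n : ℤ => B (lp.single 2 n (x n)) := by
    funext n
    have : lp.single (E := fun _ : ℤ => ℂ) 2 n (x n) = (x n) • e n := by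
      unfold e
      rw [← lp.single_smul]
      simp
    rw [this, map_smul, map_smul, h n]
  rw [h3] at h1
  exact h1.unique h2

theorem isUnit_one_sub (A : H →L[ℂ] H) (hA : ∀ j : ℕ, ‖A ^ j‖ ^ 4 ≤ 18 * (1 + j)) (b : ℂ)
    (hb : ‖b‖ < 1) : IsUnit (1 - b • A) := by
  have hb0 : 0 ≤ ‖b‖ := norm_nonneg b
  have hb4 : |‖b‖ ^ 4| < 1 := by
    rw [abs_of_nonneg (by positivity)]
    exact pow_lt_one₀ hb0 hb (by norm_num)
  have t1 := tendsto_pow_const_mul_const_pow_of_abs_lt_one 1 hb4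
  have t0 := tendsto_pow_const_mul_const_pow_of_abs_lt_one 0 hb4
  have t : Tendsto (fun n : ℕ => 18 * ((n : ℝ) ^ 0 * (‖b‖ ^ 4) ^ n + (n : ℝ) ^ 1 * (‖b‖ ^ 4) ^ n))
      atTop (𝓝 (18 * (0 + 0))) := (t0.add t1).const_mul 18
  have hlt : (18 * ((0 : ℝ) + 0)) < 1 := by norm_num
  obtain ⟨j, hj⟩ := (t.eventually_lt_const hlt).exists
  have hn : ‖(b • A) ^ j‖ < 1 := by
    rw [smul_pow, norm_smul, norm_pow]
    have h4 : (‖b‖ ^ j * ‖A ^ j‖) ^ 4 < 1 := by
      calc (‖b‖ ^ j * ‖A ^ j‖) ^ 4 = (‖b‖ ^ 4) ^ j * ‖A ^ j‖ ^ 4 := by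
            rw [mul_pow, ← pow_mul, ← pow_mul, mul_comm 4 j]
        _ ≤ (‖b‖ ^ 4) ^ j * (18 * (1 + j)) := mul_le_mul_of_nonneg_left (hA j) (by positivity)
        _ = 18 * ((j : ℝ) ^ 0 * (‖b‖ ^ 4) ^ j + (j : ℝ) ^ 1 * (‖b‖ ^ 4) ^ j) := by ring
        _ < 1 := hj
    by_contra hcon
    push Not at hcon
    exact absurd h4 (not_lt.2 (one_le_pow₀ hcon))
  have hu : IsUnit (1 - (b • A) ^ j) := (Units.oneSub _ hn).isUnit
  rw [← mul_neg_geom_sum] at hu
  have hc : Commute (1 - b • A) (∑ i ∈ Finset.range j, (b • A) ^ i) := by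
    refine Commute.sum_right _ _ _ (fun i _ => ?_)
    exact ((Commute.one_left _).sub_left (Commute.refl _)).pow_right i
  exact (hc.isUnit_mul_iff.1 hu).1

end TSINV

open TSINV

theorem t_SINV : S_OMR → S_SINV := by
  intro hOMR om S hom hS
  obtain ⟨hsym, hmono, -, hrat, -, -⟩ := hOMR om hom
  have hpos := hom.1
  have hne : ∀ n, ((om n : ℝ) : ℂ) ≠ 0 := fun n => by exact_mod_cast (hpos n).ne'
  -- ratio bound
  have hbd : ∀ (j : ℕ) (n m : ℤ), |m - n| = j → (om m / om n) ^ 4 ≤ 18 * (1 + (j : ℝ)) := by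
    intro j n m hmn
    have hj0 : (0 : ℝ) ≤ j := Nat.cast_nonneg j
    have hmn' : |(m : ℝ) - n| = j := by
      have : ((|m - n| : ℤ) : ℝ) = ((j : ℤ) : ℝ) := by rw [hmn]
      simpa using this
    have heq : (om m / om n) ^ 4 = (om m ^ 2 / om n ^ 2) ^ 2 := by
      rw [← div_pow, ← pow_mul]
    rcases hrat m n with h | h
    · rw [heq]
      refine le_trans h ?_
      rw [div_le_iff₀ (by positivity)]
      have h1 : |(n : ℝ)| ≤ |(m : ℝ)| + j := by
        have : (n : ℝ) = m - (m - n) := by ring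
        calc |(n : ℝ)| = |(m : ℝ) - (m - n)| := by rw [← this]
          _ ≤ |(m : ℝ)| + |(m : ℝ) - n| := abs_sub _ _
          _ = _ := by rw [hmn']
      have h2 : 0 ≤ (j : ℝ) * |(m : ℝ)| := by positivity
      nlinarith
    · have h1 := hmono n m h.le
      have h2 : om m / om n ≤ 1 := (div_le_one (hpos n)).2 h1
      have h3 : 0 ≤ om m / om n := (div_pos (hpos m) (hpos n)).le
      have h4 : (om m / om n) ^ 4 ≤ 1 := pow_le_one₀ h3 h2
      linarith
  -- weights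
  let C : ℕ → ℝ := fun j => (18 * (1 + (j : ℝ))) ^ (1 / 4 : ℝ)
  have hC4 : ∀ j : ℕ, (C j) ^ 4 = 18 * (1 + (j : ℝ)) := by
    intro j
    have h0 : (0 : ℝ) ≤ 18 * (1 + (j : ℝ)) := by positivity
    show ((18 * (1 + (j : ℝ))) ^ (1 / 4 : ℝ)) ^ 4 = _
    rw [← Real.rpow_natCast, ← Real.rpow_mul h0]
    norm_num
  have hC0 : ∀ j : ℕ, 0 ≤ C j := fun j => by positivity
  have hw : ∀ (j : ℕ) (i : ℤ), |i| = j → ∀ n : ℤ,
      ‖((om n / om (n - i) : ℝ) : ℂ)‖ ≤ C j := by
    intro j i hij n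
    rw [Complex.norm_real, Real.norm_of_nonneg (div_pos (hpos _) (hpos _)).le]
    have := hbd j (n - i) n (by rw [← hij]; congr 1; ring)
    rw [← hC4] at this
    exact le_of_pow_le_pow_left₀ (by norm_num) (hC0 j) this
  have he : ∀ n, S (e n) = ((om (n + 1) / om n : ℝ) : ℂ) • e (n + 1) := by
    intro n
    have h := hS n
    unfold E at h
    rw [map_smul] at h
    have h2 : S (e n) = (((om n : ℝ) : ℂ))⁻¹ • (((om n : ℝ) : ℂ) • S (e n)) := by
      rw [smul_smul, inv_mul_cancel₀ (hne n), one_smul]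
    rw [h2, h, smul_smul]
    congr 1
    push_cast
    rw [div_eq_inv_mul]
  -- the inverse
  let S' : H →L[ℂ] H := ws (fun n => ((om n / om (n - (-1)) : ℝ) : ℂ)) (C 1)
    (hw 1 (-1) (by norm_num)) (-1)
  have he' : ∀ n, S' (e n) = ((om (n - 1) / om n : ℝ) : ℂ) • e (n - 1) := by
    intro n
    show ws _ _ _ _ _ = _
    rw [ws_e]
    have h1 : n + (-1) = n - 1 := by ring
    have h2 : n + (-1) - (-1) = n := by ring
    rw [h2, h1]
  have hSS' : S * S' = 1 := by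
    apply ext_e
    intro n
    rw [mul_apply_eq_comp, he', map_smul, he, smul_smul, one_apply_eq_self]
    have h1 : n - 1 + 1 = n := by ring
    rw [h1, ← Complex.ofReal_mul, div_mul_div_cancel₀' (hpos _).ne', div_self (hpos n).ne']
    simp
  have hS'S : S' * S = 1 := by
    apply ext_e
    intro n
    rw [mul_apply_eq_comp, he, map_smul, he', smul_smul, one_apply_eq_self]
    have h1 : n + 1 - 1 = n := by ring
    rw [h1, ← Complex.ofReal_mul, div_mul_div_cancel₀' (hpos _).ne', div_self (hpos n).ne']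
    simp
  have hpow : ∀ (j : ℕ) (n : ℤ), (S ^ j) (e n) = ((om (n + j) / om n : ℝ) : ℂ) • e (n + j) := by
    intro j
    induction j with
    | zero =>
      intro n
      simp [div_self (hpos n).ne']
    | succ j ih =>
      intro n
      rw [pow_succ, mul_apply_eq_comp, he, map_smul, ih, smul_smul]
      have h1 : n + 1 + (j : ℤ) = n + ((j + 1 : ℕ) : ℤ) := by push_cast; ring
      rw [h1, ← Complex.ofReal_mul]
      congr 2
      have := (hpos (n + 1)).ne'
      have := (hpos n).ne'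
      field_simp
  have hpow' : ∀ (j : ℕ) (n : ℤ), (S' ^ j) (e n) = ((om (n - j) / om n : ℝ) : ℂ) • e (n - j) := by
    intro j
    induction j with
    | zero =>
      intro n
      simp [div_self (hpos n).ne']
    | succ j ih =>
      intro n
      rw [pow_succ, mul_apply_eq_comp, he', map_smul, ih, smul_smul]
      have h1 : n - 1 - (j : ℤ) = n - ((j + 1 : ℕ) : ℤ) := by push_cast; ring
      rw [h1, ← Complex.ofReal_mul]
      congr 2
      have := (hpos (n - 1)).ne'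
      have := (hpos n).ne'
      field_simp
  have hb1 : ∀ j : ℕ, ‖S ^ j‖ ^ 4 ≤ 18 * (1 + j) := by
    intro j
    have h : S ^ j = ws (fun n => ((om n / om (n - (j : ℤ)) : ℝ) : ℂ)) (C j)
        (hw j (j : ℤ) (by simp)) (j : ℤ) := by
      apply ext_e
      intro n
      rw [hpow, ws_e]
      have h1 : n + (j : ℤ) - j = n := by ring
      rw [h1]
    rw [h, ← hC4]
    exact pow_le_pow_left₀ (norm_nonneg _) (ws_norm _ _ _ _) 4
  have hb2 : ∀ j : ℕ, ‖S' ^ j‖ ^ 4 ≤ 18 * (1 + j) := by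
    intro j
    have h : S' ^ j = ws (fun n => ((om n / om (n - (-(j : ℤ))) : ℝ) : ℂ)) (C j)
        (hw j (-(j : ℤ)) (by simp)) (-(j : ℤ)) := by
      apply ext_e
      intro n
      rw [hpow', ws_e]
      have h1 : n + -(j : ℤ) - -(j : ℤ) = n := by ring
      have h2 : n + -(j : ℤ) = n - j := by ring
      rw [h1, h2]
    rw [h, ← hC4]
    exact pow_le_pow_left₀ (norm_nonneg _) (ws_norm _ _ _ _) 4
  refine ⟨⟨⟨S, S', hSS', hS'S⟩, rfl⟩, fun b hb => isUnit_one_sub S hb1 b hb, ?_, S', hSS', hS'S, ?_,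
    fun j => ⟨hb1 j, hb2 j⟩⟩
  · intro lam hlam
    by_contra hcon
    have hl : 1 < ‖lam‖ := by
      simpa using hcon
    have hl0 : lam ≠ 0 := by
      intro h
      rw [h, norm_zero] at hl
      linarith
    apply hlam
    have hb : ‖lam⁻¹‖ < 1 := by
      rw [norm_inv]
      exact inv_lt_one_of_one_lt₀ hl
    have hu := isUnit_one_sub S hb1 lam⁻¹ hb
    have heq : algebraMap ℂ (H →L[ℂ] H) lam - S = (Units.mk0 lam hl0) • (1 - lam⁻¹ • S) := by
      rw [Units.smul_mk0, smul_sub, smul_smul, mul_inv_cancel₀ hl0, one_smul,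
        Algebra.algebraMap_eq_smul_one]
    show IsUnit _
    rw [heq]
    exact hu.smul _
  · intro n
    unfold E
    rw [map_smul, he', smul_smul]
    congr 1
    push_cast
    rw [mul_div_cancel₀ _ (hne n)]

end

end Pool.Agent.W268.UB
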