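import Pool.Agent.W268.UB.Stm

/-!
Project UB: the spectrum of the block operator.
-/

namespace Pool.Agent.W268.UB

theorem t_SPEC : S_SINV → S_BLK → S_SPEC := by
  intro h1 h2 om l S X ho hl hS hX lam hlam
  rw [mem_closedBall_zero_iff]
  by_contra hc
  have hS2 : lam ∉ spectrum ℂ S := fun h =>
    hc (mem_closedBall_zero_iff.1 ((h1 om S ho hS).2.2.1 h))
  rw [spectrum.notMem_iff] at hS2
  have hu := h2.2.2.2.2.2.2.1 _ (-X) hS2
  refine (spectrum.mem_iff.1 hlam) ?_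
  have e : algebraMap ℂ (K2 →L[ℂ] K2) lam - blk S X 0 S =
      blk (algebraMap ℂ (H →L[ℂ] H) lam - S) (-X) 0 (algebraMap ℂ (H →L[ℂ] H) lam - S) := by
    ext1 x
    have hx := h2.2.2.2.2.2.2.2.2.1 x
    have e1 : (algebraMap ℂ (K2 →L[ℂ] K2) lam) x = lam • x := by
      rw [Algebra.algebraMap_eq_smul_one]; rfl
    have e2 : ∀ y : H, (algebraMap ℂ (H →L[ℂ] H) lam) y = lam • y := by
      intro y
      rw [Algebra.algebraMap_eq_smul_one]; rfl
    have e3 : lam • x = i1 (lam • p1 x) + i2 (lam • p2 x) := by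
      rw [map_smul, map_smul, ← smul_add, hx]
    show (algebraMap ℂ (K2 →L[ℂ] K2) lam) x -
        (i1 (S (p1 x)) + i1 (X (p2 x)) + i2 (0 : H) + i2 (S (p2 x))) =
      i1 ((algebraMap ℂ (H →L[ℂ] H) lam) (p1 x) - S (p1 x)) + i1 (-(X (p2 x))) + i2 (0 : H) +
        i2 ((algebraMap ℂ (H →L[ℂ] H) lam) (p2 x) - S (p2 x))
    rw [e1, e2, e2, e3, map_sub, map_sub, map_neg, map_zero]
    abel
  rw [e]
  exact hu

end Pool.Agent.W268.UB
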