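import Pool.Agent.W268.UB.Stm

/-!
Part STEP1A of project UB (problem MP_af71ff_an).
-/

namespace Pool.Agent.W268.UB

open MeasureTheory Complex Filter Topology
open scoped ComplexConjugate InnerProductSpace

noncomputable section

namespace TSTEP1A

/-- continuous linear maps on `H` which agree on the basis are equal -/
theorem extH {F : Type*} [AddCommMonoid F] [Module ℂ F] [TopologicalSpace F] [T2Space F]
    {f g : H →L[ℂ] F} (h : ∀ n, f (e n) = g (e n)) : f = g := by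
  apply lp.ext_continuousLinearMap (by norm_num)
  intro i
  apply ContinuousLinearMap.ext_ring
  exact h i

theorem extK (hb : S_BLK) {f g : K2 →L[ℂ] K2} (h1 : ∀ n, f (i1 (e n)) = g (i1 (e n)))
    (h2 : ∀ n, f (i2 (e n)) = g (i2 (e n))) : f = g := by
  have e1 : f ∘L i1 = g ∘L i1 := extH h1
  have e2 : f ∘L i2 = g ∘L i2 := extH h2
  obtain ⟨-, -, -, -, -, -, -, -, hx, -⟩ := hb
  refine ContinuousLinearMap.ext fun x => ?_
  rw [← hx x, map_add, map_add]
  congr 1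
  · exact DFunLike.congr_fun e1 (p1 x)
  · exact DFunLike.congr_fun e2 (p2 x)

theorem S_e {om : ℤ → ℝ} {S : H →L[ℂ] H} (ho : IsOm om) (hS : IsShift om S) (n : ℤ) :
    S (e n) = ((om (n + 1) / om n : ℝ) : ℂ) • e (n + 1) := by
  have h := hS n
  unfold E at h
  rw [map_smul] at h
  have h0 : ((om n : ℝ) : ℂ) ≠ 0 := by
    have := (ho.1 n).ne'
    exact_mod_cast this
  calc S (e n) = ((om n : ℝ) : ℂ)⁻¹ • (((om n : ℝ) : ℂ) • S (e n)) := by
        rw [inv_smul_smul₀ h0]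
    _ = _ := by
        rw [h, smul_smul]
        congr 1
        push_cast
        field_simp

theorem X_e {om l : ℤ → ℝ} {X : H →L[ℂ] H} (ho : IsOm om) (hX : IsX om l X) (n : ℤ) :
    X (e n) = (((l (n + 1) - l n) * om (n + 1) / om n : ℝ) : ℂ) • e (n + 1) := by
  have h := hX n
  unfold E at h
  rw [map_smul] at h
  have h0 : ((om n : ℝ) : ℂ) ≠ 0 := by
    have := (ho.1 n).ne'
    exact_mod_cast this
  calc X (e n) = ((om n : ℝ) : ℂ)⁻¹ • (((om n : ℝ) : ℂ) • X (e n)) := by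
        rw [inv_smul_smul₀ h0]
    _ = _ := by
        rw [h, smul_smul, smul_smul]
        congr 1
        push_cast
        field_simp

theorem e_apply (n m : ℤ) : (e n : H) m = if m = n then 1 else 0 := by
  unfold e
  rw [lp.single_apply, Pi.single_apply]

theorem S_coord {om : ℤ → ℝ} {S : H →L[ℂ] H} (ho : IsOm om) (hS : IsShift om S) (n : ℤ) (v : H) :
    (S v) (n + 1) = ((om (n + 1) / om n : ℝ) : ℂ) * v n := by
  have key : (lp.evalCLM ℂ (fun _ : ℤ => ℂ) 2 (n + 1)) ∘L S =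
      ((om (n + 1) / om n : ℝ) : ℂ) • (lp.evalCLM ℂ (fun _ : ℤ => ℂ) 2 n) := by
    apply extH
    intro k
    show (S (e k)) (n + 1) = ((om (n + 1) / om n : ℝ) : ℂ) * (e k : H) n
    rw [S_e ho hS k]
    show ((om (k + 1) / om k : ℝ) : ℂ) * (e (k + 1) : H) (n + 1) = _
    rw [e_apply, e_apply]
    by_cases hkn : n = k
    · subst hkn; simp
    · rw [if_neg (by omega), if_neg hkn]; simp
  exact DFunLike.congr_fun key v

theorem blk_i1 (A B D : H →L[ℂ] H) (x : H) : blk A B 0 D (i1 x) = i1 (A x) := by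
  have h1 : p1 (i1 x) = x := rfl
  have h2 : p2 (i1 x) = 0 := rfl
  simp [blk, h1, h2]

theorem blk_i2 (A B D : H →L[ℂ] H) (x : H) : blk A B 0 D (i2 x) = i1 (B x) + i2 (D x) := by
  have h1 : p1 (i2 x) = 0 := rfl
  have h2 : p2 (i2 x) = x := rfl
  simp [blk, h1, h2]

/-- `Rt T = c T Rt` -/
theorem rot_rel (hb : S_BLK) {om l : ℤ → ℝ} {S X : H →L[ℂ] H} (ho : IsOm om)
    (hS : IsShift om S) (hX : IsX om l X) {c : ℂ} (hc : ‖c‖ = 1) {Rt : K2 →L[ℂ] K2}
    (hR : IsRot c Rt) : Rt * blk S X 0 S = c • (blk S X 0 S * Rt) := by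
  have hc0 : c ≠ 0 := by
    intro h; rw [h] at hc; simp at hc
  apply extK hb
  · intro n
    show Rt (blk S X 0 S (i1 (e n))) = c • blk S X 0 S (Rt (i1 (e n)))
    rw [blk_i1, (hR n).1, map_smul, blk_i1, S_e ho hS, map_smul, map_smul, (hR (n + 1)).1,
      smul_smul, smul_smul, smul_smul]
    congr 1
    rw [zpow_add_one₀ hc0]
    ring
  · intro n
    show Rt (blk S X 0 S (i2 (e n))) = c • blk S X 0 S (Rt (i2 (e n)))
    rw [blk_i2, (hR n).2, map_smul, blk_i2, S_e ho hS, X_e ho hX, map_add, map_smul, map_smul,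
      map_smul, map_smul, (hR (n + 1)).1, (hR (n + 1)).2]
    simp only [smul_add, smul_smul]
    rw [zpow_add_one₀ hc0]
    congr 2 <;> ring

theorem pow_comm_smul {R : Type*} [Ring R] [Algebra ℂ R] {a t : R} {c : ℂ}
    (h : a * t = c • (t * a)) (n : ℕ) : a ^ n * t = c ^ n • (t * a ^ n) := by
  induction n with
  | zero => simp
  | succ n ih =>
    calc a ^ (n + 1) * t = a ^ n * (a * t) := by rw [pow_succ]; noncomm_ring
      _ = c • ((a ^ n * t) * a) := by rw [h, mul_smul_comm]; congr 1; noncomm_ring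
      _ = c ^ (n + 1) • (t * a ^ (n + 1)) := by
        rw [ih, smul_mul_assoc, smul_smul, ← pow_succ', pow_succ a]
        congr 1
        noncomm_ring


theorem norm_unitary_le {U : K2 →L[ℂ] K2} (hU : U ∈ unitary (K2 →L[ℂ] K2)) : ‖U‖ ≤ 1 :=
  ContinuousLinearMap.opNorm_le_bound _ zero_le_one fun x => by
    rw [ContinuousLinearMap.norm_map_of_mem_unitary hU, one_mul]

theorem conj_pow' (Y : (K2 →L[ℂ] K2)ˣ) (U : K2 →L[ℂ] K2) (n : ℕ) :
    (Y.1 * U * Y.inv) ^ n = Y.1 * U ^ n * Y.inv := by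
  induction n with
  | zero => simp
  | succ n ih =>
    rw [pow_succ, ih, pow_succ]
    calc Y.1 * U ^ n * Y.inv * (Y.1 * U * Y.inv)
        = Y.1 * U ^ n * (Y.inv * Y.1) * U * Y.inv := by noncomm_ring
      _ = _ := by rw [Y.inv_val]; noncomm_ring

theorem main (hBL : S_BL) (hOBL : S_OBL) (hEV1 : S_EV1) (hEV2 : S_EV2) (hCOM : S_COM)
    (hCPT : S_CPT) (hBLK : S_BLK) {om l : ℤ → ℝ} {S X : H →L[ℂ] H} (ho : IsOm om)
    (hl : IsEll l) (hS : IsShift om S) (hX : IsX om l X) {c : ℂ} {Rt : K2 →L[ℂ] K2}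
    (hc : ‖c‖ = 1) (hR : IsRot c Rt) (hRu : Rt ∈ unitary (K2 →L[ℂ] K2))
    (Y : (K2 →L[ℂ] K2)ˣ) (U : K2 →L[ℂ] K2) (hU : U ∈ unitary (K2 →L[ℂ] K2))
    (hA : (Y.1 * U * Y.inv) * blk S X 0 S = c • (blk S X 0 S * (Y.1 * U * Y.inv))) :
    ∃ (lam : ℂ) (h : K2 →L[ℂ] K2) (m : ℤ), ‖lam‖ = 1 ∧ h * blk S X 0 S = blk S X 0 S * h ∧
    (Y.1 * U * Y.inv) * h = lam • (h * Rt) ∧ ((p1 ∘L h ∘L i1) (e 0)) m ≠ 0 := by
  obtain ⟨Lam, hLam⟩ := hBL
  set T := blk S X 0 S with hT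
  set A := Y.1 * U * Y.inv with hAdef
  clear_value A
  have hc0 : c ≠ 0 := by
    intro h; rw [h] at hc; simp at hc
  have hRT : Rt * T = c • (T * Rt) := rot_rel hBLK ho hS hX hc hR
  have hRs : star Rt * Rt = 1 := (Unitary.mem_iff.1 hRu).1
  have hRs' : Rt * star Rt = 1 := (Unitary.mem_iff.1 hRu).2
  have hRsT : star Rt * T = c⁻¹ • (T * star Rt) := by
    have h1 : T * star Rt = c • (star Rt * T) := by
      calc T * star Rt = star Rt * (Rt * T) * star Rt := by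
            rw [← mul_assoc, hRs, one_mul]
        _ = c • (star Rt * T * (Rt * star Rt)) := by
            rw [hRT, mul_smul_comm, smul_mul_assoc]
            congr 1
        _ = _ := by rw [hRs', mul_one]
    rw [h1, smul_smul, inv_mul_cancel₀ hc0, one_smul]
  -- the operators `F n`
  obtain ⟨F, hFd⟩ : ∃ F : ℕ → (K2 →L[ℂ] K2), ∀ n, F n = A ^ n * (star Rt) ^ n :=
    ⟨_, fun _ => rfl⟩
  set M : ℝ := ‖Y.1‖ * ‖Y.inv‖ with hM
  have hM0 : 0 ≤ M := by positivity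
  have hFn : ∀ n, ‖F n‖ ≤ M := by
    intro n
    have h1 : ‖U ^ n‖ ≤ 1 := norm_unitary_le (pow_mem hU n)
    have h2 : ‖(star Rt) ^ n‖ ≤ 1 := norm_unitary_le (pow_mem (Unitary.star_mem hRu) n)
    have h3 : F n = Y.1 * U ^ n * Y.inv * (star Rt) ^ n := by
      rw [hFd, hAdef, conj_pow']
    rw [h3]
    calc ‖Y.1 * U ^ n * Y.inv * (star Rt) ^ n‖
        ≤ ‖Y.1‖ * ‖U ^ n‖ * ‖Y.inv‖ * ‖(star Rt) ^ n‖ := by
          refine (norm_mul_le _ _).trans ?_
          gcongr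
          refine (norm_mul_le _ _).trans ?_
          gcongr
          exact norm_mul_le _ _
      _ ≤ ‖Y.1‖ * 1 * ‖Y.inv‖ * 1 := by gcongr
      _ = M := by rw [hM]; ring
  have hFT : ∀ n, F n * T = T * F n := by
    intro n
    rw [hFd, mul_assoc, pow_comm_smul hRsT n, mul_smul_comm, ← mul_assoc, pow_comm_smul hA n,
      smul_mul_assoc, smul_smul, ← mul_pow, inv_mul_cancel₀ hc0, one_pow, one_smul, mul_assoc]
  have hup : ∀ C : K2 →L[ℂ] K2, C * T = T * C → C (i1 (e 0)) = i1 ((p1 ∘L C ∘L i1) (e 0)) := by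
    intro C hC
    have h1 := (hCOM om l S X ho hl hS hX C hC).1
    have h2 : p2 (C (i1 (e 0))) = 0 := DFunLike.congr_fun h1 (e 0)
    obtain ⟨-, -, -, -, -, -, -, -, hx, -⟩ := hBLK
    have h3 := hx (C (i1 (e 0)))
    rw [h2, map_zero, add_zero] at h3
    exact h3.symm
  -- the vector `x`
  set x : K2 := Y.inv (i1 (e 0)) with hx
  have hYY : ∀ v, Y.1 (Y.inv v) = v := fun v => DFunLike.congr_fun Y.val_inv v
  have hYY' : ∀ v, Y.inv (Y.1 v) = v := fun v => DFunLike.congr_fun Y.inv_val v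
  have he0 : (e 0 : H) ≠ 0 := by
    intro h
    have h1 : (e 0 : H) 0 = 0 := by rw [h]; rfl
    rw [e_apply] at h1
    simp at h1
  have hx0 : x ≠ 0 := by
    intro h
    have h1 : Y.1 x = i1 (e 0) := hYY _
    rw [h, map_zero] at h1
    have h2 : p1 (i1 (e 0)) = e 0 := rfl
    rw [← h1, map_zero] at h2
    exact he0 h2.symm
  have hRe : Rt (i1 (e 0)) = i1 (e 0) := by
    have := (hR 0).1
    rwa [zpow_zero, one_smul] at this
  have hRse : ∀ n : ℕ, ((star Rt) ^ n) (i1 (e 0)) = i1 (e 0) := by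
    intro n
    induction n with
    | zero => simp
    | succ n ih =>
      rw [pow_succ]
      show ((star Rt) ^ n) ((star Rt) (i1 (e 0))) = i1 (e 0)
      have h1 : (star Rt) (Rt (i1 (e 0))) = i1 (e 0) := DFunLike.congr_fun hRs (i1 (e 0))
      rw [hRe] at h1
      rw [h1, ih]
  have hFe : ∀ n : ℕ, Y.inv (F n (i1 (e 0))) = (U ^ n) x := by
    intro n
    rw [hFd]
    show Y.inv ((A ^ n) (((star Rt) ^ n) (i1 (e 0)))) = (U ^ n) x
    rw [hRse, hAdef, conj_pow']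
    show Y.inv (Y.1 ((U ^ n) (Y.inv (i1 (e 0))))) = (U ^ n) x
    rw [hYY']
  have hFe' : ∀ n : ℕ, F n (i1 (e 0)) = i1 ((p1 ∘L F n ∘L i1) (e 0)) := fun n =>
    hup _ (hFT n)
  have hcp : ∀ ε > 0, ∃ Q : K2 →L[ℂ] K2, IsCompactOperator Q ∧
      ∀ n : ℕ, ‖(U ^ n) x - Q ((U ^ n) x)‖ ≤ ε := by
    intro ε hε
    set C : ℝ := ‖Y.inv‖ * (‖i1‖ * (‖p1‖ * (M * ‖i1‖))) with hC
    have hC0 : 0 ≤ C := by positivity
    obtain ⟨Q, hQc, hQ⟩ := hCPT om S ho hS (ε / (C + 1)) (by positivity)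
    refine ⟨Y.inv ∘L i1 ∘L Q ∘L p1 ∘L Y.1, ?_, ?_⟩
    · have h1 : IsCompactOperator (Q ∘L (p1 ∘L Y.1)) := hQc.comp_clm (p1 ∘L Y.1)
      exact h1.clm_comp (Y.inv ∘L i1)
    · intro n
      set G := p1 ∘L F n ∘L i1 with hG
      have hGS : G * S = S * G := (hCOM om l S X ho hl hS hX (F n) (hFT n)).2.2
      have hGn : ‖G‖ ≤ ‖p1‖ * (M * ‖i1‖) := by
        refine (ContinuousLinearMap.opNorm_comp_le _ _).trans ?_
        gcongr
        refine (ContinuousLinearMap.opNorm_comp_le _ _).trans ?_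
        gcongr
        exact hFn n
      have h1 : (U ^ n) x = Y.inv (i1 (G (e 0))) := by
        rw [← hFe, hFe' n]
      have h2 : (Y.inv ∘L i1 ∘L Q ∘L p1 ∘L Y.1) ((U ^ n) x) = Y.inv (i1 (Q (G (e 0)))) := by
        rw [h1]
        show Y.inv (i1 (Q (p1 (Y.1 (Y.inv (i1 (G (e 0)))))))) = _
        rw [hYY]
        rfl
      rw [h2, h1, ← map_sub, ← map_sub]
      calc ‖Y.inv (i1 (G (e 0) - Q (G (e 0))))‖
          ≤ ‖Y.inv‖ * (‖i1‖ * ‖G (e 0) - Q (G (e 0))‖) := by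
            refine (ContinuousLinearMap.le_opNorm _ _).trans ?_
            gcongr
            exact ContinuousLinearMap.le_opNorm _ _
        _ ≤ ‖Y.inv‖ * (‖i1‖ * (ε / (C + 1) * (‖p1‖ * (M * ‖i1‖)))) := by
            gcongr
            refine (hQ G hGS).trans ?_
            gcongr
        _ = ε * (C / (C + 1)) := by rw [hC]; ring
        _ ≤ ε * 1 := by
            gcongr
            rw [div_le_one (by positivity)]
            linarith
        _ = ε := mul_one _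
  obtain ⟨P, hPc, hPs, hPU, hPx⟩ := hEV1 K2 U hU x hx0 hcp
  obtain ⟨lam, z, hlam, hUz, hzx⟩ := hEV2 K2 U P hU hPc hPs hPU x hPx
  have hll : lam * conj lam = 1 := by
    rw [Complex.mul_conj, Complex.normSq_eq_norm_sq, hlam]; simp
  have hll' : conj lam * lam = 1 := by rw [mul_comm, hll]
  have hzU : ∀ v, ⟪z, U v⟫_ℂ = lam * ⟪z, v⟫_ℂ := by
    intro v
    have h1 := ContinuousLinearMap.inner_map_map_of_mem_unitary hU z v
    rw [hUz, inner_smul_left] at h1
    rw [← h1, ← mul_assoc, hll, one_mul]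
  have hzUn : ∀ (n : ℕ) (v : K2), ⟪z, (U ^ n) v⟫_ℂ = lam ^ n * ⟪z, v⟫_ℂ := by
    intro n
    induction n with
    | zero => intro v; simp
    | succ n ih =>
      intro v
      rw [pow_succ]
      show ⟪z, (U ^ n) (U v)⟫_ℂ = _
      rw [ih, hzU, pow_succ]
      ring
  obtain ⟨Z, hZd⟩ : ∃ Z : ℕ → (K2 →L[ℂ] K2), ∀ n, Z n = (conj lam) ^ n • F n :=
    ⟨_, fun _ => rfl⟩
  have hZn : ∀ n, ‖Z n‖ ≤ M := by
    intro n
    rw [hZd, norm_smul, norm_pow, RCLike.norm_conj, hlam, one_pow, one_mul]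
    exact hFn n
  obtain ⟨h0, -, hh0⟩ := hOBL Lam hLam K2 Z M hZn
  obtain ⟨-, hL2, -, hL4, hL5, -, -⟩ := hLam
  have hBd : ∀ y v : K2, Bd (fun n => ⟪y, Z n v⟫_ℂ) := by
    intro y v
    refine ⟨‖y‖ * (M * ‖v‖), fun n => ?_⟩
    refine (norm_inner_le_norm _ _).trans ?_
    gcongr
    refine (ContinuousLinearMap.le_opNorm _ _).trans ?_
    gcongr
    exact hZn n
  have hZT : ∀ n v, Z n (T v) = T (Z n v) := by
    intro n v
    have h1 := DFunLike.congr_fun (hFT n) v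
    rw [mul_apply_eq_comp, mul_apply_eq_comp] at h1
    rw [hZd, smul_apply, smul_apply, map_smul, h1]
  have hcomm : h0 * T = T * h0 := by
    refine ContinuousLinearMap.ext fun v => ext_inner_left ℂ fun y => ?_
    show ⟪y, h0 (T v)⟫_ℂ = ⟪y, T (h0 v)⟫_ℂ
    rw [hh0, ← ContinuousLinearMap.adjoint_inner_left, hh0]
    congr 1
    funext n
    rw [ContinuousLinearMap.adjoint_inner_left, hZT]
  have hAZ : ∀ n v, A (Z n v) = lam • Z (n + 1) (Rt v) := by
    intro n v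
    have h1 : A * F n = F (n + 1) * Rt := by
      have e1 : A * F n = A ^ (n + 1) * (star Rt) ^ n := by
        rw [hFd, ← mul_assoc, ← pow_succ']
      have e2 : F (n + 1) * Rt = A ^ (n + 1) * (star Rt) ^ n := by
        rw [hFd, pow_succ (star Rt) n, mul_assoc, mul_assoc, hRs, mul_one]
      rw [e1, e2]
    have h2 := DFunLike.congr_fun h1 v
    rw [mul_apply_eq_comp, mul_apply_eq_comp] at h2
    rw [hZd, hZd, smul_apply, smul_apply, map_smul, h2,
      smul_smul]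
    congr 1
    rw [pow_succ', ← mul_assoc, hll, one_mul]
  have hAh : A * h0 = lam • (h0 * Rt) := by
    refine ContinuousLinearMap.ext fun v => ext_inner_left ℂ fun y => ?_
    show ⟪y, A (h0 v)⟫_ℂ = ⟪y, lam • h0 (Rt v)⟫_ℂ
    rw [inner_smul_right, hh0, ← ContinuousLinearMap.adjoint_inner_left, hh0]
    rw [← hL4 (fun n => ⟪y, Z n (Rt v)⟫_ℂ) (hBd y (Rt v))]
    have hB : Bd (fun n => ⟪y, Z (n + 1) (Rt v)⟫_ℂ) := by
      obtain ⟨M', hM'⟩ := hBd y (Rt v)
      exact ⟨M', fun n => hM' (n + 1)⟩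
    rw [← hL2 lam _ hB]
    congr 1
    funext n
    rw [ContinuousLinearMap.adjoint_inner_left, hAZ, inner_smul_right]
  have hne : ⟪ContinuousLinearMap.adjoint Y.inv z, h0 (i1 (e 0))⟫_ℂ = ⟪z, x⟫_ℂ := by
    rw [hh0]
    have h1 : (fun n => ⟪ContinuousLinearMap.adjoint Y.inv z, Z n (i1 (e 0))⟫_ℂ) =
        fun _ => ⟪z, x⟫_ℂ := by
      funext n
      rw [ContinuousLinearMap.adjoint_inner_left, hZd, smul_apply, map_smul, hFe, inner_smul_right, hzUn, ← mul_assoc, ← mul_pow, hll', one_pow, one_mul]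
    rw [h1, hL5]
  have hv : h0 (i1 (e 0)) ≠ 0 := by
    intro h
    rw [h, inner_zero_right] at hne
    exact hzx hne.symm
  have hw : (p1 ∘L h0 ∘L i1) (e 0) ≠ 0 := by
    intro h
    rw [hup h0 hcomm, h, map_zero] at hv
    exact hv rfl
  have hm : ∃ m, ((p1 ∘L h0 ∘L i1) (e 0)) m ≠ 0 := by
    by_contra hcon
    push Not at hcon
    apply hw
    apply lp.ext
    funext m
    exact hcon m
  obtain ⟨m, hm⟩ := hm
  exact ⟨lam, h0, m, hlam, hcomm, hAh, hm⟩

end TSTEP1A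

open TSTEP1A in
theorem t_STEP1A : S_BL → S_OBL → S_EV1 → S_EV2 → S_COM → S_CPT → S_SINV → S_BLK →
    S_STEP1A := by
  intro hBL hOBL hEV1 hEV2 hCOM hCPT hSINV hBLK om l S X ho hl hS hX c Rt hc hR hRu Y U hU hA
  obtain ⟨lam, h, m, hmain⟩ := main hBL hOBL hEV1 hEV2 hCOM hCPT hBLK ho hl hS hX hc hR hRu Y U
    hU hA
  have hc0 : c ≠ 0 := by
    intro h; rw [h] at hc; simp at hc
  have hSu : IsUnit S := (hSINV om S ho hS).1
  have hup : ∀ C : K2 →L[ℂ] K2, C * blk S X 0 S = blk S X 0 S * C →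
      C (i1 (e 0)) = i1 ((p1 ∘L C ∘L i1) (e 0)) := by
    intro C hC
    have h1 := (hCOM om l S X ho hl hS hX C hC).1
    have h2 : p2 (C (i1 (e 0))) = 0 := DFunLike.congr_fun h1 (e 0)
    obtain ⟨-, -, -, -, -, -, -, -, hx, -⟩ := hBLK
    have h3 := hx (C (i1 (e 0)))
    rw [h2, map_zero, add_zero] at h3
    exact h3.symm
  have hTu : IsUnit (blk S X 0 S) := by
    obtain ⟨-, -, -, -, -, -, hu, -⟩ := hBLK
    exact hu S X hSu
  obtain ⟨Tu, hTu⟩ := hTu
  obtain ⟨Su, hSu⟩ := hSu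
  set A := Y.1 * U * Y.inv with hAdef
  let P : ℤ → Prop := fun m => ∃ (lam : ℂ) (h : K2 →L[ℂ] K2), ‖lam‖ = 1 ∧
    h * blk S X 0 S = blk S X 0 S * h ∧ A * h = lam • (h * Rt) ∧ ((p1 ∘L h ∘L i1) (e 0)) m ≠ 0
  have hfac : ∀ m : ℤ, ((om (m + 1) / om m : ℝ) : ℂ) ≠ 0 := by
    intro m
    have := (div_pos (ho.1 (m + 1)) (ho.1 m)).ne'
    exact_mod_cast this
  have hPu : ∀ m, P m → P (m + 1) := by
    rintro m ⟨lam, h, hlam, hcomm, hAh, hm⟩
    refine ⟨c * lam, blk S X 0 S * h, by rw [norm_mul, hc, hlam, one_mul], ?_, ?_, ?_⟩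
    · rw [mul_assoc, hcomm]
    · rw [← mul_assoc, hA, smul_mul_assoc, mul_assoc, hAh, mul_smul_comm, smul_smul, mul_assoc]
    · have h1 : (p1 ∘L (blk S X 0 S * h) ∘L i1) (e 0) = S ((p1 ∘L h ∘L i1) (e 0)) := by
        show p1 (blk S X 0 S (h (i1 (e 0)))) = _
        rw [hup h hcomm, blk_i1]
        rfl
      rw [h1, S_coord ho hS]
      exact mul_ne_zero (hfac m) hm
  have hPd : ∀ m, P (m + 1) → P m := by
    rintro m ⟨lam, h, hlam, hcomm, hAh, hm⟩
    have hT1 : Tu.inv * blk S X 0 S = 1 := by rw [← hTu]; exact Tu.inv_val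
    have hT2 : blk S X 0 S * Tu.inv = 1 := by rw [← hTu]; exact Tu.val_inv
    refine ⟨c⁻¹ * lam, Tu.inv * h, by rw [norm_mul, norm_inv, hc, hlam]; simp, ?_, ?_, ?_⟩
    · rw [mul_assoc, hcomm, ← mul_assoc, hT1, ← mul_assoc, hT2]
    · have h1 : A * Tu.inv = c⁻¹ • (Tu.inv * A) := by
        have h2 : Tu.inv * A = c • (A * Tu.inv) := by
          calc Tu.inv * A = Tu.inv * (A * blk S X 0 S) * Tu.inv := by
                rw [mul_assoc, mul_assoc A, hT2, mul_one]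
            _ = c • ((Tu.inv * blk S X 0 S) * A * Tu.inv) := by
                rw [hA, mul_smul_comm, smul_mul_assoc]
                congr 1
            _ = _ := by rw [hT1, one_mul]
        rw [h2, smul_smul, inv_mul_cancel₀ hc0, one_smul]
      rw [← mul_assoc, h1, smul_mul_assoc, mul_assoc, hAh, mul_smul_comm, smul_smul, mul_assoc]
    · have h1 : (p1 ∘L (Tu.inv * h) ∘L i1) (e 0) = Su.inv ((p1 ∘L h ∘L i1) (e 0)) := by
        show p1 (Tu.inv (h (i1 (e 0)))) = _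
        rw [hup h hcomm]
        set w := (p1 ∘L h ∘L i1) (e 0) with hw
        have h3 : S (Su.inv w) = w := by
          rw [← hSu]
          exact DFunLike.congr_fun Su.val_inv w
        have h4 : blk S X 0 S (i1 (Su.inv w)) = i1 w := by rw [blk_i1, h3]
        have h5 : Tu.inv (i1 w) = i1 (Su.inv w) := by
          rw [← h4]
          exact DFunLike.congr_fun hT1 _
        rw [h5]
        rfl
      have h3 : S (Su.inv ((p1 ∘L h ∘L i1) (e 0))) = (p1 ∘L h ∘L i1) (e 0) := by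
        rw [← hSu]
        exact DFunLike.congr_fun Su.val_inv _
      rw [h1]
      intro h0
      apply hm
      rw [← h3, S_coord ho hS, h0, mul_zero]
  have hP0 : ∀ m, P m → P 0 := by
    intro m
    induction m using Int.induction_on with
    | zero => exact id
    | succ n ih => exact fun h => ih (hPd _ h)
    | pred n ih =>
      intro h
      apply ih
      have := hPu _ h
      rwa [sub_add_cancel] at this
  exact hP0 m ⟨lam, h, hmain⟩

end

end Pool.Agent.W268.UB
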