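import Pool.Agent.W268.UB.Stm

namespace Pool.Agent.W268.UB

open MeasureTheory Complex Filter Topology
open scoped ComplexConjugate InnerProductSpace

noncomputable section

namespace TSTEP1B

theorem ext_e {K : Type*} [NormedAddCommGroup K] [NormedSpace ℂ K] {A B : H →L[ℂ] K}
    (h : ∀ n, A (e n) = B (e n)) : A = B := by
  refine ContinuousLinearMap.ext fun x => ?_
  have hs : HasSum (fun n : ℤ => lp.single 2 n (x n)) x := lp.hasSum_single (by norm_num) x
  have h1 := hs.mapL A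
  have h2 := hs.mapL B
  have h3 : (fun n : ℤ => A (lp.single 2 n (x n))) = fun n : ℤ => B (lp.single 2 n (x n)) := by
    funext n
    have h4 : (lp.single 2 n (x n) : H) = (x n) • e n := by
      rw [e, ← lp.single_smul]; simp
    rw [h4, map_smul, map_smul, h n]
  rw [h3] at h1
  exact h1.unique h2

theorem inner_e (n : ℤ) (x : H) : ⟪e n, x⟫_ℂ = x n := by
  rw [e, lp.inner_single_left]
  simp

theorem e_apply (k j : ℤ) : (e k : H) j = if j = k then 1 else 0 := by
  rw [e]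
  by_cases h : j = k
  · subst h
    simp
  · rw [if_neg h]
    simp [lp.single_apply, Pi.single_apply, h]

theorem i1p1 (x : K2) : i1 (p1 x) + i2 (p2 x) = x := by
  have := congrArg (fun A : K2 →L[ℂ] K2 => A x) sum_ip
  simpa using this

theorem p1i1 (x : H) : p1 (i1 x) = x := by
  have := congrArg (fun A : H →L[ℂ] H => A x) p1_i1
  simpa using this
theorem p2i2 (x : H) : p2 (i2 x) = x := by
  have := congrArg (fun A : H →L[ℂ] H => A x) p2_i2
  simpa using this
theorem p1i2 (x : H) : p1 (i2 x) = 0 := by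
  have := congrArg (fun A : H →L[ℂ] H => A x) p1_i2
  simpa using this
theorem p2i1 (x : H) : p2 (i1 x) = 0 := by
  have := congrArg (fun A : H →L[ℂ] H => A x) p2_i1
  simpa using this

theorem ext_K2 {A B : K2 →L[ℂ] K2} (h1 : ∀ n, A (i1 (e n)) = B (i1 (e n)))
    (h2 : ∀ n, A (i2 (e n)) = B (i2 (e n))) : A = B := by
  have e1 : A ∘L i1 = B ∘L i1 := ext_e (fun n => by simpa using h1 n)
  have e2 : A ∘L i2 = B ∘L i2 := ext_e (fun n => by simpa using h2 n)
  refine ContinuousLinearMap.ext fun x => ?_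
  rw [← i1p1 x, map_add, map_add]
  have a1 := congrArg (fun A : H →L[ℂ] K2 => A (p1 x)) e1
  have a2 := congrArg (fun A : H →L[ℂ] K2 => A (p2 x)) e2
  simp only [ContinuousLinearMap.comp_apply] at a1 a2
  rw [a1, a2]

theorem blk_apply (A B C D : H →L[ℂ] H) (x : K2) :
    blk A B C D x = i1 (A (p1 x)) + i1 (B (p2 x)) + i2 (C (p1 x)) + i2 (D (p2 x)) := rfl

theorem rot_T {om l : ℤ → ℝ} {S X : H →L[ℂ] H} (hom : IsOm om) (hS : IsShift om S)
    (hX : IsX om l X) {c : ℂ} {Rt : K2 →L[ℂ] K2} (hc : c ≠ 0) (hR : IsRot c Rt) :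
    Rt * blk S X 0 S = c • (blk S X 0 S * Rt) := by
  have hE : ∀ n, e n = ((om n : ℝ) : ℂ)⁻¹ • E om n := by
    intro n
    have h0 : ((om n : ℝ) : ℂ) ≠ 0 := by exact_mod_cast (hom.1 n).ne'
    rw [E, smul_smul, inv_mul_cancel₀ h0, one_smul]
  have hRE1 : ∀ n, Rt (i1 (E om n)) = c ^ n • i1 (E om n) := by
    intro n
    rw [E, map_smul, map_smul, (hR n).1, smul_comm]
  have hRE2 : ∀ n, Rt (i2 (E om n)) = c ^ n • i2 (E om n) := by
    intro n
    rw [E, map_smul, map_smul, (hR n).2, smul_comm]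
  apply ext_K2
  · intro n
    rw [hE n, map_smul, map_smul, map_smul]
    congr 1
    show Rt (blk S X 0 S (i1 (E om n))) = c • (blk S X 0 S (Rt (i1 (E om n))))
    rw [hRE1 n, map_smul, blk_apply, p1i1, p2i1]
    simp only [map_zero, add_zero, ContinuousLinearMap.zero_apply]
    rw [hS n, hRE1, smul_smul, zpow_add_one₀ hc, mul_comm]
  · intro n
    rw [hE n, map_smul, map_smul, map_smul]
    congr 1
    show Rt (blk S X 0 S (i2 (E om n))) = c • (blk S X 0 S (Rt (i2 (E om n))))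
    rw [hRE2 n, map_smul, blk_apply, p1i2, p2i2]
    simp only [map_zero, add_zero, zero_add, ContinuousLinearMap.zero_apply]
    rw [hS n, hX n, map_add, map_smul, map_smul, hRE1, hRE2, smul_add, smul_add, smul_smul,
      smul_smul, smul_smul, smul_smul, zpow_add_one₀ hc]
    congr 1
    · congr 1; ring
    · congr 1; ring

end TSTEP1B

open TSTEP1B

theorem t_STEP1B : S_BL → S_OBL → S_COM → S_SCOM → S_BLK → S_STEP1B := by
  intro hBL hOBL hCOM hSCOM hBLK om l S X hom hl hS hX c Rt hc hRot hRtU Y U hU hAT lam h hlam hhT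
    hAh hne
  obtain ⟨Lam, hLam⟩ := hBL
  have hLam0 := hLam
  obtain ⟨L1, L2, L3, L4, L5, -, -⟩ := hLam
  have hc0 : c ≠ 0 := by
    intro h0
    have := hc.1
    rw [h0, norm_zero] at this
    exact zero_ne_one this
  have hl0 : lam ≠ 0 := by
    intro h0
    rw [h0, norm_zero] at hlam
    exact zero_ne_one hlam
  set T : K2 →L[ℂ] K2 := blk S X 0 S with hT
  set A : K2 →L[ℂ] K2 := Y.1 * U * Y.inv with hA
  set B : K2 →L[ℂ] K2 := Y.1 * star U * Y.inv with hB
  have hRT : Rt * T = c • (T * Rt) := rot_T hom hS hX hc0 hRot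
  have hYY : Y.inv * Y.1 = 1 := Y.inv_val
  have hYY' : Y.1 * Y.inv = 1 := Y.val_inv
  have hUU : star U * U = 1 := (Unitary.mem_iff.mp hU).1
  have hUU' : U * star U = 1 := (Unitary.mem_iff.mp hU).2
  have hRR : star Rt * Rt = 1 := (Unitary.mem_iff.mp hRtU).1
  have hRR' : Rt * star Rt = 1 := (Unitary.mem_iff.mp hRtU).2
  have hAB : A * B = 1 := by
    calc A * B = Y.1 * U * (Y.inv * Y.1) * star U * Y.inv := by rw [hA, hB]; noncomm_ring
      _ = Y.1 * (U * star U) * Y.inv := by rw [hYY]; noncomm_ring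
      _ = 1 := by rw [hUU', mul_one, hYY']
  have hBA : B * A = 1 := by
    calc B * A = Y.1 * star U * (Y.inv * Y.1) * U * Y.inv := by rw [hA, hB]; noncomm_ring
      _ = Y.1 * (star U * U) * Y.inv := by rw [hYY]; noncomm_ring
      _ = 1 := by rw [hUU, mul_one, hYY']
  -- powers of B
  have hBn : ∀ n : ℕ, B ^ n = Y.1 * (star U) ^ n * Y.inv := by
    intro n
    induction n with
    | zero => rw [pow_zero, pow_zero, mul_one, hYY']
    | succ n ih =>
      rw [pow_succ, ih, hB]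
      calc Y.1 * star U ^ n * Y.inv * (Y.1 * star U * Y.inv)
          = Y.1 * star U ^ n * (Y.inv * Y.1) * star U * Y.inv := by noncomm_ring
        _ = _ := by rw [hYY, mul_one, pow_succ]; noncomm_ring
  clear_value A B
  have hBT : B * T = c⁻¹ • (T * B) := by
    have h1 : B * (A * T) * B = c • (B * (T * A) * B) := by
      rw [hAT, mul_smul_comm, smul_mul_assoc]
    have h2 : B * (A * T) * B = T * B := by
      rw [← mul_assoc, hBA, one_mul]
    have h3 : B * (T * A) * B = B * T := by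
      rw [mul_assoc, mul_assoc, hAB, mul_one]
    rw [h2, h3] at h1
    rw [h1, smul_smul, inv_mul_cancel₀ hc0, one_smul]
  have hBnT : ∀ n : ℕ, B ^ n * T = (c⁻¹) ^ n • (T * B ^ n) := by
    intro n
    induction n with
    | zero => simp
    | succ n ih =>
      rw [pow_succ', mul_assoc, ih, mul_smul_comm, ← mul_assoc, hBT, smul_mul_assoc, smul_smul,
        mul_assoc, ← pow_succ]
  have hRnT : ∀ n : ℕ, Rt ^ n * T = c ^ n • (T * Rt ^ n) := by
    intro n
    induction n with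
    | zero => simp
    | succ n ih =>
      rw [pow_succ', mul_assoc, ih, mul_smul_comm, ← mul_assoc, hRT, smul_mul_assoc, smul_smul,
        mul_assoc, ← pow_succ]
  let G : ℕ → K2 →L[ℂ] K2 := fun n => lam ^ n • (Rt ^ n * B ^ n)
  have hGT : ∀ n, G n * T = T * G n := by
    intro n
    simp only [G]
    have h1 : Rt ^ n * B ^ n * T = T * (Rt ^ n * B ^ n) := by
      rw [mul_assoc, hBnT, mul_smul_comm, ← mul_assoc, hRnT, smul_mul_assoc, smul_smul,
        ← mul_pow, inv_mul_cancel₀ hc0, one_pow, one_smul, mul_assoc]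
    rw [smul_mul_assoc, h1, mul_smul_comm]
  have hGs : ∀ n, G (n + 1) * A = lam • (Rt * G n) := by
    intro n
    simp only [G]
    have h1 : Rt ^ (n + 1) * B ^ (n + 1) * A = Rt * (Rt ^ n * B ^ n) := by
      rw [mul_assoc, pow_succ B, mul_assoc (B ^ n), hBA, mul_one, pow_succ' Rt, mul_assoc]
    rw [smul_mul_assoc, h1, mul_smul_comm, smul_smul, pow_succ' lam]
  -- norm bound
  have hRtn : ∀ n : ℕ, Rt ^ n ∈ unitary (K2 →L[ℂ] K2) := fun n => pow_mem hRtU n
  have hUn : ∀ n : ℕ, (star U) ^ n ∈ unitary (K2 →L[ℂ] K2) :=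
    fun n => pow_mem (Unitary.star_mem hU) n
  have hGM : ∀ n, ‖G n‖ ≤ ‖Y.1‖ * ‖Y.inv‖ := by
    intro n
    simp only [G]
    rw [norm_smul, norm_pow, hlam, one_pow, one_mul]
    have h1 : ‖Rt ^ n * B ^ n‖ = ‖B ^ n‖ := CStarRing.norm_mem_unitary_mul _ (hRtn n)
    rw [h1, hBn, mul_assoc]
    refine (norm_mul_le _ _).trans ?_
    have h2 : ‖star U ^ n * Y.inv‖ = ‖Y.inv‖ := CStarRing.norm_mem_unitary_mul _ (hUn n)
    rw [h2]
  obtain ⟨k0, hk0M, hk0⟩ := hOBL Lam hLam0 K2 G _ hGM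
  have bd : ∀ y x : K2, Bd (fun n => ⟪y, G n x⟫_ℂ) := by
    intro y x
    refine ⟨‖y‖ * (‖Y.1‖ * ‖Y.inv‖ * ‖x‖), fun n => ?_⟩
    refine (norm_inner_le_norm _ _).trans ?_
    refine mul_le_mul_of_nonneg_left ?_ (norm_nonneg _)
    exact ((G n).le_opNorm x).trans (mul_le_mul_of_nonneg_right (hGM n) (norm_nonneg _))
  have hk0T : k0 * T = T * k0 := by
    refine ContinuousLinearMap.ext fun x => ?_
    refine ext_inner_left ℂ fun y => ?_
    show ⟪y, k0 (T x)⟫_ℂ = ⟪y, T (k0 x)⟫_ℂ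
    rw [hk0, ← ContinuousLinearMap.adjoint_inner_left T, hk0]
    congr 1
    funext n
    rw [ContinuousLinearMap.adjoint_inner_left]
    have := congrArg (fun A : K2 →L[ℂ] K2 => A x) (hGT n)
    exact congrArg (fun z => ⟪y, z⟫_ℂ) this
  have hk0A : k0 * A = lam • (Rt * k0) := by
    refine ContinuousLinearMap.ext fun x => ?_
    refine ext_inner_left ℂ fun y => ?_
    show ⟪y, k0 (A x)⟫_ℂ = ⟪y, lam • Rt (k0 x)⟫_ℂ
    rw [hk0, inner_smul_right, ← ContinuousLinearMap.adjoint_inner_left Rt, hk0,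
      ← L4 _ (bd y (A x)), ← L2 lam _ (bd _ x)]
    congr 1
    funext n
    rw [ContinuousLinearMap.adjoint_inner_left, ← inner_smul_right]
    have := congrArg (fun A : K2 →L[ℂ] K2 => A x) (hGs n)
    exact congrArg (fun z => ⟪y, z⟫_ℂ) this
  -- commutants
  obtain ⟨hk1, hk2, hk3⟩ := hCOM om l S X hom hl hS hX k0 hk0T
  obtain ⟨hh1, hh2, hh3⟩ := hCOM om l S X hom hl hS hX h hhT
  set Kk : H →L[ℂ] H := p1 ∘L k0 ∘L i1 with hKk
  set F : H →L[ℂ] H := p1 ∘L h ∘L i1 with hF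
  obtain ⟨hcom, -⟩ := hSCOM om S hom hS F Kk hh3 hk3
  have hdiag := (hSCOM om S hom hS F F hh3 hh3).2
  -- B^n h
  have hBh : B * h = lam⁻¹ • (h * star Rt) := by
    have h1 : B * (A * h) * star Rt = lam • (B * (h * Rt) * star Rt) := by
      rw [hAh, mul_smul_comm, smul_mul_assoc]
    have h2 : B * (A * h) * star Rt = h * star Rt := by
      rw [← mul_assoc, hBA, one_mul]
    have h3 : B * (h * Rt) * star Rt = B * h := by
      rw [mul_assoc, mul_assoc, hRR', mul_one]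
    rw [h2, h3] at h1
    rw [h1, smul_smul, inv_mul_cancel₀ hl0, one_smul]
  have hBnh : ∀ n : ℕ, B ^ n * h = (lam⁻¹) ^ n • (h * star Rt ^ n) := by
    intro n
    induction n with
    | zero => simp
    | succ n ih =>
      rw [pow_succ', mul_assoc, ih, mul_smul_comm, ← mul_assoc, hBh, smul_mul_assoc, smul_smul,
        mul_assoc, ← pow_succ, ← pow_succ']
  have hGh : ∀ n, G n * h = Rt ^ n * h * star Rt ^ n := by
    intro n
    simp only [G]
    rw [smul_mul_assoc, mul_assoc, hBnh, mul_smul_comm, smul_smul, ← mul_pow,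
      mul_inv_cancel₀ hl0, one_pow, one_smul, mul_assoc]
  -- eigenvectors
  have hq0 : ∀ j : ℤ, c ^ j ≠ 0 := fun j => zpow_ne_zero j hc0
  have hqn : ∀ j : ℤ, ‖c ^ j‖ = 1 := fun j => by rw [norm_zpow, hc.1, one_zpow]
  have hs1 : ∀ j : ℤ, (star Rt) (i1 (e j)) = (c ^ j)⁻¹ • i1 (e j) := by
    intro j
    have h1 : (star Rt) (Rt (i1 (e j))) = i1 (e j) := by
      have := congrArg (fun A : K2 →L[ℂ] K2 => A (i1 (e j))) hRR
      exact this
    rw [(hRot j).1, map_smul] at h1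
    calc (star Rt) (i1 (e j)) = (c ^ j)⁻¹ • (c ^ j • (star Rt) (i1 (e j))) := by
          rw [smul_smul, inv_mul_cancel₀ (hq0 j), one_smul]
      _ = _ := by rw [h1]
  have hsn : ∀ (j : ℤ) (n : ℕ), (star Rt ^ n) (i1 (e j)) = ((c ^ j)⁻¹) ^ n • i1 (e j) := by
    intro j n
    induction n with
    | zero => simp
    | succ n ih =>
      rw [pow_succ']
      show (star Rt) ((star Rt ^ n) (i1 (e j))) = _
      rw [ih, map_smul, hs1, smul_smul, pow_succ]
  have hin : ∀ (j : ℤ) (n : ℕ) (y : K2), ⟪i1 (e j), (Rt ^ n) y⟫_ℂ = (c ^ j) ^ n * ⟪i1 (e j), y⟫_ℂ := by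
    intro j n
    induction n with
    | zero => intro y; simp
    | succ n ih =>
      intro y
      rw [pow_succ]
      show ⟪i1 (e j), (Rt ^ n) (Rt y)⟫_ℂ = _
      rw [ih, ← ContinuousLinearMap.adjoint_inner_left Rt]
      have h1 : (ContinuousLinearMap.adjoint Rt) (i1 (e j)) = (c ^ j)⁻¹ • i1 (e j) := hs1 j
      rw [h1, inner_smul_left]
      have h2 : (starRingEnd ℂ) ((c ^ j)⁻¹) = c ^ j := by
        rw [Complex.inv_eq_conj (hqn j), Complex.conj_conj]
      rw [h2, pow_succ]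
      ring
  have hval : ∀ (j k : ℤ) (n : ℕ), ⟪i1 (e j), G n (h (i1 (e k)))⟫_ℂ =
      (c ^ j * (c ^ k)⁻¹) ^ n * ⟪i1 (e j), h (i1 (e k))⟫_ℂ := by
    intro j k n
    have h1 : G n (h (i1 (e k))) = (Rt ^ n) (h ((star Rt ^ n) (i1 (e k)))) := by
      have := congrArg (fun A : K2 →L[ℂ] K2 => A (i1 (e k))) (hGh n)
      exact this
    rw [h1, hsn, map_smul, map_smul, inner_smul_right, hin, mul_pow]
    ring
  -- Banach limit of the matrix entries
  have hadj : ∀ (x : H) (z : K2), ⟪i1 x, z⟫_ℂ = ⟪x, p1 z⟫_ℂ := by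
    intro x z
    have h1 : ContinuousLinearMap.adjoint i1 = p1 := hBLK.2.2.2.2.1
    rw [← h1, ContinuousLinearMap.adjoint_inner_right]
  have hFe : ∀ j k : ℤ, ⟪i1 (e j), h (i1 (e k))⟫_ℂ = (F (e k)) j := by
    intro j k
    rw [hadj, inner_e]
    rfl
  have hD : ∀ j k : ℤ, (p1 (k0 (h (i1 (e k))))) j = if j = k then (F (e 0)) 0 else 0 := by
    intro j k
    rw [← inner_e j, ← hadj, hk0]
    simp only [hval, hFe]
    split_ifs with hjk
    · subst hjk
      have h1 : (fun n : ℕ => (c ^ j * (c ^ j)⁻¹) ^ n * (F (e j)) j) = fun _ => (F (e 0)) 0 := by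
        funext n
        rw [mul_inv_cancel₀ (hq0 j), one_pow, one_mul, hdiag]
      rw [h1, L5]
    · set Q : ℂ := c ^ j * (c ^ k)⁻¹ with hQ
      have hQ1 : Q ≠ 1 := by
        rw [hQ, ← zpow_neg, ← zpow_add₀ hc0]
        exact hc.2 _ (by omega)
      have hQn : ‖Q‖ = 1 := by
        rw [hQ, norm_mul, norm_inv, hqn, hqn]; norm_num
      have hbd : Bd (fun n : ℕ => Q ^ n * (F (e k)) j) :=
        ⟨‖(F (e k)) j‖, fun n => by rw [norm_mul, norm_pow, hQn, one_pow, one_mul]⟩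
      have h1 := L4 _ hbd
      have h2 := L2 Q _ hbd
      have h3 : (fun n : ℕ => Q ^ (n + 1) * (F (e k)) j) =
          fun n : ℕ => Q * (Q ^ n * (F (e k)) j) := by
        funext n
        rw [pow_succ]; ring
      simp only [h3] at h1
      rw [h2] at h1
      have h4 : (Q - 1) * Lam (fun n : ℕ => Q ^ n * (F (e k)) j) = 0 := by
        rw [sub_mul, h1, one_mul, sub_self]
      exact (mul_eq_zero.mp h4).resolve_left (sub_ne_zero.mpr hQ1)
  have hKF : Kk * F = (F (e 0)) 0 • (1 : H →L[ℂ] H) := by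
    apply ext_e
    intro k
    have h1 : h (i1 (e k)) = i1 (F (e k)) := by
      have h2 : p2 (h (i1 (e k))) = 0 := by
        have := congrArg (fun A : H →L[ℂ] H => A (e k)) hh1
        exact this
      have h3 := i1p1 (h (i1 (e k)))
      rw [h2, map_zero, add_zero] at h3
      rw [← h3]
      rfl
    have h4 : (Kk * F) (e k) = p1 (k0 (h (i1 (e k)))) := by
      rw [h1]; rfl
    rw [h4]
    ext j
    rw [hD j k]
    show _ = ((F (e 0)) 0 • (e k)) j
    rw [lp.coeFn_smul, Pi.smul_apply, e_apply]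
    split_ifs with hjk
    · simp
    · simp
  have hKu : IsUnit Kk := by
    have hne' : (F (e 0)) 0 ≠ 0 := hne
    refine ⟨⟨Kk, ((F (e 0)) 0)⁻¹ • F, ?_, ?_⟩, rfl⟩
    · rw [mul_smul_comm, hKF, smul_smul, inv_mul_cancel₀ hne', one_smul]
    · rw [smul_mul_assoc, hcom, hKF, smul_smul, inv_mul_cancel₀ hne', one_smul]
  have hk0u : IsUnit k0 := by
    have h1 := hBLK.2.2.1 k0
    rw [hk1, ← hk2] at h1
    rw [h1]
    exact hBLK.2.2.2.2.2.2.1 _ _ hKu
  obtain ⟨k, hk⟩ := hk0u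
  exact ⟨k, by rw [hk]; exact hk0T, by rw [hk]; exact hk0A⟩

end

end Pool.Agent.W268.UB
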