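import Pool.Agent.W268.UB.Stm

/-! Project UB (owner helper268), part STEP2. -/

set_option autoImplicit false

namespace Pool.Agent.W268.UB

open MeasureTheory Complex Filter Topology
open scoped ComplexConjugate InnerProductSpace

namespace TSTEP2

theorem e_norm (n : ℤ) : ‖e n‖ = 1 := by
  unfold e
  rw [lp.norm_single (by norm_num)]
  exact norm_one

theorem op_ext {A B : H →L[ℂ] H} (h : ∀ n, A (e n) = B (e n)) : A = B := by
  ext1 x
  have hs := lp.hasSum_single (p := 2) (E := fun _ : ℤ => ℂ) (by norm_num) x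
  have h1 : ∀ i, (lp.single 2 i (x i) : H) = (x i) • e i := by
    intro i
    unfold e
    rw [← lp.single_smul, smul_eq_mul, mul_one]
  have hA := A.hasSum hs
  have hB := B.hasSum hs
  have h2 : (fun i => A (lp.single 2 i (x i) : H)) = fun i => B (lp.single 2 i (x i) : H) := by
    funext i
    rw [h1, map_smul, map_smul, h]
  have hA' : HasSum (fun i => B (lp.single 2 i (x i) : H)) (A x) := h2 ▸ hA
  exact hA'.unique hB

theorem diag_bd {A : H →L[ℂ] H} {v : ℤ → ℂ} (h : ∀ n, A (e n) = v n • e n) (n : ℤ) :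
    ‖v n‖ ≤ ‖A‖ := by
  have h1 := A.le_opNorm (e n)
  rw [h, norm_smul, e_norm, mul_one, mul_one] at h1
  exact h1

/-- the diagonal entries on `E om` -/
theorem diag_E {A : H →L[ℂ] H} {v : ℤ → ℂ} (om : ℤ → ℝ) (h : ∀ n, A (e n) = v n • e n) (n : ℤ) :
    A (E om n) = v n • E om n := by
  unfold E
  rw [map_smul, h, smul_comm]

/-- unbounded at the top end -/
theorem top_ne {l : ℤ → ℝ} {b : ℤ → ℂ} {M : ℝ} (hb : ∀ n, ‖b n‖ ≤ M)
    (hl : Tendsto l atTop atBot) (N : ℤ) :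
    ∃ n, N ≤ n ∧ ((l (n + 1) - l n : ℝ) : ℂ) - (b (n + 1) - b n) ≠ 0 := by
  by_contra hc
  push Not at hc
  have h1 : ∀ n, N ≤ n → ((l n : ℝ) : ℂ) - b n = ((l N : ℝ) : ℂ) - b N := by
    intro n hn
    induction n, hn using Int.leInduction with
    | base => rfl
    | succ n hn ih =>
      rw [← ih]
      have := hc n hn
      push_cast at this
      linear_combination this
  have h2 : ∀ n, N ≤ n → l N - 2 * M ≤ l n := by
    intro n hn
    have h3 : ((l N - l n : ℝ) : ℂ) = b N - b n := by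
      push_cast
      linear_combination -(h1 n hn)
    have h4 : |l N - l n| ≤ 2 * M := by
      have h5 : ‖((l N - l n : ℝ) : ℂ)‖ = |l N - l n| := by
        rw [Complex.norm_real, Real.norm_eq_abs]
      rw [← h5, h3]
      calc ‖b N - b n‖ ≤ ‖b N‖ + ‖b n‖ := norm_sub_le _ _
        _ ≤ 2 * M := by linarith [hb N, hb n]
    linarith [(abs_le.1 h4).2]
  obtain ⟨n, hn1, hn2⟩ := ((hl.eventually (eventually_lt_atBot (l N - 2 * M))).and
    (eventually_ge_atTop N)).exists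
  linarith [h2 n hn2]

theorem bot_ne {l : ℤ → ℝ} {b : ℤ → ℂ} {M : ℝ} (hb : ∀ n, ‖b n‖ ≤ M)
    (hl : Tendsto l atBot atBot) (N : ℤ) :
    ∃ n, n ≤ N ∧ ((l (n + 1) - l n : ℝ) : ℂ) - (b (n + 1) - b n) ≠ 0 := by
  by_contra hc
  push Not at hc
  have h1 : ∀ n, n ≤ N → ((l n : ℝ) : ℂ) - b n = ((l N : ℝ) : ℂ) - b N := by
    intro n hn
    induction n, hn using Int.leInductionDown with
    | base => rfl
    | pred n hn ih =>
      rw [← ih]
      have := hc (n - 1) (by omega)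
      rw [sub_add_cancel] at this
      push_cast at this
      linear_combination -this
  have h2 : ∀ n, n ≤ N → l N - 2 * M ≤ l n := by
    intro n hn
    have h3 : ((l N - l n : ℝ) : ℂ) = b N - b n := by
      push_cast
      linear_combination -(h1 n hn)
    have h4 : |l N - l n| ≤ 2 * M := by
      have h5 : ‖((l N - l n : ℝ) : ℂ)‖ = |l N - l n| := by
        rw [Complex.norm_real, Real.norm_eq_abs]
      rw [← h5, h3]
      calc ‖b N - b n‖ ≤ ‖b N‖ + ‖b n‖ := norm_sub_le _ _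
        _ ≤ 2 * M := by linarith [hb N, hb n]
    linarith [(abs_le.1 h4).2]
  obtain ⟨n, hn1, hn2⟩ := ((hl.eventually (eventually_lt_atBot (l N - 2 * M))).and
    (eventually_le_atBot N)).exists
  linarith [h2 n hn2]

/-- `C' = Z0^{-1} Z` commutes with `T` -/
theorem comm_of {R : Type*} [Ring R] (q z0 : Rˣ) (Z T t : R)
    (h1 : q.1 * Z * T = t * Z) (h0 : q.1 * z0.1 * T = t * z0.1) :
    (z0.inv * Z) * T = T * (z0.inv * Z) := by
  have e0 : z0.1 * T * z0.inv = q.inv * t := by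
    have : q.inv * (q.1 * z0.1 * T) * z0.inv = q.inv * (t * z0.1) * z0.inv := by rw [h0]
    calc z0.1 * T * z0.inv = q.inv * (q.1 * z0.1 * T) * z0.inv := by
          have : q.inv * q.1 = 1 := q.inv_val
          calc z0.1 * T * z0.inv = 1 * (z0.1 * T) * z0.inv := by rw [one_mul]
            _ = (q.inv * q.1) * (z0.1 * T) * z0.inv := by rw [this]
            _ = _ := by noncomm_ring
      _ = q.inv * (t * z0.1) * z0.inv := this
      _ = q.inv * t * (z0.1 * z0.inv) := by noncomm_ring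
      _ = q.inv * t := by rw [z0.val_inv, mul_one]
  have e1 : Z * T = q.inv * t * Z := by
    calc Z * T = (q.inv * q.1) * (Z * T) := by rw [q.inv_val, one_mul]
      _ = q.inv * (q.1 * Z * T) := by noncomm_ring
      _ = q.inv * (t * Z) := by rw [h1]
      _ = q.inv * t * Z := by noncomm_ring
  calc (z0.inv * Z) * T = z0.inv * (Z * T) := by rw [mul_assoc]
    _ = z0.inv * (q.inv * t * Z) := by rw [e1]
    _ = z0.inv * (z0.1 * T * z0.inv * Z) := by rw [e0]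
    _ = (z0.inv * z0.1) * T * (z0.inv * Z) := by noncomm_ring
    _ = T * (z0.inv * Z) := by rw [z0.inv_val, one_mul]

/-- the operators commuting with `T` are upper triangular -/
theorem upper (hBLK : S_BLK) (hCOM : S_COM) {om l : ℤ → ℝ} {S X : H →L[ℂ] H} (hom : IsOm om)
    (hl : IsEll l) (hS : IsShift om S) (hX : IsX om l X) (C : K2 →L[ℂ] K2)
    (hC : C * blk S X 0 S = blk S X 0 S * C) :
    C = blk (p1 ∘L C ∘L i1) (p1 ∘L C ∘L i2) 0 (p1 ∘L C ∘L i1) := by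
  obtain ⟨a1, a2, -⟩ := hCOM om l S X hom hl hS hX C hC
  have h := hBLK.2.2.1 C
  rw [a1, ← a2] at h
  exact h

theorem upper_unit (hBLK : S_BLK) (hCOM : S_COM) {om l : ℤ → ℝ} {S X : H →L[ℂ] H} (hom : IsOm om)
    (hl : IsEll l) (hS : IsShift om S) (hX : IsX om l X) (cu : (K2 →L[ℂ] K2)ˣ)
    (hC : cu.1 * blk S X 0 S = blk S X 0 S * cu.1) : IsUnit (p1 ∘L cu.1 ∘L i1) := by
  have hC' : cu.inv * blk S X 0 S = blk S X 0 S * cu.inv := by
    calc cu.inv * blk S X 0 S = cu.inv * blk S X 0 S * (cu.1 * cu.inv) := by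
          rw [cu.val_inv, mul_one]
      _ = cu.inv * (blk S X 0 S * cu.1) * cu.inv := by noncomm_ring
      _ = cu.inv * (cu.1 * blk S X 0 S) * cu.inv := by rw [hC]
      _ = (cu.inv * cu.1) * (blk S X 0 S * cu.inv) := by noncomm_ring
      _ = _ := by rw [cu.inv_val, one_mul]
  have u1 := upper hBLK hCOM hom hl hS hX cu.1 hC
  have u2 := upper hBLK hCOM hom hl hS hX cu.inv hC'
  obtain ⟨bmul, bent, -, bone, -⟩ := hBLK
  obtain ⟨F, hF⟩ : ∃ F, F = p1 ∘L cu.1 ∘L i1 := ⟨_, rfl⟩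
  obtain ⟨G, hG⟩ : ∃ G, G = p1 ∘L cu.1 ∘L i2 := ⟨_, rfl⟩
  obtain ⟨F', hF'⟩ : ∃ F, F = p1 ∘L cu.inv ∘L i1 := ⟨_, rfl⟩
  obtain ⟨G', hG'⟩ : ∃ G, G = p1 ∘L cu.inv ∘L i2 := ⟨_, rfl⟩
  rw [← hF, ← hG] at u1
  rw [← hF', ← hG'] at u2
  rw [← hF]
  have e1 : F * F' = 1 := by
    have h : blk F G 0 F * blk F' G' 0 F' = blk 1 0 0 1 := by
      rw [← u1, ← u2, bone]; exact cu.val_inv
    rw [bmul, mul_zero, add_zero] at h
    have h2 := congrArg (fun Q => p1 ∘L Q ∘L i1) h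
    simp only [(bent _ _ _ _).1] at h2
    exact h2
  have e2 : F' * F = 1 := by
    have h : blk F' G' 0 F' * blk F G 0 F = blk 1 0 0 1 := by
      rw [← u1, ← u2, bone]; exact cu.inv_val
    rw [bmul, mul_zero, add_zero] at h
    have h2 := congrArg (fun Q => p1 ∘L Q ∘L i1) h
    simp only [(bent _ _ _ _).1] at h2
    exact h2
  exact ⟨⟨F, F', e1, e2⟩, rfl⟩

theorem vz {R : Type*} [Ring R] [StarRing R] (Y : Rˣ) (U : R) (hU : U * star U = 1) :
    (Y.1 * U * Y.inv) * (Y.1 * star Y.1) * star (Y.1 * U * Y.inv) = Y.1 * star Y.1 := by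
  have h1 : star Y.1 * star Y.inv = 1 := by rw [← star_mul, Y.inv_val, star_one]
  rw [star_mul, star_mul]
  calc Y.1 * U * Y.inv * (Y.1 * star Y.1) * (star Y.inv * (star U * star Y.1))
      = Y.1 * U * (Y.inv * Y.1) * (star Y.1 * star Y.inv) * star U * star Y.1 := by noncomm_ring
    _ = Y.1 * (U * star U) * star Y.1 := by
        rw [Y.inv_val, h1]; noncomm_ring
    _ = Y.1 * star Y.1 := by rw [hU, mul_one]

theorem one_sub_blk (hBLK : S_BLK) (r : ℂ) (S X : H →L[ℂ] H) :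
    1 - r • blk S X 0 S = blk (1 - r • S) (-(r • X)) 0 (1 - r • S) := by
  rw [← hBLK.2.2.2.1]
  ext1 x
  simp only [blk, ContinuousLinearMap.sub_apply, ContinuousLinearMap.add_apply,
    ContinuousLinearMap.smul_apply, ContinuousLinearMap.comp_apply, ContinuousLinearMap.zero_apply,
    ContinuousLinearMap.one_apply, ContinuousLinearMap.neg_apply, map_sub, map_neg, map_smul,
    map_zero, smul_add, smul_zero, add_zero]
  abel

end TSTEP2

theorem t_STEP2 : S_OMR → S_LX → S_SINV → S_COM → S_BLK → S_ALG → S_WDIAG → S_VCOM → S_VPOS →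
    S_DIAGEX → S_WZ → S_RING12 → S_ENT12 → S_ENT13 → S_STEP2 := by
  intro hOMR hLX hSINV hCOM hBLK hALG hWDIAG hVCOM hVPOS hDIAGEX hWZ hRING12 hENT12 hENT13
  intro om l S X hom hl hS hX c Rt hc hRt hRtu Y U0 U1 lam hU0 hU1 hlam hY r W0 E0 hr0 hr1 hW0
    h0 h1
  have hrn : ‖(r : ℂ)‖ < 1 := by
    rw [Complex.norm_real, Real.norm_eq_abs, abs_of_pos hr0]; exact hr1
  have hrS : IsUnit (1 - (r : ℂ) • S) := (hSINV om S hom hS).2.1 (r : ℂ) hrn
  have hq : IsUnit (1 - (r : ℂ) • blk S X 0 S) := by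
    rw [TSTEP2.one_sub_blk hBLK]
    exact hBLK.2.2.2.2.2.2.1 _ _ hrS
  obtain ⟨q, hq⟩ := hq
  obtain ⟨z0, hz0⟩ := hBLK.2.2.2.2.2.2.1 W0 E0 hW0
  have hUm := (Unitary.mem_iff.1 hU1)
  obtain ⟨zu, hzu⟩ : ∃ zu : (K2 →L[ℂ] K2)ˣ, zu.1 = Y.1 * U1 * Y.inv :=
    ⟨Y * ⟨U1, star U1, hUm.2, hUm.1⟩ * Y⁻¹, rfl⟩
  rw [← hzu] at h1
  -- `C' = Z0⁻¹ Z`
  have hC : (z0.inv * zu.1) * blk S X 0 S = blk S X 0 S * (z0.inv * zu.1) := by
    refine TSTEP2.comm_of q z0 zu.1 (blk S X 0 S) (blk S X 0 S - (r : ℂ) • 1) ?_ ?_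
    · rw [hq]; exact h1
    · rw [hq, hz0]; exact h0
  have hCu : (z0⁻¹ * zu).1 = z0.inv * zu.1 := rfl
  have hup := TSTEP2.upper hBLK hCOM hom hl hS hX (z0.inv * zu.1) hC
  have hFu := TSTEP2.upper_unit hBLK hCOM hom hl hS hX (z0⁻¹ * zu) hC
  rw [hCu] at hFu
  obtain ⟨F, hF⟩ : ∃ F, F = p1 ∘L (z0.inv * zu.1) ∘L i1 := ⟨_, rfl⟩
  obtain ⟨G, hG⟩ : ∃ G, G = p1 ∘L (z0.inv * zu.1) ∘L i2 := ⟨_, rfl⟩
  rw [← hF, ← hG] at hup
  rw [← hF] at hFu
  have hA : IsUnit (W0 * F) := hW0.mul hFu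
  obtain ⟨A, hAd⟩ : ∃ A, A = W0 * F := ⟨_, rfl⟩
  obtain ⟨E1, hE1d⟩ : ∃ E1, E1 = W0 * G + E0 * F := ⟨_, rfl⟩
  rw [← hAd] at hA
  have hZ : zu.1 = blk A E1 0 A := by
    have h2 : zu.1 = z0.1 * (z0.inv * zu.1) := by rw [← mul_assoc, z0.val_inv, one_mul]
    rw [h2, hup, hz0, hBLK.1, hAd, hE1d]
    simp only [mul_zero, add_zero, zero_mul, zero_add]
  -- the form `V`
  obtain ⟨V, hVd⟩ : ∃ V, V = Y.1 * ContinuousLinearMap.adjoint Y.1 := ⟨_, rfl⟩
  have hZV : zu.1 * V * ContinuousLinearMap.adjoint zu.1 = V := by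
    rw [hzu, hVd]
    exact TSTEP2.vz Y U1 hUm.2
  have hVR : V * Rt = Rt * V := by
    rw [hVd]
    exact hVCOM Rt Y U0 lam hRtu hU0 hlam hY
  obtain ⟨⟨v12, hv12⟩, ⟨v22, hv22⟩⟩ := hWDIAG c Rt hc hRt V hVR
  obtain ⟨ka, hka, hvp⟩ := hVPOS Y
  rw [← hVd] at hvp
  have hvp := hvp v22 hv22
  obtain ⟨ga, hga⟩ : ∃ ga : ℤ → ℝ, ga = fun n => (v22 n).re := ⟨_, rfl⟩
  have hv22' : ∀ n, v22 n = ((ga n : ℝ) : ℂ) := by
    intro n
    rw [hga]
    apply Complex.ext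
    · simp
    · simp [(hvp n).1]
  have hgk : ∀ n, ka ≤ ga n := fun n => by rw [hga]; exact (hvp n).2.1
  have hgp : ∀ n, 0 < ga n := fun n => hka.trans_le (hgk n)
  have hv0 : ∀ n, v22 n ≠ 0 := by
    intro n
    rw [hv22']
    exact_mod_cast (hgp n).ne'
  have hvi : ∀ n, ‖(v22 n)⁻¹‖ ≤ 1 / ka := by
    intro n
    rw [norm_inv, hv22', Complex.norm_real, Real.norm_eq_abs, abs_of_pos (hgp n), one_div]
    exact inv_anti₀ hka (hgk n)
  obtain ⟨V', hV', -⟩ := hDIAGEX (fun n => (v22 n)⁻¹) (1 / ka) hvi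
  obtain ⟨W12, hW12⟩ : ∃ W, W = p1 ∘L V ∘L i2 := ⟨_, rfl⟩
  obtain ⟨W22, hW22⟩ : ∃ W, W = p2 ∘L V ∘L i2 := ⟨_, rfl⟩
  rw [← hW12] at hv12
  rw [← hW22] at hv22
  have hi1 : W22 * V' = 1 := by
    refine TSTEP2.op_ext fun n => ?_
    rw [ContinuousLinearMap.mul_apply, hV', map_smul, hv22, smul_smul, inv_mul_cancel₀ (hv0 n),
      one_smul, ContinuousLinearMap.one_apply]
  have hi2 : V' * W22 = 1 := by
    refine TSTEP2.op_ext fun n => ?_
    rw [ContinuousLinearMap.mul_apply, hv22, map_smul, hV', smul_smul, mul_inv_cancel₀ (hv0 n),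
      one_smul, ContinuousLinearMap.one_apply]
  have hwz := hWZ zu.1 V A E1 V' hA hZ hZV
  rw [← hW12, ← hW22] at hwz
  obtain ⟨hAW, hE1⟩ := hwz hi1 hi2
  have hBn : ∀ n, (W12 * V') (e n) = (v12 n * (v22 n)⁻¹) • e n := by
    intro n
    rw [ContinuousLinearMap.mul_apply, hV', map_smul, hv12, smul_smul, mul_comm]
  obtain ⟨B, hB⟩ : ∃ B, B = W12 * V' := ⟨_, rfl⟩
  rw [← hB] at hBn hE1
  obtain ⟨b, hb⟩ : ∃ b : ℤ → ℂ, b = fun n => v12 n * (v22 n)⁻¹ := ⟨_, rfl⟩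
  have hBn' : ∀ n, B (e n) = b n • e n := by rw [hb]; exact hBn
  have hbb := TSTEP2.diag_bd hBn'
  rw [hZ] at h1
  obtain ⟨hr11, hr12⟩ := hRING12 (r : ℂ) A E1 B S X hE1 h1
  obtain ⟨hR11, hne, hent⟩ := hENT12 om S hom hS (r : ℂ) A hr11
  obtain ⟨d, hd⟩ : ∃ d : ℤ → ℂ, d = fun n => ((l (n + 1) - l n : ℝ) : ℂ) - (b (n + 1) - b n) :=
    ⟨_, rfl⟩
  have hX' : ∀ n, (X - (B * S - S * B)) (E om n) = d n • E om (n + 1) := by
    intro n
    rw [ContinuousLinearMap.sub_apply, ContinuousLinearMap.sub_apply,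
      ContinuousLinearMap.mul_apply, ContinuousLinearMap.mul_apply, hX n, hS n,
      TSTEP2.diag_E om hBn', TSTEP2.diag_E om hBn', map_smul, hS n, hd]
    simp only [sub_smul]
  have rel12 := hent _ d hX' hr12
  have rel13 := hENT13 om S hom hS r A W22 ga hA hrS ⟨⟨W22, V', hi1, hi2⟩, rfl⟩ hgp
    (fun n => by rw [hv22, hv22']) hAW hr11
  obtain ⟨hlt, hlb, -⟩ := hLX l hl
  obtain ⟨-, -, -, -, hot, hob⟩ := hOMR om hom
  have hgl : ∀ n, om n ^ 2 / ga n ≤ om n ^ 2 / ka := fun n =>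
    div_le_div_of_nonneg_left (sq_nonneg _) hka (hgk n)
  have hg0 : ∀ n, 0 < om n ^ 2 / ga n := fun n => div_pos (pow_pos (hom.1 n) 2) (hgp n)
  refine hALG r (ent om A) d (fun n => om n ^ 2 / ga n) hr0.ne' ?_ hR11 (hne hA) ?_ ?_ hg0 ?_ ?_
    rel12 rel13
  · nlinarith
  · rw [hd]; exact TSTEP2.top_ne hbb hlt
  · rw [hd]; exact TSTEP2.bot_ne hbb hlb
  · refine squeeze_zero (fun n => (hg0 n).le) hgl ?_
    have := (hot.pow 2).div_const ka
    simpa using this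
  · refine squeeze_zero (fun n => (hg0 n).le) hgl ?_
    have := (hob.pow 2).div_const ka
    simpa using this

end Pool.Agent.W268.UB
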