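import Pool.Agent.W268.UB.Stm

/-!
Project UB, part UBD.
-/

set_option autoImplicit false

namespace Pool.Agent.W268.UB

open MeasureTheory Complex Filter Topology
open scoped ComplexConjugate InnerProductSpace

namespace TUBD

theorem fc_mul_zn (f : C(Circle, ℂ)) (m n : ℤ) : fc (f * zn m) n = fc f (n - m) := by
  unfold fc
  refine integral_congr_ae (Filter.Eventually.of_forall fun z => ?_)
  have hz : (z : ℂ) ≠ 0 := Circle.coe_ne_zero z
  change f z * (z : ℂ) ^ m * (z : ℂ) ^ (-n) = f z * (z : ℂ) ^ (-(n - m))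
  rw [mul_assoc, ← zpow_add₀ hz]
  congr 2
  ring

theorem conj_fc (a : Dsc) (k : ℤ) : conj (fc (uf a) k) = fc (uf a) (-k) := by
  unfold fc
  rw [← integral_conj]
  refine integral_congr_ae (Filter.Eventually.of_forall fun z => ?_)
  change conj (((Real.log (pk a z) : ℝ) : ℂ) * (z : ℂ) ^ (-k)) =
    ((Real.log (pk a z) : ℝ) : ℂ) * (z : ℂ) ^ (-(-k))
  rw [map_mul, Complex.conj_ofReal, map_zpow₀, ← Circle.coe_inv_eq_conj, Circle.coe_inv,
    inv_zpow', neg_neg]

theorem norm_fc_le (hU : S_UFC) (a : Dsc) (j : ℤ) (hj : j ≠ 0) :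
    ‖fc (uf a) j‖ ≤ 1 / |(j : ℝ)| := by
  have ha : ‖a.1‖ ≤ 1 := a.2.le
  obtain ⟨n, rfl | rfl⟩ := j.eq_nat_or_neg
  · have hn : 0 < n := by
      rcases Nat.eq_zero_or_pos n with h | h
      · subst h; exact absurd rfl hj
      · exact h
    rw [(hU a n hn).1, norm_div, norm_pow, RCLike.norm_conj, Complex.norm_natCast, Int.cast_natCast,
      Nat.abs_cast]
    exact div_le_div_of_nonneg_right (pow_le_one₀ (norm_nonneg _) ha) (by positivity)
  · have hn : 0 < n := by
      rcases Nat.eq_zero_or_pos n with h | h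
      · subst h; exact absurd (by simp) hj
      · exact h
    rw [(hU a n hn).2, norm_div, norm_pow, Complex.norm_natCast, Int.cast_neg, Int.cast_natCast,
      abs_neg, Nat.abs_cast]
    exact div_le_div_of_nonneg_right (pow_le_one₀ (norm_nonneg _) ha) (by positivity)

theorem ent_M (hJD : S_JD) {om : ℤ → ℝ} {J : C(Circle, ℂ) →L[ℂ] H} (hom : IsOm om)
    (hJ : IsJ om J) (a : Dsc) (M : H →L[ℂ] H) (hM : ∀ f, M (J f) = J (uf a * f)) (n m : ℤ) :
    (M (e m)) n = ((om n / om m : ℝ) : ℂ) * fc (uf a) (n - m) := by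
  have hm : (om m : ℂ) ≠ 0 := by exact_mod_cast (hom.1 m).ne'
  have h1 : e m = ((om m : ℂ))⁻¹ • J (zn m) := by
    rw [(hJD om J hom hJ).2 m]
    unfold E
    rw [smul_smul, inv_mul_cancel₀ hm, one_smul]
  rw [h1, map_smul, hM, lp.coeFn_smul, Pi.smul_apply, hJ, fc_mul_zn, smul_eq_mul]
  push_cast
  field_simp

theorem ent_adj (M : H →L[ℂ] H) (n m : ℤ) :
    (ContinuousLinearMap.adjoint M (e m)) n = conj ((M (e n)) m) := by
  have h1 : ∀ (k : ℤ) (x : H), ⟪e k, x⟫_ℂ = x k := by
    intro k x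
    unfold e
    rw [lp.inner_single_left]
    simp
  rw [← h1 n, ContinuousLinearMap.adjoint_inner_right, ← inner_conj_symm, h1]

end TUBD

open TUBD in
theorem t_UBD : S_KSUM → S_SCHUR → S_UFC → S_JD → S_UBD := by
  intro hK hS hU hJD om J hom hJ
  obtain ⟨C, hC⟩ := hK om hom
  refine ⟨C, fun a M hM => ?_⟩
  refine hS (kk om) (fun m => 1 / Real.sqrt (1 + |(m : ℝ)|)) C ?_ ?_ ?_ hC _ ?_
  · intro n m
    unfold kk
    by_cases h : n = m
    · rw [if_pos h, if_pos h.symm]
    · rw [if_neg h, if_neg (Ne.symm h), abs_sub_comm (n : ℝ) m, abs_sub_comm (om n / om m)]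
  · intro n m
    unfold kk
    split_ifs
    · exact le_refl _
    · positivity
  · intro n
    positivity
  · intro n m
    have e1 : ((M - ContinuousLinearMap.adjoint M) (e m)) n
        = (M (e m)) n - (ContinuousLinearMap.adjoint M (e m)) n := rfl
    rw [e1, ent_adj, ent_M hJD hom hJ a M hM, ent_M hJD hom hJ a M hM, map_mul, Complex.conj_ofReal,
      conj_fc, neg_sub, ← sub_mul, ← Complex.ofReal_sub, norm_mul, Complex.norm_real,
      Real.norm_eq_abs]
    unfold kk
    by_cases h : n = m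
    · subst h
      rw [if_pos rfl, sub_self, abs_zero, zero_mul]
    · rw [if_neg h, mul_comm]
      refine mul_le_mul_of_nonneg_right ?_ (abs_nonneg _)
      have h1 := norm_fc_le hU a (n - m) (sub_ne_zero.2 h)
      rwa [Int.cast_sub] at h1

end Pool.Agent.W268.UB
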