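import Pool.Agent.W268.UB.Stm

/-!
Project UB, part UFC: Fourier coefficients of the logarithm of the Poisson kernel.
-/

namespace Pool.Agent.W268.UB

open MeasureTheory Complex Filter Topology
open scoped ComplexConjugate InnerProductSpace

noncomputable section

namespace TUFC

/-- termwise functions -/
def F (a : Dsc) (m : ℤ) (j : ℕ) (z : Circle) : ℂ :=
  ((conj a.1) ^ j / j) * (zn (j : ℤ) z * (z : ℂ) ^ (-m)) +
    (a.1 ^ j / j) * (zn (-(j : ℤ)) z * (z : ℂ) ^ (-m))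

theorem cont_zpow (m : ℤ) : Continuous fun z : Circle => (z : ℂ) ^ m := (zn m).continuous

theorem cont_F (a : Dsc) (m : ℤ) (j : ℕ) : Continuous (F a m j) := by
  unfold F
  exact (continuous_const.mul ((zn (j : ℤ)).continuous.mul (cont_zpow (-m)))).add
    (continuous_const.mul ((zn (-(j : ℤ))).continuous.mul (cont_zpow (-m))))

theorem zn_norm (m : ℤ) (z : Circle) : ‖zn m z‖ = 1 := by
  show ‖(z : ℂ) ^ m‖ = 1
  rw [norm_zpow, Circle.norm_coe, one_zpow]

theorem norm_F (a : Dsc) (m : ℤ) (j : ℕ) (z : Circle) : ‖F a m j z‖ ≤ 2 * ‖a.1‖ ^ j := by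
  have h1 : ‖zn (j : ℤ) z * (z : ℂ) ^ (-m)‖ = 1 := by
    rw [norm_mul, zn_norm, norm_zpow, Circle.norm_coe, one_zpow, one_mul]
  have h2 : ‖zn (-(j : ℤ)) z * (z : ℂ) ^ (-m)‖ = 1 := by
    rw [norm_mul, zn_norm, norm_zpow, Circle.norm_coe, one_zpow, one_mul]
  have h3 : ∀ w : ℂ, ‖w‖ = ‖a.1‖ → ‖w ^ j / (j : ℂ)‖ ≤ ‖a.1‖ ^ j := by
    intro w hw
    rw [norm_div, norm_pow, hw, Complex.norm_natCast]
    rcases Nat.eq_zero_or_pos j with hj | hj
    · subst hj
      simp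
    · apply div_le_self (by positivity)
      exact_mod_cast hj
  have h4 := h3 (conj a.1) (RCLike.norm_conj _)
  have h5 := h3 a.1 rfl
  unfold F
  calc ‖((conj a.1) ^ j / j) * (zn (j : ℤ) z * (z : ℂ) ^ (-m)) +
    (a.1 ^ j / j) * (zn (-(j : ℤ)) z * (z : ℂ) ^ (-m))‖
      ≤ ‖((conj a.1) ^ j / j) * (zn (j : ℤ) z * (z : ℂ) ^ (-m))‖ +
        ‖(a.1 ^ j / j) * (zn (-(j : ℤ)) z * (z : ℂ) ^ (-m))‖ := norm_add_le _ _
    _ = ‖(conj a.1) ^ j / (j : ℂ)‖ + ‖a.1 ^ j / (j : ℂ)‖ := by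
        rw [norm_mul ((conj a.1) ^ j / (j : ℂ)) _, h1, norm_mul (a.1 ^ j / (j : ℂ)) _, h2,
          mul_one, mul_one]
    _ ≤ 2 * ‖a.1‖ ^ j := by linarith

theorem conj_coe (z : Circle) : conj (z : ℂ) = (z : ℂ)⁻¹ := by
  rw [← Circle.coe_inv_eq_conj, Circle.coe_inv]

theorem uf_eq (a : Dsc) (m : ℤ) (z : Circle) :
    uf a z * (z : ℂ) ^ (-m) =
      ((Real.log (1 - ‖a.1‖ ^ 2) : ℝ) : ℂ) * (zn 0 z * (z : ℂ) ^ (-m)) + ∑' j, F a m j z := by
  have hw : ‖conj a.1 * (z : ℂ)‖ < 1 := by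
    rw [norm_mul, RCLike.norm_conj, Circle.norm_coe, mul_one]
    exact a.2
  have h1 := Complex.hasSum_taylorSeries_neg_log hw
  have h2 := h1.star
  have h3 := (h1.add h2).mul_right ((z : ℂ) ^ (-m))
  have h4 : HasSum (fun j => F a m j z)
      ((-log (1 - conj a.1 * (z : ℂ)) + star (-log (1 - conj a.1 * (z : ℂ)))) *
        (z : ℂ) ^ (-m)) := by
    refine Eq.subst (motive := fun f => HasSum f ((-log (1 - conj a.1 * (z : ℂ)) +
      star (-log (1 - conj a.1 * (z : ℂ)))) * (z : ℂ) ^ (-m))) (funext ?_) h3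
    intro j
    have e1 : star ((conj a.1 * (z : ℂ)) ^ j / (j : ℂ)) = (a.1 ^ j / j) * (z : ℂ) ^ (-(j : ℤ)) := by
      show conj ((conj a.1 * (z : ℂ)) ^ j / (j : ℂ)) = _
      rw [map_div₀, map_pow, map_mul, Complex.conj_conj, conj_coe, Complex.conj_natCast, mul_pow,
        zpow_neg, zpow_natCast, inv_pow]
      ring
    rw [e1]
    unfold F
    show _ = ((conj a.1) ^ j / j) * ((z : ℂ) ^ (j : ℤ) * (z : ℂ) ^ (-m)) +
      (a.1 ^ j / j) * ((z : ℂ) ^ (-(j : ℤ)) * (z : ℂ) ^ (-m))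
    rw [mul_pow, zpow_natCast (z : ℂ) j]
    ring
  rw [h4.tsum_eq]
  have h5 : (-log (1 - conj a.1 * (z : ℂ)) + star (-log (1 - conj a.1 * (z : ℂ)))) =
      ((-(2 * Real.log ‖1 - conj a.1 * (z : ℂ)‖) : ℝ) : ℂ) := by
    have : star (-log (1 - conj a.1 * (z : ℂ))) = conj (-log (1 - conj a.1 * (z : ℂ))) := rfl
    rw [this, Complex.add_conj, Complex.neg_re, Complex.log_re]
    push_cast
    ring
  rw [h5]
  have h6 : uf a z = ((Real.log (pk a z) : ℝ) : ℂ) := rfl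
  have hpos : 0 < 1 - ‖a.1‖ ^ 2 := by
    have := a.2
    have h0 := norm_nonneg a.1
    nlinarith
  have hne := den_ne a z
  have h7 : Real.log (pk a z) =
      Real.log (1 - ‖a.1‖ ^ 2) - 2 * Real.log ‖1 - conj a.1 * (z : ℂ)‖ := by
    unfold pk
    rw [Real.log_div hpos.ne' (pow_ne_zero 2 (norm_ne_zero_iff.2 hne)), Real.log_pow]
    norm_num
  rw [h6, h7]
  have h8 : zn 0 z = 1 := by
    show (z : ℂ) ^ (0 : ℤ) = 1
    exact zpow_zero _
  rw [h8]
  push_cast
  ring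

theorem fc_uf (hmu : IsProbabilityMeasure mu)
    (hfc : ∀ n m : ℤ, fc (zn n) m = if n = m then 1 else 0) (a : Dsc) (m : ℤ) (hm : m ≠ 0) :
    HasSum (fun j : ℕ => ((conj a.1) ^ j / j) * (if (j : ℤ) = m then 1 else 0) +
      (a.1 ^ j / j) * (if -(j : ℤ) = m then 1 else 0)) (fc (uf a) m) := by
  have hint : ∀ f : Circle → ℂ, Continuous f → Integrable f mu := fun f hf =>
    hf.integrable_of_hasCompactSupport (HasCompactSupport.of_compactSpace f)
  have hint2 : ∀ j, Integrable (F a m j) mu := fun j => hint _ (cont_F a m j)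
  have ha0 : (0 : ℝ) ≤ ‖a.1‖ := norm_nonneg _
  have hsum : Summable fun j => ∫ z, ‖F a m j z‖ ∂mu := by
    refine Summable.of_nonneg_of_le (fun j => integral_nonneg (fun z => norm_nonneg _)) ?_
      ((summable_geometric_of_lt_one ha0 a.2).mul_left 2)
    intro j
    calc ∫ z, ‖F a m j z‖ ∂mu ≤ ∫ _z, 2 * ‖a.1‖ ^ j ∂mu :=
          integral_mono (hint2 j).norm (integrable_const _) (fun z => norm_F a m j z)
      _ = 2 * ‖a.1‖ ^ j := by simp
  have h1 := hasSum_integral_of_summable_integral_norm hint2 hsum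
  have h2 : ∫ z, ∑' j, F a m j z ∂mu = fc (uf a) m := by
    have e1 : fc (uf a) m = ∫ z, (((Real.log (1 - ‖a.1‖ ^ 2) : ℝ) : ℂ) *
        (zn 0 z * (z : ℂ) ^ (-m)) + ∑' j, F a m j z) ∂mu := by
      unfold fc
      apply integral_congr_ae
      filter_upwards with z
      exact uf_eq a m z
    have e2 : ∀ z, ∑' j, F a m j z = uf a z * (z : ℂ) ^ (-m) -
        ((Real.log (1 - ‖a.1‖ ^ 2) : ℝ) : ℂ) * (zn 0 z * (z : ℂ) ^ (-m)) := by
      intro z
      rw [uf_eq a m z]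
      ring
    have e3 : Continuous fun z => ∑' j, F a m j z := by
      have : (fun z => ∑' j, F a m j z) = fun z => uf a z * (z : ℂ) ^ (-m) -
        ((Real.log (1 - ‖a.1‖ ^ 2) : ℝ) : ℂ) * (zn 0 z * (z : ℂ) ^ (-m)) := by
        funext z
        exact e2 z
      rw [this]
      exact ((uf a).continuous.mul (cont_zpow (-m))).sub
        (continuous_const.mul ((zn 0).continuous.mul (cont_zpow (-m))))
    have e7 := integral_add (hint (fun z => ((Real.log (1 - ‖a.1‖ ^ 2) : ℝ) : ℂ) *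
        (zn 0 z * (z : ℂ) ^ (-m))) (continuous_const.mul ((zn 0).continuous.mul (cont_zpow (-m)))))
      (hint (fun z => ∑' j, F a m j z) e3)
    rw [e1]
    refine Eq.trans ?_ e7.symm
    rw [integral_const_mul]
    have e4 : ∫ z, zn 0 z * (z : ℂ) ^ (-m) ∂mu = 0 := by
      have := hfc 0 m
      unfold fc at this
      rw [this, if_neg (Ne.symm hm)]
    rw [e4, mul_zero, zero_add]
  rw [h2] at h1
  refine Eq.subst (motive := fun f => HasSum f (fc (uf a) m)) (funext ?_) h1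
  intro j
  have e5 := hfc (j : ℤ) m
  have e6 := hfc (-(j : ℤ)) m
  unfold fc at e5 e6
  rw [← e5, ← e6]
  have e7 := integral_add (hint (fun z => ((conj a.1) ^ j / j) * (zn (j : ℤ) z * (z : ℂ) ^ (-m)))
      (continuous_const.mul ((zn (j : ℤ)).continuous.mul (cont_zpow (-m)))))
    (hint (fun z => (a.1 ^ j / j) * (zn (-(j : ℤ)) z * (z : ℂ) ^ (-m)))
      (continuous_const.mul ((zn (-(j : ℤ))).continuous.mul (cont_zpow (-m)))))
  rw [integral_const_mul, integral_const_mul] at e7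
  exact e7

end TUFC

theorem t_UFC : S_MU → S_UFC := by
  rintro ⟨hmu, -, -, -, -, hfc⟩ a n hn
  have hn0 : (n : ℤ) ≠ 0 := by exact_mod_cast hn.ne'
  constructor
  · have h1 := TUFC.fc_uf hmu hfc a (n : ℤ) hn0
    have h2 := hasSum_single (f := fun j : ℕ => ((conj a.1) ^ j / j) *
      (if (j : ℤ) = (n : ℤ) then (1 : ℂ) else 0) +
      (a.1 ^ j / j) * (if -(j : ℤ) = (n : ℤ) then 1 else 0)) n (by
        intro j hj
        rw [if_neg (by exact_mod_cast hj), if_neg (by omega)]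
        ring)
    rw [h1.unique h2]
    rw [if_pos rfl, if_neg (by omega)]
    ring
  · have h1 := TUFC.fc_uf hmu hfc a (-(n : ℤ)) (neg_ne_zero.2 hn0)
    have h2 := hasSum_single (f := fun j : ℕ => ((conj a.1) ^ j / j) *
      (if (j : ℤ) = -(n : ℤ) then (1 : ℂ) else 0) +
      (a.1 ^ j / j) * (if -(j : ℤ) = -(n : ℤ) then 1 else 0)) n (by
        intro j hj
        rw [if_neg (by omega), if_neg (by omega)]
        ring)
    rw [h1.unique h2]
    rw [if_neg (by omega), if_pos rfl]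
    ring

end

end Pool.Agent.W268.UB
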