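import Pool.Agent.W268.UB.Stm

/-!
# Project UB, part VCOM
-/

namespace Pool.Agent.W268.UB

theorem t_VCOM : S_VCOM := by
  intro Rt Y U lam hRt hU hlam h
  rw [← ContinuousLinearMap.star_eq_adjoint]
  have h1 : star Rt * Rt = 1 := (Unitary.mem_iff.1 hRt).1
  have h2 : U * star U = 1 := (Unitary.mem_iff.1 hU).2
  have hinv : Y.inv * Y.1 = 1 := Y.inv_val
  have h3 : Y.1 * U = lam • (Rt * Y.1) := by
    calc Y.1 * U = Y.1 * U * (Y.inv * Y.1) := by rw [hinv, mul_one]
      _ = (Y.1 * U * Y.inv) * Y.1 := by simp only [mul_assoc]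
      _ = (lam • Rt) * Y.1 := by rw [h]
      _ = lam • (Rt * Y.1) := smul_mul_assoc _ _ _
  have hll : lam * star lam = 1 := by
    have : lam * star lam = ((‖lam‖ ^ 2 : ℝ) : ℂ) := by
      rw [Complex.star_def, Complex.mul_conj, Complex.normSq_eq_norm_sq]
    rw [this, hlam]
    norm_num
  have h4 : Y.1 * star Y.1 = Rt * (Y.1 * star Y.1) * star Rt := by
    calc Y.1 * star Y.1 = Y.1 * (U * star U) * star Y.1 := by rw [h2, mul_one]
      _ = (Y.1 * U) * star (Y.1 * U) := by rw [star_mul]; simp only [mul_assoc]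
      _ = (lam • (Rt * Y.1)) * star (lam • (Rt * Y.1)) := by rw [h3]
      _ = (lam * star lam) • ((Rt * Y.1) * star (Rt * Y.1)) := by
        rw [star_smul, smul_mul_smul_comm]
      _ = Rt * (Y.1 * star Y.1) * star Rt := by
        rw [hll, one_smul, star_mul]
        simp only [mul_assoc]
  calc (Y.1 * star Y.1) * Rt = (Rt * (Y.1 * star Y.1) * star Rt) * Rt := by rw [← h4]
    _ = Rt * (Y.1 * star Y.1) * (star Rt * Rt) := by simp only [mul_assoc]
    _ = Rt * (Y.1 * star Y.1) := by rw [h1, mul_one]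

end Pool.Agent.W268.UB
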