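import Pool.Agent.W268.UB.Stm

set_option autoImplicit false

namespace Pool.Agent.W268.UB

open Complex
open scoped ComplexConjugate InnerProductSpace

theorem t_VPOS : S_BLK → S_VPOS := by
  intro hB Y
  obtain ⟨-, -, -, -, -, hadj, -⟩ := hB
  have hin : ∀ (x : H) (y : K2), inner ℂ (i2 x) y = inner ℂ x (p2 y) := by
    intro x y
    rw [← hadj, ContinuousLinearMap.adjoint_inner_right]
  have hni : ∀ x : H, ‖i2 x‖ = ‖x‖ := by
    intro x
    have h1 : inner ℂ (i2 x) (i2 x) = inner ℂ x x := by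
      rw [hin]
      have : p2 (i2 x) = x := rfl
      rw [this]
    rw [inner_self_eq_norm_sq_to_K, inner_self_eq_norm_sq_to_K] at h1
    have h2 : ‖i2 x‖ ^ 2 = ‖x‖ ^ 2 := by exact_mod_cast h1
    exact (sq_eq_sq₀ (norm_nonneg _) (norm_nonneg _)).1 h2
  have hne : ∀ n, ‖(e n : H)‖ = 1 := by
    intro n
    unfold e
    rw [lp.norm_single (by norm_num)]
    simp
  set a := ‖Y.1‖ with ha
  set b := ‖(Y⁻¹).1‖ with hb
  have ha0 : 0 ≤ a := norm_nonneg _
  have hb0 : 0 ≤ b := norm_nonneg _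
  refine ⟨min (1 / (1 + a ^ 2)) (1 / (1 + b ^ 2)), by positivity, ?_⟩
  intro v hv n
  set w := ContinuousLinearMap.adjoint Y.1 (i2 (e n)) with hw
  have h1 : v n = ((‖w‖ ^ 2 : ℝ) : ℂ) := by
    have h2 : inner ℂ (e n) ((p2 ∘L (Y.1 * ContinuousLinearMap.adjoint Y.1) ∘L i2) (e n)) =
        inner ℂ w w := by
      change inner ℂ (e n) (p2 (Y.1 (ContinuousLinearMap.adjoint Y.1 (i2 (e n))))) = _
      rw [← hin, ← ContinuousLinearMap.adjoint_inner_left]
    rw [hv n, inner_smul_right, inner_self_eq_norm_sq_to_K, hne, inner_self_eq_norm_sq_to_K] at h2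
    rw [Complex.ofReal_pow]
    simpa using h2
  have h3 : ‖w‖ ≤ a := by
    calc ‖w‖ ≤ ‖ContinuousLinearMap.adjoint Y.1‖ * ‖i2 (e n)‖ := ContinuousLinearMap.le_opNorm _ _
      _ = a := by rw [hni, hne, mul_one, LinearIsometryEquiv.norm_map]
  have h4 : 1 ≤ b * ‖w‖ := by
    have e1 : ContinuousLinearMap.adjoint (Y⁻¹).1 w = i2 (e n) := by
      have e2 : ContinuousLinearMap.adjoint (Y⁻¹).1 ∘L ContinuousLinearMap.adjoint Y.1 =
          ContinuousLinearMap.id ℂ K2 := by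
        rw [← ContinuousLinearMap.adjoint_comp]
        have : Y.1 ∘L (Y⁻¹).1 = ContinuousLinearMap.id ℂ K2 := Y.mul_inv
        rw [this]
        exact ContinuousLinearMap.adjoint_id
      have := congrArg (fun T : K2 →L[ℂ] K2 => T (i2 (e n))) e2
      exact this
    have e3 := ContinuousLinearMap.le_opNorm (ContinuousLinearMap.adjoint (Y⁻¹).1) w
    rw [e1, hni, hne, LinearIsometryEquiv.norm_map] at e3
    exact e3
  have h5 : (v n).re = ‖w‖ ^ 2 := by rw [h1, Complex.ofReal_re]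
  have hw0 : 0 ≤ ‖w‖ := norm_nonneg _
  refine ⟨by rw [h1, Complex.ofReal_im], ?_, ?_⟩
  · rw [h5]
    refine (min_le_right _ _).trans ?_
    rw [div_le_iff₀ (by positivity)]
    nlinarith [sq_nonneg (b * ‖w‖ - 1)]
  · rw [h5]
    rw [le_div_iff₀ (by positivity)]
    have h6 : min (1 / (1 + a ^ 2)) (1 / (1 + b ^ 2)) ≤ 1 / (1 + a ^ 2) := min_le_left _ _
    have h7 : ‖w‖ ^ 2 ≤ 1 + a ^ 2 := by nlinarith
    calc ‖w‖ ^ 2 * min (1 / (1 + a ^ 2)) (1 / (1 + b ^ 2)) ≤ (1 + a ^ 2) * (1 / (1 + a ^ 2)) :=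
          mul_le_mul h7 h6 (by positivity) (by positivity)
      _ = 1 := by field_simp

end Pool.Agent.W268.UB
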