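import Pool.Agent.W268.UB.Stm

/-! # Operators which commute with the rotation are diagonal -/

set_option autoImplicit false

namespace Pool.Agent.W268.UB

open MeasureTheory Complex Filter Topology
open scoped ComplexConjugate InnerProductSpace

noncomputable section

namespace TWDIAG

theorem e_apply (n m : ℤ) : (e n) m = if m = n then (1 : ℂ) else 0 := by
  unfold e
  by_cases h : m = n
  · subst h
    rw [if_pos rfl, lp.single_apply_self]
  · rw [if_neg h, lp.single_apply_ne _ _ _ h]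

theorem ev (m : ℤ) (y : H) : innerSL ℂ (e m) y = y m := by
  rw [innerSL_apply_apply]
  unfold e
  rw [lp.inner_single_left]
  simp

/-- continuous linear maps are determined on the orthonormal basis -/
theorem ext_e {F : Type*} [NormedAddCommGroup F] [NormedSpace ℂ F] {f g : H →L[ℂ] F}
    (h : ∀ n, f (e n) = g (e n)) : f = g := by
  ext y
  have h1 : HasSum (fun i : ℤ => lp.single 2 i (y i)) y :=
    lp.hasSum_single (by simp) y
  have h2 : ∀ i : ℤ, (lp.single 2 i (y i) : H) = (y i) • e i := by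
    intro i
    unfold e
    rw [← lp.single_smul]
    simp
  have h3 := h1.mapL f
  have h4 := h1.mapL g
  have h5 : (fun i : ℤ => f (lp.single 2 i (y i))) = fun i : ℤ => g (lp.single 2 i (y i)) := by
    funext i
    rw [h2, map_smul, map_smul, h]
  rw [h5] at h3
  exact h3.unique h4

variable {c : ℂ} {Rt : K2 →L[ℂ] K2}

theorem r11 (h : IsRot c Rt) (y : H) (m : ℤ) : (p1 (Rt (i1 y))) m = c ^ m * y m := by
  have key : (innerSL ℂ (e m)) ∘L p1 ∘L Rt ∘L i1 = (c ^ m) • (innerSL ℂ (e m)) := by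
    refine ext_e fun n => ?_
    show innerSL ℂ (e m) (p1 (Rt (i1 (e n)))) = c ^ m * (innerSL ℂ (e m)) (e n)
    rw [(h n).1, map_smul, map_smul, ev, ev]
    have e1 : p1 (i1 (e n)) = e n := rfl
    rw [e1, e_apply, smul_eq_mul]
    split_ifs with hmn
    · rw [hmn]
    · rw [mul_zero, mul_zero]
  have h1 := congrArg (fun f : H →L[ℂ] ℂ => f y) key
  have h2 : innerSL ℂ (e m) (p1 (Rt (i1 y))) = c ^ m * (innerSL ℂ (e m)) y := h1
  rwa [ev, ev] at h2

theorem r22 (h : IsRot c Rt) (y : H) (m : ℤ) : (p2 (Rt (i2 y))) m = c ^ m * y m := by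
  have key : (innerSL ℂ (e m)) ∘L p2 ∘L Rt ∘L i2 = (c ^ m) • (innerSL ℂ (e m)) := by
    refine ext_e fun n => ?_
    show innerSL ℂ (e m) (p2 (Rt (i2 (e n)))) = c ^ m * (innerSL ℂ (e m)) (e n)
    rw [(h n).2, map_smul, map_smul, ev, ev]
    have e1 : p2 (i2 (e n)) = e n := rfl
    rw [e1, e_apply, smul_eq_mul]
    split_ifs with hmn
    · rw [hmn]
    · rw [mul_zero, mul_zero]
  have h1 := congrArg (fun f : H →L[ℂ] ℂ => f y) key
  have h2 : innerSL ℂ (e m) (p2 (Rt (i2 y))) = c ^ m * (innerSL ℂ (e m)) y := h1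
  rwa [ev, ev] at h2

theorem r21 (h : IsRot c Rt) (y : H) : p2 (Rt (i1 y)) = 0 := by
  have key : p2 ∘L Rt ∘L i1 = 0 := by
    refine ext_e fun n => ?_
    show p2 (Rt (i1 (e n))) = 0
    rw [(h n).1, map_smul]
    have e1 : p2 (i1 (e n)) = 0 := rfl
    rw [e1, smul_zero]
  exact congrArg (fun f : H →L[ℂ] H => f y) key

theorem r12 (h : IsRot c Rt) (y : H) : p1 (Rt (i2 y)) = 0 := by
  have key : p1 ∘L Rt ∘L i2 = 0 := by
    refine ext_e fun n => ?_
    show p1 (Rt (i2 (e n))) = 0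
    rw [(h n).2, map_smul]
    have e1 : p1 (i2 (e n)) = 0 := rfl
    rw [e1, smul_zero]
  exact congrArg (fun f : H →L[ℂ] H => f y) key

theorem dec (x : K2) : i1 (p1 x) + i2 (p2 x) = x :=
  congrArg (fun f : K2 →L[ℂ] K2 => f x) sum_ip

theorem q1 (h : IsRot c Rt) (x : K2) (m : ℤ) : (p1 (Rt x)) m = c ^ m * (p1 x) m := by
  conv_lhs => rw [← dec x]
  rw [map_add, map_add, r12 h, add_zero, r11 h]

theorem q2 (h : IsRot c Rt) (x : K2) (m : ℤ) : (p2 (Rt x)) m = c ^ m * (p2 x) m := by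
  conv_lhs => rw [← dec x]
  rw [map_add, map_add, r21 h, zero_add, r22 h]

theorem cne (hc : Irr c) {n m : ℤ} (h : m ≠ n) : c ^ m ≠ c ^ n := by
  have h0 : c ≠ 0 := by
    intro h0
    have h1 := hc.1
    rw [h0, norm_zero] at h1
    exact zero_ne_one h1
  intro h1
  refine hc.2 (m - n) (sub_ne_zero.2 h) ?_
  rw [zpow_sub₀ h0, h1, div_self (zpow_ne_zero n h0)]

theorem dia (hc : Irr c) {n : ℤ} {y : H} (h : ∀ m, c ^ m * y m = c ^ n * y m) :
    y = y n • e n := by
  ext m
  rw [lp.coeFn_smul, Pi.smul_apply, e_apply, smul_eq_mul]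
  split_ifs with hm
  · rw [hm, mul_one]
  · rw [mul_zero]
    have h1 : (c ^ m - c ^ n) * y m = 0 := by rw [sub_mul, h m, sub_self]
    rcases mul_eq_zero.1 h1 with h2 | h2
    · exact absurd (sub_eq_zero.1 h2) (cne hc hm)
    · exact h2

end TWDIAG

open TWDIAG in
/-- operators which commute with the rotation are diagonal -/
theorem t_WDIAG : S_WDIAG := by
  intro c Rt hc hR V hV
  have key : ∀ n : ℤ, Rt (V (i2 (e n))) = c ^ n • V (i2 (e n)) := by
    intro n
    have h1 : (V * Rt) (i2 (e n)) = (Rt * V) (i2 (e n)) := by rw [hV]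
    have h2 : V (Rt (i2 (e n))) = Rt (V (i2 (e n))) := h1
    rw [← h2, (hR n).2, map_smul]
  constructor
  · refine ⟨fun n => (p1 (V (i2 (e n)))) n, fun n => ?_⟩
    show p1 (V (i2 (e n))) = (p1 (V (i2 (e n)))) n • e n
    refine dia hc fun m => ?_
    rw [← q1 hR, key n, map_smul, lp.coeFn_smul, Pi.smul_apply, smul_eq_mul]
  · refine ⟨fun n => (p2 (V (i2 (e n)))) n, fun n => ?_⟩
    show p2 (V (i2 (e n))) = (p2 (V (i2 (e n)))) n • e n
    refine dia hc fun m => ?_
    rw [← q2 hR, key n, map_smul, lp.coeFn_smul, Pi.smul_apply, smul_eq_mul]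

end

end Pool.Agent.W268.UB
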