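import Pool.Agent.W268.UB.Stm

/-!
Part WEX: the unitary operators of the representation.
-/

namespace Pool.Agent.W268.UB

open MeasureTheory Complex Filter Topology
open scoped ComplexConjugate InnerProductSpace

noncomputable section

namespace TWEX

theorem Wf_add (c : Circle) (a : Dsc) (f g : C(Circle, ℂ)) :
    Wf c a (f + g) = Wf c a f + Wf c a g := by
  ext z
  show ((pk a z ^ (3 / 4 : ℝ) : ℝ) : ℂ) * (f + g) (bm c a z)
    = ((pk a z ^ (3 / 4 : ℝ) : ℝ) : ℂ) * f (bm c a z)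
      + ((pk a z ^ (3 / 4 : ℝ) : ℝ) : ℂ) * g (bm c a z)
  rw [ContinuousMap.add_apply]
  ring

theorem Wf_smul (c : Circle) (a : Dsc) (t : ℂ) (f : C(Circle, ℂ)) :
    Wf c a (t • f) = t • Wf c a f := by
  ext z
  show ((pk a z ^ (3 / 4 : ℝ) : ℝ) : ℂ) * (t • f) (bm c a z)
    = t • (((pk a z ^ (3 / 4 : ℝ) : ℝ) : ℂ) * f (bm c a z))
  rw [ContinuousMap.smul_apply, smul_eq_mul, smul_eq_mul]
  ring

theorem Wf_one (h : ∀ z, bm 1 ⟨0, by simp⟩ z = z) (f : C(Circle, ℂ)) :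
    Wf 1 ⟨0, by simp⟩ f = f := by
  ext z
  show ((pk ⟨0, by simp⟩ z ^ (3 / 4 : ℝ) : ℝ) : ℂ) * f (bm 1 ⟨0, by simp⟩ z) = f z
  rw [h z]
  have : pk ⟨0, by simp⟩ z = 1 := by
    unfold pk
    simp
  rw [this, Real.one_rpow]
  simp

theorem ext_dense {J : C(Circle, ℂ) →L[ℂ] H} (hD : DenseRange J) {A B : H →L[ℂ] H}
    (h : ∀ f, A (J f) = B (J f)) : A = B := by
  refine ContinuousLinearMap.ext fun x => ?_
  exact hD.induction_on x (isClosed_eq A.continuous B.continuous) h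

theorem norm_Wf (hINV : S_INV) {om : ℤ → ℝ} {J : C(Circle, ℂ) →L[ℂ] H} (hom : IsOm om)
    (hJ : IsJ om J) (c : Circle) (a : Dsc) (f : C(Circle, ℂ)) : ‖J (Wf c a f)‖ = ‖J f‖ := by
  have h := hINV om J hom hJ c a f f
  rw [inner_self_eq_norm_sq_to_K, inner_self_eq_norm_sq_to_K] at h
  have h2 : ‖J (Wf c a f)‖ ^ 2 = ‖J f‖ ^ 2 := by exact_mod_cast h
  exact (pow_left_inj₀ (norm_nonneg _) (norm_nonneg _) two_ne_zero).1 h2

theorem exW (hINV : S_INV) (hEXT : S_EXT) (hJD : S_JD) {om : ℤ → ℝ}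
    {J : C(Circle, ℂ) →L[ℂ] H} (hom : IsOm om) (hJ : IsJ om J) (c : Circle) (a : Dsc) :
    ∃ W : H →L[ℂ] H, ∀ f, W (J f) = J (Wf c a f) := by
  refine hEXT J (hJD om J hom hJ).1 (Wf c a) 1 (fun f g => ?_) (fun t f => ?_) fun f => ?_
  · rw [Wf_add, map_add]
  · rw [Wf_smul, map_smul]
  · rw [one_mul, norm_Wf hINV hom hJ]

end TWEX

open TWEX in
theorem t_WEX : S_INV → S_EXT → S_JD → S_PARC → S_GRP → S_WEX := by
  intro hINV hEXT hJD hPARC hGRP om J hom hJ c a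
  have hD := (hJD om J hom hJ).1
  obtain ⟨W, hW⟩ := exW hINV hEXT hJD hom hJ c a
  obtain ⟨W', hW'⟩ := exW hINV hEXT hJD hom hJ c⁻¹ (ainv c a)
  have hnorm : ∀ x, ‖W x‖ = ‖x‖ := by
    intro x
    refine hD.induction_on x (isClosed_eq W.continuous.norm continuous_norm) fun f => ?_
    rw [hW, norm_Wf hINV hom hJ]
  have hWW' : W * W' = 1 := by
    refine ext_dense hD fun f => ?_
    show W (W' (J f)) = J f
    rw [hW', hW]
    have h1 : ∀ z, bm 1 ⟨0, by simp⟩ z = bm c⁻¹ (ainv c a) (bm c a z) := fun z => by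
      rw [hPARC.2.2 z, (hPARC.2.1 c a).2 z]
    have h2 := (hGRP c⁻¹ c 1 (ainv c a) a ⟨0, by simp⟩ h1).2.1 f
    rw [← h2, Wf_one hPARC.2.2]
  have hadj : ContinuousLinearMap.adjoint W * W = 1 :=
    (ContinuousLinearMap.norm_map_iff_adjoint_comp_self W).1 hnorm
  have hstar : star W = W' := by
    calc star W = star W * (W * W') := by rw [hWW', mul_one]
      _ = (star W * W) * W' := by rw [mul_assoc]
      _ = W' := by
        rw [ContinuousLinearMap.star_eq_adjoint, hadj, one_mul]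
  refine ⟨W, ?_, hW⟩
  rw [Unitary.mem_iff]
  refine ⟨?_, ?_⟩
  · rw [ContinuousLinearMap.star_eq_adjoint]
    exact hadj
  · rw [hstar]
    exact hWW'

end

end Pool.Agent.W268.UB
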