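import Pool.Agent.W268.UB.Stm

set_option autoImplicit false

namespace Pool.Agent.W268.UB

namespace TWZ

noncomputable section

theorem p2_blk (A E0 : H →L[ℂ] H) : p2 ∘L blk A E0 0 A = A ∘L p2 := by
  ext x n
  have h1 : ∀ y, p2 (i1 y) = 0 := fun y => DFunLike.congr_fun p2_i1 y
  have h2 : ∀ y, p2 (i2 y) = y := fun y => DFunLike.congr_fun p2_i2 y
  simp [blk, h1, h2]

theorem p1_blk (A E0 : H →L[ℂ] H) : p1 ∘L blk A E0 0 A = A ∘L p1 + E0 ∘L p2 := by
  ext x n
  have h1 : ∀ y, p1 (i1 y) = y := fun y => DFunLike.congr_fun p1_i1 y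
  have h2 : ∀ y, p1 (i2 y) = 0 := fun y => DFunLike.congr_fun p1_i2 y
  simp [blk, h1, h2]

theorem adj_i2 (hadj : ContinuousLinearMap.adjoint i2 = p2) (A E0 : H →L[ℂ] H) :
    ContinuousLinearMap.adjoint (blk A E0 0 A) ∘L i2 = i2 ∘L ContinuousLinearMap.adjoint A := by
  have h := congrArg ContinuousLinearMap.adjoint (p2_blk A E0)
  rw [ContinuousLinearMap.adjoint_comp, ContinuousLinearMap.adjoint_comp, ← hadj,
    ContinuousLinearMap.adjoint_adjoint] at h
  exact h

end

end TWZ

open TWZ in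
theorem t_WZ : S_BLK → S_WZ := by
  intro hB Z V A E0 V' hA hZ hV hW1 hW2
  have hadj : ContinuousLinearMap.adjoint i2 = p2 := hB.2.2.2.2.2.1
  subst hZ
  have ha := adj_i2 hadj A E0
  set W22 : H →L[ℂ] H := p2 ∘L V ∘L i2 with hW22
  set W12 : H →L[ℂ] H := p1 ∘L V ∘L i2 with hW12
  have e22 : A * W22 * ContinuousLinearMap.adjoint A = W22 := by
    have h := congrArg (fun T : K2 →L[ℂ] K2 => p2 ∘L T ∘L i2) hV
    rw [← hW22] at h
    conv_rhs => rw [← h]
    ext x n
    have hx := DFunLike.congr_fun ha x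
    have hp : ∀ y, p2 ((blk A E0 0 A) y) = A (p2 y) := fun y =>
      DFunLike.congr_fun (p2_blk A E0) y
    simp only [ContinuousLinearMap.comp_apply, ContinuousLinearMap.mul_apply, hW22] at hx ⊢
    rw [hx, hp]
  have e12 : (A * W12 + E0 * W22) * ContinuousLinearMap.adjoint A = W12 := by
    have h := congrArg (fun T : K2 →L[ℂ] K2 => p1 ∘L T ∘L i2) hV
    rw [← hW12] at h
    conv_rhs => rw [← h]
    ext x n
    have hx := DFunLike.congr_fun ha x
    have hp : ∀ y, p1 ((blk A E0 0 A) y) = A (p1 y) + E0 (p2 y) := fun y => by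
      have := DFunLike.congr_fun (p1_blk A E0) y
      simpa using this
    simp only [ContinuousLinearMap.comp_apply, ContinuousLinearMap.mul_apply,
      ContinuousLinearMap.add_apply, hW22, hW12] at hx ⊢
    rw [hx, hp]
  refine ⟨e22, ?_⟩
  have hW : IsUnit W22 := ⟨⟨W22, V', hW1, hW2⟩, rfl⟩
  have hAW : IsUnit (A * W22) := hA.mul hW
  have r1 : (A * W22) * (ContinuousLinearMap.adjoint A * V') = 1 := by
    rw [← mul_assoc, e22, hW1]
  have r2 : (ContinuousLinearMap.adjoint A * V') * (A * W22) = 1 := by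
    obtain ⟨u, hu⟩ := hAW
    rw [← hu] at r1 ⊢
    have h3 : ContinuousLinearMap.adjoint A * V' = (↑u⁻¹ : H →L[ℂ] H) := by
      calc ContinuousLinearMap.adjoint A * V' = ↑u⁻¹ * (↑u * (ContinuousLinearMap.adjoint A * V')) := by
            rw [← mul_assoc, Units.inv_mul, one_mul]
        _ = ↑u⁻¹ := by rw [r1, mul_one]
    rw [h3, Units.inv_mul]
  have e3 : A * W12 + E0 * W22 = W12 * V' * (A * W22) := by
    calc A * W12 + E0 * W22 = (A * W12 + E0 * W22) * ((ContinuousLinearMap.adjoint A * V') * (A * W22)) := by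
          rw [r2, mul_one]
      _ = ((A * W12 + E0 * W22) * ContinuousLinearMap.adjoint A) * V' * (A * W22) := by
          simp only [mul_assoc]
      _ = _ := by rw [e12]
  have e4 : E0 * W22 = W12 * V' * (A * W22) - A * W12 := by
    rw [← e3]; abel
  calc E0 = E0 * W22 * V' := by rw [mul_assoc, hW1, mul_one]
    _ = (W12 * V' * (A * W22) - A * W12) * V' := by rw [e4]
    _ = W12 * V' * A * (W22 * V') - A * (W12 * V') := by
        rw [sub_mul]; simp only [mul_assoc]
    _ = W12 * V' * A - A * (W12 * V') := by rw [hW1, mul_one]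

end Pool.Agent.W268.UB
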